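import Mathlib

/-!
# Project NI (MP_0f6f3f_an): Hilbert space ultrapowers

`UP H` is the Hilbert space ultrapower of `H` with respect to the hyperfilter of `ℕ`.
-/

set_option autoImplicit false

open Filter Topology

namespace Pool.Agent.Helper84.NI

section Lim

/-- A bounded sequence of complex numbers converges along the hyperfilter. -/
theorem exists_ulim {f : ℕ → ℂ} {C : ℝ} (hf : ∀ n, ‖f n‖ ≤ C) :
    ∃ z, Tendsto f (hyperfilter ℕ : Filter ℕ) (𝓝 z) := by
  have hK : IsCompact (Metric.closedBall (0 : ℂ) C) := isCompact_closedBall 0 C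
  have h1 : ((hyperfilter ℕ).map f : Filter ℂ) ≤ 𝓟 (Metric.closedBall (0 : ℂ) C) := by
    rw [Filter.le_principal_iff]
    exact Filter.mem_map.2 (Filter.univ_mem' fun n => by
      simpa [Metric.mem_closedBall, dist_zero_right] using hf n)
  obtain ⟨z, _, hz⟩ := hK.ultrafilter_le_nhds ((hyperfilter ℕ).map f) h1
  exact ⟨z, hz⟩

/-- The limit along the hyperfilter (junk value if it does not exist). -/
noncomputable def ulim (f : ℕ → ℂ) : ℂ :=
  limUnder (hyperfilter ℕ : Filter ℕ) f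

theorem tendsto_ulim {f : ℕ → ℂ} {C : ℝ} (hf : ∀ n, ‖f n‖ ≤ C) :
    Tendsto f (hyperfilter ℕ : Filter ℕ) (𝓝 (ulim f)) :=
  tendsto_nhds_limUnder (exists_ulim hf)

theorem ulim_eq {f : ℕ → ℂ} {z : ℂ} (h : Tendsto f (hyperfilter ℕ : Filter ℕ) (𝓝 z)) :
    ulim f = z := h.limUnder_eq

end Lim

section Defs

variable (H : Type) [NormedAddCommGroup H] [InnerProductSpace ℂ H]

/-- Bounded sequences. -/
def BSeq : Submodule ℂ (ℕ → H) where
  carrier := {x | ∃ C, ∀ n, ‖x n‖ ≤ C}
  add_mem' := by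
    rintro x y ⟨C, hC⟩ ⟨D, hD⟩
    exact ⟨C + D, fun n => (norm_add_le _ _).trans (add_le_add (hC n) (hD n))⟩
  zero_mem' := ⟨0, fun n => by simp⟩
  smul_mem' := by
    rintro c x ⟨C, hC⟩
    refine ⟨‖c‖ * C, fun n => ?_⟩
    rw [Pi.smul_apply, norm_smul]
    exact mul_le_mul_of_nonneg_left (hC n) (norm_nonneg _)

variable {H}

theorem inner_bdd (x y : BSeq H) : ∃ C, ∀ n, ‖inner ℂ (x.1 n) (y.1 n)‖ ≤ C := by
  obtain ⟨C, hC⟩ := x.2
  obtain ⟨D, hD⟩ := y.2
  refine ⟨C * D, fun n => (norm_inner_le_norm _ _).trans ?_⟩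
  exact mul_le_mul (hC n) (hD n) (norm_nonneg _) ((norm_nonneg _).trans (hC n))

/-- The inner product of two bounded sequences. -/
noncomputable def uinner (x y : BSeq H) : ℂ := ulim fun n => inner ℂ (x.1 n) (y.1 n)

theorem tendsto_uinner (x y : BSeq H) :
    Tendsto (fun n => inner ℂ (x.1 n) (y.1 n)) (hyperfilter ℕ : Filter ℕ) (𝓝 (uinner x y)) :=
  tendsto_ulim (inner_bdd x y).choose_spec

/-- The pre-inner product on bounded sequences. -/
@[instance_reducible]
noncomputable def ucore : PreInnerProductSpace.Core ℂ (BSeq H) where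
  inner := uinner
  conj_inner_symm x y := by
    have h1 := (tendsto_uinner y x)
    have h2 := (Complex.continuous_conj.tendsto _).comp h1
    refine tendsto_nhds_unique h2 ?_
    refine (tendsto_uinner x y).congr fun n => ?_
    simp
  re_inner_nonneg x := by
    have h1 := (Complex.continuous_re.tendsto _).comp (tendsto_uinner x x)
    refine ge_of_tendsto' h1 fun n => ?_
    exact inner_self_nonneg (𝕜 := ℂ)
  add_left x y z := by
    refine ulim_eq ?_
    refine ((tendsto_uinner x z).add (tendsto_uinner y z)).congr fun n => ?_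
    exact (inner_add_left _ _ _).symm
  smul_left x y c := by
    refine ulim_eq ?_
    refine ((tendsto_uinner x y).const_mul _).congr fun n => ?_
    exact (inner_smul_left _ _ _).symm

variable (H) in
/-- The space of bounded sequences with the limit seminorm. -/
def SeqT : Type := BSeq H

noncomputable instance : AddCommGroup (SeqT H) := inferInstanceAs (AddCommGroup (BSeq H))

noncomputable instance : Module ℂ (SeqT H) := inferInstanceAs (Module ℂ (BSeq H))

/-- The pre-inner product on bounded sequences. -/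
@[instance_reducible]
noncomputable def ucoreT : PreInnerProductSpace.Core ℂ (SeqT H) := ucore (H := H)

noncomputable instance : SeminormedAddCommGroup (SeqT H) :=
  @InnerProductSpace.Core.toSeminormedAddCommGroup ℂ (SeqT H) _ _ _ ucoreT

noncomputable instance : InnerProductSpace ℂ (SeqT H) := InnerProductSpace.ofCore ucoreT

variable (H) in
/-- The Hilbert space ultrapower of `H`. -/
def UP : Type := UniformSpace.Completion (SeqT H)

noncomputable instance : NormedAddCommGroup (UP H) :=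
  inferInstanceAs (NormedAddCommGroup (UniformSpace.Completion (SeqT H)))

noncomputable instance : InnerProductSpace ℂ (UP H) :=
  inferInstanceAs (InnerProductSpace ℂ (UniformSpace.Completion (SeqT H)))

instance : CompleteSpace (UP H) :=
  inferInstanceAs (CompleteSpace (UniformSpace.Completion (SeqT H)))

/-- The class of a bounded sequence. -/
noncomputable def UP.mk (x : BSeq H) : UP H :=
  ((show SeqT H from x : SeqT H) : UniformSpace.Completion (SeqT H))

theorem UP.mk_add (x y : BSeq H) : UP.mk (x + y) = UP.mk x + UP.mk y :=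
  UniformSpace.Completion.coe_add (α := SeqT H) x y

theorem UP.mk_smul (c : ℂ) (x : BSeq H) : UP.mk (c • x) = c • UP.mk x :=
  UniformSpace.Completion.coe_smul (X := SeqT H) c x

theorem UP.inner_mk (x y : BSeq H) : inner ℂ (UP.mk x) (UP.mk y) = uinner x y :=
  UniformSpace.Completion.inner_coe (E := SeqT H) x y

theorem UP.tendsto_inner (x y : BSeq H) :
    Tendsto (fun n => inner ℂ (x.1 n) (y.1 n)) (hyperfilter ℕ : Filter ℕ)
      (𝓝 (inner ℂ (UP.mk x) (UP.mk y))) := by
  rw [UP.inner_mk]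
  exact tendsto_uinner x y

theorem UP.tendsto_norm (x : BSeq H) :
    Tendsto (fun n => ‖x.1 n‖) (hyperfilter ℕ : Filter ℕ) (𝓝 ‖UP.mk x‖) := by
  have h1 := (Complex.continuous_re.tendsto _).comp (UP.tendsto_inner x x)
  have h2 := (Real.continuous_sqrt.tendsto _).comp h1
  have h3 : Real.sqrt (Complex.re (inner ℂ (UP.mk x) (UP.mk x))) = ‖UP.mk x‖ :=
    (norm_eq_sqrt_re_inner (𝕜 := ℂ) (UP.mk x)).symm
  rw [h3] at h2
  refine h2.congr fun n => ?_
  exact (norm_eq_sqrt_re_inner (𝕜 := ℂ) (x.1 n)).symm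

theorem UP.dense : DenseRange (UP.mk (H := H)) :=
  UniformSpace.Completion.denseRange_coe (α := SeqT H)

theorem UP.norm_mk_le (x : BSeq H) {C : ℝ} (hC : ∀ n, ‖x.1 n‖ ≤ C) : ‖UP.mk x‖ ≤ C :=
  le_of_tendsto' (UP.tendsto_norm x) hC

/-- Induction principle for closed properties. -/
theorem UP.induction {p : UP H → Prop} (ξ : UP H) (hc : IsClosed {ξ | p ξ}) (h : ∀ x, p (UP.mk x)) :
    p ξ :=
  UniformSpace.Completion.induction_on (α := SeqT H) ξ hc h

end Defs

section Map

variable {H K L : Type} [NormedAddCommGroup H] [InnerProductSpace ℂ H]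
  [NormedAddCommGroup K] [InnerProductSpace ℂ K] [NormedAddCommGroup L] [InnerProductSpace ℂ L]

/-- A bounded operator applied to a bounded sequence. -/
noncomputable def BSeq.map (T : H →L[ℂ] K) (x : BSeq H) : BSeq K :=
  ⟨fun n => T (x.1 n), by
    obtain ⟨C, hC⟩ := x.2
    exact ⟨‖T‖ * C, fun n => (T.le_opNorm _).trans (mul_le_mul_of_nonneg_left (hC n) (norm_nonneg _))⟩⟩

theorem UP.norm_map_aux (T : H →L[ℂ] K) (x : BSeq H) :
    ‖UP.mk (BSeq.map T x)‖ ≤ ‖T‖ * ‖UP.mk x‖ :=
  le_of_tendsto_of_tendsto' (UP.tendsto_norm _) ((UP.tendsto_norm x).const_mul _)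
    fun _ => T.le_opNorm _

/-- The linear map on sequences. -/
noncomputable def SeqT.map (T : H →L[ℂ] K) : SeqT H →L[ℂ] SeqT K :=
  LinearMap.mkContinuous
    { toFun := fun x => (BSeq.map T x : BSeq K)
      map_add' := fun x y => Subtype.ext (funext fun n => map_add T _ _)
      map_smul' := fun c x => Subtype.ext (funext fun n => map_smul T _ _) } ‖T‖ (by
    intro x
    have h := UP.norm_map_aux T x
    have e1 : ‖UP.mk (BSeq.map T x)‖ = ‖(show SeqT K from BSeq.map T x)‖ :=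
      UniformSpace.Completion.norm_coe (E := SeqT K) _
    have e2 : ‖UP.mk x‖ = ‖x‖ := UniformSpace.Completion.norm_coe (E := SeqT H) _
    rw [e1, e2] at h
    exact h)

/-- The ultrapower of a bounded operator. -/
noncomputable def UP.map (T : H →L[ℂ] K) : UP H →L[ℂ] UP K :=
  ContinuousLinearMap.completion (SeqT.map T)

@[simp] theorem UP.map_mk (T : H →L[ℂ] K) (x : BSeq H) : UP.map T (UP.mk x) = UP.mk (BSeq.map T x) :=
  UniformSpace.Completion.map_coe (SeqT.map T).uniformContinuous x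

/-- Two continuous maps agreeing on classes of sequences agree. -/
theorem UP.ext_fun {Y : Type} [TopologicalSpace Y] [T2Space Y] {f g : UP H → Y} (hf : Continuous f)
    (hg : Continuous g) (h : ∀ x, f (UP.mk x) = g (UP.mk x)) (ξ : UP H) : f ξ = g ξ :=
  UP.induction ξ (isClosed_eq hf hg) h

theorem UP.map_comp (S : K →L[ℂ] L) (T : H →L[ℂ] K) (ξ : UP H) :
    UP.map (S.comp T) ξ = UP.map S (UP.map T ξ) := by
  refine UP.ext_fun (UP.map (S.comp T)).continuous
    ((UP.map S).continuous.comp (UP.map T).continuous) (fun x => ?_) ξ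
  simp only [Function.comp_apply, UP.map_mk]
  rfl

theorem UP.map_id (ξ : UP H) : UP.map (ContinuousLinearMap.id ℂ H) ξ = ξ := by
  refine UP.ext_fun (UP.map (ContinuousLinearMap.id ℂ H)).continuous continuous_id (fun x => ?_) ξ
  simp only [UP.map_mk, id_eq]
  rfl

theorem UP.map_add (S T : H →L[ℂ] K) (ξ : UP H) : UP.map (S + T) ξ = UP.map S ξ + UP.map T ξ := by
  refine UP.ext_fun (UP.map (S + T)).continuous
    ((UP.map S).continuous.add (UP.map T).continuous) (fun x => ?_) ξ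
  simp only [UP.map_mk, Pi.add_apply]
  rw [← UP.mk_add]
  rfl

theorem UP.map_smul (c : ℂ) (T : H →L[ℂ] K) (ξ : UP H) : UP.map (c • T) ξ = c • UP.map T ξ := by
  refine UP.ext_fun (UP.map (c • T)).continuous ((UP.map T).continuous.const_smul c) (fun x => ?_) ξ
  simp only [UP.map_mk, Pi.smul_apply]
  rw [← UP.mk_smul]
  rfl

theorem UP.map_sub (S T : H →L[ℂ] K) (ξ : UP H) : UP.map (S - T) ξ = UP.map S ξ - UP.map T ξ := by
  have h : S - T = S + (-1 : ℂ) • T := by
    rw [neg_one_smul, sub_eq_add_neg]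
  rw [h, UP.map_add, UP.map_smul, neg_one_smul, sub_eq_add_neg]

theorem UP.map_zero (ξ : UP H) : UP.map (0 : H →L[ℂ] K) ξ = 0 := by
  have h := UP.map_smul 0 (0 : H →L[ℂ] K) ξ
  rwa [zero_smul, zero_smul] at h

theorem UP.map_sum {ι : Type} (s : Finset ι) (T : ι → H →L[ℂ] K) (ξ : UP H) :
    UP.map (∑ i ∈ s, T i) ξ = ∑ i ∈ s, UP.map (T i) ξ := by
  classical
  induction s using Finset.induction_on with
  | empty => rw [Finset.sum_empty, Finset.sum_empty, UP.map_zero]
  | insert a s ha ih => rw [Finset.sum_insert ha, Finset.sum_insert ha, UP.map_add, ih]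

theorem UP.norm_map_le (T : H →L[ℂ] K) (ξ : UP H) : ‖UP.map T ξ‖ ≤ ‖T‖ * ‖ξ‖ := by
  refine UP.induction ξ (isClosed_le (UP.map T).continuous.norm
    (continuous_const.mul continuous_norm)) (fun x => ?_)
  rw [UP.map_mk]
  exact UP.norm_map_aux T x

/-- Norm inequalities pass to the ultrapower. -/
theorem UP.norm_map_le_of {T : H →L[ℂ] K} {C : ℝ} (hC : 0 ≤ C) (hT : ∀ x, ‖T x‖ ≤ C * ‖x‖) (ξ : UP H) :
    ‖UP.map T ξ‖ ≤ C * ‖ξ‖ :=
  (UP.norm_map_le T ξ).trans (mul_le_mul_of_nonneg_right (T.opNorm_le_bound hC hT) (norm_nonneg _))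

/-- Inequalities between sums of squares of norms pass to the ultrapower. -/
theorem UP.sum_sq_le {ι : Type} (s : Finset ι) (T : ι → H →L[ℂ] K) {C : ℝ}
    (hT : ∀ x, ∑ i ∈ s, ‖T i x‖ ^ 2 ≤ C * ‖x‖ ^ 2) (ξ : UP H) :
    ∑ i ∈ s, ‖UP.map (T i) ξ‖ ^ 2 ≤ C * ‖ξ‖ ^ 2 := by
  refine UP.induction (p := fun ξ => ∑ i ∈ s, ‖UP.map (T i) ξ‖ ^ 2 ≤ C * ‖ξ‖ ^ 2) ξ
    (isClosed_le (by fun_prop) (by fun_prop)) (fun x => ?_)
  simp only [UP.map_mk]
  refine le_of_tendsto_of_tendsto' (tendsto_finsetSum _ fun i _ =>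
    (UP.tendsto_norm (BSeq.map (T i) x)).pow 2) (((UP.tendsto_norm x).pow 2).const_mul C)
    fun n => hT (x.1 n)

/-- Identities between sums of squares of norms pass to the ultrapower. -/
theorem UP.sum_sq_eq {ι : Type} (s : Finset ι) (T : ι → H →L[ℂ] K)
    (hT : ∀ x, ∑ i ∈ s, ‖T i x‖ ^ 2 = ‖x‖ ^ 2) (ξ : UP H) :
    ∑ i ∈ s, ‖UP.map (T i) ξ‖ ^ 2 = ‖ξ‖ ^ 2 := by
  refine UP.ext_fun (f := fun ξ => ∑ i ∈ s, ‖UP.map (T i) ξ‖ ^ 2) (g := fun ξ => ‖ξ‖ ^ 2)
    (by fun_prop) (by fun_prop) (fun x => ?_) ξ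
  simp only [UP.map_mk]
  refine tendsto_nhds_unique (tendsto_finsetSum _ fun i _ =>
    (UP.tendsto_norm (BSeq.map (T i) x)).pow 2) (((UP.tendsto_norm x).pow 2).congr fun n => ?_)
  exact (hT (x.1 n)).symm

theorem UP.inner_map [CompleteSpace H] [CompleteSpace K] (T : H →L[ℂ] K) (ξ : UP H) (η : UP K) :
    inner ℂ (UP.map T ξ) η = inner ℂ ξ (UP.map (ContinuousLinearMap.adjoint T) η) := by
  refine UP.ext_fun (f := fun ξ => inner ℂ (UP.map T ξ) η)
    (g := fun ξ => inner ℂ ξ (UP.map (ContinuousLinearMap.adjoint T) η)) (by fun_prop) (by fun_prop)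
    (fun x => ?_) ξ
  refine UP.ext_fun (f := fun η => inner ℂ (UP.map T (UP.mk x)) η)
    (g := fun η => inner ℂ (UP.mk x) (UP.map (ContinuousLinearMap.adjoint T) η)) (by fun_prop)
    (by fun_prop) (fun y => ?_) η
  simp only [UP.map_mk]
  refine tendsto_nhds_unique (UP.tendsto_inner _ _) ((UP.tendsto_inner _ _).congr fun n => ?_)
  exact (ContinuousLinearMap.adjoint_inner_right T (x.1 n) (y.1 n))

/-- The ultrapower of a unitary. -/
noncomputable def UP.mapU (T : H ≃ₗᵢ[ℂ] K) : UP H ≃ₗᵢ[ℂ] UP K where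
  toFun := UP.map (T.toContinuousLinearEquiv : H →L[ℂ] K)
  invFun := UP.map (T.symm.toContinuousLinearEquiv : K →L[ℂ] H)
  map_add' := _root_.map_add _
  map_smul' := _root_.map_smul _
  left_inv ξ := by
    rw [← UP.map_comp]
    convert! UP.map_id ξ using 2
    ext x
    simp
  right_inv ξ := by
    rw [← UP.map_comp]
    convert! UP.map_id ξ using 2
    ext x
    simp
  norm_map' ξ := by
    change ‖UP.map (T.toContinuousLinearEquiv : H →L[ℂ] K) ξ‖ = ‖ξ‖
    have h := UP.sum_sq_eq {()} (fun _ => (T.toContinuousLinearEquiv : H →L[ℂ] K)) (by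
      intro x
      simp) ξ
    simp only [Finset.sum_singleton] at h
    exact (sq_eq_sq₀ (norm_nonneg _) (norm_nonneg _)).1 h

theorem UP.mapU_apply (T : H ≃ₗᵢ[ℂ] K) (ξ : UP H) :
    UP.mapU T ξ = UP.map (T.toContinuousLinearEquiv : H →L[ℂ] K) ξ := rfl

/-- The ultrapower of an isometry. -/
noncomputable def UP.mapI (T : H →ₗᵢ[ℂ] K) : UP H →ₗᵢ[ℂ] UP K where
  toLinearMap := (UP.map T.toContinuousLinearMap).toLinearMap
  norm_map' ξ := by
    change ‖UP.map T.toContinuousLinearMap ξ‖ = ‖ξ‖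
    have h := UP.sum_sq_eq {()} (fun _ => T.toContinuousLinearMap) (by
      intro x
      simp) ξ
    simp only [Finset.sum_singleton] at h
    exact (sq_eq_sq₀ (norm_nonneg _) (norm_nonneg _)).1 h

theorem UP.mapI_apply (T : H →ₗᵢ[ℂ] K) (ξ : UP H) :
    UP.mapI T ξ = UP.map T.toContinuousLinearMap ξ := rfl

/-- The ultrapower of a unitary representation. -/
noncomputable def UP.rep {G : Type} [Group G] (A : G →* (H ≃ₗᵢ[ℂ] H)) : G →* (UP H ≃ₗᵢ[ℂ] UP H) where
  toFun g := UP.mapU (A g)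
  map_one' := by
    ext ξ : 1
    rw [UP.mapU_apply, map_one]
    exact UP.map_id ξ
  map_mul' g h := by
    ext ξ : 1
    rw [LinearIsometryEquiv.coe_mul, Function.comp_apply, UP.mapU_apply, UP.mapU_apply, UP.mapU_apply,
      ← UP.map_comp, map_mul]
    rfl

theorem UP.rep_apply {G : Type} [Group G] (A : G →* (H ≃ₗᵢ[ℂ] H)) (g : G) (ξ : UP H) :
    UP.rep A g ξ = UP.map ((A g).toContinuousLinearEquiv : H →L[ℂ] H) ξ := rfl

end Map

end Pool.Agent.Helper84.NI
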