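import Pool.Agent.Helper84.GVN.Group
import Pool.Agent.Helper84.NI.UP

/-!
# Project NI (MP_0f6f3f_an): vector valued `ℓ²` spaces and decomposable operators
-/

set_option autoImplicit false

open Filter Topology
open scoped ENNReal ComplexConjugate

namespace Pool.Agent.Helper84.NI

open GVN

/-- `ℓ²(I; L)` -/
noncomputable abbrev Lv (I L : Type) [NormedAddCommGroup L] : Type := lp (fun _ : I => L) 2

section Vec

variable {I J L L' L'' : Type} [NormedAddCommGroup L] [InnerProductSpace ℂ L]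
  [NormedAddCommGroup L'] [InnerProductSpace ℂ L'] [NormedAddCommGroup L''] [InnerProductSpace ℂ L'']

theorem lv_ext {f g : Lv I L} (h : ∀ i, f i = g i) : f = g := lp.ext (funext h)

theorem lv_summable (f : Lv I L) : Summable fun i => ‖f i‖ ^ 2 := by
  have h := (lp.memℓp f).summable (by norm_num)
  simpa using h

theorem lv_hasSum (f : Lv I L) : HasSum (fun i => ‖f i‖ ^ 2) (‖f‖ ^ 2) := by
  have h := lp.hasSum_norm (p := 2) (by norm_num) f
  simpa using h

theorem lv_norm_sq (f : Lv I L) : ‖f‖ ^ 2 = ∑' i, ‖f i‖ ^ 2 := (lv_hasSum f).tsum_eq.symm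

theorem lv_mem {f : I → L} (h : Summable fun i => ‖f i‖ ^ 2) : Memℓp f 2 := by
  apply memℓp_gen
  simpa using h

theorem lv_inner (f g : Lv I L) : HasSum (fun i => inner ℂ (f i) (g i)) (inner ℂ f g) :=
  lp.hasSum_inner f g

theorem lv_norm_apply_le (f : Lv I L) (i : I) : ‖f i‖ ≤ ‖f‖ :=
  lp.norm_apply_le_norm (by norm_num) f i

/-- Permutation of coordinates. -/
noncomputable def permV (e : I ≃ J) : Lv I L ≃ₗᵢ[ℂ] Lv J L where
  toFun f := ⟨fun j => f (e.symm j), lv_mem ((Equiv.summable_iff (f := fun i => ‖f i‖ ^ 2) e.symm).2 (lv_summable f))⟩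
  invFun f := ⟨fun i => f (e i), lv_mem ((Equiv.summable_iff (f := fun i => ‖f i‖ ^ 2) e).2 (lv_summable f))⟩
  left_inv f := by
    apply lv_ext
    intro i
    simp
  right_inv f := by
    apply lv_ext
    intro i
    simp
  map_add' f g := by
    apply lv_ext
    intro i
    rfl
  map_smul' c f := by
    apply lv_ext
    intro i
    rfl
  norm_map' f := by
    have h : ‖(⟨fun j => f (e.symm j), lv_mem ((Equiv.summable_iff (f := fun i => ‖f i‖ ^ 2) e.symm).2 (lv_summable f))⟩ :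
        Lv J L)‖ ^ 2 = ‖f‖ ^ 2 := by
      rw [lv_norm_sq, lv_norm_sq]
      exact Equiv.tsum_eq e.symm (fun i => ‖f i‖ ^ 2)
    exact (sq_eq_sq₀ (norm_nonneg _) (norm_nonneg _)).1 h

@[simp] theorem permV_apply (e : I ≃ J) (f : Lv I L) (j : J) : permV e f j = f (e.symm j) := rfl

/-- A family of operators of norm at most `C`, acting diagonally. -/
noncomputable def dgC (T : I → (L →L[ℂ] L')) (C : ℝ) (hC : ∀ i x, ‖T i x‖ ≤ C * ‖x‖) :
    Lv I L →L[ℂ] Lv I L' :=
  LinearMap.mkContinuous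
    { toFun := fun f => ⟨fun i => T i (f i), lv_mem (by
        refine Summable.of_nonneg_of_le (fun i => by positivity) (fun i => ?_)
          ((lv_summable f).mul_left (C ^ 2))
        rw [← mul_pow]
        exact pow_le_pow_left₀ (norm_nonneg _) (hC i _) 2)⟩
      map_add' := fun f g => lv_ext fun i => map_add (T i) _ _
      map_smul' := fun c f => lv_ext fun i => map_smul (T i) _ _ } (max C 0) (by
    intro f
    have h0 : 0 ≤ max C 0 := le_max_right _ _
    refine (sq_le_sq₀ (norm_nonneg _) (mul_nonneg h0 (norm_nonneg _))).1 ?_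
    rw [lv_norm_sq, mul_pow, lv_norm_sq, ← tsum_mul_left]
    refine Summable.tsum_le_tsum (fun i => ?_) (lv_summable _) ((lv_summable f).mul_left _)
    rw [← mul_pow]
    refine pow_le_pow_left₀ (norm_nonneg _) ((hC i _).trans ?_) 2
    exact mul_le_mul_of_nonneg_right (le_max_left _ _) (norm_nonneg _))

open Classical in
/-- Diagonal operator with a uniformly bounded family of entries (zero if the family is not bounded). -/
noncomputable def dg (T : I → (L →L[ℂ] L')) : Lv I L →L[ℂ] Lv I L' :=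
  if h : ∃ C, ∀ i x, ‖T i x‖ ≤ C * ‖x‖ then dgC T h.choose h.choose_spec else 0

theorem dg_apply {T : I → (L →L[ℂ] L')} {C : ℝ} (hC : ∀ i x, ‖T i x‖ ≤ C * ‖x‖) (f : Lv I L) (i : I) :
    dg T f i = T i (f i) := by
  have h : ∃ C, ∀ i x, ‖T i x‖ ≤ C * ‖x‖ := ⟨C, hC⟩
  unfold dg
  rw [dif_pos h]
  rfl

theorem norm_dg_le {T : I → (L →L[ℂ] L')} {C : ℝ} (hC0 : 0 ≤ C) (hC : ∀ i x, ‖T i x‖ ≤ C * ‖x‖)
    (f : Lv I L) : ‖dg T f‖ ≤ C * ‖f‖ := by
  refine (sq_le_sq₀ (norm_nonneg _) (mul_nonneg hC0 (norm_nonneg _))).1 ?_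
  rw [lv_norm_sq, mul_pow, lv_norm_sq, ← tsum_mul_left]
  refine Summable.tsum_le_tsum (fun i => ?_) (lv_summable _) ((lv_summable f).mul_left _)
  rw [← mul_pow, dg_apply hC]
  exact pow_le_pow_left₀ (norm_nonneg _) (hC i _) 2

/-- Diagonal unitary. -/
noncomputable def dgU (T : I → (L ≃ₗᵢ[ℂ] L)) : Lv I L ≃ₗᵢ[ℂ] Lv I L where
  toFun f := ⟨fun i => T i (f i), lv_mem (by simpa using lv_summable f)⟩
  invFun f := ⟨fun i => (T i).symm (f i), lv_mem (by simpa using lv_summable f)⟩
  left_inv f := by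
    apply lv_ext
    intro i
    simp
  right_inv f := by
    apply lv_ext
    intro i
    simp
  map_add' f g := by
    apply lv_ext
    intro i
    exact map_add (T i) _ _
  map_smul' c f := by
    apply lv_ext
    intro i
    exact map_smul (T i) _ _
  norm_map' f := by
    refine (sq_eq_sq₀ (norm_nonneg _) (norm_nonneg _)).1 ?_
    rw [lv_norm_sq, lv_norm_sq]
    congr 1
    funext i
    exact congrArg (· ^ 2) (LinearIsometryEquiv.norm_map (T i) (f i))

@[simp] theorem dgU_apply (T : I → (L ≃ₗᵢ[ℂ] L)) (f : Lv I L) (i : I) : dgU T f i = T i (f i) := rfl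

open Classical in
/-- Multiplication by the indicator function of `A`. -/
noncomputable def ind (L : Type) [NormedAddCommGroup L] [InnerProductSpace ℂ L] (A : Set I) :
    Lv I L →L[ℂ] Lv I L :=
  dg fun i => if i ∈ A then ContinuousLinearMap.id ℂ L else 0

open Classical in
theorem ind_apply (A : Set I) (f : Lv I L) (i : I) : ind L A f i = if i ∈ A then f i else 0 := by
  have hC : ∀ (i : I) (x : L), ‖(if i ∈ A then ContinuousLinearMap.id ℂ L else 0 : L →L[ℂ] L) x‖ ≤ 1 * ‖x‖ := by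
    intro i x
    split_ifs
    · simp
    · simp
  unfold ind
  rw [dg_apply hC]
  split_ifs <;> rfl

/-- `a ↦ (a(γ) F(γ))_γ` for a bounded function `F` (zero if `F` is not bounded). -/
noncomputable def mulF (F : I → L) : L2 I →L[ℂ] Lv I L :=
  dg fun i => ContinuousLinearMap.toSpanSingleton ℂ (F i)

theorem mulF_bound {F : I → L} {C : ℝ} (hC : ∀ i, ‖F i‖ ≤ C) (i : I) (x : ℂ) :
    ‖ContinuousLinearMap.toSpanSingleton ℂ (F i) x‖ ≤ C * ‖x‖ := by
  rw [ContinuousLinearMap.toSpanSingleton_apply, norm_smul, mul_comm]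
  exact mul_le_mul_of_nonneg_right (hC i) (norm_nonneg _)

theorem mulF_apply {F : I → L} {C : ℝ} (hC : ∀ i, ‖F i‖ ≤ C) (a : L2 I) (i : I) :
    mulF F a i = a i • F i := by
  unfold mulF
  rw [dg_apply (mulF_bound hC), ContinuousLinearMap.toSpanSingleton_apply]

theorem norm_mulF_le {F : I → L} {C : ℝ} (hC0 : 0 ≤ C) (hC : ∀ i, ‖F i‖ ≤ C) (a : L2 I) :
    ‖mulF F a‖ ≤ C * ‖a‖ := norm_dg_le hC0 (mulF_bound hC) a

end Vec

end Pool.Agent.Helper84.NI
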