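import Pool.Agent.Helper84.NI.Geo

/-!
# Project NI, block GA: existence of singular value decompositions

PROOF of `exists_svd`: `Aᴴ A` is positive definite Hermitian (`det A ≠ 0`); spectral theorem (`Matrix.IsHermitian.spectral_theorem`, eigenvalues sorted decreasingly by
`eigenvalues₀`, or sort with a permutation): `Aᴴ A = k' diag(e) k'ᴴ`, `e 0 ≥ e 1 ≥ e 2 > 0`; `s = √e`, `k = A k' diag(1/s)`, then `kᴴ k = 1` and
`A = k diag(s) k'ᴴ`.
-/

set_option autoImplicit false

open Filter Topology Matrix ComplexOrder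

namespace Pool.Agent.Helper84.NI

variable {G : Type} [Group G]

theorem exists_svd (A : M3) (hA : ‖A.det‖ = 1) : ∃ (k k' : M3) (s : Fin 3 → ℝ), IsU k ∧ IsU k' ∧
    0 < s 2 ∧ s 2 ≤ s 1 ∧ s 1 ≤ s 0 ∧ A = k * diagonal (fun i => (s i : ℂ)) * k'ᴴ := by
  have hB : (Aᴴ * A).IsHermitian := isHermitian_conjTranspose_mul_self A
  set e0 : Fin 3 → ℝ := hB.eigenvalues with he0
  have hpsd : (Aᴴ * A).PosSemidef := posSemidef_conjTranspose_mul_self A
  have hnn : ∀ i, 0 ≤ e0 i := fun i => hpsd.eigenvalues_nonneg i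
  have hdet : (∏ i, (e0 i : ℂ)) ≠ 0 := by
    have h := hB.det_eq_prod_eigenvalues
    rw [Matrix.det_mul, Matrix.det_conjTranspose] at h
    intro h0
    have h1 : star A.det * A.det = 0 := h.trans h0
    have h2 := congrArg norm h1
    rw [norm_mul, norm_star, hA, norm_zero, one_mul] at h2
    exact one_ne_zero h2
  have hpos : ∀ i, 0 < e0 i := by
    intro i
    refine lt_of_le_of_ne (hnn i) fun h0 => hdet ?_
    exact Finset.prod_eq_zero (Finset.mem_univ i) (by rw [← h0]; simp)
  set U : M3 := (hB.eigenvectorUnitary : M3) with hU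
  have hU1 : Uᴴ * U = 1 := by
    have := (Matrix.mem_unitaryGroup_iff').1 hB.eigenvectorUnitary.2
    exact this
  have hsp : Aᴴ * A = U * diagonal (fun i => (e0 i : ℂ)) * Uᴴ := by
    conv_lhs => rw [hB.spectral_theorem, Unitary.conjStarAlgAut_apply]
    rfl
  -- sorting
  set σ : Equiv.Perm (Fin 3) := Tuple.sort (fun i => - e0 i) with hσ
  have hmono : Monotone ((fun i => - e0 i) ∘ σ) := Tuple.monotone_sort _
  set e : Fin 3 → ℝ := fun i => e0 (σ i) with he
  have hanti : ∀ i j, i ≤ j → e j ≤ e i := by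
    intro i j hij
    have := hmono hij
    simp only [Function.comp] at this
    simp only [he]
    linarith
  have hepos : ∀ i, 0 < e i := fun i => hpos _
  set k' : M3 := U.submatrix id σ with hk'
  have hk'1 : k'ᴴ * k' = 1 := by
    rw [hk', Matrix.conjTranspose_submatrix,
      ← Matrix.submatrix_mul _ _ σ id σ Function.bijective_id, hU1,
      Matrix.submatrix_one _ σ.injective]
  have hk'2 : k' * k'ᴴ = 1 := mul_eq_one_comm.mp hk'1
  have hsp' : Aᴴ * A = k' * diagonal (fun i => (e i : ℂ)) * k'ᴴ := by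
    have h3 : diagonal (fun i : Fin 3 => (e i : ℂ)) = (diagonal (fun i => (e0 i : ℂ))).submatrix σ σ := by
      rw [Matrix.submatrix_diagonal _ _ σ.injective]
      rfl
    rw [hsp, h3, hk', Matrix.conjTranspose_submatrix,
      ← Matrix.submatrix_mul _ _ id σ σ σ.bijective, ← Matrix.submatrix_mul _ _ id σ id σ.bijective,
      Matrix.submatrix_id_id]
  set s : Fin 3 → ℝ := fun i => Real.sqrt (e i) with hs
  have hspos : ∀ i, 0 < s i := fun i => Real.sqrt_pos.mpr (hepos i)
  have hs0 : ∀ i, (s i : ℂ) ≠ 0 := fun i => by exact_mod_cast (hspos i).ne'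
  have hss : ∀ i, (s i : ℂ) * (s i : ℂ) = (e i : ℂ) := fun i => by
    rw [← Complex.ofReal_mul, Real.mul_self_sqrt (hepos i).le]
  refine ⟨A * k' * diagonal (fun i => ((s i : ℂ))⁻¹), k', s, ?_, hk'1, hspos 2,
    Real.sqrt_le_sqrt (hanti 1 2 (by decide)), Real.sqrt_le_sqrt (hanti 0 1 (by decide)), ?_⟩
  · unfold IsU
    rw [Matrix.conjTranspose_mul, Matrix.conjTranspose_mul, Matrix.diagonal_conjTranspose]
    have h4 : star (fun i => ((s i : ℂ))⁻¹) = fun i => ((s i : ℂ))⁻¹ := by
      funext i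
      simp [Complex.conj_ofReal]
    rw [h4]
    calc diagonal (fun i => ((s i : ℂ))⁻¹) * (k'ᴴ * Aᴴ) * (A * k' * diagonal (fun i => ((s i : ℂ))⁻¹))
        = diagonal (fun i => ((s i : ℂ))⁻¹) * (k'ᴴ * (Aᴴ * A) * k') * diagonal (fun i => ((s i : ℂ))⁻¹) := by
          simp only [Matrix.mul_assoc]
      _ = diagonal (fun i => ((s i : ℂ))⁻¹) * diagonal (fun i => (e i : ℂ)) *
            diagonal (fun i => ((s i : ℂ))⁻¹) := by
          have h5 : k'ᴴ * (Aᴴ * A) * k' = diagonal (fun i => (e i : ℂ)) := by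
            rw [hsp']
            calc k'ᴴ * (k' * diagonal (fun i => (e i : ℂ)) * k'ᴴ) * k'
                = (k'ᴴ * k') * diagonal (fun i => (e i : ℂ)) * (k'ᴴ * k') := by
                  simp only [Matrix.mul_assoc]
              _ = diagonal (fun i => (e i : ℂ)) := by rw [hk'1, Matrix.one_mul, Matrix.mul_one]
          rw [h5]
      _ = 1 := by
          rw [Matrix.diagonal_mul_diagonal, Matrix.diagonal_mul_diagonal, ← Matrix.diagonal_one]
          congr 1
          funext i
          rw [← hss i]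
          field_simp [hs0 i]
  · calc A = A * (k' * k'ᴴ) := by rw [hk'2, Matrix.mul_one]
      _ = A * k' * (diagonal (fun i => ((s i : ℂ))⁻¹) * diagonal (fun i => (s i : ℂ))) * k'ᴴ := by
          have h6 : diagonal (fun i => ((s i : ℂ))⁻¹) * diagonal (fun i => (s i : ℂ)) = 1 := by
            rw [Matrix.diagonal_mul_diagonal, ← Matrix.diagonal_one]
            congr 1
            funext i
            exact inv_mul_cancel₀ (hs0 i)
          rw [h6, Matrix.mul_one, Matrix.mul_assoc]
      _ = _ := by simp only [Matrix.mul_assoc]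

theorem nonempty_svd (P : PHom G) : Nonempty (Svd P) := by
  have h := fun g => exists_svd (P.ι g) (P.det1 g)
  choose k k' s h1 h2 h3 h4 h5 h6 using h
  exact ⟨⟨k, k', s, h1, h2, h3, h4, h5, h6⟩⟩

end Pool.Agent.Helper84.NI
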