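import Pool.Agent.Helper84.NI.ZB
import Pool.Agent.Helper84.GVN.Bridge

/-!
# Project NI: the theorem on group von Neumann algebras
-/

set_option autoImplicit false

open Filter Topology

namespace Pool.Agent.Helper84.NI

open GVN

section Hom

variable {Γ Λ : Type} [Group Γ] [Group Λ] (θ : LG Λ →⋆ₐ[ℂ] LG Γ)

/-- The unitaries `θ(u_g)` as isometric equivalences, for a star homomorphism. -/
noncomputable def hv : Λ →* (L2 Γ ≃ₗᵢ[ℂ] L2 Γ) where
  toFun g := Unitary.linearIsometryEquiv ⟨((θ (uu g) : LG Γ) : L2 Γ →L[ℂ] L2 Γ), by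
    have h1 : star (θ (uu g)) * θ (uu g) = 1 := by
      rw [← map_star, ← map_mul, star_uu, ← uu_mul, inv_mul_cancel, uu_one, map_one]
    have h2 : θ (uu g) * star (θ (uu g)) = 1 := by
      rw [← map_star, ← map_mul, star_uu, ← uu_mul, mul_inv_cancel, uu_one, map_one]
    exact ⟨congrArg Subtype.val h1, congrArg Subtype.val h2⟩⟩
  map_one' := by
    ext f : 1
    change ((θ (uu 1) : LG Γ) : L2 Γ →L[ℂ] L2 Γ) f = f
    rw [uu_one, map_one]
    rfl
  map_mul' g h := by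
    ext f : 1
    change ((θ (uu (g * h)) : LG Γ) : L2 Γ →L[ℂ] L2 Γ) f =
      ((θ (uu g) : LG Γ) : L2 Γ →L[ℂ] L2 Γ) (((θ (uu h) : LG Γ) : L2 Γ →L[ℂ] L2 Γ) f)
    rw [uu_mul, map_mul]
    rfl

theorem hv_apply (g : Λ) (f : L2 Γ) : hv θ g f = ((θ (uu g) : LG Γ) : L2 Γ →L[ℂ] L2 Γ) f := rfl

theorem hv_commR (g : Λ) : CommR (hv θ g) := by
  intro k f
  have h := (mem_groupVN.1 (θ (uu g)).2) ((rhoU k).toContinuousLinearEquiv : L2 Γ →L[ℂ] L2 Γ)
    (fun a => by
      ext x : 1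
      exact (lam_rho a k x).symm)
  exact (DFunLike.congr_fun h f).symm

theorem cf_hv (g : Λ) (x : Γ) : cf (hv θ g) x = coef (θ (uu g)) x := rfl

theorem hv_tr (hτ : ∀ x, GVN.tr (θ x) = GVN.tr x) {g : Λ} (hg : g ≠ 1) : cf (hv θ g) 1 = 0 := by
  rw [cf_hv]
  change GVN.tr (θ (uu g)) = 0
  rw [hτ]
  change ((uu g : LG Λ) : L2 Λ →L[ℂ] L2 Λ) (dl 1) 1 = 0
  rw [uu_dl, dl_apply, if_neg (Ne.symm hg)]

end Hom

/-- Weak convergence to zero of an orthonormal sequence. -/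
theorem tendsto_of_orthonormal {Γ : Type} {x : ℕ → L2 Γ} (h : Orthonormal ℂ x) (g : Γ) :
    Tendsto (fun n => x n g) atTop (𝓝 0) := by
  have h1 := h.inner_products_summable (dl g)
  have h2 := h1.tendsto_atTop_zero
  have h3 : Tendsto (fun n => ‖x n g‖) atTop (𝓝 0) := by
    have h4 := (Real.continuous_sqrt.tendsto _).comp h2
    rw [Real.sqrt_zero] at h4
    refine h4.congr fun n => ?_
    simp only [Function.comp_apply]
    rw [Real.sqrt_sq (norm_nonneg _), inner_dl_right]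
    simp
  exact tendsto_zero_iff_norm_tendsto_zero.2 h3

/-- The theorem for star homomorphisms into `L(Γ)`. -/
theorem no_hom {Γ Λ : Type} [Group Γ] [Group Λ] (P : PHom Γ) (A B : Subgroup Λ) (hA : Infinite A)
    (hB : Infinite B) (hcomm : ∀ a ∈ A, ∀ b ∈ B, a * b = b * a) {Q : Finset A} {κ : ℝ}
    (hK : IsKazhdanPair A (Q : Set A) κ) (θ : LG Λ →⋆ₐ[ℂ] LG Γ) (hτ : ∀ x, GVN.tr (θ x) = GVN.tr x) : False := by
  let E : Emb A Γ :=
    { U := (hv θ).comp A.subtype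
      comm := fun l => hv_commR θ l
      tr := fun l hl => hv_tr θ hτ (by simpa using hl) }
  obtain ⟨e⟩ : Nonempty (ℕ ↪ B) := ⟨Infinite.natEmbedding B⟩
  have hne : ∀ m n : ℕ, m ≠ n → ((e m : Λ)⁻¹ * (e n : Λ)) ≠ 1 := by
    intro m n hmn h
    apply hmn
    apply e.injective
    apply Subtype.ext
    exact inv_mul_eq_one.1 h
  have hortho : Orthonormal ℂ (fun n : ℕ => cf (hv θ (e n : Λ))) := by
    refine ⟨fun n => norm_cf _, fun m n hmn => ?_⟩
    have h1 : cf (hv θ ((e m : Λ)⁻¹ * (e n : Λ))) 1 = 0 := hv_tr θ hτ (hne m n hmn)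
    have h2 : inner ℂ (cf (hv θ (e m : Λ))) (cf (hv θ (e n : Λ))) =
        inner ℂ (dl 1) (cf (hv θ ((e m : Λ)⁻¹ * (e n : Λ)))) := by
      rw [← LinearIsometryEquiv.inner_map_map (hv θ (e m : Λ)) (dl 1)]
      congr 1
      change hv θ (e n : Λ) (dl 1) = hv θ (e m : Λ) (hv θ ((e m : Λ)⁻¹ * (e n : Λ)) (dl 1))
      rw [← Function.comp_apply (f := hv θ (e m : Λ)), ← LinearIsometryEquiv.coe_mul, ← map_mul,
        mul_inv_cancel_left]
    exact h2.trans ((inner_dl_left _ _).trans h1)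
  refine core hK P E (fun n => hv θ (e n : Λ)) (fun n => hv_commR θ _) (fun n l f => ?_)
    (fun g => tendsto_of_orthonormal hortho g)
  change hv θ (e n : Λ) (hv θ (l : Λ) f) = hv θ (l : Λ) (hv θ (e n : Λ) f)
  rw [← Function.comp_apply (f := hv θ (e n : Λ)), ← LinearIsometryEquiv.coe_mul, ← map_mul,
    ← Function.comp_apply (f := hv θ (l : Λ)), ← LinearIsometryEquiv.coe_mul, ← map_mul,
    hcomm _ l.2 _ (e n).2]

end Pool.Agent.Helper84.NI
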