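import Pool.Agent.Helper84.NI.J2

/-!
# Project NI, block J3: polar decomposition

PROOF. `W` from `exists_W`, `D = CFC.sqrt (adjoint W * W)` (positive square root in the C*-algebra `V →L[ℂ] V`), `‖D v‖ = ‖W v‖` as
`⟪D v, D v⟫ = ⟪D (D v), v⟫ = ⟪W* W v, v⟫`. `D` is self-adjoint and injective, so its range is dense (`(range D)ᗮ = ker D*`). Hence `D v ↦ W v` extends to
an isometry `J : V → L2 (Λ × X)` (`LinearMap.extend...`/`ContinuousLinearMap.extend`/`LinearIsometry` on the closure of the range).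
`D` commutes with `R m`: `W* W` commutes with `R m` since `W (R m v)` is the translate of `W v` (a unitary), and the square root commutes with everything
that commutes with `W* W` (`Commute` and `cfc`/`cfcₙ`: e.g. `Commute.cfcₙ`, `CFC.sqrt`). So `J (R m (D v)) = J (D (R m v)) = W (R m v)`, the translate
of `W v = J (D v)`; density.
-/

set_option autoImplicit false

namespace Pool.Agent.Helper84.NI

open GVN

variable {Λ : Type} [Group Λ] {V : Type} [NormedAddCommGroup V] [InnerProductSpace ℂ V]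
  [CompleteSpace V]

theorem exists_J0 (R : Λ →* (V ≃ₗᵢ[ℂ] V)) (hd : Dense (BddSub R : Set V)) :
    ∃ (X : Type) (J : V →ₗᵢ[ℂ] L2 (Λ × X)),
      ∀ (m : Λ) (v : V) (l : Λ) (x : X), J (R m v) (l, x) = J v (m⁻¹ * l, x) := by
  obtain ⟨X, W, hinj, heq⟩ := exists_W R hd
  refine ⟨X, ?_⟩
  let τ : Λ → (L2 (Λ × X) ≃ₗᵢ[ℂ] L2 (Λ × X)) := fun m =>
    permU (Equiv.prodCongr (Equiv.mulLeft m) (Equiv.refl X))
  have hτa : ∀ m f l x, τ m f (l, x) = f (m⁻¹ * l, x) := fun m f l x => rfl
  have hτ : ∀ m v, W (R m v) = τ m (W v) := by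
    intro m v
    apply l2_ext
    rintro ⟨l, x⟩
    rw [heq, hτa]
  let A : V →L[ℂ] V := (ContinuousLinearMap.adjoint W).comp W
  have hA : 0 ≤ A := (ContinuousLinearMap.nonneg_iff_isPositive _).2
    (ContinuousLinearMap.isPositive_adjoint_comp_self W)
  let D : V →L[ℂ] V := CFC.sqrt A
  have hDD : D * D = A := CFC.sqrt_mul_sqrt_self A hA
  have hDp : 0 ≤ D := CFC.sqrt_nonneg A
  have hDs : ContinuousLinearMap.adjoint D = D := (IsSelfAdjoint.of_nonneg hDp).adjoint_eq
  have hDn : ∀ v, ‖D v‖ = ‖W v‖ := by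
    intro v
    have h1 : inner ℂ (D v) (D v) = inner ℂ (W v) (W v) := by
      calc inner ℂ (D v) (D v) = inner ℂ (ContinuousLinearMap.adjoint D (D v)) v :=
            (ContinuousLinearMap.adjoint_inner_left D v (D v)).symm
        _ = inner ℂ ((D * D) v) v := by rw [hDs]; rfl
        _ = inner ℂ (ContinuousLinearMap.adjoint W (W v)) v := by rw [hDD]; rfl
        _ = inner ℂ (W v) (W v) := ContinuousLinearMap.adjoint_inner_left W v (W v)
    rw [inner_self_eq_norm_sq_to_K, inner_self_eq_norm_sq_to_K] at h1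
    have h2 : ‖D v‖ ^ 2 = ‖W v‖ ^ 2 := by exact_mod_cast h1
    exact (pow_left_inj₀ (norm_nonneg _) (norm_nonneg _) two_ne_zero).1 h2
  have hDinj : ∀ v, D v = 0 → v = 0 := by
    intro v hv
    apply hinj
    rw [← norm_eq_zero, ← hDn, hv, norm_zero]
  have hdense : DenseRange D := by
    have h1 : (LinearMap.range (D : V →ₗ[ℂ] V))ᗮ = ⊥ := by
      rw [Submodule.eq_bot_iff]
      intro v hv
      apply hDinj
      have h2 : inner ℂ (D (D v)) v = 0 := hv _ ⟨D v, rfl⟩
      have h3 : inner ℂ (D v) (D v) = 0 := by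
        rw [← h2]
        calc inner ℂ (D v) (D v) = inner ℂ (ContinuousLinearMap.adjoint D (D v)) v :=
            (ContinuousLinearMap.adjoint_inner_left D v (D v)).symm
          _ = _ := by rw [hDs]
      exact inner_self_eq_zero.1 h3
    have h2 := (Submodule.topologicalClosure_eq_top_iff).2 h1
    exact (Submodule.dense_iff_topologicalClosure_eq_top).2 h2
  have hcomm : ∀ m v, D (R m v) = R m (D v) := by
    intro m v
    have h1 : Commute A ((R m).toContinuousLinearEquiv : V →L[ℂ] V) := by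
      change A * _ = _ * A
      ext w
      change ContinuousLinearMap.adjoint W (W (R m w)) = R m (ContinuousLinearMap.adjoint W (W w))
      apply ext_inner_left ℂ
      intro u
      obtain ⟨u, rfl⟩ := (R m).surjective u
      rw [LinearIsometryEquiv.inner_map_map, ContinuousLinearMap.adjoint_inner_right,
        ContinuousLinearMap.adjoint_inner_right, hτ, hτ, LinearIsometryEquiv.inner_map_map]
    have h2 : Commute D ((R m).toContinuousLinearEquiv : V →L[ℂ] V) := h1.cfcₙ_nnreal _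
    have h3 := congrArg (fun T : V →L[ℂ] V => T v) h2.eq
    exact h3
  let J0 : V →L[ℂ] L2 (Λ × X) := (W : V →ₗ[ℂ] L2 (Λ × X)).extendOfNorm (D : V →ₗ[ℂ] V)
  have hbd : ∀ v, ‖(W : V →ₗ[ℂ] L2 (Λ × X)) v‖ ≤ 1 * ‖(D : V →ₗ[ℂ] V) v‖ := by
    intro v
    rw [one_mul]
    exact (hDn v).ge
  have hJ0 : ∀ v, J0 (D v) = W v := fun v => LinearMap.extendOfNorm_eq hdense ⟨1, hbd⟩ v
  have hnorm : ∀ y, ‖J0 y‖ = ‖y‖ := by
    intro y
    refine hdense.induction_on (p := fun y => ‖J0 y‖ = ‖y‖) y
      (isClosed_eq (J0.continuous.norm) continuous_norm) ?_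
    intro v
    rw [hJ0, hDn]
  refine ⟨⟨J0.toLinearMap, hnorm⟩, ?_⟩
  have hJR : ∀ m v, J0 (R m v) = τ m (J0 v) := by
    intro m v
    refine hdense.induction_on (p := fun v => J0 (R m v) = τ m (J0 v)) v
      (isClosed_eq (J0.continuous.comp (R m).continuous) ((τ m).continuous.comp J0.continuous)) ?_
    intro y
    rw [← hcomm, hJ0, hJ0, hτ]
  intro m v l x
  change J0 (R m v) (l, x) = J0 v (m⁻¹ * l, x)
  rw [hJR, hτa]

end Pool.Agent.Helper84.NI
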