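import Pool.Agent.Helper84.NI.F1b

/-!
# Project NI, block F2: the main estimate

PROOF. Let `θ = ext A E l η = ext B E.conj l⁻¹ η` (central), `c g = cf (E.conj.U l⁻¹) g`, so `θ = ∑_g c g • B g η` (`hasSum_ext`), `‖θ‖ = ‖η‖`
(`norm_ext`), `Bdd B 1 θ` (`ext_bdd`). Also `η = ext B E.conj l θ = ∑_g c' g • B g θ` with `c' g = cf (E.conj.U l) g = conj (c g⁻¹)`
(`CommR.apply_dl`, unitarity: `cf (V) g = ⟪dl g, V dl 1⟫ = ⟪V⁻¹ dl g, dl 1⟫ = conj ((V⁻¹ dl g) 1) = conj (cf V⁻¹ g⁻¹)`).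
Choose a finite `F ⊂ G` with `∑_{g ∉ F} |c g|^2 ≤ δ^2`. Then `‖θ - ∑_{g ∈ F} c g • B g η‖ ≤ δ` and `‖η - ∑_{g ∈ F} conj (c g) • B g⁻¹ θ‖ ≤ δ` (tails of the sums:
bounded vectors; `Bdd.norm_le` on finite sets and limits, or `exists_kop`). With `Q = F ∪ F⁻¹` and `qf_move`:
`qf θ θ ≈ qf (∑ c g B g η) θ = ∑ conj (c g) qf (B g η) θ ≈ ∑ conj (c g) qf η (B g⁻¹ θ) = qf η (∑ conj (c g) B g⁻¹ θ) ≈ qf η η`,
errors `δ ‖η‖`, `∑_F |c g| 2 ε ‖η‖^2`, `δ ‖η‖`. Choose `δ`, then `F`, then `ε`.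
-/

set_option autoImplicit false

open scoped ComplexConjugate

namespace Pool.Agent.Helper84.NI

open GVN

variable {G Λ X : Type} [Group G] [Group Λ] {H : Type} [NormedAddCommGroup H] [InnerProductSpace ℂ H]
  [CompleteSpace H]

/-- Fourier coefficients of the inverse. -/
theorem f2_cf_inv {u : L2 G ≃ₗᵢ[ℂ] L2 G} (hu : CommR u) (x : G) : cf u⁻¹ x⁻¹ = conj (cf u x) := by
  have h1 : ∀ x, u (u⁻¹ x) = x := fun x => u.apply_symm_apply x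
  calc cf u⁻¹ x⁻¹ = inner ℂ (dl x⁻¹) (u⁻¹ (dl 1)) := (inner_dl_left _ _).symm
    _ = inner ℂ (u (dl x⁻¹)) (u (u⁻¹ (dl 1))) := (LinearIsometryEquiv.inner_map_map u _ _).symm
    _ = inner ℂ (u (dl x⁻¹)) (dl 1) := by rw [h1]
    _ = conj (u (dl x⁻¹) 1) := inner_dl_right _ _
    _ = conj (cf u x) := by rw [hu.apply_dl, inv_inv, one_mul]

/-- tails of sums -/
theorem f2_tail {v : G → H} {x : H} (hv : HasSum v x) {w : G → ℝ} {F : Finset G} {δ : ℝ}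
    (hδ : 0 ≤ δ) (hb : ∀ s : Finset G, ‖∑ g ∈ s, v g‖ ≤ Real.sqrt (∑ g ∈ s, w g))
    (hF : ∀ t : Finset G, Disjoint t F → ∑ g ∈ t, w g ≤ δ ^ 2) : ‖x - ∑ g ∈ F, v g‖ ≤ δ := by
  classical
  have h1 : Filter.Tendsto (fun s : Finset G => ‖∑ g ∈ s, v g - ∑ g ∈ F, v g‖) Filter.atTop
      (nhds ‖x - ∑ g ∈ F, v g‖) := (Filter.Tendsto.sub_const hv _).norm
  refine le_of_tendsto h1 ?_
  filter_upwards [Filter.eventually_ge_atTop F] with s hs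
  have h2 : ∑ g ∈ s, v g - ∑ g ∈ F, v g = ∑ g ∈ s \ F, v g := by
    rw [← Finset.sum_sdiff hs]
    abel
  rw [h2]
  refine (hb _).trans ?_
  rw [Real.sqrt_le_left hδ]
  exact hF _ Finset.sdiff_disjoint

section lin

variable (J : H →L[ℂ] L2 (Λ × X)) (B : G →* (H ≃ₗᵢ[ℂ] H)) (M : G → (H →L[ℂ] H)) (S : Finset G)
  {f : Λ → ℝ}

theorem f2_sub_left (hf : ∀ l, |f l| ≤ 1) (ξ₁ ξ₂ ξ' : H) :
    qf J B M S f (ξ₁ - ξ₂) ξ' = qf J B M S f ξ₁ ξ' - qf J B M S f ξ₂ ξ' := by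
  have h := qf_add_left J B M S hf (ξ₁ - ξ₂) ξ₂ ξ'
  rw [sub_add_cancel] at h
  rw [h]
  ring

theorem f2_sub_right (hf : ∀ l, |f l| ≤ 1) (ξ ξ₁ ξ₂ : H) :
    qf J B M S f ξ (ξ₁ - ξ₂) = qf J B M S f ξ ξ₁ - qf J B M S f ξ ξ₂ := by
  have h := qf_add_right J B M S hf ξ (ξ₁ - ξ₂) ξ₂
  rw [sub_add_cancel] at h
  rw [h]
  ring

theorem f2_sum_left (hf : ∀ l, |f l| ≤ 1) (F : Finset G) (c : G → ℂ) (v : G → H) (ξ' : H) :
    qf J B M S f (∑ g ∈ F, c g • v g) ξ' = ∑ g ∈ F, conj (c g) * qf J B M S f (v g) ξ' := by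
  classical
  induction F using Finset.induction_on with
  | empty =>
    rw [Finset.sum_empty, Finset.sum_empty]
    have := qf_smul_left J B M S f 0 (0 : H) ξ'
    rwa [zero_smul, map_zero, zero_mul] at this
  | insert a F ha ih =>
    rw [Finset.sum_insert ha, Finset.sum_insert ha, qf_add_left J B M S hf, qf_smul_left, ih]

theorem f2_sum_right (hf : ∀ l, |f l| ≤ 1) (F : Finset G) (c : G → ℂ) (v : G → H) (ξ : H) :
    qf J B M S f ξ (∑ g ∈ F, c g • v g) = ∑ g ∈ F, c g * qf J B M S f ξ (v g) := by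
  classical
  induction F using Finset.induction_on with
  | empty =>
    rw [Finset.sum_empty, Finset.sum_empty]
    have := qf_smul_right J B M S f 0 ξ (0 : H)
    rwa [zero_smul, zero_mul] at this
  | insert a F ha ih =>
    rw [Finset.sum_insert ha, Finset.sum_insert ha, qf_add_right J B M S hf, qf_smul_right, ih]

end lin

theorem qf_main {A B : G →* (H ≃ₗᵢ[ℂ] H)} {E : Emb Λ G} {η : H} (hA : η ∈ VB A) (hB : Bdd B 1 η)
    (hc : Central A B E η) {J : H →L[ℂ] L2 (Λ × X)} (hJ : ∀ x, ‖J x‖ ≤ ‖x‖) (l : Λ) {ε₁ : ℝ}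
    (hε₁ : 0 < ε₁) :
    ∃ (Q : Finset G) (ε : ℝ), 0 < ε ∧ ∀ (S : Finset G) (M : G → (H →L[ℂ] H)),
      (∀ t, t ∉ S → M t = 0) → (∀ x, ∑ t ∈ S, ‖M t x‖ ^ 2 = ‖x‖ ^ 2) →
      (∀ h ∈ Q, ∀ x, ∀ S' : Finset G,
        ∑ t ∈ S', ‖M t (B h x) - B h (M (h⁻¹ * t) x)‖ ^ 2 ≤ ε ^ 2 * ‖x‖ ^ 2) →
      ∀ f : Λ → ℝ, (∀ m, |f m| ≤ 1) →
        ‖qf J B M S f (ext A E l η) (ext A E l η) - qf J B M S f η η‖ ≤ ε₁ := by
  classical
  set θ := ext A E l η with hθ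
  have hθB : θ = ext B E.conj l⁻¹ η := hc l
  have hnθ : ‖θ‖ = ‖η‖ := norm_ext E l hA
  have hBθ : Bdd B 1 θ := by
    rw [hθB]
    exact ext_bdd E.conj l⁻¹ hB
  let c : G → ℂ := fun g => cf (E.conj.U l⁻¹) g
  have hs1 : HasSum (fun g => c g • B g η) θ := by
    rw [hθB]
    exact hasSum_ext E.conj l⁻¹ hB
  have hηθ : ext B E.conj l θ = η := by
    rw [hθB, ← ext_mul, mul_inv_cancel, ext_one_apply E.conj hB.mem_VB]
  have hs2 : HasSum (fun g => conj (c g) • B g⁻¹ θ) η := by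
    have h1 := hasSum_ext E.conj l hBθ
    rw [hηθ] at h1
    have h2 := (Equiv.hasSum_iff (Equiv.inv G)).2 h1
    convert! h2 using 2 with g
    simp only [Function.comp_apply, Equiv.inv_apply]
    have h3 : conj (c g) = cf (E.conj.U l) g⁻¹ := by
      have h4 := f2_cf_inv (E.conj.comm l) g⁻¹
      rw [inv_inv, ← map_inv] at h4
      show conj (cf (E.conj.U l⁻¹) g) = _
      rw [h4, Complex.conj_conj]
    rw [h3]
  -- the finite set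
  set δ : ℝ := ε₁ / (4 * (‖η‖ + 1)) with hδ
  have hη0 := norm_nonneg η
  have hδ0 : 0 < δ := by positivity
  obtain ⟨F, hF⟩ := summable_iff_vanishing_norm.1 (summable_sq (cf (E.conj.U l⁻¹))) (δ ^ 2)
    (by positivity)
  have hF' : ∀ t : Finset G, Disjoint t F → ∑ g ∈ t, ‖c g‖ ^ 2 ≤ δ ^ 2 := by
    intro t ht
    have h1 := hF t ht
    rw [Real.norm_of_nonneg (Finset.sum_nonneg fun g _ => by positivity)] at h1
    exact h1.le
  have hP : ‖θ - ∑ g ∈ F, c g • B g η‖ ≤ δ := by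
    refine f2_tail hs1 hδ0.le (fun s => ?_) hF'
    have := hB.norm_le s c
    rwa [one_mul] at this
  have hP' : ‖η - ∑ g ∈ F, conj (c g) • B g⁻¹ θ‖ ≤ δ := by
    refine f2_tail hs2 hδ0.le (w := fun g => ‖c g‖ ^ 2) (fun s => ?_) hF'
    have h1 := hBθ.norm_le (s.map (Equiv.inv G).toEmbedding) (fun g => conj (c g⁻¹))
    rw [one_mul, Finset.sum_map, Finset.sum_map] at h1
    simpa only [Equiv.coe_toEmbedding, Equiv.inv_apply, inv_inv, RCLike.norm_conj] using h1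
  set σ : ℝ := ∑ g ∈ F, ‖c g‖ with hσ
  have hσ0 : 0 ≤ σ := Finset.sum_nonneg fun g _ => norm_nonneg _
  set ε : ℝ := ε₁ / (4 * (‖η‖ ^ 2 + 1) * (σ + 1)) with hε
  have hε0 : 0 < ε := by positivity
  refine ⟨F ∪ F.image (fun g => g⁻¹), ε, hε0, fun S M h0 hM hQ f hf => ?_⟩
  set q : H → H → ℂ := fun x y => qf J B M S f x y with hq
  have hmove : ∀ g ∈ F, ‖q (B g η) θ - q η (B g⁻¹ θ)‖ ≤ 2 * ε * ‖η‖ * ‖θ‖ := by
    intro g hg
    refine qf_move hJ h0 hM hε0 (hQ g (Finset.mem_union_left _ hg)) (fun x S' => ?_) hf η θ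
    have h1 := hQ g⁻¹ (Finset.mem_union_right _ (Finset.mem_image_of_mem _ hg)) x S'
    rwa [inv_inv] at h1
  set P := ∑ g ∈ F, c g • B g η with hPdef
  set P' := ∑ g ∈ F, conj (c g) • B g⁻¹ θ with hP'def
  have e1 : q θ θ - q η η = q (θ - P) θ + (q P θ - q η P') - q η (η - P') := by
    simp only [hq]
    rw [f2_sub_left J B M S hf, f2_sub_right J B M S hf]
    ring
  have b1 : ‖q (θ - P) θ‖ ≤ δ * ‖η‖ := by
    refine (qf_bound hJ B hM hf _ _).trans ?_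
    rw [hnθ]
    exact mul_le_mul_of_nonneg_right hP hη0
  have b3 : ‖q η (η - P')‖ ≤ ‖η‖ * δ :=
    (qf_bound hJ B hM hf _ _).trans (mul_le_mul_of_nonneg_left hP' hη0)
  have b2 : ‖q P θ - q η P'‖ ≤ σ * (2 * ε * ‖η‖ * ‖η‖) := by
    have e2 : q P θ - q η P' = ∑ g ∈ F, conj (c g) * (q (B g η) θ - q η (B g⁻¹ θ)) := by
      simp only [hq, hPdef, hP'def]
      rw [f2_sum_left J B M S hf, f2_sum_right J B M S hf, ← Finset.sum_sub_distrib]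
      exact Finset.sum_congr rfl fun g _ => by ring
    rw [e2, hσ, Finset.sum_mul]
    refine (norm_sum_le _ _).trans (Finset.sum_le_sum fun g hg => ?_)
    rw [norm_mul, RCLike.norm_conj]
    refine mul_le_mul_of_nonneg_left ?_ (norm_nonneg _)
    have := hmove g hg
    rwa [hnθ] at this
  have hδη : 2 * (δ * ‖η‖) ≤ ε₁ / 2 := by
    have h1 : δ * (4 * (‖η‖ + 1)) = ε₁ := by
      rw [hδ]
      field_simp
    nlinarith
  have hεη : σ * (2 * ε * ‖η‖ * ‖η‖) ≤ ε₁ / 2 := by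
    have h1 : ε * (4 * (‖η‖ ^ 2 + 1) * (σ + 1)) = ε₁ := by
      rw [hε]
      field_simp
    have h2 : σ * (2 * ε * ‖η‖ * ‖η‖) = 2 * ε * (σ * ‖η‖ ^ 2) := by ring
    have h3 : σ * ‖η‖ ^ 2 ≤ (‖η‖ ^ 2 + 1) * (σ + 1) := by nlinarith [sq_nonneg ‖η‖]
    have h4 : 2 * ε * (σ * ‖η‖ ^ 2) ≤ 2 * ε * ((‖η‖ ^ 2 + 1) * (σ + 1)) :=
      mul_le_mul_of_nonneg_left h3 (by positivity)
    rw [h2]
    linarith
  calc ‖q θ θ - q η η‖ = ‖q (θ - P) θ + (q P θ - q η P') - q η (η - P')‖ := by rw [e1]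
    _ ≤ ‖q (θ - P) θ‖ + ‖q P θ - q η P'‖ + ‖q η (η - P')‖ :=
        (norm_sub_le _ _).trans (add_le_add (norm_add_le _ _) le_rfl)
    _ ≤ δ * ‖η‖ + σ * (2 * ε * ‖η‖ * ‖η‖) + ‖η‖ * δ := add_le_add (add_le_add b1 b2) b3
    _ ≤ ε₁ := by linarith

end Pool.Agent.Helper84.NI
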