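import Pool.Agent.Helper84.NI.E5

/-!
# Project NI: central vectors, approximation property (definitions)
-/

set_option autoImplicit false

open scoped ComplexConjugate

namespace Pool.Agent.Helper84.NI

open GVN

variable {G Λ : Type} [Group G] [Group Λ] {H K : Type} [NormedAddCommGroup H] [InnerProductSpace ℂ H]
  [NormedAddCommGroup K] [InnerProductSpace ℂ K] [CompleteSpace H] [CompleteSpace K]

/-- Two commuting representations. -/
def Comm2 (A B : G →* (H ≃ₗᵢ[ℂ] H)) : Prop := ∀ g h x, A g (B h x) = B h (A g x)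

/-- `ζ` is `Λ`-central: the left and the right action of `Λ` agree on `ζ`. -/
def Central (A B : G →* (H ≃ₗᵢ[ℂ] H)) (E : Emb Λ G) (ζ : H) : Prop :=
  ∀ l, ext A E l ζ = ext B E.conj l⁻¹ ζ

/-- `ζ` is a bounded central vector. -/
structure IsCV (A B : G →* (H ≃ₗᵢ[ℂ] H)) (E : Emb Λ G) (ζ : H) : Prop where
  bA : Bdd A 1 ζ
  bB : Bdd B 1 ζ
  cen : Central A B E ζ

theorem IsCV.map {A B : G →* (H ≃ₗᵢ[ℂ] H)} {A' B' : G →* (K ≃ₗᵢ[ℂ] K)} {E : Emb Λ G} {ζ : H}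
    (h : IsCV A B E ζ) {T : H →L[ℂ] K} (hT : ‖T‖ ≤ 1) (hA : ∀ g x, T (A g x) = A' g (T x))
    (hB : ∀ g x, T (B g x) = B' g (T x)) : IsCV A' B' E (T ζ) where
  bA := (Bdd.map hA h.bA).mono (by simpa using hT)
  bB := (Bdd.map hB h.bB).mono (by simpa using hT)
  cen l := by
    rw [← map_ext hA, ← map_ext hB, h.cen l]

/-- The approximation property used for amenability of the right action. -/
def Apx (A B : G →* (H ≃ₗᵢ[ℂ] H)) : Prop :=
  ∀ (Q : Finset G) (ε : ℝ), 0 < ε → ∃ (S : Finset G) (M : G → (H →L[ℂ] H)),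
    (∀ t g x, M t (A g x) = A g (M t x)) ∧ (∀ t, t ∉ S → M t = 0) ∧
    (∀ x, ∑ t ∈ S, ‖M t x‖ ^ 2 = ‖x‖ ^ 2) ∧
    ∀ h ∈ Q, ∀ x, ∀ S' : Finset G, ∑ t ∈ S', ‖M t (B h x) - B h (M (h⁻¹ * t) x)‖ ^ 2 ≤ ε ^ 2 * ‖x‖ ^ 2

end Pool.Agent.Helper84.NI
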