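import Pool.Agent.Helper84.NI.Rep
import Pool.Agent.Helper84.NI.Cen

/-!
# Project NI, block ZA: the central vector in the limit space

`zet w = UP.mk (n ↦ cf (w n))`.
PROOFS. Norm: `norm_cf`, `UP.tendsto_norm`. `zet_Uz`: for a finite set `F`, `‖ind F (cf (w n))‖^2 = ∑_{γ ∈ F} |cf (w n) γ|^2 → 0` (`h0`, `Nat.hyperfilter_le_atTop`).
`Bdd (Alim G) 1`: `∑ a_g Alim g ζ = UP.mk (n ↦ ∑ a_g lamU g (cf (w n))) = UP.mk (n ↦ jjU (w n)⁻¹ (∑ a_g dl g))` (`jj_dl`), norm `= (∑ |a_g|^2)^(1/2)`. `Bdd (Blim G) 1`: `rhoU g (cf w) = w (rhoU g (dl 1)) = w (dl g⁻¹)`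
(`CommR`), norm of `w (∑ a_g dl g⁻¹)`.
Central: `ext_kop` with `T f = UP.mk (n ↦ jjU (w n)⁻¹ f)` (an isometry `L2 G → UP (L2 G)`; `T (dl g) = Alim g ζ`): `ext (Alim G) E l ζ = UP.mk (n ↦ jjU (w n)⁻¹ (E.U l (dl 1))) = UP.mk (n ↦ E.U l (cf (w n)))` (`jj_comm`, `jj_dl` at `1`).
`ext_kop` with `T' f = UP.mk (n ↦ w n (ivU G f))` (`T' (dl g) = UP.mk (w n (dl g⁻¹)) = Blim g ζ`): `ext (Blim G) E.conj l⁻¹ ζ = UP.mk (n ↦ w n (ivU G (cj (E.U l⁻¹ (dl 1)))))`, and `ivU G (cj (E.U l⁻¹ (dl 1))) = jjU (E.U l)⁻¹ (dl 1) = cf (E.U l)`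
(`jjU_apply`, `jj_dl` with `g = 1`), so it is `UP.mk (n ↦ w n (E.U l (dl 1))) = UP.mk (n ↦ E.U l (w n (dl 1)))` (`hc`).
-/

set_option autoImplicit false

open Filter Topology

namespace Pool.Agent.Helper84.NI

open GVN

variable {G Λ : Type} [Group G] [Group Λ]

/-- The sequence of the vectors `w_n δ_1`. -/
noncomputable def zet (w : ℕ → (L2 G ≃ₗᵢ[ℂ] L2 G)) : UP (L2 G) :=
  UP.mk ⟨fun n => cf (w n), 1, fun n => (norm_cf (w n)).le⟩

theorem norm_zet (w : ℕ → (L2 G ≃ₗᵢ[ℂ] L2 G)) : ‖zet w‖ = 1 := by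
  have h1 := UP.tendsto_norm (⟨fun n => cf (w n), 1, fun n => (norm_cf (w n)).le⟩ : BSeq (L2 G))
  have h2 : (fun n => ‖(⟨fun n => cf (w n), 1, fun n => (norm_cf (w n)).le⟩ : BSeq (L2 G)).1 n‖) =
      fun _ => (1 : ℝ) := funext fun n => norm_cf (w n)
  rw [h2] at h1
  exact (tendsto_nhds_unique h1 tendsto_const_nhds)

private theorem za_norm_ind {F : Set G} (hF : F.Finite) (f : Lv G ℂ) :
    ‖ind ℂ F f‖ ^ 2 = ∑ γ ∈ hF.toFinset, ‖f γ‖ ^ 2 := by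
  classical
  have h1 := lv_hasSum (ind ℂ F f)
  have h2 : HasSum (fun i => ‖ind ℂ F f i‖ ^ 2) (∑ i ∈ hF.toFinset, ‖ind ℂ F f i‖ ^ 2) :=
    hasSum_sum_of_ne_finset_zero (by
      intro i hi
      rw [ind_apply, if_neg (fun h => hi (hF.mem_toFinset.2 h)), norm_zero]
      norm_num)
  rw [h1.unique h2]
  refine Finset.sum_congr rfl fun i hi => ?_
  rw [ind_apply, if_pos (hF.mem_toFinset.1 hi)]

theorem zet_Uz {w : ℕ → (L2 G ≃ₗᵢ[ℂ] L2 G)} (h0 : ∀ g, Tendsto (fun n => cf (w n) g) atTop (𝓝 0)) :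
    zet w ∈ Uz G := by
  intro F hF
  unfold zet
  rw [UP.map_mk]
  set x : BSeq (L2 G) := ⟨fun n => cf (w n), 1, fun n => (norm_cf (w n)).le⟩ with hx
  have h1 := (UP.tendsto_norm (BSeq.map (ind ℂ F) x)).pow 2
  have h2 : (fun n => ‖(BSeq.map (ind ℂ F) x).1 n‖ ^ 2) =
      fun n => ∑ γ ∈ hF.toFinset, ‖cf (w n) γ‖ ^ 2 := funext fun n => za_norm_ind hF _
  rw [h2] at h1
  have h3 : Tendsto (fun n => ∑ γ ∈ hF.toFinset, ‖cf (w n) γ‖ ^ 2) atTop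
      (𝓝 (∑ γ ∈ hF.toFinset, ‖(0 : ℂ)‖ ^ 2)) :=
    tendsto_finsetSum _ fun γ _ => ((h0 γ).norm).pow 2
  have h4 := tendsto_nhds_unique h1 (h3.mono_left Nat.hyperfilter_le_atTop)
  have h5 : ‖UP.mk (BSeq.map (ind ℂ F) x)‖ ^ 2 = 0 := by
    rw [h4]
    simp
  exact norm_eq_zero.1 (pow_eq_zero_iff (two_ne_zero) |>.1 h5)

/-- A sequence of unitaries as an operator with values in the limit space. -/
private noncomputable def zaOp (T : ℕ → (L2 G ≃ₗᵢ[ℂ] L2 G)) : L2 G →L[ℂ] UP (L2 G) :=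
  LinearMap.mkContinuous
    { toFun := fun f => UP.mk ⟨fun n => T n f, ‖f‖, fun n => (LinearIsometryEquiv.norm_map _ _).le⟩
      map_add' := fun f g => by
        rw [← UP.mk_add]
        congr 1
        exact Subtype.ext (funext fun n => map_add (T n) f g)
      map_smul' := fun c f => by
        rw [RingHom.id_apply, ← UP.mk_smul]
        congr 1
        exact Subtype.ext (funext fun n => map_smul (T n) c f) } 1 (by
    intro f
    rw [one_mul]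
    exact UP.norm_mk_le _ fun n => (LinearIsometryEquiv.norm_map (T n) f).le)

private theorem zaOp_apply (T : ℕ → (L2 G ≃ₗᵢ[ℂ] L2 G)) (f : L2 G) :
    zaOp T f = UP.mk ⟨fun n => T n f, ‖f‖, fun n => (LinearIsometryEquiv.norm_map _ _).le⟩ := rfl

private theorem za_norm_op (T : ℕ → (L2 G ≃ₗᵢ[ℂ] L2 G)) (f : L2 G) : ‖zaOp T f‖ ≤ ‖f‖ := by
  rw [zaOp_apply]
  exact UP.norm_mk_le _ fun n => (LinearIsometryEquiv.norm_map (T n) f).le

private theorem za_mk_congr {x y : BSeq (L2 G)} (h : ∀ n, x.1 n = y.1 n) : UP.mk x = UP.mk y := by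
  congr 1
  exact Subtype.ext (funext h)

omit [Group G] in
private theorem za_norm_sum (s : Finset G) (a : G → ℂ) :
    ‖∑ g ∈ s, a g • (dl g : L2 G)‖ ^ 2 = ∑ g ∈ s, ‖a g‖ ^ 2 := by
  classical
  have h0 : Orthonormal ℂ (fun g : G => (dl g : L2 G)) := by
    rw [orthonormal_iff_ite]
    intro i j
    rw [inner_dl_left, dl_apply]
  have h1 := h0.inner_sum a a s
  rw [norm_sq_eq_re_inner (𝕜 := ℂ), h1, map_sum]
  refine Finset.sum_congr rfl fun g _ => ?_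
  rw [Complex.conj_mul']
  change (((‖a g‖ : ℂ) ^ 2)).re = _
  rw [← Complex.ofReal_pow, Complex.ofReal_re]

private theorem za_bdd {A : G →* (UP (L2 G) ≃ₗᵢ[ℂ] UP (L2 G))} {ζ : UP (L2 G)}
    (T : ℕ → (L2 G ≃ₗᵢ[ℂ] L2 G)) (hT : ∀ g, zaOp T (dl g) = A g ζ) : Bdd A 1 ζ := by
  refine ⟨zero_le_one, fun s a => ?_⟩
  have e : ∑ g ∈ s, a g • A g ζ = zaOp T (∑ g ∈ s, a g • (dl g : L2 G)) := by
    rw [map_sum]
    refine Finset.sum_congr rfl fun g _ => ?_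
    rw [map_smul, hT]
  rw [e, ← za_norm_sum s a, one_pow, one_mul]
  exact pow_le_pow_left₀ (norm_nonneg _) (za_norm_op T _) 2

private theorem za_left {w : ℕ → (L2 G ≃ₗᵢ[ℂ] L2 G)} (hw : ∀ n, CommR (w n)) (g : G) :
    zaOp (fun n => jjU (w n)⁻¹) (dl g) = Alim G g (zet w) := by
  rw [zaOp_apply]
  unfold zet Alim
  rw [UP.rep_apply, UP.map_mk]
  exact za_mk_congr fun n => jj_dl (hw n) g

private theorem za_right {w : ℕ → (L2 G ≃ₗᵢ[ℂ] L2 G)} (hw : ∀ n, CommR (w n)) (g : G) :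
    zaOp (fun n => w n * ivU G) (dl g) = Blim G g (zet w) := by
  rw [zaOp_apply]
  unfold zet Blim
  rw [UP.rep_apply, UP.map_mk]
  refine za_mk_congr fun n => ?_
  change w n (ivU G (dl g)) = rhoU g (w n (dl 1))
  rw [← hw n, rhoU_dl, one_mul]
  congr 1
  exact permU_dl _ _

theorem zet_cv {w : ℕ → (L2 G ≃ₗᵢ[ℂ] L2 G)} (hw : ∀ n, CommR (w n)) (E : Emb Λ G)
    (hc : ∀ n l f, w n (E.U l f) = E.U l (w n f)) : IsCV (Alim G) (Blim G) E (zet w) := by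
  have bA := za_bdd _ (za_left hw)
  have bB := za_bdd _ (za_right hw)
  refine ⟨bA, bB, fun l => ?_⟩
  rw [ext_kop E l bA (za_left hw), ext_kop E.conj l⁻¹ bB (za_right hw), zaOp_apply, zaOp_apply]
  refine za_mk_congr fun n => ?_
  change jjU (w n)⁻¹ (E.U l (dl 1)) = w n (ivU G (cjU (E.U l⁻¹) (dl 1)))
  rw [jj_comm (E.comm l) (commR_inv (hw n)), jj_dl (hw n), lamU_one]
  have h1 : ivU G (cjU (E.U l⁻¹) (dl 1)) = E.U l (dl 1) := by
    have h2 : jjU (E.U l)⁻¹ (dl 1) = lamU 1 (cf (E.U l)) := jj_dl (E.comm l) 1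
    have h3 : (ivU G (dl 1) : L2 G) = dl 1 := by
      have h4 : (ivU G (dl 1) : L2 G) = dl (1⁻¹) := permU_dl _ _
      rw [h4, inv_one]
    rw [jjU_apply, h3, lamU_one, ← map_inv] at h2
    exact h2
  rw [h1, hc]
  rfl

end Pool.Agent.Helper84.NI
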