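import Pool.Agent.Helper84.NI.Cen

/-!
# Project NI, block HU: a central vector from the convex hull

PROOF. Notation and facts (1)-(3) as in the header of block TI (`TI.lean`; reprove what is needed). `η0 = z (TL ζ) ∈ 𝒲`. For all `l`:
`⟪σ l η0, TR ζ⟫ = ⟪R l η0, L l⁻¹ (TR ζ)⟫` (`inner_ext`) `= ⟪z (TL ζ_{l⁻¹}), TR ζ_{l⁻¹}⟫ = ⟪TL ζ_{l⁻¹}, TR ζ_{l⁻¹}⟫`, real part `≥ c1`.
The set `C` of all `ξ ∈ 𝒲` with `Bdd B' 1 ξ` and `c1 ≤ Re ⟪ξ, TR ζ⟫` is closed and convex; let `C0` be the closed convex hull of the orbit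
`{σ l η0}`; `C0 ⊂ C` (`Bdd B' 1 (σ l η0)`: `TL ζ` is `B'`-bounded with constant 1, `z`, `L l` commute with `B'` and have norm `≤ 1` (`Bdd.map`), `ext_bdd` for
`R l`). `σ m C0 = C0`. Let `η` be the element of minimal norm of `C0` (`exists_norm_eq_iInf_of_complete_convex` with `u = 0`; uniqueness by the
parallelogram law); `σ m η` has the same norm, so `σ m η = η` for all `m`, i.e. `L m η = R m⁻¹ η` (apply `R m⁻¹`). `η ≠ 0` as `Re ⟪η, TR ζ⟫ ≥ c1`.
-/

set_option autoImplicit false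

open scoped ComplexConjugate

namespace Pool.Agent.Helper84.NI

open GVN

/-- Contractions preserving a closed convex set of a Hilbert space fix its point of least norm. -/
private theorem hu_fix {F : Type} [NormedAddCommGroup F] [InnerProductSpace ℝ F] [CompleteSpace F]
    {ι : Type} (T : ι → F → F) (C : Set F) (hne : C.Nonempty) (hcl : IsClosed C)
    (hconv : Convex ℝ C) (hT : ∀ i, ∀ x ∈ C, T i x ∈ C) (hn : ∀ i x, ‖T i x‖ ≤ ‖x‖) :
    ∃ η ∈ C, ∀ i, T i η = η := by
  obtain ⟨η, hη, hmin⟩ := exists_norm_eq_iInf_of_complete_convex hne hcl.isComplete hconv 0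
  have hle : ∀ w ∈ C, ‖η‖ ≤ ‖w‖ := by
    intro w hw
    have h1 : (⨅ w : C, ‖(0 : F) - w‖) ≤ ‖(0 : F) - (⟨w, hw⟩ : C)‖ :=
      ciInf_le ⟨0, Set.forall_mem_range.2 fun _ => norm_nonneg _⟩ (⟨w, hw⟩ : C)
    rw [← hmin, zero_sub, zero_sub, norm_neg, norm_neg] at h1
    exact h1
  refine ⟨η, hη, fun i => ?_⟩
  have hw := hT i η hη
  have h1 : ‖T i η‖ = ‖η‖ := le_antisymm (hn i η) (hle _ hw)
  generalize T i η = w at hw h1
  have h2 := hle _ (hconv hw hη (a := 1 / 2) (b := 1 / 2) (by norm_num) (by norm_num)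
    (by norm_num))
  have h3 : ‖(1 / 2 : ℝ) • w + (1 / 2 : ℝ) • η‖ = (1 / 2) * ‖w + η‖ := by
    rw [← smul_add, norm_smul, Real.norm_of_nonneg (by norm_num)]
  rw [h3] at h2
  have h4 := parallelogram_law_with_norm ℝ w η
  rw [h1] at h4
  have h5 : ‖w - η‖ ^ 2 ≤ 0 := by
    nlinarith [norm_nonneg η, norm_nonneg (w + η)]
  have h6 : ‖w - η‖ = 0 := by
    have := le_antisymm h5 (by positivity)
    exact pow_eq_zero_iff two_ne_zero |>.1 this
  exact sub_eq_zero.1 (norm_eq_zero.1 h6)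

variable {G Λ : Type} [Group G] [Group Λ] {H K : Type} [NormedAddCommGroup H] [InnerProductSpace ℂ H]
  [NormedAddCommGroup K] [InnerProductSpace ℂ K] [CompleteSpace H] [CompleteSpace K]

/-- The set of vectors bounded with constant one is closed. -/
private theorem hu_closed (B' : G →* (K ≃ₗᵢ[ℂ] K)) : IsClosed {ξ : K | Bdd B' 1 ξ} := by
  have h : {ξ : K | Bdd B' 1 ξ} = ⋂ (s : Finset G) (a : G → ℂ),
      {ξ : K | ‖∑ g ∈ s, a g • B' g ξ‖ ^ 2 ≤ 1 ^ 2 * ∑ g ∈ s, ‖a g‖ ^ 2} := by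
    ext ξ
    simp only [Set.mem_setOf_eq, Set.mem_iInter, Bdd]
    exact ⟨fun h => h.2, fun h => ⟨zero_le_one, h⟩⟩
  rw [h]
  refine isClosed_iInter fun s => isClosed_iInter fun a => ?_
  refine isClosed_le (Continuous.pow (Continuous.norm ?_) 2) continuous_const
  exact continuous_finset_sum s fun g _ => ((B' g).continuous).const_smul _

theorem hull {A B : G →* (H ≃ₗᵢ[ℂ] H)} {A' B' : G →* (K ≃ₗᵢ[ℂ] K)} (hAB' : Comm2 A' B')
    (TL TR : H →ₗᵢ[ℂ] K) (hR : ∀ g x, TR (A g x) = A' g (TR x)) (hL : ∀ g x, TL (B g x) = B' g (TL x))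
    {E : Emb Λ G} {ζ : H} (hζ : IsCV A B E ζ) {c1 : ℝ} (hc1 : 0 < c1)
    (h : ∀ l, c1 ≤ (inner ℂ (TL (ext A E l ζ)) (TR (ext A E l ζ))).re) :
    ∃ η : K, η ≠ 0 ∧ η ∈ VB A' ∧ Bdd B' 1 η ∧ Central A' B' E η := by
  let z : K →L[ℂ] K := (VB A').starProjection
  let L : Λ → (K →L[ℂ] K) := ext A' E
  let R : Λ → (K →L[ℂ] K) := ext B' E.conj
  let cB : G → (K →L[ℂ] K) := fun g => ((B' g).toContinuousLinearEquiv : K →L[ℂ] K)
  let cA : G → (K →L[ℂ] K) := fun g => ((A' g).toContinuousLinearEquiv : K →L[ℂ] K)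
  have hzB : ∀ g x, z (B' g x) = B' g (z x) := fun g x =>
    (map_starProjection (T := cB g) (A := A') (A' := A') (fun h x => (hAB' h g x).symm) x).symm
  have hzR : ∀ l x, z (R l x) = R l (z x) := fun l x => map_ext (T := z) hzB E.conj l x
  have hLB : ∀ l g x, L l (B' g x) = B' g (L l x) := fun l g x =>
    (map_ext (T := cB g) (A := A') (A' := A') (fun h x => (hAB' h g x).symm) E l x).symm
  have hLR : ∀ l m x, L l (R m x) = R m (L l x) := fun l m x =>
    map_ext (T := L l) (hLB l) E.conj m x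
  have hLn : ∀ l x, ‖L l x‖ ≤ ‖x‖ := fun l x => norm_ext_le A' E l x
  have hRn : ∀ l x, ‖R l x‖ ≤ ‖x‖ := fun l x => norm_ext_le B' E.conj l x
  -- the vectors `TL ζ` and `TR ζ`
  have hTR : ∀ l, L l (TR ζ) = TR (ext A E l ζ) := fun l =>
    (map_ext (T := TR.toContinuousLinearMap) hR E l ζ).symm
  have hTL : ∀ l, R l (TL ζ) = TL (ext A E l⁻¹ ζ) := by
    intro l
    have h1 := map_ext (T := TL.toContinuousLinearMap) hL E.conj l ζ
    have h2 := hζ.cen l⁻¹
    rw [inv_inv] at h2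
    rw [h2]
    exact h1.symm
  have hTLB : Bdd B' 1 (TL ζ) := by
    have h1 := Bdd.map (T := TL.toContinuousLinearMap) hL hζ.bB
    refine h1.mono ?_
    rw [mul_one]
    exact TL.norm_toContinuousLinearMap_le
  have hzn : ‖z‖ ≤ 1 := Submodule.starProjection_norm_le _
  let η0 : K := z (TL ζ)
  have hη0 : Bdd B' 1 η0 := by
    refine (Bdd.map (T := z) hzB hTLB).mono ?_
    rw [mul_one]
    exact hzn
  let σ : Λ → (K →L[ℂ] K) := fun l => (L l).comp (R l)
  have hσ : ∀ l x, σ l x = L l (R l x) := fun l x => rfl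
  -- the large closed convex set
  let C : Set K := {ξ | ξ ∈ VB A' ∧ ξ ∈ VB B' ∧ Bdd B' 1 ξ ∧ c1 ≤ (inner ℂ ξ (TR ζ)).re}
  have hCcl : IsClosed C := by
    refine (isClosed_VB A').inter ((isClosed_VB B').inter ((hu_closed B').inter ?_))
    exact isClosed_le continuous_const
      (Complex.continuous_re.comp (continuous_id.inner continuous_const))
  have hCconv : Convex ℝ C := by
    rintro x ⟨x1, x2, x3, x4⟩ y ⟨y1, y2, y3, y4⟩ a b ha hb hab
    have ea : a • x = (a : ℂ) • x := rfl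
    have eb : b • y = (b : ℂ) • y := rfl
    rw [ea, eb]
    refine ⟨(VB A').add_mem ((VB A').smul_mem _ x1) ((VB A').smul_mem _ y1),
      (VB B').add_mem ((VB B').smul_mem _ x2) ((VB B').smul_mem _ y2), ?_, ?_⟩
    · refine ((x3.smul (a : ℂ)).add (y3.smul (b : ℂ))).mono ?_
      rw [Complex.norm_real, Complex.norm_real, Real.norm_of_nonneg ha, Real.norm_of_nonneg hb,
        mul_one, mul_one, hab]
    · rw [inner_add_left, inner_smul_left, inner_smul_left, Complex.conj_ofReal,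
        Complex.conj_ofReal, Complex.add_re, Complex.re_ofReal_mul, Complex.re_ofReal_mul]
      have h1 := mul_le_mul_of_nonneg_left x4 ha
      have h2 := mul_le_mul_of_nonneg_left y4 hb
      have h3 : a * c1 + b * c1 = c1 := by rw [← add_mul, hab, one_mul]
      linarith
  have horb : ∀ l, σ l η0 ∈ C := by
    intro l
    refine ⟨ext_mem A' E l _, ?_, ?_, ?_⟩
    · rw [hσ, hLR]
      exact ext_mem B' E.conj l _
    · rw [hσ]
      have h1 : Bdd B' 1 (R l η0) := ext_bdd E.conj l hη0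
      refine (Bdd.map (T := L l) (hLB l) h1).mono ?_
      rw [mul_one]
      refine (L l).opNorm_le_bound zero_le_one fun x => ?_
      rw [one_mul]
      exact hLn l x
    · have h1 : inner ℂ (σ l η0) (TR ζ) = inner ℂ (R l η0) (L l⁻¹ (TR ζ)) :=
        inner_ext A' E l (R l η0) (TR ζ)
      have h2 : R l η0 = z (TL (ext A E l⁻¹ ζ)) := by
        rw [← hTL]
        exact (hzR l _).symm
      have h3 : z (TR (ext A E l⁻¹ ζ)) = TR (ext A E l⁻¹ ζ) := by
        apply Submodule.starProjection_eq_self_iff.2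
        rw [← hTR]
        exact ext_mem A' E l⁻¹ _
      have h4 : inner ℂ (z (TL (ext A E l⁻¹ ζ))) (TR (ext A E l⁻¹ ζ)) =
          inner ℂ (TL (ext A E l⁻¹ ζ)) (z (TR (ext A E l⁻¹ ζ))) :=
        Submodule.inner_starProjection_left_eq_right _ _ _
      rw [h1, h2, hTR, h4, h3]
      exact h l⁻¹
  -- the orbit and its closed convex hull
  let O : Set K := Set.range fun l => σ l η0
  let C0 : Set K := closure (convexHull ℝ O)
  have hC0C : C0 ⊆ C := by
    refine closure_minimal (convexHull_min ?_ hCconv) hCcl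
    rintro _ ⟨l, rfl⟩
    exact horb l
  have hC0conv : Convex ℝ C0 := (convex_convexHull ℝ O).closure
  have hσO : ∀ m l, σ m (σ l η0) = σ (m * l) η0 := by
    intro m l
    rw [hσ, hσ, hσ, ← hLR l m]
    have e1 : L (m * l) (R (m * l) η0) = L m (L l (R (m * l) η0)) := ext_mul A' E m l _
    have e2 : R (m * l) η0 = R m (R l η0) := ext_mul B' E.conj m l _
    rw [e1, e2]
  have hσC0 : ∀ m, ∀ x ∈ C0, σ m x ∈ C0 := by
    intro m
    have h1 : C0 ⊆ (σ m) ⁻¹' C0 := by
      refine closure_minimal (convexHull_min ?_ ?_) (isClosed_closure.preimage (σ m).continuous)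
      · rintro _ ⟨l, rfl⟩
        change σ m (σ l η0) ∈ C0
        rw [hσO]
        exact subset_closure (subset_convexHull ℝ O ⟨m * l, rfl⟩)
      · intro x hx y hy a b ha hb hab
        change σ m (a • x + b • y) ∈ C0
        have ea : a • x = (a : ℂ) • x := rfl
        have eb : b • y = (b : ℂ) • y := rfl
        rw [ea, eb, map_add, map_smul, map_smul]
        exact hC0conv hx hy ha hb hab
    exact fun x hx => h1 hx
  obtain ⟨η, hη, hfix⟩ : ∃ η ∈ C0, ∀ m, σ m η = η := by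
    let _ : InnerProductSpace ℝ K := InnerProductSpace.complexToReal
    exact hu_fix (fun m x => σ m x) C0
      ⟨σ 1 η0, subset_closure (subset_convexHull ℝ O ⟨1, rfl⟩)⟩ isClosed_closure hC0conv hσC0
      (fun m x => (hLn m _).trans (hRn m x))
  obtain ⟨k1, k2, k3, k4⟩ := hC0C hη
  refine ⟨η, ?_, k1, k3, ?_⟩
  · rintro rfl
    rw [inner_zero_left] at k4
    simp only [Complex.zero_re] at k4
    linarith
  · intro l
    have e1 : R l⁻¹ (σ l η) = R l⁻¹ η := by rw [hfix]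
    rw [hσ, ← hLR] at e1
    have e2 : R l⁻¹ (R l η) = R (l⁻¹ * l) η := (ext_mul B' E.conj l⁻¹ l η).symm
    rw [e2, inv_mul_cancel] at e1
    have e3 : R 1 η = η := ext_one_apply E.conj k2
    rw [e3] at e1
    exact e1

end Pool.Agent.Helper84.NI
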