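import Pool.Agent.Helper84.NI.Abs

/-!
# Project NI, block E2: right multiplication by a unitary of `L(G)`

`jjU u⁻¹` is the right multiplication by `u` (`GVN.jjU u` is the right multiplication by `u^*`).
PROOFS. `jj_dl`: `jjU u⁻¹` commutes with `lamU g` (`CommR.jjU_lam`, the inverse of a `CommR` unitary is `CommR`) and
`jjU u⁻¹ (dl 1) x = conj (cf u⁻¹ x⁻¹) = cf u x` (`jjU_dl_one`; `cf u⁻¹ x⁻¹ = (u⁻¹ (dl 1)) x⁻¹ = ⟪dl x⁻¹, u⁻¹ (dl 1)⟫ = ⟪u (dl x⁻¹), dl 1⟫
= conj (u (dl x⁻¹) 1) = conj (cf u x)` by `CommR.apply_dl`).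
`jj_comm`: from `comm_of_commR` (`u` commutes with right translations, `jjU v` with left translations).
`norm_kop`: `adjoint T ∘ T` commutes with `lamU g` (as `A g` is unitary: `⟪T (lamU g x), T (lamU g y)⟫ = ⟪T x, T y⟫`), hence with `u`
(`CommR.inL`, i.e. `InL u`), so `‖T (u (dl 1))‖^2 = ⟪T* T u δ, u δ⟫ = ⟪u T* T δ, u δ⟫ = ‖T δ‖^2`.
-/

set_option autoImplicit false

open scoped ComplexConjugate

namespace Pool.Agent.Helper84.NI

open GVN

variable {G : Type} [Group G] {H : Type} [NormedAddCommGroup H] [InnerProductSpace ℂ H]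

theorem commR_inv {u : L2 G ≃ₗᵢ[ℂ] L2 G} (hu : CommR u) : CommR u⁻¹ := by
  intro k f
  apply u.injective
  have h1 : ∀ x, u (u⁻¹ x) = x := fun x => u.apply_symm_apply x
  rw [h1, hu, h1]

theorem jj_dl {u : L2 G ≃ₗᵢ[ℂ] L2 G} (hu : CommR u) (g : G) :
    jjU u⁻¹ (dl g) = lamU g (cf u) := by
  have h0 : (dl g : L2 G) = lamU g (dl 1) := by rw [lamU_dl, mul_one]
  rw [h0, (commR_inv hu).jjU_lam]
  congr 1
  apply l2_ext
  intro x
  rw [jjU_dl_one]
  have h1 : ∀ x, u (u⁻¹ x) = x := fun x => u.apply_symm_apply x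
  have h2 : cf u⁻¹ x⁻¹ = conj (cf u x) := by
    calc cf u⁻¹ x⁻¹ = inner ℂ (dl x⁻¹) (u⁻¹ (dl 1)) := (inner_dl_left _ _).symm
      _ = inner ℂ (u (dl x⁻¹)) (u (u⁻¹ (dl 1))) := (LinearIsometryEquiv.inner_map_map u _ _).symm
      _ = inner ℂ (u (dl x⁻¹)) (dl 1) := by rw [h1]
      _ = conj (u (dl x⁻¹) 1) := inner_dl_right _ _
      _ = conj (cf u x) := by rw [hu.apply_dl, inv_inv, one_mul]
  rw [h2, Complex.conj_conj]

theorem jj_comm {u : L2 G ≃ₗᵢ[ℂ] L2 G} (hu : CommR u) {v : L2 G ≃ₗᵢ[ℂ] L2 G} (hv : CommR v) (f : L2 G) :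
    jjU v (u f) = u (jjU v f) := by
  have h := comm_of_commR (u := (u.toContinuousLinearEquiv : L2 G →L[ℂ] L2 G))
    (S := ((jjU v).toContinuousLinearEquiv : L2 G →L[ℂ] L2 G)) hu (fun k f => hv.jjU_lam k f)
  exact DFunLike.congr_fun h f

theorem inner_kop_aux [CompleteSpace H] {A : G →* (H ≃ₗᵢ[ℂ] H)} {T S : L2 G →L[ℂ] H}
    (hT : ∀ g f, T (lamU g f) = A g (T f)) (hS : ∀ g f, S (lamU g f) = A g (S f))
    {u : L2 G ≃ₗᵢ[ℂ] L2 G} (hu : CommR u) (f g : L2 G) :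
    inner ℂ (T (u f)) (S (u g)) = inner ℂ (T f) (S g) := by
  have hlam : ∀ (k : G) (x : L2 G), lamU k (lamU k⁻¹ x) = x := by
    intro k x
    apply l2_ext; intro z; simp
  have hM : ∀ (k : G) (x : L2 G), (ContinuousLinearMap.adjoint S) (T (lamU k x)) =
      lamU k ((ContinuousLinearMap.adjoint S) (T x)) := by
    intro k x
    apply ext_inner_right ℂ
    intro y
    rw [ContinuousLinearMap.adjoint_inner_left, hT]
    have h1 : S y = A k (S (lamU k⁻¹ y)) := by rw [← hS, hlam]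
    rw [h1, LinearIsometryEquiv.inner_map_map, ← ContinuousLinearMap.adjoint_inner_left,
      ← LinearIsometryEquiv.inner_map_map (lamU k), hlam]
  have h2 := (CommR.inL hu) ((ContinuousLinearMap.adjoint S).comp T) (fun k x => hM k x) f
  have h3 : (ContinuousLinearMap.adjoint S) (T (u f)) = u ((ContinuousLinearMap.adjoint S) (T f)) := h2
  rw [← ContinuousLinearMap.adjoint_inner_left, h3, LinearIsometryEquiv.inner_map_map,
    ContinuousLinearMap.adjoint_inner_left]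

/-- An operator intertwining the left translations with a unitary representation is isometric on the
unitaries of `L(G)`, up to its value at `δ_1`. -/
theorem norm_kop [CompleteSpace H] {A : G →* (H ≃ₗᵢ[ℂ] H)} {T : L2 G →L[ℂ] H}
    (hT : ∀ g f, T (lamU g f) = A g (T f)) {u : L2 G ≃ₗᵢ[ℂ] L2 G} (hu : CommR u) :
    ‖T (cf u)‖ = ‖T (dl 1)‖ := by
  have h := inner_kop_aux hT hT hu (dl 1) (dl 1)
  rw [@norm_eq_sqrt_re_inner ℂ _ _ _ _ (T (cf u)), @norm_eq_sqrt_re_inner ℂ _ _ _ _ (T (dl 1))]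
  unfold cf
  rw [h]

/-- Operators intertwining the left translations commute with `u`, resp. composition. -/
theorem inner_kop [CompleteSpace H] {A : G →* (H ≃ₗᵢ[ℂ] H)} {T S : L2 G →L[ℂ] H}
    (hT : ∀ g f, T (lamU g f) = A g (T f)) (hS : ∀ g f, S (lamU g f) = A g (S f))
    {u : L2 G ≃ₗᵢ[ℂ] L2 G} (hu : CommR u) (f g : L2 G) :
    inner ℂ (T (u f)) (S (u g)) = inner ℂ (T f) (S g) :=
  inner_kop_aux hT hS hu f g

end Pool.Agent.Helper84.NI
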