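import Pool.Agent.Helper84.NI.E3

/-!
# Project NI, block E4: properties of the extension `ext A E`

Definitions: `ext A E l` is the bounded operator of `exists_ext`; it is isometric on `VB A` and vanishes on the orthogonal complement.
PROOFS. `ext_kop`: for bounded `η` with operator `T` as in `exists_kop`, `ext A E l η = T (cf (E.U l))` (uniqueness of sums, `clm_ext`).
`ext_bdd`: `∑ a_g A_g (ext l η) = T (∑ a_g lamU g (cf u)) = T (jjU u⁻¹ (∑ a_g dl g))` (`jj_dl`), norm `≤ c (∑ |a_g|^2)^(1/2)`.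
`ext_mul` on bounded `η`: the operator of `η' = ext m η` is `T ∘ jjU v⁻¹` (`v = E.U m`), so `ext l η' = T (jjU v⁻¹ (u (dl 1))) =
T (u (jjU v⁻¹ (dl 1))) = T (u (v (dl 1)))` (`jj_comm`, `jj_dl` with `g = 1`) `= T (cf (u * v))`. Then by density and continuity on `VB A`, and on the
complement both sides vanish (decompose with the projection). `ext_one_apply`: `T (cf 1) = T (dl 1) = η`. `norm_ext` by density from `norm_kop`.
`ext_mem`: bounded vectors go to bounded vectors, closure.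
-/

set_option autoImplicit false

open scoped ComplexConjugate

namespace Pool.Agent.Helper84.NI

open GVN

variable {G Λ : Type} [Group G] [Group Λ] {H K : Type} [NormedAddCommGroup H] [InnerProductSpace ℂ H]
  [NormedAddCommGroup K] [InnerProductSpace ℂ K] [CompleteSpace H] [CompleteSpace K]

/-- The extension of `A` to `Λ`, zero on the complement of `VB A`. -/
noncomputable def ext (A : G →* (H ≃ₗᵢ[ℂ] H)) (E : Emb Λ G) : Λ → (H →L[ℂ] H) :=
  (exists_ext A E).choose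

theorem hasSum_ext {A : G →* (H ≃ₗᵢ[ℂ] H)} (E : Emb Λ G) (l : Λ) {c : ℝ} {η : H} (h : Bdd A c η) :
    HasSum (fun g => cf (E.U l) g • A g η) (ext A E l η) :=
  (exists_ext A E).choose_spec.1 l c η h

theorem ext_perp {A : G →* (H ≃ₗᵢ[ℂ] H)} (E : Emb Λ G) (l : Λ) {η : H} (h : η ∈ (VB A)ᗮ) :
    ext A E l η = 0 := (exists_ext A E).choose_spec.2 l η h

theorem ext_kop {A : G →* (H ≃ₗᵢ[ℂ] H)} (E : Emb Λ G) (l : Λ) {c : ℝ} {η : H} (h : Bdd A c η)
    {T : L2 G →L[ℂ] H} (hT : ∀ g, T (dl g) = A g η) : ext A E l η = T (cf (E.U l)) := by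
  obtain ⟨T', -, h2, -, h4⟩ := exists_kop h
  have e : T = T' := clm_ext fun g => by rw [hT, h2]
  rw [e]
  exact (hasSum_ext E l h).unique (h4 _)

omit [Group G] in
private theorem h27_orth : Orthonormal ℂ (fun g : G => (dl g : L2 G)) := by
  classical
  rw [orthonormal_iff_ite]
  intro i j
  rw [inner_dl_left, dl_apply]

omit [Group G] in
private theorem h27_norm_sum (s : Finset G) (a : G → ℂ) :
    ‖∑ g ∈ s, a g • (dl g : L2 G)‖ ^ 2 = ∑ g ∈ s, ‖a g‖ ^ 2 := by
  have h1 := (h27_orth (G := G)).inner_sum a a s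
  rw [norm_sq_eq_re_inner (𝕜 := ℂ), h1, map_sum]
  refine Finset.sum_congr rfl fun g _ => ?_
  rw [Complex.conj_mul']
  change (((‖a g‖ : ℂ) ^ 2)).re = _
  rw [← Complex.ofReal_pow, Complex.ofReal_re]

theorem ext_bdd {A : G →* (H ≃ₗᵢ[ℂ] H)} (E : Emb Λ G) (l : Λ) {c : ℝ} {η : H} (h : Bdd A c η) :
    Bdd A c (ext A E l η) := by
  obtain ⟨T, h1, h2, h3, -⟩ := exists_kop h
  have hu := E.comm l
  refine ⟨h.1, fun s a => ?_⟩
  have e : ∑ g ∈ s, a g • A g (ext A E l η) = T (jjU (E.U l)⁻¹ (∑ g ∈ s, a g • (dl g : L2 G))) := by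
    rw [map_sum, map_sum]
    refine Finset.sum_congr rfl fun g _ => ?_
    rw [map_smul, map_smul, jj_dl hu, h3, ext_kop E l h h2]
  rw [e, ← h27_norm_sum s a, ← mul_pow]
  refine pow_le_pow_left₀ (norm_nonneg _) ?_ 2
  refine (h1 _).trans ?_
  rw [LinearIsometryEquiv.norm_map]

omit [CompleteSpace H] in
private theorem h27_closure {A : G →* (H ≃ₗᵢ[ℂ] H)} {F F' : H → H} (hF : Continuous F) (hF' : Continuous F')
    (h : ∀ c η, Bdd A c η → F η = F' η) {η : H} (hη : η ∈ VB A) : F η = F' η := by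
  have hc : IsClosed {η : H | F η = F' η} := isClosed_eq hF hF'
  have hs : (BddSub A : Set H) ⊆ {η : H | F η = F' η} := by
    rintro ξ ⟨c, hc'⟩
    exact h c ξ hc'
  exact closure_minimal hs hc hη

private theorem h27_dec (A : G →* (H ≃ₗᵢ[ℂ] H)) (η : H) :
    ∃ p ∈ VB A, ∃ q ∈ (VB A)ᗮ, η = p + q ∧ ‖p‖ ≤ ‖η‖ := by
  refine ⟨(VB A).starProjection η, (VB A).starProjection_apply_mem η, η - (VB A).starProjection η,
    (VB A).sub_starProjection_mem_orthogonal η, by abel, ?_⟩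
  exact (VB A).norm_starProjection_apply_le η

theorem norm_ext {A : G →* (H ≃ₗᵢ[ℂ] H)} (E : Emb Λ G) (l : Λ) {η : H} (h : η ∈ VB A) :
    ‖ext A E l η‖ = ‖η‖ := by
  have hc : IsClosed {η : H | ‖ext A E l η‖ = ‖η‖} :=
    isClosed_eq (ext A E l).continuous.norm continuous_norm
  have hs : (BddSub A : Set H) ⊆ {η : H | ‖ext A E l η‖ = ‖η‖} := by
    rintro ξ ⟨c, hb⟩
    obtain ⟨T, h1, h2, h3, -⟩ := exists_kop hb
    change ‖ext A E l ξ‖ = ‖ξ‖
    rw [ext_kop E l hb h2, norm_kop h3 (E.comm l), h2, map_one]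
    rfl
  exact closure_minimal hs hc h

theorem norm_ext_le (A : G →* (H ≃ₗᵢ[ℂ] H)) (E : Emb Λ G) (l : Λ) (η : H) :
    ‖ext A E l η‖ ≤ ‖η‖ := by
  obtain ⟨p, hp, q, hq, e, hn⟩ := h27_dec A η
  have h1 : ext A E l η = ext A E l p := by
    conv_lhs => rw [e]
    rw [map_add, ext_perp E l hq, add_zero]
  rw [h1, norm_ext E l hp]
  exact hn

theorem ext_mem (A : G →* (H ≃ₗᵢ[ℂ] H)) (E : Emb Λ G) (l : Λ) (η : H) :
    ext A E l η ∈ VB A := by
  obtain ⟨p, hp, q, hq, e, -⟩ := h27_dec A η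
  have h1 : ext A E l η = ext A E l p := by
    conv_lhs => rw [e]
    rw [map_add, ext_perp E l hq, add_zero]
  rw [h1]
  have hc : IsClosed {η : H | ext A E l η ∈ VB A} := (isClosed_VB A).preimage (ext A E l).continuous
  have hs : (BddSub A : Set H) ⊆ {η : H | ext A E l η ∈ VB A} := by
    rintro ξ ⟨c, hb⟩
    exact (ext_bdd E l hb).mem_VB
  exact closure_minimal hs hc hp

theorem ext_one_apply {A : G →* (H ≃ₗᵢ[ℂ] H)} (E : Emb Λ G) {η : H} (h : η ∈ VB A) :
    ext A E 1 η = η := by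
  refine h27_closure (F := ext A E 1) (F' := fun x => x) (ext A E 1).continuous continuous_id ?_ h
  intro c ξ hb
  obtain ⟨T, h1, h2, h3, -⟩ := exists_kop hb
  rw [ext_kop E 1 hb h2, map_one]
  have e : cf (1 : L2 G ≃ₗᵢ[ℂ] L2 G) = dl 1 := rfl
  rw [e, h2, map_one]
  rfl

theorem ext_mul (A : G →* (H ≃ₗᵢ[ℂ] H)) (E : Emb Λ G) (l m : Λ) (η : H) :
    ext A E (l * m) η = ext A E l (ext A E m η) := by
  obtain ⟨p, hp, q, hq, e, -⟩ := h27_dec A η
  rw [e, map_add, map_add, ext_perp E (l * m) hq, ext_perp E m hq, add_zero, add_zero]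
  refine h27_closure (F := ext A E (l * m)) (F' := fun x => ext A E l (ext A E m x)) (ext A E (l * m)).continuous
    ((ext A E l).continuous.comp (ext A E m).continuous) ?_ hp
  intro c ξ hb
  obtain ⟨T, h1, h2, h3, -⟩ := exists_kop hb
  have hv := E.comm m
  have hT' : ∀ g, (T.comp ((jjU (E.U m)⁻¹).toContinuousLinearEquiv : L2 G →L[ℂ] L2 G)) (dl g) =
      A g (ext A E m ξ) := by
    intro g
    rw [ext_kop E m hb h2, ← h3, ← jj_dl hv]
    rfl
  rw [ext_kop E l (ext_bdd E m hb) hT', ext_kop E (l * m) hb h2, map_mul]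
  have e1 : (T.comp ((jjU (E.U m)⁻¹).toContinuousLinearEquiv : L2 G →L[ℂ] L2 G)) (cf (E.U l)) =
      T (jjU (E.U m)⁻¹ (E.U l (dl 1))) := rfl
  rw [e1, jj_comm (E.comm l) (commR_inv hv), jj_dl hv, lamU_one]
  rfl

end Pool.Agent.Helper84.NI
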