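import Pool.Agent.Helper84.NI.Wall
import Pool.Agent.Helper84.NI.Cen

/-!
# Project NI: representations on invariant subspaces
-/

set_option autoImplicit false

open Filter Topology

namespace Pool.Agent.Helper84.NI

open GVN

section Partial

variable {G : Type} [Group G] {H : Type} [NormedAddCommGroup H] [InnerProductSpace ℂ H]

/-- A family of unitaries that is a representation on an invariant subspace. -/
noncomputable def partialRep (T : G → (H ≃ₗᵢ[ℂ] H)) (V : Submodule ℂ H)
    (h : ∀ g, ∀ x ∈ V, T g x ∈ V) (h1 : ∀ x ∈ V, T 1 x = x)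
    (hm : ∀ g g', ∀ x ∈ V, T (g * g') x = T g (T g' x)) : G →* (V ≃ₗᵢ[ℂ] V) where
  toFun g :=
    { toFun := fun x => ⟨T g x, h g x x.2⟩
      invFun := fun x => ⟨T g⁻¹ x, h g⁻¹ x x.2⟩
      left_inv := fun x => by
        apply Subtype.ext
        change T g⁻¹ (T g x) = x
        rw [← hm _ _ _ x.2, inv_mul_cancel, h1 _ x.2]
      right_inv := fun x => by
        apply Subtype.ext
        change T g (T g⁻¹ x) = x
        rw [← hm _ _ _ x.2, mul_inv_cancel, h1 _ x.2]
      map_add' := fun x y => by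
        apply Subtype.ext
        exact map_add (T g) _ _
      map_smul' := fun c x => by
        apply Subtype.ext
        exact map_smul (T g) _ _
      norm_map' := fun x => by
        change ‖T g x‖ = ‖(x : H)‖
        exact LinearIsometryEquiv.norm_map _ _ }
  map_one' := by
    ext x
    exact h1 x x.2
  map_mul' g g' := by
    ext x
    exact hm g g' x x.2

theorem coe_partialRep {T : G → (H ≃ₗᵢ[ℂ] H)} {V : Submodule ℂ H} {h : ∀ g, ∀ x ∈ V, T g x ∈ V}
    {h1 : ∀ x ∈ V, T 1 x = x} {hm : ∀ g g', ∀ x ∈ V, T (g * g') x = T g (T g' x)} (g : G) (x : V) :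
    (partialRep T V h h1 hm g x : H) = T g x := rfl

/-- Restriction of a representation to an invariant subspace. -/
noncomputable def restrictRep (A : G →* (H ≃ₗᵢ[ℂ] H)) (V : Submodule ℂ H)
    (h : ∀ g, ∀ x ∈ V, A g x ∈ V) : G →* (V ≃ₗᵢ[ℂ] V) :=
  partialRep (fun g => A g) V h (fun x _ => by rw [map_one]; rfl) (fun g g' x _ => by rw [map_mul]; rfl)

theorem coe_restrictRep {A : G →* (H ≃ₗᵢ[ℂ] H)} {V : Submodule ℂ H} {h : ∀ g, ∀ x ∈ V, A g x ∈ V}
    (g : G) (x : V) : (restrictRep A V h g x : H) = A g x := rfl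

end Partial

/-- The left action on the limit space. -/
noncomputable def Alim (G : Type) [Group G] : G →* (UP (L2 G) ≃ₗᵢ[ℂ] UP (L2 G)) := UP.rep (lamR G)

/-- The right action on the limit space. -/
noncomputable def Blim (G : Type) [Group G] : G →* (UP (L2 G) ≃ₗᵢ[ℂ] UP (L2 G)) := UP.rep (rhoR G)

end Pool.Agent.Helper84.NI
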