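import Pool.Agent.Helper84.NI.Wall
import Pool.Agent.Helper90.Fib.Gns
import Pool.Agent.Helper90.Fib.Uni
import Pool.Agent.Helper90.Fib.Psd
import Pool.Agent.Helper90.Fib.Pauli

/-!
# Project NI, interface FS: the fibre representations near the trivial one (owner: helper90)

PROOF. Kernel on invertible matrices: `k(C, D) = (2 |det (C⁻¹D)| / ns (C⁻¹D))^s`. With `p(C) = C Cᴴ / |det C| = x0 + x'·σ` (Pauli matrices), `x0 > 0`, `x0^2 - |x'|^2 = 1`,
`ns (C⁻¹D) / (2 |det (C⁻¹D)|) = x0 y0 - ⟨x', y'⟩ = x0 y0 (1 - t)`, `t = ⟨x'/x0, y'/y0⟩ ∈ (-1, 1)`, so `k = (x0 y0)^(-s) (1 - t)^(-s)` is positive semidefinite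
(sums, limits and Schur products of positive semidefinite kernels). Hilbert space with vectors `e_C`, `⟪e_C, e_D⟫ = k(C, D)`, total (`RKHS.OfKernel`); `π(B) e_C = e_{BC}`
(isometric as `k(BC, BD) = k(C, D)`), `v = e_1`, `k(k0, 1) = 1` for `k0` unitary; continuity: `‖e_C - e_D‖^2 = 2 - 2 k(C, D)`; scalars: `k(c C, D) = k(C, D)`.
-/

set_option autoImplicit false

open Filter Topology Matrix
open scoped ComplexOrder

namespace Pool.Agent.Helper90.Fib

open Pool.Agent.Helper84.NI

/-- invertible matrices -/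
abbrev XX : Type := {C : M2 // C.det ≠ 0}

/-- the scalar kernel -/
noncomputable def kf (s : ℝ) (A : M2) : ℝ := (2 * ‖A.det‖ / ns A) ^ s

/-- the kernel -/
noncomputable def ker (s : ℝ) : Matrix XX XX ℂ := Matrix.of fun C D => ((kf s (C.1⁻¹ * D.1) : ℝ) : ℂ)

theorem ker_psd {s : ℝ} (hs : 0 < s) : (ker s).PosSemidef := by
  have hu : ∀ C : XX, ∑ i, (xx C.1 i / x0 C.1) ^ 2 < 1 := by
    intro C
    have h0 := x0_pos C.1 C.2
    have h1 := x0_sq C.1 C.2
    have e : ∑ i, (xx C.1 i / x0 C.1) ^ 2 = (∑ i, xx C.1 i ^ 2) / x0 C.1 ^ 2 := by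
      rw [Finset.sum_div]
      exact Finset.sum_congr rfl fun i _ => div_pow _ _ _
    rw [e, div_lt_one (by positivity)]
    linarith
  have h2 := psd_diag (psd_rpow (fun C : XX => fun i => xx C.1 i / x0 C.1) hu hs)
    (fun C : XX => x0 C.1 ^ (-s))
  convert h2 using 1
  ext C D
  simp only [ker, kf, Matrix.of_apply]
  obtain ⟨h3, h4⟩ := ker_pos C.1 D.1 C.2 D.2
  have hc := x0_pos C.1 C.2
  have hd := x0_pos D.1 D.2
  have e1 : x0 C.1 * x0 D.1 - ∑ i, xx C.1 i * xx D.1 i =
      x0 C.1 * (1 - ∑ i, xx C.1 i / x0 C.1 * (xx D.1 i / x0 D.1)) * x0 D.1 := by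
    have e2 : ∑ i, xx C.1 i / x0 C.1 * (xx D.1 i / x0 D.1) =
        (∑ i, xx C.1 i * xx D.1 i) / (x0 C.1 * x0 D.1) := by
      rw [Finset.sum_div]
      exact Finset.sum_congr rfl fun i _ => by rw [div_mul_div_comm]
    rw [e2]
    field_simp
  have h5 : 0 < 1 - ∑ i, xx C.1 i / x0 C.1 * (xx D.1 i / x0 D.1) := by
    rw [e1] at h3
    by_contra hn
    push Not at hn
    have : x0 C.1 * (1 - ∑ i, xx C.1 i / x0 C.1 * (xx D.1 i / x0 D.1)) * x0 D.1 ≤ 0 :=
      mul_nonpos_of_nonpos_of_nonneg (mul_nonpos_of_nonneg_of_nonpos hc.le hn) hd.le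
    linarith
  rw [h4, e1, Real.inv_rpow (by positivity), ← Real.rpow_neg (by positivity),
    Real.mul_rpow (by positivity) hd.le, Real.mul_rpow hc.le h5.le]
  push_cast
  rfl

theorem kf_one (s : ℝ) : kf s 1 = 1 := by
  have h : ns (1 : M2) = 2 := by
    have := (ns_unitary 1 (by simp [IsU])).1
    exact this
  simp [kf, h]

theorem exists_fib_s' (s : ℝ) (hs : 0 < s) :
    ∃ (L : Type) (_ : NormedAddCommGroup L) (_ : InnerProductSpace ℂ L) (_ : CompleteSpace L) (Φ : Fib L),
      ∀ C : M2, C.det ≠ 0 → inner ℂ Φ.v (Φ.π C Φ.v) = (((2 * ‖C.det‖ / ns C) ^ s : ℝ) : ℂ) := by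
  classical
  obtain ⟨L, i1, i2, i3, e, he, ht⟩ := exists_gns (ker s) (ker_psd hs)
  refine ⟨L, i1, i2, i3, ?_⟩
  have hker : ∀ C D : XX, inner ℂ (e C) (e D) = ((kf s (C.1⁻¹ * D.1) : ℝ) : ℂ) := he
  have hself : ∀ C : XX, kf s (C.1⁻¹ * C.1) = 1 := by
    intro C
    rw [Matrix.nonsing_inv_mul _ (isUnit_iff_ne_zero.2 C.2), kf_one]
  -- norm formula
  have hn : ∀ C D : XX, ‖e C - e D‖ ^ 2 = 2 - 2 * kf s (C.1⁻¹ * D.1) := by
    intro C D
    have h1 : ‖e C‖ ^ 2 = 1 := by
      rw [← inner_self_eq_norm_sq (𝕜 := ℂ), hker, hself]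
      simp
    have h2 : ‖e D‖ ^ 2 = 1 := by
      rw [← inner_self_eq_norm_sq (𝕜 := ℂ), hker, hself]
      simp
    rw [@norm_sub_sq ℂ, h1, h2, hker]
    simp
    ring
  have heq : ∀ C D : XX, kf s (C.1⁻¹ * D.1) = 1 → e C = e D := by
    intro C D h
    have h1 := hn C D
    rw [h] at h1
    have h2 : ‖e C - e D‖ = 0 := by nlinarith [norm_nonneg (e C - e D)]
    exact sub_eq_zero.1 (norm_eq_zero.1 h2)
  have hm : ∀ (B : M2) (hB : B.det ≠ 0) (C : XX), (B * C.1).det ≠ 0 := by
    intro B hB C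
    rw [Matrix.det_mul]
    exact mul_ne_zero hB C.2
  -- the unitary of B
  have hU : ∀ B : M2, ∃ U : L ≃ₗᵢ[ℂ] L, ∀ (hB : B.det ≠ 0) (C : XX), U (e C) = e ⟨B * C.1, hm B hB C⟩ := by
    intro B
    by_cases hB : B.det ≠ 0
    · obtain ⟨U, hU⟩ := exists_unitary e (fun C : XX => e ⟨B * C.1, hm B hB C⟩) (by
        intro C D
        rw [hker, hker]
        congr 2
        simp only
        rw [Matrix.mul_inv_rev, Matrix.mul_assoc, ← Matrix.mul_assoc B⁻¹ B D.1,
          Matrix.nonsing_inv_mul _ (isUnit_iff_ne_zero.2 hB), Matrix.one_mul]) ht (by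
        have h1 : Set.range (fun C : XX => e ⟨B * C.1, hm B hB C⟩) = Set.range e := by
          apply Set.Subset.antisymm
          · rintro _ ⟨C, rfl⟩
            exact ⟨_, rfl⟩
          · rintro _ ⟨C, rfl⟩
            have hBi : (B⁻¹).det ≠ 0 := by
              rw [Matrix.det_nonsing_inv]
              simpa using hB
            refine ⟨⟨B⁻¹ * C.1, hm _ hBi C⟩, ?_⟩
            simp only
            congr 1
            apply Subtype.ext
            simp only
            rw [← Matrix.mul_assoc, Matrix.mul_nonsing_inv _ (isUnit_iff_ne_zero.2 hB), Matrix.one_mul]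
        rw [h1]
        exact ht)
      exact ⟨U, fun _ C => hU C⟩
    · exact ⟨1, fun h => absurd h hB⟩
  choose U hU using hU
  have h1d : (1 : M2).det ≠ 0 := by simp
  let Φ : Fib L :=
    { π := U
      mul := by
        intro C D hC hD w
        have hCD : (C * D).det ≠ 0 := by
          rw [Matrix.det_mul]
          exact mul_ne_zero hC hD
        have := eq_of_total e ht
          (S := ((U (C * D)).toContinuousLinearEquiv : L →L[ℂ] L))
          (T := ((U C).toContinuousLinearEquiv : L →L[ℂ] L).comp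
            ((U D).toContinuousLinearEquiv : L →L[ℂ] L)) (by
            intro x
            change U (C * D) (e x) = U C (U D (e x))
            rw [hU _ hCD, hU _ hD, hU _ hC]
            congr 1
            apply Subtype.ext
            exact Matrix.mul_assoc C D x.1) w
        exact this
      scal := by
        intro c C hc hC
        have hcC : (c • C).det ≠ 0 := by
          rw [Matrix.det_smul]
          exact mul_ne_zero (pow_ne_zero _ hc) hC
        ext w
        have := eq_of_total e ht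
          (S := ((U (c • C)).toContinuousLinearEquiv : L →L[ℂ] L))
          (T := ((U C).toContinuousLinearEquiv : L →L[ℂ] L)) (by
            intro x
            change U (c • C) (e x) = U C (e x)
            rw [hU _ hcC, hU _ hC]
            symm
            apply heq
            simp only
            rw [Matrix.smul_mul, Matrix.mul_smul,
              Matrix.nonsing_inv_mul _ (isUnit_iff_ne_zero.2 (hm C hC x))]
            have hns : ns (c • (1 : M2)) = 2 * ‖c‖ ^ 2 := by
              simp [ns, Fin.sum_univ_two, Matrix.one_apply]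
              ring
            have hc' : 0 < ‖c‖ := norm_pos_iff.2 hc
            rw [kf, hns, Matrix.det_smul]
            simp
            rw [div_self (by positivity), Real.one_rpow]) w
        exact this
      cont := by
        intro w
        refine cont_of_total e ht U (fun x => ?_) w
        intro B₀ hB₀
        rw [Set.mem_ofPred_eq] at hB₀
        rw [ContinuousWithinAt, tendsto_iff_norm_sub_tendsto_zero]
        have hk : Tendsto (fun B : M2 => kf s ((B₀ * x.1)⁻¹ * (B * x.1))) (𝓝[{C : M2 | C.det ≠ 0}] B₀) (𝓝 1) := by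
          have h1 := ker_cont (B₀ * x.1) (hm B₀ hB₀ x)
          have h2 := h1 (B₀ * x.1) (hm B₀ hB₀ x)
          have h3 : Tendsto (fun B : M2 => B * x.1) (𝓝[{C : M2 | C.det ≠ 0}] B₀)
              (𝓝[{C : M2 | C.det ≠ 0}] (B₀ * x.1)) := by
            rw [tendsto_nhdsWithin_iff]
            refine ⟨(Continuous.tendsto (by fun_prop) B₀).mono_left nhdsWithin_le_nhds, ?_⟩
            filter_upwards [self_mem_nhdsWithin] with B hB
            exact hm B hB x
          have h4 := (h2.tendsto).comp h3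
          have h5 : 2 * ‖((B₀ * x.1)⁻¹ * (B₀ * x.1)).det‖ / ns ((B₀ * x.1)⁻¹ * (B₀ * x.1)) = 1 := by
            rw [Matrix.nonsing_inv_mul _ (isUnit_iff_ne_zero.2 (hm B₀ hB₀ x))]
            have h : ns (1 : M2) = 2 := (ns_unitary 1 (by simp [IsU])).1
            simp [h]
          rw [h5] at h4
          have h6 := (Real.continuousAt_rpow_const 1 s (Or.inl one_ne_zero)).tendsto.comp h4
          rw [Real.one_rpow] at h6
          exact h6
        have hsq : Tendsto (fun B : M2 => ‖U B (e x) - U B₀ (e x)‖ ^ 2) (𝓝[{C : M2 | C.det ≠ 0}] B₀) (𝓝 0) := by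
          have h1 := (hk.const_mul 2).const_sub 2
          have h2 : (2 : ℝ) - 2 * 1 = 0 := by norm_num
          rw [h2] at h1
          refine h1.congr' ?_
          filter_upwards [self_mem_nhdsWithin] with B hB
          rw [hU B hB, hU B₀ hB₀, norm_sub_rev, hn]
        have hsq2 := (Real.continuous_sqrt.tendsto 0).comp hsq
        rw [Real.sqrt_zero] at hsq2
        refine hsq2.congr fun B => ?_
        exact Real.sqrt_sq (norm_nonneg _)
      v := e ⟨1, h1d⟩
      nv := by
        have h1 : ‖e ⟨1, h1d⟩‖ ^ 2 = 1 := by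
          rw [← inner_self_eq_norm_sq (𝕜 := ℂ), hker, hself]
          simp
        nlinarith [norm_nonneg (e ⟨1, h1d⟩)]
      inv := by
        intro k hk
        obtain ⟨h1, h2⟩ := ns_unitary k hk
        have hk0 : k.det ≠ 0 := by
          intro h
          rw [h] at h2
          simp at h2
        rw [hU k hk0]
        symm
        apply heq
        simp only
        rw [Matrix.mul_one, inv_one, Matrix.one_mul, kf, h1, h2]
        norm_num }
  refine ⟨Φ, fun C hC => ?_⟩
  change inner ℂ (e ⟨1, h1d⟩) (U C (e ⟨1, h1d⟩)) = _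
  rw [hU C hC, hker]
  simp only
  rw [Matrix.mul_one, inv_one, Matrix.one_mul, kf]

end Pool.Agent.Helper90.Fib

namespace Pool.Agent.Helper84.NI

theorem exists_fib_s (s : ℝ) (hs : 0 < s) :
    ∃ (L : Type) (_ : NormedAddCommGroup L) (_ : InnerProductSpace ℂ L) (_ : CompleteSpace L) (Φ : Fib L),
      ∀ C : M2, C.det ≠ 0 → inner ℂ Φ.v (Φ.π C Φ.v) = (((2 * ‖C.det‖ / ns C) ^ s : ℝ) : ℂ) :=
  Pool.Agent.Helper90.Fib.exists_fib_s' s hs

end Pool.Agent.Helper84.NI
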