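import Pool.Agent.Helper84.NI.F3

/-!
# Project NI, block F4: contradiction with property (T)

PROOF. Take `ε < κ` small and `F = Q` (finite Kazhdan set) in `almost_inv`; the Kazhdan pair applied to the left regular representation `lamR Λ` on `L2 Λ` gives a nonzero
invariant vector `z`: `z (l⁻¹ x) = z x`, so `‖z‖` is constant on the infinite group `Λ`, but square summable: `z = 0`.
-/

set_option autoImplicit false

namespace Pool.Agent.Helper84.NI

open GVN

variable {G Λ : Type} [Group G] [Group Λ] {H : Type} [NormedAddCommGroup H] [InnerProductSpace ℂ H]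
  [CompleteSpace H]

/-- no nonzero invariant vector in the left regular representation of an infinite group -/
private theorem lamU_inv_zero [Infinite Λ] {z : L2 Λ} (hz : ∀ g, lamU g z = z) : z = 0 := by
  have h1 : ∀ x, z x = z 1 := by
    intro x
    have h := congrArg (fun w : L2 Λ => w x) (hz x)
    simp only [lamU_apply, inv_mul_cancel] at h
    exact h.symm
  have h2 := summable_sq z
  have h3 : (fun i => ‖z i‖ ^ 2) = fun _ : Λ => ‖z 1‖ ^ 2 := by
    funext i
    rw [h1 i]
  rw [h3, summable_const_iff] at h2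
  have h4 : z 1 = 0 := by
    have := pow_eq_zero_iff (two_ne_zero) |>.1 h2
    exact norm_eq_zero.1 this
  apply l2_ext
  intro i
  rw [h1 i, h4]
  rfl

theorem no_central [Infinite Λ] {Q : Finset Λ} {κ : ℝ} (hK : IsKazhdanPair Λ (Q : Set Λ) κ)
    {A B : G →* (H ≃ₗᵢ[ℂ] H)} (hAB : Comm2 A B) {E : Emb Λ G} {η : H} (h0 : η ≠ 0)
    (hA : η ∈ VB A) (hB : Bdd B 1 η) (hc : Central A B E η) (hApx : Apx A B) : False := by
  obtain ⟨q, hq1, hq⟩ := almost_inv hAB h0 hA hB hc hApx Q (half_pos hK.1)
  have hq0 : q ≠ 0 := by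
    intro h
    rw [h, norm_zero] at hq1
    exact zero_ne_one hq1
  obtain ⟨z, hz0, hz⟩ := hK.2 (L2 Λ) (lamR Λ) q hq0 (by
    intro s hs
    have h := hq s hs
    change ‖lamU s q - q‖ < κ * ‖q‖
    rw [hq1, mul_one]
    linarith [hK.1])
  exact hz0 (lamU_inv_zero (fun g => hz g))

end Pool.Agent.Helper84.NI
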