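import Pool.Agent.Helper84.NI.GB

/-!
# Project NI, block GC: comparison of singular values, behaviour at infinity

PROOFS. `ns (ι γ) = s0^2 + s1^2 + s2^2`, so `s0^2 ≤ ns (ι γ) ≤ 3 s0^2`; `(ι γ)⁻¹ = k' D⁻¹ k^*`, so `s2⁻² ≤ ns ((ι γ)⁻¹) ≤ 3 s2⁻²`. With `γ'' = g⁻¹ γ h`:
`ι γ'' = c (ι g)⁻¹ ι γ ι h` gives `ns (ι γ'') ≤ ns((ι g)⁻¹) ns(ι h) ns(ι γ)`, i.e. `s0'' ≤ C s0`, and for the inverses `1/s2'' ≤ C / s2`; exchanging the roles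
(`γ = g γ'' h⁻¹`) the reverse inequalities; `s1 = 1/(s0 s2)` (`prod_s`) gives the ones for `s1`. Take the maximum of the constants.
`W_shift`: `s1'' ≥ s1 / C ≥ δ s0 / C ≥ δ s0'' / C^2`.
`tendsto_s`: `{γ : s0 γ ≤ R}` is finite (`P.fin`, `ns ≤ 3 s0^2`), so `s0 → ∞` along `cofinite`. `tendsto_ratio`: on `W δ`: `s2/s1 = 1/(s0 s1^2) ≤ 1/(δ^2 s0^3)`.
`W_inter`: on `W δ ∩ Wd δ`: `s1 ≥ δ s0`, `s2 ≥ δ s1 ≥ δ^2 s0`, product one: `s0` bounded.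
-/

set_option autoImplicit false

open Filter Topology Matrix

namespace Pool.Agent.Helper84.NI

variable {G : Type} [Group G] {P : PHom G}

theorem ns_smul {n m : Type} [Fintype n] [Fintype m] (c : ℂ) (A : Matrix n m ℂ) :
    ns (c • A) = ‖c‖ ^ 2 * ns A := by
  unfold ns
  rw [Finset.mul_sum]
  refine Finset.sum_congr rfl fun i _ => ?_
  rw [Finset.mul_sum]
  refine Finset.sum_congr rfl fun j _ => ?_
  rw [Matrix.smul_apply, norm_smul, mul_pow]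

theorem ns_diag (d : Fin 3 → ℂ) : ns (diagonal d : M3) = ‖d 0‖ ^ 2 + ‖d 1‖ ^ 2 + ‖d 2‖ ^ 2 := by
  unfold ns
  simp [Fin.sum_univ_three, Matrix.diagonal]

theorem ns_iota_mul (P : PHom G) (g h : G) : ns (P.ι (g * h)) ≤ ns (P.ι g) * ns (P.ι h) := by
  obtain ⟨c, hc, h'⟩ := P.mul' g h
  rw [h', ns_smul, hc]
  have := ns_mul_le (P.ι g) (P.ι h)
  linarith

namespace Svd

variable (S : Svd P)

theorem ns_iota (γ : G) : ns (P.ι γ) = S.s γ 0 ^ 2 + S.s γ 1 ^ 2 + S.s γ 2 ^ 2 := by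
  rw [S.spec γ, ns_mul_unitary (S.uR γ).star, ns_unitary_mul (S.uL γ), ns_diag]
  simp

theorem ns_iota_inv (γ : G) :
    ns (P.ι γ⁻¹) = (S.s γ 0)⁻¹ ^ 2 + (S.s γ 1)⁻¹ ^ 2 + (S.s γ 2)⁻¹ ^ 2 := by
  obtain ⟨c, hc, h⟩ := iota_inv (P := P) γ
  have hD : (diagonal (fun i => (S.s γ i : ℂ)) : M3) * diagonal (fun i => ((S.s γ i)⁻¹ : ℂ)) = 1 := by
    rw [Matrix.diagonal_mul_diagonal, ← Matrix.diagonal_one]
    congr 1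
    funext i
    have hi : (S.s γ i : ℂ) ≠ 0 := by
      have h0 := S.pos0 γ
      have h1 := S.pos1 γ
      have h2 := S.pos γ
      fin_cases i
      · exact_mod_cast h0.ne'
      · exact_mod_cast h1.ne'
      · exact_mod_cast h2.ne'
    exact mul_inv_cancel₀ hi
  have hinv : (P.ι γ)⁻¹ = S.kR γ * diagonal (fun i => ((S.s γ i)⁻¹ : ℂ)) * (S.kL γ)ᴴ := by
    refine Matrix.inv_eq_right_inv ?_
    rw [S.spec γ]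
    calc S.kL γ * diagonal (fun i => (S.s γ i : ℂ)) * (S.kR γ)ᴴ *
        (S.kR γ * diagonal (fun i => ((S.s γ i)⁻¹ : ℂ)) * (S.kL γ)ᴴ)
        = S.kL γ * (diagonal (fun i => (S.s γ i : ℂ)) * (((S.kR γ)ᴴ * S.kR γ) *
          diagonal (fun i => ((S.s γ i)⁻¹ : ℂ)))) * (S.kL γ)ᴴ := by simp only [mul_assoc]
      _ = 1 := by
          rw [S.uR γ, one_mul, hD, mul_one, (S.uL γ).mul_star]
  rw [h, ns_smul, hc, hinv, ns_mul_unitary (S.uL γ).star, ns_unitary_mul (S.uR γ), ns_diag]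
  simp

theorem s1_le_s0 (γ : G) : 1 ≤ S.s γ 0 := by
  by_contra hlt
  push Not at hlt
  have h := S.prod_s γ
  have h0 := S.pos0 γ
  have h1 := S.pos1 γ
  have h2 := S.pos γ
  have h3 := S.le01 γ
  have h4 := S.le12 γ
  have e1 : S.s γ 0 * S.s γ 1 < 1 := by nlinarith
  have e2 : S.s γ 0 * S.s γ 1 * S.s γ 2 < 1 := by nlinarith [mul_pos h0 h1]
  linarith

/-- one direction, for `s0` and `s2` -/
theorem s_le_aux (g h : G) : ∃ C : ℝ, 1 ≤ C ∧ ∀ γ, S.s (g⁻¹ * γ * h) 0 ≤ C * S.s γ 0 ∧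
    S.s (g⁻¹ * γ * h) 2 ≤ C * S.s γ 2 := by
  set K := ns (P.ι g⁻¹) * ns (P.ι h) with hK
  have hK0 : 0 ≤ K := mul_nonneg (ns_nonneg _) (ns_nonneg _)
  refine ⟨3 * K + 1, by linarith, fun γ => ?_⟩
  have h0 := S.pos0 γ
  have h1 := S.pos1 γ
  have h2 := S.pos γ
  have h3 := S.le01 γ
  have h4 := S.le12 γ
  set γ' := g⁻¹ * γ * h with hγ'
  have h0' := S.pos0 γ'
  have h1' := S.pos1 γ'
  have h2' := S.pos γ'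
  have h3' := S.le01 γ'
  have h4' := S.le12 γ'
  have hsq : (3 * K) ≤ (3 * K + 1) ^ 2 := by nlinarith
  constructor
  · have e1 : ns (P.ι γ') ≤ K * ns (P.ι γ) := by
      have a1 := ns_iota_mul P (g⁻¹ * γ) h
      have a2 := ns_iota_mul P g⁻¹ γ
      have a3 := ns_nonneg (P.ι h)
      calc ns (P.ι γ') ≤ ns (P.ι (g⁻¹ * γ)) * ns (P.ι h) := a1
        _ ≤ (ns (P.ι g⁻¹) * ns (P.ι γ)) * ns (P.ι h) := mul_le_mul_of_nonneg_right a2 a3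
        _ = K * ns (P.ι γ) := by rw [hK]; ring
    rw [S.ns_iota, S.ns_iota] at e1
    have e2 : S.s γ 0 ^ 2 + S.s γ 1 ^ 2 + S.s γ 2 ^ 2 ≤ 3 * S.s γ 0 ^ 2 := by nlinarith
    have e3 : S.s γ' 0 ^ 2 ≤ ((3 * K + 1) * S.s γ 0) ^ 2 := by
      calc S.s γ' 0 ^ 2 ≤ S.s γ' 0 ^ 2 + S.s γ' 1 ^ 2 + S.s γ' 2 ^ 2 := by nlinarith
        _ ≤ K * (S.s γ 0 ^ 2 + S.s γ 1 ^ 2 + S.s γ 2 ^ 2) := e1
        _ ≤ K * (3 * S.s γ 0 ^ 2) := mul_le_mul_of_nonneg_left e2 hK0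
        _ = (3 * K) * S.s γ 0 ^ 2 := by ring
        _ ≤ (3 * K + 1) ^ 2 * S.s γ 0 ^ 2 := mul_le_mul_of_nonneg_right hsq (sq_nonneg _)
        _ = ((3 * K + 1) * S.s γ 0) ^ 2 := by ring
    exact (sq_le_sq₀ h0'.le (by positivity)).mp e3
  · have e0 : γ⁻¹ = h * γ'⁻¹ * g⁻¹ := by rw [hγ']; group
    have e1 : ns (P.ι γ⁻¹) ≤ K * ns (P.ι γ'⁻¹) := by
      have a1 := ns_iota_mul P (h * γ'⁻¹) g⁻¹
      have a2 := ns_iota_mul P h γ'⁻¹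
      have a3 := ns_nonneg (P.ι g⁻¹)
      calc ns (P.ι γ⁻¹) = ns (P.ι (h * γ'⁻¹ * g⁻¹)) := by rw [← e0]
        _ ≤ ns (P.ι (h * γ'⁻¹)) * ns (P.ι g⁻¹) := a1
        _ ≤ (ns (P.ι h) * ns (P.ι γ'⁻¹)) * ns (P.ι g⁻¹) := mul_le_mul_of_nonneg_right a2 a3
        _ = K * ns (P.ι γ'⁻¹) := by rw [hK]; ring
    rw [S.ns_iota_inv, S.ns_iota_inv] at e1
    have i0 : (S.s γ' 0)⁻¹ ≤ (S.s γ' 2)⁻¹ := inv_anti₀ h2' (h4'.trans h3')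
    have i1 : (S.s γ' 1)⁻¹ ≤ (S.s γ' 2)⁻¹ := inv_anti₀ h2' h4'
    have p0 : 0 < (S.s γ' 0)⁻¹ := inv_pos.mpr h0'
    have p1 : 0 < (S.s γ' 1)⁻¹ := inv_pos.mpr h1'
    have p2 : 0 < (S.s γ' 2)⁻¹ := inv_pos.mpr h2'
    have e2 : (S.s γ' 0)⁻¹ ^ 2 + (S.s γ' 1)⁻¹ ^ 2 + (S.s γ' 2)⁻¹ ^ 2 ≤ 3 * (S.s γ' 2)⁻¹ ^ 2 := by
      nlinarith
    have q0 : 0 < (S.s γ 0)⁻¹ := inv_pos.mpr h0
    have q1 : 0 < (S.s γ 1)⁻¹ := inv_pos.mpr h1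
    have q2 : 0 < (S.s γ 2)⁻¹ := inv_pos.mpr h2
    have e3 : (S.s γ 2)⁻¹ ^ 2 ≤ ((3 * K + 1) * (S.s γ' 2)⁻¹) ^ 2 := by
      calc (S.s γ 2)⁻¹ ^ 2 ≤ (S.s γ 0)⁻¹ ^ 2 + (S.s γ 1)⁻¹ ^ 2 + (S.s γ 2)⁻¹ ^ 2 := by nlinarith
        _ ≤ K * ((S.s γ' 0)⁻¹ ^ 2 + (S.s γ' 1)⁻¹ ^ 2 + (S.s γ' 2)⁻¹ ^ 2) := e1
        _ ≤ K * (3 * (S.s γ' 2)⁻¹ ^ 2) := mul_le_mul_of_nonneg_left e2 hK0
        _ = (3 * K) * (S.s γ' 2)⁻¹ ^ 2 := by ring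
        _ ≤ (3 * K + 1) ^ 2 * (S.s γ' 2)⁻¹ ^ 2 := mul_le_mul_of_nonneg_right hsq (sq_nonneg _)
        _ = ((3 * K + 1) * (S.s γ' 2)⁻¹) ^ 2 := by ring
    have e4 : (S.s γ 2)⁻¹ ≤ (3 * K + 1) * (S.s γ' 2)⁻¹ := (sq_le_sq₀ q2.le (by positivity)).mp e3
    have e5 : S.s γ' 2 * S.s γ 2 * (S.s γ 2)⁻¹ ≤ S.s γ' 2 * S.s γ 2 * ((3 * K + 1) * (S.s γ' 2)⁻¹) :=
      mul_le_mul_of_nonneg_left e4 (mul_pos h2' h2).le
    have e6 : S.s γ' 2 * S.s γ 2 * (S.s γ 2)⁻¹ = S.s γ' 2 := by field_simp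
    have e7 : S.s γ' 2 * S.s γ 2 * ((3 * K + 1) * (S.s γ' 2)⁻¹) = (3 * K + 1) * S.s γ 2 := by
      field_simp
    rw [e6, e7] at e5
    exact e5

theorem s_compare (g h : G) : ∃ C : ℝ, 1 ≤ C ∧ ∀ γ i, S.s (g⁻¹ * γ * h) i ≤ C * S.s γ i ∧
    S.s γ i ≤ C * S.s (g⁻¹ * γ * h) i := by
  obtain ⟨C1, hC1, h1⟩ := S.s_le_aux g h
  obtain ⟨C2, hC2, h2⟩ := S.s_le_aux g⁻¹ h⁻¹
  have h2' : ∀ γ, S.s γ 0 ≤ C2 * S.s (g⁻¹ * γ * h) 0 ∧ S.s γ 2 ≤ C2 * S.s (g⁻¹ * γ * h) 2 := by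
    intro γ
    have := h2 (g⁻¹ * γ * h)
    have e : g⁻¹⁻¹ * (g⁻¹ * γ * h) * h⁻¹ = γ := by group
    rwa [e] at this
  have hC12 : 1 ≤ C1 * C2 := by nlinarith
  have hle1 : C1 ≤ (C1 * C2) ^ 2 := by nlinarith [mul_nonneg (by linarith : (0:ℝ) ≤ C1) (by linarith : (0:ℝ) ≤ C2 - 1)]
  have hle2 : C2 ≤ (C1 * C2) ^ 2 := by nlinarith [mul_nonneg (by linarith : (0:ℝ) ≤ C2) (by linarith : (0:ℝ) ≤ C1 - 1)]
  refine ⟨(C1 * C2) ^ 2, by nlinarith, fun γ i => ?_⟩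
  set γ' := g⁻¹ * γ * h with hγ'
  have a0 := S.pos0 γ
  have a1 := S.pos1 γ
  have a2 := S.pos γ
  have b0 := S.pos0 γ'
  have b1 := S.pos1 γ'
  have b2 := S.pos γ'
  have pa := S.prod_s γ
  have pb := S.prod_s γ'
  obtain ⟨u0, u2⟩ := h1 γ
  obtain ⟨v0, v2⟩ := h2' γ
  rw [← hγ'] at u0 u2 v0 v2
  have k1 : ∀ x : ℝ, 0 < x → C1 * x ≤ (C1 * C2) ^ 2 * x := fun x hx => mul_le_mul_of_nonneg_right hle1 hx.le
  have k2 : ∀ x : ℝ, 0 < x → C2 * x ≤ (C1 * C2) ^ 2 * x := fun x hx => mul_le_mul_of_nonneg_right hle2 hx.le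
  have w1 : S.s γ' 1 ≤ C2 ^ 2 * S.s γ 1 := by
    have hh : S.s γ 0 * S.s γ 2 ≤ C2 ^ 2 * (S.s γ' 0 * S.s γ' 2) := by
      calc S.s γ 0 * S.s γ 2 ≤ (C2 * S.s γ' 0) * (C2 * S.s γ' 2) :=
            mul_le_mul v0 v2 a2.le (by positivity)
        _ = C2 ^ 2 * (S.s γ' 0 * S.s γ' 2) := by ring
    have hh2 := mul_le_mul_of_nonneg_left hh (mul_pos a1 b1).le
    have r1 : S.s γ 1 * S.s γ' 1 * (S.s γ 0 * S.s γ 2) = S.s γ' 1 := by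
      calc S.s γ 1 * S.s γ' 1 * (S.s γ 0 * S.s γ 2) = (S.s γ 0 * S.s γ 1 * S.s γ 2) * S.s γ' 1 := by ring
        _ = S.s γ' 1 := by rw [pa, one_mul]
    have r2 : S.s γ 1 * S.s γ' 1 * (C2 ^ 2 * (S.s γ' 0 * S.s γ' 2)) = C2 ^ 2 * S.s γ 1 := by
      calc S.s γ 1 * S.s γ' 1 * (C2 ^ 2 * (S.s γ' 0 * S.s γ' 2))
          = C2 ^ 2 * S.s γ 1 * (S.s γ' 0 * S.s γ' 1 * S.s γ' 2) := by ring
        _ = C2 ^ 2 * S.s γ 1 := by rw [pb, mul_one]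
    rw [r1, r2] at hh2
    exact hh2
  have w2 : S.s γ 1 ≤ C1 ^ 2 * S.s γ' 1 := by
    have hh : S.s γ' 0 * S.s γ' 2 ≤ C1 ^ 2 * (S.s γ 0 * S.s γ 2) := by
      calc S.s γ' 0 * S.s γ' 2 ≤ (C1 * S.s γ 0) * (C1 * S.s γ 2) :=
            mul_le_mul u0 u2 b2.le (by positivity)
        _ = C1 ^ 2 * (S.s γ 0 * S.s γ 2) := by ring
    have hh2 := mul_le_mul_of_nonneg_left hh (mul_pos b1 a1).le
    have r1 : S.s γ' 1 * S.s γ 1 * (S.s γ' 0 * S.s γ' 2) = S.s γ 1 := by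
      calc S.s γ' 1 * S.s γ 1 * (S.s γ' 0 * S.s γ' 2) = (S.s γ' 0 * S.s γ' 1 * S.s γ' 2) * S.s γ 1 := by ring
        _ = S.s γ 1 := by rw [pb, one_mul]
    have r2 : S.s γ' 1 * S.s γ 1 * (C1 ^ 2 * (S.s γ 0 * S.s γ 2)) = C1 ^ 2 * S.s γ' 1 := by
      calc S.s γ' 1 * S.s γ 1 * (C1 ^ 2 * (S.s γ 0 * S.s γ 2))
          = C1 ^ 2 * S.s γ' 1 * (S.s γ 0 * S.s γ 1 * S.s γ 2) := by ring
        _ = C1 ^ 2 * S.s γ' 1 := by rw [pa, mul_one]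
    rw [r1, r2] at hh2
    exact hh2
  have q2 : C2 ^ 2 ≤ (C1 * C2) ^ 2 := by
    have : C2 ≤ C1 * C2 := by nlinarith
    exact pow_le_pow_left₀ (by linarith) this 2
  have q1 : C1 ^ 2 ≤ (C1 * C2) ^ 2 := by
    have : C1 ≤ C1 * C2 := by nlinarith
    exact pow_le_pow_left₀ (by linarith) this 2
  fin_cases i
  · exact ⟨u0.trans (k1 _ a0), v0.trans (k2 _ b0)⟩
  · exact ⟨w1.trans (mul_le_mul_of_nonneg_right q2 a1.le), w2.trans (mul_le_mul_of_nonneg_right q1 b1.le)⟩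
  · exact ⟨u2.trans (k1 _ a2), v2.trans (k2 _ b2)⟩

theorem W_mono {δ δ' : ℝ} (h : δ' ≤ δ) : S.W δ ⊆ S.W δ' := by
  intro γ hγ
  have h1 : δ * S.s γ 0 ≤ S.s γ 1 := hγ
  have h0 := S.pos0 γ
  change δ' * S.s γ 0 ≤ S.s γ 1
  exact (mul_le_mul_of_nonneg_right h h0.le).trans h1

theorem W_shift (g h : G) : ∃ c : ℝ, 0 < c ∧ ∀ δ, 0 < δ → ∀ γ, γ ∈ S.W δ → g⁻¹ * γ * h ∈ S.W (c * δ) := by
  obtain ⟨C, hC, hc⟩ := S.s_compare g h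
  have hC0 : 0 < C := by linarith
  refine ⟨(C ^ 2)⁻¹, by positivity, fun δ hδ γ hγ => ?_⟩
  have h1 : δ * S.s γ 0 ≤ S.s γ 1 := hγ
  have h2 := (hc γ 0).1
  have h3 := (hc γ 1).2
  change (C ^ 2)⁻¹ * δ * S.s (g⁻¹ * γ * h) 0 ≤ S.s (g⁻¹ * γ * h) 1
  have e : (C ^ 2)⁻¹ * δ * S.s (g⁻¹ * γ * h) 0 ≤ (C ^ 2)⁻¹ * (C * (C * S.s (g⁻¹ * γ * h) 1)) := by
    calc (C ^ 2)⁻¹ * δ * S.s (g⁻¹ * γ * h) 0 ≤ (C ^ 2)⁻¹ * δ * (C * S.s γ 0) :=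
          mul_le_mul_of_nonneg_left h2 (by positivity)
      _ = (C ^ 2)⁻¹ * (C * (δ * S.s γ 0)) := by ring
      _ ≤ (C ^ 2)⁻¹ * (C * (C * S.s (g⁻¹ * γ * h) 1)) := by
          have := h1.trans h3
          gcongr
  have e2 : (C ^ 2)⁻¹ * (C * (C * S.s (g⁻¹ * γ * h) 1)) = S.s (g⁻¹ * γ * h) 1 := by
    field_simp
  rw [e2] at e
  exact e

theorem finite_s_le (R : ℝ) : {γ | S.s γ 0 ≤ R}.Finite := by
  refine (P.fin (3 * R ^ 2)).subset fun γ hγ => ?_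
  have h : S.s γ 0 ≤ R := hγ
  change ns (P.ι γ) ≤ 3 * R ^ 2
  rw [S.ns_iota]
  have h0 := S.pos0 γ
  have h1 := S.pos1 γ
  have h2 := S.pos γ
  have h3 := S.le01 γ
  have h4 := S.le12 γ
  nlinarith

theorem tendsto_s : Tendsto (fun γ => S.s γ 0) cofinite atTop := by
  rw [tendsto_atTop]
  intro R
  have := (S.finite_s_le R).compl_mem_cofinite
  filter_upwards [this] with γ hγ
  have : ¬ (S.s γ 0 ≤ R) := hγ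
  linarith

theorem tendsto_ratio {δ : ℝ} (hδ : 0 < δ) :
    Tendsto (fun γ => S.s γ 2 / S.s γ 1) (S.at' δ) (𝓝 0) := by
  have h1 : Tendsto (fun γ => (S.s γ 0)⁻¹ * (δ ^ 2)⁻¹) (S.at' δ) (𝓝 0) := by
    have := ((tendsto_inv_atTop_zero.comp (S.tendsto_s)).mono_left
      (inf_le_left : S.at' δ ≤ cofinite)).mul_const ((δ ^ 2)⁻¹)
    rwa [zero_mul] at this
  refine squeeze_zero' (Eventually.of_forall fun γ => ?_) ?_ h1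
  · exact (div_pos (S.pos γ) (S.pos1 γ)).le
  · have hm : S.W δ ∈ S.at' δ := mem_inf_of_right (mem_principal_self _)
    filter_upwards [hm] with γ hγ
    have h2 : δ * S.s γ 0 ≤ S.s γ 1 := hγ
    have a0 := S.pos0 γ
    have a1 := S.pos1 γ
    have a2 := S.pos γ
    have pa := S.prod_s γ
    have hs1 := S.s1_le_s0 γ
    rw [div_le_iff₀ a1]
    have e1 : δ ^ 2 * S.s γ 0 ^ 2 ≤ S.s γ 1 ^ 2 := by
      have := pow_le_pow_left₀ (by positivity) h2 2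
      rwa [mul_pow] at this
    have e2 : δ ^ 2 * S.s γ 0 ≤ δ ^ 2 * S.s γ 0 ^ 3 := by
      have : S.s γ 0 ≤ S.s γ 0 ^ 3 := by nlinarith [mul_nonneg (by linarith : (0:ℝ) ≤ S.s γ 0 - 1) (mul_pos a0 a0).le]
      exact mul_le_mul_of_nonneg_left this (sq_nonneg _)
    have e3 : δ ^ 2 * S.s γ 0 ^ 3 * S.s γ 2 ≤ S.s γ 1 := by
      calc δ ^ 2 * S.s γ 0 ^ 3 * S.s γ 2 = (δ ^ 2 * S.s γ 0 ^ 2) * (S.s γ 0 * S.s γ 2) := by ring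
        _ ≤ S.s γ 1 ^ 2 * (S.s γ 0 * S.s γ 2) := mul_le_mul_of_nonneg_right e1 (mul_pos a0 a2).le
        _ = S.s γ 1 * (S.s γ 0 * S.s γ 1 * S.s γ 2) := by ring
        _ = S.s γ 1 := by rw [pa, mul_one]
    have e4 : δ ^ 2 * S.s γ 0 * S.s γ 2 ≤ S.s γ 1 :=
      (mul_le_mul_of_nonneg_right e2 a2.le).trans e3
    have e5 : (S.s γ 0)⁻¹ * (δ ^ 2)⁻¹ * (δ ^ 2 * S.s γ 0 * S.s γ 2) ≤
        (S.s γ 0)⁻¹ * (δ ^ 2)⁻¹ * S.s γ 1 := mul_le_mul_of_nonneg_left e4 (by positivity)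
    have e6 : (S.s γ 0)⁻¹ * (δ ^ 2)⁻¹ * (δ ^ 2 * S.s γ 0 * S.s γ 2) = S.s γ 2 := by field_simp
    rw [e6] at e5
    exact e5

theorem W_inter {δ : ℝ} (hδ : 0 < δ) : (S.W δ ∩ S.Wd δ).Finite := by
  refine (S.finite_s_le (1 / δ)).subset fun γ hγ => ?_
  have h1 : δ * S.s γ 0 ≤ S.s γ 1 := hγ.1
  have h2 : δ * S.s γ 1 ≤ S.s γ 2 := hγ.2
  have a0 := S.pos0 γ
  have a1 := S.pos1 γ
  have a2 := S.pos γ
  have pa := S.prod_s γ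
  change S.s γ 0 ≤ 1 / δ
  rw [le_div_iff₀ hδ]
  by_contra hlt
  push Not at hlt
  have e0 : 0 < δ * S.s γ 0 := mul_pos hδ a0
  have e1 : 1 < S.s γ 1 := by nlinarith
  have e2 : δ * (δ * S.s γ 0) ≤ S.s γ 2 := (mul_le_mul_of_nonneg_left h1 hδ.le).trans h2
  have e3 : 1 < (S.s γ 0 * δ) * (S.s γ 0 * δ) := by nlinarith
  have e4 : (S.s γ 0 * δ) * (S.s γ 0 * δ) ≤ S.s γ 0 * S.s γ 2 := by
    calc (S.s γ 0 * δ) * (S.s γ 0 * δ) = S.s γ 0 * (δ * (δ * S.s γ 0)) := by ring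
      _ ≤ S.s γ 0 * S.s γ 2 := mul_le_mul_of_nonneg_left e2 a0.le
  have e5 : S.s γ 0 * S.s γ 2 < S.s γ 0 * S.s γ 1 * S.s γ 2 := by nlinarith [mul_pos a0 a2]
  linarith

/-- the shift maps neighbourhoods of infinity to neighbourhoods of infinity -/
theorem tendsto_shift (g h : G) : ∃ c : ℝ, 0 < c ∧ ∀ δ, 0 < δ →
    Tendsto (fun γ => g⁻¹ * γ * h) (S.at' δ) (S.at' (c * δ)) := by
  obtain ⟨c, hc, h1⟩ := S.W_shift g h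
  refine ⟨c, hc, fun δ hδ => ?_⟩
  have hinj : Function.Injective (fun γ : G => g⁻¹ * γ * h) := by
    intro a b hab
    simpa using hab
  refine tendsto_inf.mpr ⟨hinj.tendsto_cofinite.mono_left inf_le_left, ?_⟩
  rw [tendsto_principal]
  have hm : S.W δ ∈ S.at' δ := mem_inf_of_right (mem_principal_self _)
  filter_upwards [hm] with γ hγ
  exact h1 δ hδ γ hγ

end Svd

end Pool.Agent.Helper84.NI
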