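import Pool.Agent.Helper84.NI.Rep
import Pool.Agent.Helper84.NI.GC

/-!
# Project NI, block WB: invariance of `Uz` and `Ua`

PROOFS. `lamU g (rhoU h f) = permV (tr g h) f`, as `(lamU g (rhoU h f)) x = f (g⁻¹ x h)`. `ind A (permV (tr g h) f) = permV (tr g h) (ind A' f)` with
`A' = (tr g h)⁻¹ A = {γ : g γ h⁻¹ ∈ A}` (finite if `A` is finite): so `Uz` is invariant. If `UP.map (ind (W δ)) ξ = ξ` then `ξ' = UP.map (permV (tr g h)) ξ` satisfies
`UP.map (ind (W (c δ))) ξ' = ξ'` with `c` from `W_shift` for `(g⁻¹, h⁻¹)`: `γ ∈ W δ → g γ h⁻¹ ∈ W (c δ)`. So `UaSet`, hence `Ua`, is invariant (closure of the span, continuity).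
The projection `Ppr` on `Ua S` intertwines (`GVN.proj_comm`; the inverse of `Alim g` is `Alim g⁻¹`). `Ppr_ne_zero`: if `b = UP.map (ind (W δ)) ζ ≠ 0` with `ζ ∈ Uz`, then `b ∈ Ua S` and
`⟪b, ζ⟫ = ‖b‖^2 ≠ 0` (`ind` is a self-adjoint idempotent), so the projection of `ζ` is not zero.
-/

set_option autoImplicit false

open Filter Topology Matrix

namespace Pool.Agent.Helper84.NI

open GVN

variable {G : Type} [Group G] {P : PHom G} (S : Svd P)

/-- the translation operator -/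
private noncomputable abbrev Pg53 (g h : G) : L2 G →L[ℂ] L2 G :=
  ((permV (tr g h) : Lv G ℂ ≃ₗᵢ[ℂ] Lv G ℂ).toContinuousLinearEquiv : L2 G →L[ℂ] L2 G)

private theorem ind_perm53 (g h : G) (A : Set G) (a : UP (L2 G)) :
    UP.map (ind ℂ A) (UP.map (Pg53 g h) a) = UP.map (Pg53 g h) (UP.map (ind ℂ {γ | g * γ * h⁻¹ ∈ A}) a) := by
  rw [← UP.map_comp, ← UP.map_comp]
  refine congrArg (fun T => UP.map T a) ?_
  ext f : 1
  refine lv_ext fun γ => ?_
  change ind ℂ A (permV (tr g h) f) γ = permV (tr g h) (ind ℂ {γ | g * γ * h⁻¹ ∈ A} f) γ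
  rw [ind_apply, permV_tr, permV_tr, ind_apply]
  have e : (g⁻¹ * γ * h ∈ {γ | g * γ * h⁻¹ ∈ A}) ↔ γ ∈ A := by
    rw [Set.mem_ofPred_eq]
    have : g * (g⁻¹ * γ * h) * h⁻¹ = γ := by group
    rw [this]
  by_cases hγ : γ ∈ A
  · rw [if_pos hγ, if_pos (e.2 hγ)]
  · rw [if_neg hγ, if_neg (fun h => hγ (e.1 h))]

private theorem ind_ind53 (A B : Set G) (a : UP (L2 G)) :
    UP.map (ind ℂ A) (UP.map (ind ℂ B) a) = UP.map (ind ℂ (A ∩ B)) a := by
  rw [← UP.map_comp]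
  refine congrArg (fun T => UP.map T a) ?_
  ext f : 1
  refine lv_ext fun γ => ?_
  change ind ℂ A (ind ℂ B f) γ = ind ℂ (A ∩ B) f γ
  rw [ind_apply, ind_apply, ind_apply]
  by_cases hA : γ ∈ A
  · by_cases hB : γ ∈ B
    · rw [if_pos hA, if_pos hB, if_pos ⟨hA, hB⟩]
    · rw [if_pos hA, if_neg hB, if_neg (fun h => hB h.2)]
  · rw [if_neg hA, if_neg (fun h => hA h.1)]

private theorem ind_adj53 (A : Set G) (a b : UP (L2 G)) :
    inner ℂ (UP.map (ind ℂ A) a) b = inner ℂ a (UP.map (ind ℂ A) b) := by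
  rw [UP.inner_map]
  have e : (ind ℂ A : Lv G ℂ →L[ℂ] Lv G ℂ) = ContinuousLinearMap.adjoint (ind ℂ A : Lv G ℂ →L[ℂ] Lv G ℂ) := by
    rw [ContinuousLinearMap.eq_adjoint_iff]
    intro x y
    refine (lv_inner _ _).unique ?_
    refine (lv_inner x (ind ℂ A y)).congr_fun ?_
    intro i
    rw [ind_apply, ind_apply]
    split_ifs
    · rfl
    · rw [inner_zero_left, inner_zero_right]
  rw [← e]

private theorem proj53 {H : Type} [NormedAddCommGroup H] [InnerProductSpace ℂ H] {K : Submodule ℂ H}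
    [K.HasOrthogonalProjection] (T : H ≃ₗᵢ[ℂ] H)
    (h1 : ∀ x ∈ K, T x ∈ K) (h2 : ∀ x ∈ K, T.symm x ∈ K) (f : H) :
    K.starProjection (T f) = T (K.starProjection f) := by
  apply Submodule.eq_starProjection_of_mem_orthogonal
  · exact h1 _ (Submodule.starProjection_apply_mem K f)
  · rw [← map_sub, Submodule.mem_orthogonal]
    intro u hu
    have h3 := (Submodule.mem_orthogonal _ _).1 (Submodule.sub_starProjection_mem_orthogonal
      (K := K) f) (T.symm u) (h2 u hu)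
    rw [← LinearIsometryEquiv.inner_map_map T, LinearIsometryEquiv.apply_symm_apply] at h3
    exact h3

theorem perm_mem_Uz (g h : G) {a : UP (L2 G)} (ha : a ∈ Uz G) :
    UP.map ((permV (tr g h) : Lv G ℂ ≃ₗᵢ[ℂ] Lv G ℂ).toContinuousLinearEquiv : L2 G →L[ℂ] L2 G) a ∈ Uz G := by
  intro F hF
  have hF' : {γ | g * γ * h⁻¹ ∈ F}.Finite := by
    refine hF.preimage (f := fun γ => g * γ * h⁻¹) ?_
    intro x _ y _ hxy
    simpa using hxy
  have e := ind_perm53 g h F a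
  rw [ha _ hF', map_zero] at e
  exact e

theorem perm_mem_Ua (g h : G) {a : UP (L2 G)} (ha : a ∈ Ua S) :
    UP.map ((permV (tr g h) : Lv G ℂ ≃ₗᵢ[ℂ] Lv G ℂ).toContinuousLinearEquiv : L2 G →L[ℂ] L2 G) a ∈ Ua S := by
  have hcl : IsClosed (((Ua S).comap (UP.map (Pg53 g h) : UP (L2 G) →ₗ[ℂ] UP (L2 G)) :
      Submodule ℂ (UP (L2 G))) : Set (UP (L2 G))) := by
    have h1 : IsClosed ((Ua S) : Set (UP (L2 G))) := Submodule.isClosed_topologicalClosure _
    exact h1.preimage (UP.map (Pg53 g h)).continuous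
  have hle : Ua S ≤ (Ua S).comap (UP.map (Pg53 g h) : UP (L2 G) →ₗ[ℂ] UP (L2 G)) := by
    refine Submodule.topologicalClosure_minimal _ (Submodule.span_le.mpr ?_) hcl
    rintro a ⟨ha, δ, hδ, hW⟩
    change UP.map (Pg53 g h) a ∈ Ua S
    refine Submodule.le_topologicalClosure _ (Submodule.subset_span ?_)
    obtain ⟨c, hc, hsh⟩ := S.W_shift g⁻¹ h⁻¹
    refine ⟨perm_mem_Uz g h ha, c * δ, by positivity, ?_⟩
    rw [ind_perm53]
    refine congrArg _ ?_
    have e : ({γ | g * γ * h⁻¹ ∈ S.W (c * δ)} ∩ S.W δ : Set G) = S.W δ := by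
      refine Set.inter_eq_right.2 fun γ hγ => ?_
      have h2 := hsh δ hδ γ hγ
      rwa [inv_inv] at h2
    conv_lhs => rw [← hW]
    rw [ind_ind53, e, hW]
  exact hle ha

theorem Alim_apply (g : G) (a : UP (L2 G)) : Alim G g a =
    UP.map ((permV (tr g 1) : Lv G ℂ ≃ₗᵢ[ℂ] Lv G ℂ).toContinuousLinearEquiv : L2 G →L[ℂ] L2 G) a := by
  change UP.rep (lamR G) g a = _
  rw [UP.rep_apply]
  refine congrArg (fun T => UP.map T a) ?_
  ext f : 1
  refine l2_ext fun γ => ?_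
  change lamU g f γ = permV (tr g 1) f γ
  rw [lamU_apply, permV_tr, mul_one]

theorem Blim_apply (h : G) (a : UP (L2 G)) : Blim G h a =
    UP.map ((permV (tr 1 h) : Lv G ℂ ≃ₗᵢ[ℂ] Lv G ℂ).toContinuousLinearEquiv : L2 G →L[ℂ] L2 G) a := by
  change UP.rep (rhoR G) h a = _
  rw [UP.rep_apply]
  refine congrArg (fun T => UP.map T a) ?_
  ext f : 1
  refine l2_ext fun γ => ?_
  change rhoU h f γ = permV (tr 1 h) f γ
  rw [rhoU_apply, permV_tr, inv_one, one_mul]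

theorem comm2_lim : Comm2 (Alim G) (Blim G) := by
  intro g h x
  rw [Alim_apply, Blim_apply, Blim_apply, Alim_apply, ← UP.map_comp, ← UP.map_comp]
  refine congrArg (fun T => UP.map T x) ?_
  ext f : 1
  refine lv_ext fun γ => ?_
  change permV (tr g 1) (permV (tr 1 h) f) γ = permV (tr 1 h) (permV (tr g 1) f) γ
  rw [permV_tr, permV_tr, permV_tr, permV_tr]
  group

theorem Alim_mem_Ua (g : G) (a : UP (L2 G)) (ha : a ∈ Ua S) : Alim G g a ∈ Ua S := by
  rw [Alim_apply]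
  exact perm_mem_Ua S g 1 ha

theorem Blim_mem_Ua (h : G) (a : UP (L2 G)) (ha : a ∈ Ua S) : Blim G h a ∈ Ua S := by
  rw [Blim_apply]
  exact perm_mem_Ua S 1 h ha

/-- The left action on the wall part. -/
noncomputable def AU : G →* (Ua S ≃ₗᵢ[ℂ] Ua S) := restrictRep (Alim G) (Ua S) (Alim_mem_Ua S)

/-- The right action on the wall part. -/
noncomputable def BU : G →* (Ua S ≃ₗᵢ[ℂ] Ua S) := restrictRep (Blim G) (Ua S) (Blim_mem_Ua S)

theorem comm2_U : Comm2 (AU S) (BU S) := by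
  intro g h x
  apply Subtype.ext
  exact comm2_lim g h (x : UP (L2 G))

/-- The projection on the wall part. -/
noncomputable def Ppr : UP (L2 G) →L[ℂ] Ua S := (Ua S).orthogonalProjectionOnto

theorem norm_Ppr : ‖Ppr S‖ ≤ 1 := by
  exact Submodule.orthogonalProjectionOnto_norm_le _

theorem Ppr_A (g : G) (a : UP (L2 G)) : Ppr S (Alim G g a) = AU S g (Ppr S a) := by
  apply Subtype.ext
  change (Ua S).starProjection (Alim G g a) = Alim G g ((Ua S).starProjection a)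
  refine proj53 (Alim G g) (Alim_mem_Ua S g) (fun x hx => ?_) a
  have h1 := Alim_mem_Ua S g⁻¹ x hx
  rw [map_inv] at h1
  exact h1

theorem Ppr_B (g : G) (a : UP (L2 G)) : Ppr S (Blim G g a) = BU S g (Ppr S a) := by
  apply Subtype.ext
  change (Ua S).starProjection (Blim G g a) = Blim G g ((Ua S).starProjection a)
  refine proj53 (Blim G g) (Blim_mem_Ua S g) (fun x hx => ?_) a
  have h1 := Blim_mem_Ua S g⁻¹ x hx
  rw [map_inv] at h1
  exact h1

theorem Ppr_ne_zero {ζ : UP (L2 G)} (hζ : ζ ∈ Uz G) {δ : ℝ} (hδ : 0 < δ)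
    (h : UP.map (ind ℂ (S.W δ)) ζ ≠ 0) : Ppr S ζ ≠ 0 := by
  intro h0
  have h1 : ζ ∈ (Ua S)ᗮ := Submodule.orthogonalProjectionOnto_eq_zero_iff.1 h0
  have hb : UP.map (ind ℂ (S.W δ)) ζ ∈ Ua S := by
    refine Submodule.le_topologicalClosure _ (Submodule.subset_span ⟨fun F hF => ?_, δ, hδ, ?_⟩)
    · rw [ind_ind53, Set.inter_comm, ← ind_ind53, hζ F hF, map_zero]
    · rw [ind_ind53, Set.inter_self]
  have h2 := (Submodule.mem_orthogonal _ _).1 h1 _ hb
  have h3 : inner ℂ (UP.map (ind ℂ (S.W δ)) ζ) (UP.map (ind ℂ (S.W δ)) ζ) = 0 := by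
    rw [← ind_adj53, ind_ind53, Set.inter_self]
    exact h2
  exact h (inner_self_eq_zero.1 h3)

end Pool.Agent.Helper84.NI
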