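import Pool.Agent.Helper84.NI.GC

/-!
# Project NI, block GD: asymptotic behaviour of the cocycle on the wall

PROOFS. (G1) `|m_{i2}| = |n_{i2}| s2(γ'')/s_i(γ) ≤ √(ns (ι g)) C s2(γ)/s1(γ) → 0` for `i = 0, 1` (`m_eq`, `ns_n`, `s_compare`, `tendsto_ratio`).
(G2) Let `K = {C : |C i j| ≤ R, r ≤ |det C|}`, compact (closed and bounded in a finite dimensional space). `|det m| = 1` (`det` of unitary matrices and `ι h`), expand along the last
column: `det m = m_22 det C + (terms containing m_02 or m_12)`, the entries are bounded by `R = √(ns (ι h))`, so eventually `R |det C| ≥ 1/2`.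
(G3) block multiplication: `blk (A B) = blk A * blk B + (A_{i2} B_{2j})_{ij}`, with `m_mul`; `A_{i2} → 0` by (G1), `B` bounded.
-/

set_option autoImplicit false

open Filter Topology Matrix

namespace Pool.Agent.Helper84.NI

variable {G : Type} [Group G] {P : PHom G}

/-- A compact set of invertible matrices. -/
def Kc (R r : ℝ) : Set M2 := {C | (∀ i j, ‖C i j‖ ≤ R) ∧ r ≤ ‖C.det‖}

theorem isCompact_Kc (R r : ℝ) : IsCompact (Kc R r) := by
  have h1 : IsCompact (Set.univ.pi fun _ : Fin 2 => (Set.univ.pi fun _ : Fin 2 =>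
      Metric.closedBall (0 : ℂ) R)) :=
    isCompact_univ_pi fun _ => isCompact_univ_pi fun _ => isCompact_closedBall 0 R
  have h2 : IsClosed {C : M2 | r ≤ ‖C.det‖} := by
    refine isClosed_le continuous_const ?_
    have : Continuous fun C : M2 => C.det := by fun_prop
    exact this.norm
  have h3 : Kc R r = (Set.univ.pi fun _ : Fin 2 => (Set.univ.pi fun _ : Fin 2 =>
      Metric.closedBall (0 : ℂ) R)) ∩ {C : M2 | r ≤ ‖C.det‖} := by
    ext C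
    constructor
    · intro h
      exact ⟨fun i _ j _ => by simpa using h.1 i j, h.2⟩
    · intro h
      exact ⟨fun i j => by simpa using h.1 i (Set.mem_univ i) j (Set.mem_univ j), h.2⟩
  rw [h3]
  exact IsCompact.inter_right h1 h2

theorem Kc_det {R r : ℝ} (hr : 0 < r) : Kc R r ⊆ {C : M2 | C.det ≠ 0} := by
  intro C hC h0
  have h1 := hC.2
  rw [h0, norm_zero] at h1
  linarith

theorem norm_apply_le {n m : Type} [Fintype n] [Fintype m] (A : Matrix n m ℂ) (i : n) (j : m) :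
    ‖A i j‖ ≤ Real.sqrt (ns A) := Real.le_sqrt_of_sq_le (norm_apply_sq_le A i j)

namespace Svd

variable (S : Svd P)

theorem norm_m_le (g h γ : G) (i j : Fin 3) : ‖S.m g h γ i j‖ ≤ Real.sqrt (ns (P.ι h)) := by
  rw [← S.ns_m g h γ]
  exact norm_apply_le _ i j

theorem norm_n_le (g h γ : G) (i j : Fin 3) : ‖S.n g h γ i j‖ ≤ Real.sqrt (ns (P.ι g)) := by
  rw [← S.ns_n g h γ]
  exact norm_apply_le _ i j

theorem tendsto_m {δ : ℝ} (hδ : 0 < δ) (g h : G) (i : Fin 2) :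
    Tendsto (fun γ => S.m g h γ i.castSucc 2) (S.at' δ) (𝓝 0) := by
  obtain ⟨C, hC, hc⟩ := S.s_compare g h
  rw [tendsto_zero_iff_norm_tendsto_zero]
  have h1 : Tendsto (fun γ => Real.sqrt (ns (P.ι g)) * C * (S.s γ 2 / S.s γ 1)) (S.at' δ) (𝓝 0) := by
    have := (S.tendsto_ratio hδ).const_mul (Real.sqrt (ns (P.ι g)) * C)
    rwa [mul_zero] at this
  refine squeeze_zero (fun γ => norm_nonneg _) (fun γ => ?_) h1
  obtain ⟨c, hc1, he⟩ := S.m_eq g h γ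
  have a0 := S.pos0 γ
  have a1 := S.pos1 γ
  have a2 := S.pos γ
  have b2 := S.pos (g⁻¹ * γ * h)
  have hi : S.s γ 1 ≤ S.s γ i.castSucc := by
    fin_cases i
    · exact S.le01 γ
    · exact le_rfl
  have hi0 : 0 < S.s γ i.castSucc := lt_of_lt_of_le a1 hi
  have e1 : S.s (g⁻¹ * γ * h) 2 / S.s γ i.castSucc ≤ C * (S.s γ 2 / S.s γ 1) := by
    calc S.s (g⁻¹ * γ * h) 2 / S.s γ i.castSucc ≤ S.s (g⁻¹ * γ * h) 2 / S.s γ 1 :=
          div_le_div_of_nonneg_left b2.le a1 hi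
      _ ≤ C * S.s γ 2 / S.s γ 1 := div_le_div_of_nonneg_right (hc γ 2).1 a1.le
      _ = C * (S.s γ 2 / S.s γ 1) := by ring
  rw [he, norm_mul, hc1, one_mul, norm_mul, Complex.norm_real, Real.norm_of_nonneg (div_pos b2 hi0).le]
  calc ‖S.n g h γ i.castSucc 2‖ * (S.s (g⁻¹ * γ * h) 2 / S.s γ i.castSucc)
      ≤ Real.sqrt (ns (P.ι g)) * (C * (S.s γ 2 / S.s γ 1)) :=
        mul_le_mul (S.norm_n_le g h γ _ _) e1 (div_pos b2 hi0).le (Real.sqrt_nonneg _)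
    _ = Real.sqrt (ns (P.ι g)) * C * (S.s γ 2 / S.s γ 1) := by ring

theorem norm_det_m (g h γ : G) : ‖(S.m g h γ).det‖ = 1 := by
  unfold m
  rw [Matrix.det_mul, Matrix.det_mul, norm_mul, norm_mul, (S.uR γ).star.norm_det, P.det1,
    (S.uR _).norm_det]
  norm_num

theorem C_compact (g h : G) : ∃ R r : ℝ, 0 < r ∧ ∀ δ, 0 < δ → ∀ᶠ γ in S.at' δ, S.C g h γ ∈ Kc R r := by
  set R := Real.sqrt (ns (P.ι h)) with hR
  have hR0 : 0 ≤ R := Real.sqrt_nonneg _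
  refine ⟨R, 1 / (2 * (R + 1)), by positivity, fun δ hδ => ?_⟩
  have t0 := (S.tendsto_m hδ g h 0).norm
  have t1 := (S.tendsto_m hδ g h 1).norm
  rw [norm_zero] at t0 t1
  have hpos : (0 : ℝ) < 1 / (8 * (R ^ 2 + 1)) := by positivity
  filter_upwards [t0.eventually (gt_mem_nhds hpos), t1.eventually (gt_mem_nhds hpos)] with γ u0 u1
  have u0' : ‖S.m g h γ 0 2‖ < 1 / (8 * (R ^ 2 + 1)) := u0
  have u1' : ‖S.m g h γ 1 2‖ < 1 / (8 * (R ^ 2 + 1)) := u1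
  have hb : ∀ i j, ‖S.m g h γ i j‖ ≤ R := fun i j => S.norm_m_le g h γ i j
  refine ⟨fun i j => hb _ _, ?_⟩
  have hd := S.norm_det_m g h γ
  have hC : (S.C g h γ).det = S.m g h γ 0 0 * S.m g h γ 1 1 - S.m g h γ 0 1 * S.m g h γ 1 0 := by
    rw [Matrix.det_fin_two]
    rfl
  rw [Matrix.det_fin_three] at hd
  have e : S.m g h γ 0 0 * S.m g h γ 1 1 * S.m g h γ 2 2 - S.m g h γ 0 0 * S.m g h γ 1 2 * S.m g h γ 2 1 -
      S.m g h γ 0 1 * S.m g h γ 1 0 * S.m g h γ 2 2 + S.m g h γ 0 1 * S.m g h γ 1 2 * S.m g h γ 2 0 +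
      S.m g h γ 0 2 * S.m g h γ 1 0 * S.m g h γ 2 1 - S.m g h γ 0 2 * S.m g h γ 1 1 * S.m g h γ 2 0 =
      S.m g h γ 2 2 * (S.C g h γ).det +
      (S.m g h γ 0 2 * (S.m g h γ 1 0 * S.m g h γ 2 1 - S.m g h γ 1 1 * S.m g h γ 2 0) +
      S.m g h γ 1 2 * (S.m g h γ 0 1 * S.m g h γ 2 0 - S.m g h γ 0 0 * S.m g h γ 2 1)) := by
    rw [hC]; ring
  rw [e] at hd
  have q : ∀ a b c d : Fin 3, ∀ a' b' c' d' : Fin 3,
      ‖S.m g h γ a b * S.m g h γ c d - S.m g h γ a' b' * S.m g h γ c' d'‖ ≤ 2 * R ^ 2 := by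
    intro a b c d a' b' c' d'
    calc ‖S.m g h γ a b * S.m g h γ c d - S.m g h γ a' b' * S.m g h γ c' d'‖
        ≤ ‖S.m g h γ a b * S.m g h γ c d‖ + ‖S.m g h γ a' b' * S.m g h γ c' d'‖ := norm_sub_le _ _
      _ = ‖S.m g h γ a b‖ * ‖S.m g h γ c d‖ + ‖S.m g h γ a' b'‖ * ‖S.m g h γ c' d'‖ := by
          rw [norm_mul, norm_mul]
      _ ≤ R * R + R * R := add_le_add
          (mul_le_mul (hb _ _) (hb _ _) (norm_nonneg _) hR0)
          (mul_le_mul (hb _ _) (hb _ _) (norm_nonneg _) hR0)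
      _ = 2 * R ^ 2 := by ring
  have n1 : ‖S.m g h γ 2 2 * (S.C g h γ).det‖ ≤ R * ‖(S.C g h γ).det‖ := by
    rw [norm_mul]
    exact mul_le_mul_of_nonneg_right (hb _ _) (norm_nonneg _)
  have n2 : ‖S.m g h γ 0 2 * (S.m g h γ 1 0 * S.m g h γ 2 1 - S.m g h γ 1 1 * S.m g h γ 2 0)‖ ≤
      1 / (8 * (R ^ 2 + 1)) * (2 * R ^ 2) := by
    rw [norm_mul]
    exact mul_le_mul u0'.le (q _ _ _ _ _ _ _ _) (norm_nonneg _) hpos.le
  have n3 : ‖S.m g h γ 1 2 * (S.m g h γ 0 1 * S.m g h γ 2 0 - S.m g h γ 0 0 * S.m g h γ 2 1)‖ ≤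
      1 / (8 * (R ^ 2 + 1)) * (2 * R ^ 2) := by
    rw [norm_mul]
    exact mul_le_mul u1'.le (q _ _ _ _ _ _ _ _) (norm_nonneg _) hpos.le
  have n4 : 1 / (8 * (R ^ 2 + 1)) * (2 * R ^ 2) ≤ 1 / 4 := by
    rw [div_mul_eq_mul_div, one_mul, div_le_iff₀ (by positivity)]
    nlinarith [sq_nonneg R]
  have n5 : 1 ≤ R * ‖(S.C g h γ).det‖ + (1 / 4 + 1 / 4) := by
    refine hd.symm.le.trans ((norm_add_le _ _).trans (add_le_add n1 ((norm_add_le _ _).trans
      (add_le_add (n2.trans n4) (n3.trans n4)))))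
  rw [div_le_iff₀ (by positivity)]
  nlinarith [norm_nonneg (S.C g h γ).det]

theorem blk_mul (A B : M3) (i j : Fin 2) :
    blk (A * B) i j = (blk A * blk B) i j + A i.castSucc 2 * B 2 j.castSucc := by
  unfold blk
  rw [Matrix.submatrix_apply, Matrix.mul_apply, Matrix.mul_apply, Fin.sum_univ_castSucc]
  rfl

theorem C_mul (g h g' h' : G) : ∃ c : G → ℂ, (∀ γ, ‖c γ‖ = 1) ∧ ∀ δ, 0 < δ →
    Tendsto (fun γ => c γ • (S.C g h γ * S.C g' h' (g⁻¹ * γ * h)) - S.C (g * g') (h * h') γ) (S.at' δ)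
      (𝓝 0) := by
  choose c hc1 hc2 using fun γ => S.m_mul g h g' h' γ
  refine ⟨c, hc1, fun δ hδ => ?_⟩
  refine tendsto_pi_nhds.mpr fun i => tendsto_pi_nhds.mpr fun j => ?_
  have e : ∀ γ, (c γ • (S.C g h γ * S.C g' h' (g⁻¹ * γ * h)) - S.C (g * g') (h * h') γ) i j =
      -(c γ * (S.m g h γ i.castSucc 2 * S.m g' h' (g⁻¹ * γ * h) 2 j.castSucc)) := by
    intro γ
    have h1 : S.C (g * g') (h * h') γ = c γ • blk (S.m g h γ * S.m g' h' (g⁻¹ * γ * h)) := by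
      unfold C
      rw [hc2 γ]
      rfl
    rw [h1, Matrix.sub_apply, Matrix.smul_apply, Matrix.smul_apply, blk_mul, smul_eq_mul, smul_eq_mul]
    unfold C
    ring
  simp only [e]
  change Tendsto _ _ (𝓝 ((0 : M2) i j))
  rw [Matrix.zero_apply, tendsto_zero_iff_norm_tendsto_zero]
  have h1 : Tendsto (fun γ => ‖S.m g h γ i.castSucc 2‖ * Real.sqrt (ns (P.ι h'))) (S.at' δ) (𝓝 0) := by
    have := (S.tendsto_m hδ g h i).norm.mul_const (Real.sqrt (ns (P.ι h')))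
    rwa [norm_zero, zero_mul] at this
  refine squeeze_zero (fun γ => norm_nonneg _) (fun γ => ?_) h1
  rw [norm_neg, norm_mul, hc1, one_mul, norm_mul]
  exact mul_le_mul_of_nonneg_left (S.norm_m_le _ _ _ _ _) (norm_nonneg _)

end Svd

end Pool.Agent.Helper84.NI
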