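import Pool.Agent.Helper84.NI.Wall
import Pool.Agent.Helper84.NI.GD

/-!
# Project NI, block WC: continuity properties of fibre representations

PROOFS by ultrafilters (`tendsto_iff_ultrafilter`): let `u ≤ l` be an ultrafilter. In `tendsto_sub`, `f → f0`, `g → g0` in the compact set `Kc R r` and `c → c0` in the unit circle along `u`
(`IsCompact.ultrafilter_le_nhds`), `c0 • f0 = g0`, and by `Φ.cont` (continuity within `{det ≠ 0}`, which is open) `π(f) w → π(f0) w`, `π(g) w → π(g0) w = π(c0 • f0) w = π(f0) w` (`Φ.scal`).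
In `tendsto_v`: `ns (f a) = Re tr (f fᴴ) → 2`, so `f` is eventually bounded, `|det f|^2 = |det (f fᴴ)| → 1`, so eventually in a `Kc R r`; along `u`: `f → f0`, `f0 f0ᴴ = 1`, so `IsU f0` and `π(f0) v = v`.
-/

set_option autoImplicit false

open Filter Topology Matrix

namespace Pool.Agent.Helper84.NI

variable {L : Type} [NormedAddCommGroup L] [InnerProductSpace ℂ L] (Φ : Fib L)

theorem Fib.compact_range (w : L) {R r : ℝ} (hr : 0 < r) : IsCompact ((fun C => Φ.π C w) '' Kc R r) :=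
  (isCompact_Kc R r).image_of_continuousOn ((Φ.cont w).mono (Kc_det hr))

/-- limits along an ultrafilter in the compact sets `Kc R r` -/
theorem h27_lim {α : Type} (u : Ultrafilter α) {f : α → M2} {R r : ℝ}
    (hf : ∀ᶠ a in (u : Filter α), f a ∈ Kc R r) : ∃ f0 ∈ Kc R r, Tendsto f u (𝓝 f0) := by
  obtain ⟨f0, h0, h1⟩ := (isCompact_Kc R r).ultrafilter_le_nhds (u.map f) (by
    rw [le_principal_iff]
    exact hf)
  exact ⟨f0, h0, h1⟩

/-- continuity of the representation along a filter -/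
theorem Fib.h27_cont {α : Type} {l : Filter α} {f : α → M2} {f0 : M2} {R r : ℝ} (hr : 0 < r)
    (hf : ∀ᶠ a in l, f a ∈ Kc R r) (h0 : f0 ∈ Kc R r) (h : Tendsto f l (𝓝 f0)) (w : L) :
    Tendsto (fun a => Φ.π (f a) w) l (𝓝 (Φ.π f0 w)) := by
  have h1 : Tendsto f l (𝓝[{C : M2 | C.det ≠ 0}] f0) :=
    tendsto_nhdsWithin_iff.2 ⟨h, hf.mono fun a ha => Kc_det hr ha⟩
  have h2 : ContinuousWithinAt (fun C => Φ.π C w) {C : M2 | C.det ≠ 0} f0 :=
    Φ.cont w f0 (Kc_det hr h0)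
  exact Tendsto.comp h2 h1

theorem Fib.tendsto_sub {α : Type} {l : Filter α} {f g : α → M2} {c : α → ℂ} {R r : ℝ} (hr : 0 < r)
    (hc : ∀ a, ‖c a‖ = 1) (hf : ∀ᶠ a in l, f a ∈ Kc R r) (hg : ∀ᶠ a in l, g a ∈ Kc R r)
    (h : Tendsto (fun a => c a • f a - g a) l (𝓝 0)) (w : L) :
    Tendsto (fun a => Φ.π (f a) w - Φ.π (g a) w) l (𝓝 0) := by
  rw [tendsto_iff_ultrafilter]
  intro u hu
  obtain ⟨f0, hf0, hfl⟩ := h27_lim u (hf.filter_mono hu)
  obtain ⟨g0, hg0, hgl⟩ := h27_lim u (hg.filter_mono hu)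
  have hcs : ∀ᶠ a in (u : Filter α), c a ∈ Metric.sphere (0 : ℂ) 1 :=
    Filter.Eventually.of_forall fun a => by simpa using hc a
  obtain ⟨c0, hc0, hcl⟩ := (isCompact_sphere (0 : ℂ) 1).ultrafilter_le_nhds (u.map c) (by
    rw [le_principal_iff]
    exact hcs)
  have hcl' : Tendsto c u (𝓝 c0) := hcl
  have hc0' : c0 ≠ 0 := by
    rintro rfl
    simp at hc0
  have h1 : Tendsto (fun a => c a • f a - g a) u (𝓝 (c0 • f0 - g0)) := (hcl'.smul hfl).sub hgl
  have h2 := tendsto_nhds_unique h1 (h.mono_left hu)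
  have h3 : c0 • f0 = g0 := sub_eq_zero.1 h2
  have h4 := (Φ.h27_cont hr (hf.filter_mono hu) hf0 hfl w).sub
    (Φ.h27_cont hr (hg.filter_mono hu) hg0 hgl w)
  rw [← h3, Φ.scal c0 f0 hc0' (Kc_det hr hf0), sub_self] at h4
  exact h4

theorem Fib.h27_v {α : Type} {l : Filter α} {f : α → M2} {R r : ℝ} (hr : 0 < r)
    (hf : ∀ᶠ a in l, f a ∈ Kc R r)
    (h : ∀ (u : Ultrafilter α) (f0 : M2), ↑u ≤ l → Tendsto f u (𝓝 f0) → IsU f0) :
    Tendsto (fun a => Φ.π (f a) Φ.v) l (𝓝 Φ.v) := by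
  rw [tendsto_iff_ultrafilter]
  intro u hu
  obtain ⟨f0, hf0, hfl⟩ := h27_lim u (hf.filter_mono hu)
  have h1 := Φ.h27_cont hr (hf.filter_mono hu) hf0 hfl Φ.v
  rw [Φ.inv f0 (h u f0 hu hfl)] at h1
  exact h1

theorem h27_norm_det (A : M2) : ‖(Aᴴ).det‖ = ‖A.det‖ := by
  rw [Matrix.det_conjTranspose, norm_star]

/-- the two conditions give membership in `Kc 2 (1/2)` -/
theorem h27_Kc {A : M2} (h1 : ∀ i j, ‖A i j‖ ^ 2 ≤ 4) (h2 : 1 / 4 ≤ ‖A.det‖ * ‖A.det‖) :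
    A ∈ Kc 2 (1 / 2) := by
  refine ⟨fun i j => ?_, ?_⟩
  · have := h1 i j
    nlinarith [norm_nonneg (A i j)]
  · nlinarith [norm_nonneg A.det]

theorem h27_row (A : M2) (i j : Fin 2) : ‖A i j‖ ^ 2 ≤ ‖(A * Aᴴ) i i‖ := by
  have h1 : (A * Aᴴ) i i = ((∑ k, ‖A i k‖ ^ 2 : ℝ) : ℂ) := by
    rw [Matrix.mul_apply, Complex.ofReal_sum]
    refine Finset.sum_congr rfl fun k _ => ?_
    rw [Matrix.conjTranspose_apply]
    have h1 : A i k * (starRingEnd ℂ) (A i k) = ((‖A i k‖ : ℂ)) ^ 2 := Complex.mul_conj' (A i k)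
    rw [Complex.ofReal_pow, ← h1]
    rfl
  rw [h1, Complex.norm_real, Real.norm_of_nonneg (by positivity)]
  exact Finset.single_le_sum (f := fun k => ‖A i k‖ ^ 2) (fun k _ => by positivity)
    (Finset.mem_univ j)

theorem h27_ev {α : Type} {l : Filter α} {f : α → M2}
    (h : Tendsto (fun a => f a * (f a)ᴴ) l (𝓝 1)) : ∀ᶠ a in l, f a ∈ Kc 2 (1 / 2) := by
  have h1 : ∀ i : Fin 2, Tendsto (fun a => ‖(f a * (f a)ᴴ) i i‖) l (𝓝 1) := by
    intro i
    have h2 := (tendsto_pi_nhds.1 (tendsto_pi_nhds.1 h i) i).norm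
    rwa [Matrix.one_apply_eq, norm_one] at h2
  have h3 : Tendsto (fun a => ‖(f a * (f a)ᴴ).det‖) l (𝓝 1) := by
    have hc : Continuous fun C : M2 => C.det := by fun_prop
    have h4 := ((hc.tendsto 1).comp h).norm
    rw [Matrix.det_one, norm_one] at h4
    exact h4
  filter_upwards [(h1 0).eventually (gt_mem_nhds (show (1 : ℝ) < 4 by norm_num)),
    (h1 1).eventually (gt_mem_nhds (show (1 : ℝ) < 4 by norm_num)),
    h3.eventually (lt_mem_nhds (show (1 / 4 : ℝ) < 1 by norm_num))] with a a0 a1 a2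
  refine h27_Kc (fun i j => (h27_row (f a) i j).trans ?_) ?_
  · fin_cases i
    · exact a0.le
    · exact a1.le
  · rw [Matrix.det_mul, norm_mul, h27_norm_det] at a2
    exact a2.le

theorem Fib.tendsto_v {α : Type} {l : Filter α} {f : α → M2}
    (h : Tendsto (fun a => f a * (f a)ᴴ) l (𝓝 1)) : Tendsto (fun a => Φ.π (f a) Φ.v) l (𝓝 Φ.v) := by
  refine Φ.h27_v (by norm_num : (0 : ℝ) < 1 / 2) (h27_ev h) fun u f0 hu hf0 => ?_
  have hc : Continuous fun C : M2 => C * Cᴴ := by fun_prop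
  have h1 := tendsto_nhds_unique ((hc.tendsto f0).comp hf0) (h.mono_left hu)
  exact mul_eq_one_comm.1 h1

theorem Fib.tendsto_v' {α : Type} {l : Filter α} {f : α → M2}
    (h : Tendsto (fun a => (f a)ᴴ * f a) l (𝓝 1)) : Tendsto (fun a => Φ.π (f a) Φ.v) l (𝓝 Φ.v) := by
  have hK : ∀ᶠ a in l, (f a)ᴴ ∈ Kc 2 (1 / 2) := by
    apply h27_ev
    simpa using h
  have hK' : ∀ᶠ a in l, f a ∈ Kc 2 (1 / 2) := by
    filter_upwards [hK] with a ha
    refine ⟨fun i j => ?_, ?_⟩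
    · have := ha.1 j i
      rwa [Matrix.conjTranspose_apply, norm_star] at this
    · have := ha.2
      rwa [h27_norm_det] at this
  refine Φ.h27_v (by norm_num : (0 : ℝ) < 1 / 2) hK' fun u f0 hu hf0 => ?_
  have hc : Continuous fun C : M2 => Cᴴ * C := by fun_prop
  exact tendsto_nhds_unique ((hc.tendsto f0).comp hf0) (h.mono_left hu)

/-- eventually invertible -/
theorem eventually_det {α : Type} {l : Filter α} {f : α → M2}
    (h : Tendsto (fun a => (f a)ᴴ * f a) l (𝓝 1)) : ∀ᶠ a in l, (f a).det ≠ 0 := by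
  have hK : ∀ᶠ a in l, (f a)ᴴ ∈ Kc 2 (1 / 2) := by
    apply h27_ev
    simpa using h
  filter_upwards [hK] with a ha h0
  have := ha.2
  rw [h27_norm_det, h0, norm_zero] at this
  norm_num at this

theorem Kc_mul {R r R' r' : ℝ} {C D : M2} (hC : C ∈ Kc R r) (hD : D ∈ Kc R' r') (hr : 0 ≤ r) (hr' : 0 ≤ r') :
    C * D ∈ Kc (2 * R * R') (r * r') := by
  have hR : 0 ≤ R := (norm_nonneg _).trans (hC.1 0 0)
  refine ⟨fun i j => ?_, ?_⟩
  · rw [Matrix.mul_apply, Fin.sum_univ_two]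
    refine (norm_add_le _ _).trans ?_
    rw [norm_mul, norm_mul]
    have h1 := mul_le_mul (hC.1 i 0) (hD.1 0 j) (norm_nonneg _) hR
    have h2 := mul_le_mul (hC.1 i 1) (hD.1 1 j) (norm_nonneg _) hR
    linarith
  · rw [Matrix.det_mul, norm_mul]
    exact mul_le_mul hC.2 hD.2 hr' (norm_nonneg _)

theorem Kc_mono {R r R' r' : ℝ} (hR : R ≤ R') (hr : r' ≤ r) : Kc R r ⊆ Kc R' r' :=
  fun _ hC => ⟨fun i j => (hC.1 i j).trans hR, hr.trans hC.2⟩

/-- `π` of the identity. -/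
theorem Fib.one (w : L) : Φ.π 1 w = w := by
  have h := Φ.mul 1 1 (by simp) (by simp) w
  rw [mul_one] at h
  exact (Φ.π 1).injective h.symm

end Pool.Agent.Helper84.NI
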