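import Pool.Agent.Helper84.NI.WA
import Pool.Agent.Helper84.NI.WB
import Pool.Agent.Helper84.NI.WC

/-!
# Project NI, block WD: the operators `W(g, h)` on the wall space

PROOFS. `what_gen`: pointwise `(What (mulF (const w) f)) γ = π(C_{g,h}(γ)) (f(g⁻¹γh) • w) = f(g⁻¹γh) • π(C_{g,h}(γ)) w`; both sides are `UP.map` of composed operators (`UP.map_comp`).
`what_mem`: on generators by `what_gen`, `map_mulF_mem` with `F γ = π(C_{g,h}(γ)) w`, `K` = the image of `Kc R r` (`C_compact`, `Fib.compact_range`) and `perm_mem_Ua`; then span and closure.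
`what_mul`: on a generator `UP.map (mulF (const w)) a`, `γ'' = g⁻¹ γ h`: left side `UP.map (mulF F1) a'`, `F1 γ = π(C_{g,h}(γ)) π(C_{g',h'}(γ'')) w`, right side
`UP.map (mulF F2) a'`, `F2 γ = π(C_{gg',hh'}(γ)) w`, same `a' = UP.map (permV (tr (gg') (hh'))) a`. The difference is `UP.map (mulF (F1 - F2)) a'` and `F1 - F2 → 0` along every `S.at' δ`: eventually
`C_{g,h}(γ)`, `C_{g',h'}(γ'')`, `C_{gg',hh'}(γ)` are in compact sets `Kc` (`C_compact`, `tendsto_shift`), so `F1 γ = π(C C') w` (`Φ.mul`), `Kc_mul`, and `Fib.tendsto_sub` with `C_mul`. Then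
`map_mulF_zero`. `what_one`: `C_{1,1} = c • 1` (`C_one` of block GE; import it), `Φ.scal`, `Fib.one`.
-/

set_option autoImplicit false

open Filter Topology Matrix

namespace Pool.Agent.Helper84.NI

open GVN

variable {G : Type} [Group G] {P : PHom G} (S : Svd P)
  {L : Type} [NormedAddCommGroup L] [InnerProductSpace ℂ L] (Φ : Fib L)

omit [Group G] in
theorem mulF_sub' {F F' : G → L} {C C' : ℝ} (hC : ∀ γ, ‖F γ‖ ≤ C) (hC' : ∀ γ, ‖F' γ‖ ≤ C') :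
    mulF F - mulF F' = mulF (fun γ => F γ - F' γ) := by
  ext f : 1
  refine lv_ext fun γ => ?_
  have h : ∀ γ, ‖F γ - F' γ‖ ≤ C + C' := fun γ => (norm_sub_le _ _).trans (add_le_add (hC γ) (hC' γ))
  rw [mulF_apply h, smul_sub]
  change mulF F f γ - mulF F' f γ = _
  rw [mulF_apply hC, mulF_apply hC']

theorem what_gen' (g h : G) {F : G → L} {C : ℝ} (hC : ∀ γ, ‖F γ‖ ≤ C) (a : UP (L2 G)) :
    UP.mapU (What S Φ g h) (UP.map (mulF F) a) =
      UP.map (mulF fun γ => Φ.π (S.C g h γ) (F (g⁻¹ * γ * h)))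
      (UP.map ((permV (tr g h) : Lv G ℂ ≃ₗᵢ[ℂ] Lv G ℂ).toContinuousLinearEquiv : L2 G →L[ℂ] L2 G) a) := by
  rw [UP.mapU_apply, ← UP.map_comp, ← UP.map_comp]
  refine congrArg (fun T => UP.map T a) ?_
  ext f : 1
  refine lv_ext fun γ => ?_
  have h' : ∀ γ, ‖Φ.π (S.C g h γ) (F (g⁻¹ * γ * h))‖ ≤ C := fun γ => by
    rw [LinearIsometryEquiv.norm_map]
    exact hC _
  change What S Φ g h (mulF F f) γ = mulF (fun γ => Φ.π (S.C g h γ) (F (g⁻¹ * γ * h))) (permV (tr g h) f) γ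
  rw [What_apply, mulF_apply hC, mulF_apply h', permV_tr, map_smul]

theorem what_gen (g h : G) (w : L) (a : UP (L2 G)) :
    UP.mapU (What S Φ g h) (UP.map (mulF fun _ => w) a) = UP.map (mulF fun γ => Φ.π (S.C g h γ) w)
      (UP.map ((permV (tr g h) : Lv G ℂ ≃ₗᵢ[ℂ] Lv G ℂ).toContinuousLinearEquiv : L2 G →L[ℂ] L2 G) a) :=
  what_gen' S Φ g h (F := fun _ => w) (fun _ => le_refl ‖w‖) a

theorem what_mem (g h : G) (ξ : UP (Lv G L)) (hξ : ξ ∈ Vp S (L := L)) :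
    UP.mapU (What S Φ g h) ξ ∈ Vp S (L := L) := by
  set T : UP (Lv G L) →L[ℂ] UP (Lv G L) :=
    UP.map ((What S Φ g h).toContinuousLinearEquiv : Lv G L →L[ℂ] Lv G L) with hT
  have hcl : IsClosed (((Vp S (L := L)).comap (T : UP (Lv G L) →ₗ[ℂ] UP (Lv G L)) :
      Submodule ℂ (UP (Lv G L))) : Set (UP (Lv G L))) := by
    have h1 : IsClosed ((Vp S (L := L)) : Set (UP (Lv G L))) :=
      Submodule.isClosed_topologicalClosure _
    exact h1.preimage T.continuous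
  have hle : Vp S (L := L) ≤ (Vp S (L := L)).comap (T : UP (Lv G L) →ₗ[ℂ] UP (Lv G L)) := by
    refine Submodule.topologicalClosure_minimal _ (Submodule.span_le.mpr ?_) hcl
    rintro _ ⟨w, a, ha, rfl⟩
    change UP.mapU (What S Φ g h) (UP.map (mulF fun _ => w) a) ∈ Vp S (L := L)
    rw [what_gen]
    obtain ⟨R, r, hr, hRr⟩ := S.C_compact g h
    refine map_mulF_mem S (C := ‖w‖) (fun γ => by rw [LinearIsometryEquiv.norm_map]) (fun δ hδ => ?_)
      (perm_mem_Ua S g h ha)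
    refine ⟨(fun C => Φ.π C w) '' Kc R r, Fib.compact_range Φ w hr, ?_⟩
    filter_upwards [hRr δ hδ] with γ hγ
    exact ⟨_, hγ, rfl⟩
  exact hle hξ

theorem perm_perm (g h g' h' : G) (a : UP (L2 G)) :
    UP.map ((permV (tr g h) : Lv G ℂ ≃ₗᵢ[ℂ] Lv G ℂ).toContinuousLinearEquiv : L2 G →L[ℂ] L2 G)
      (UP.map ((permV (tr g' h') : Lv G ℂ ≃ₗᵢ[ℂ] Lv G ℂ).toContinuousLinearEquiv : L2 G →L[ℂ] L2 G) a) =
    UP.map ((permV (tr (g * g') (h * h')) : Lv G ℂ ≃ₗᵢ[ℂ] Lv G ℂ).toContinuousLinearEquiv :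
      L2 G →L[ℂ] L2 G) a := by
  rw [← UP.map_comp]
  refine congrArg (fun T => UP.map T a) ?_
  ext f : 1
  refine lv_ext fun γ => ?_
  change permV (tr g h) (permV (tr g' h') f) γ = permV (tr (g * g') (h * h')) f γ
  rw [permV_tr, permV_tr, permV_tr]
  group

theorem tendsto_diff (g h g' h' : G) (w : L) {δ : ℝ} (hδ : 0 < δ) :
    Tendsto (fun γ => Φ.π (S.C (g * g') (h * h') γ) w -
      Φ.π (S.C g h γ) (Φ.π (S.C g' h' (g⁻¹ * γ * h)) w)) (S.at' δ) (𝓝 0) := by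
  obtain ⟨R, r, hr, hK⟩ := S.C_compact g h
  obtain ⟨R', r', hr', hK'⟩ := S.C_compact g' h'
  obtain ⟨R'', r'', hr'', hK''⟩ := S.C_compact (g * g') (h * h')
  obtain ⟨c0, hc0, hsh⟩ := S.tendsto_shift g h
  obtain ⟨c, hc, hcm⟩ := S.C_mul g h g' h'
  have e1 := hK δ hδ
  have e2 : ∀ᶠ γ in S.at' δ, S.C g' h' (g⁻¹ * γ * h) ∈ Kc R' r' :=
    (hsh δ hδ).eventually (hK' (c0 * δ) (by positivity))
  have e3 := hK'' δ hδ
  set RR := max (2 * R * R') R'' with hRR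
  set rr := min (r * r') r'' with hrr
  have hrr0 : 0 < rr := lt_min (mul_pos hr hr') hr''
  have hf : ∀ᶠ γ in S.at' δ, S.C g h γ * S.C g' h' (g⁻¹ * γ * h) ∈ Kc RR rr := by
    filter_upwards [e1, e2] with γ h1 h2
    exact Kc_mono (le_max_left _ _) (min_le_left _ _) (Kc_mul h1 h2 hr.le hr'.le)
  have hg : ∀ᶠ γ in S.at' δ, S.C (g * g') (h * h') γ ∈ Kc RR rr := by
    filter_upwards [e3] with γ h3
    exact Kc_mono (le_max_right _ _) (min_le_right _ _) h3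
  have key := Fib.tendsto_sub Φ hrr0 hc hf hg (hcm δ hδ) w
  have key2 := key.neg
  rw [neg_zero] at key2
  refine key2.congr' ?_
  filter_upwards [e1, e2] with γ h1 h2
  rw [Φ.mul _ _ (Kc_det hr h1) (Kc_det hr' h2), neg_sub]

theorem what_mul (g h g' h' : G) (ξ : UP (Lv G L)) (hξ : ξ ∈ Vp S (L := L)) :
    UP.mapU (What S Φ (g * g') (h * h')) ξ = UP.mapU (What S Φ g h) (UP.mapU (What S Φ g' h') ξ) := by
  set T1 : UP (Lv G L) →L[ℂ] UP (Lv G L) :=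
    UP.map ((What S Φ (g * g') (h * h')).toContinuousLinearEquiv : Lv G L →L[ℂ] Lv G L) with hT1
  set T2 : UP (Lv G L) →L[ℂ] UP (Lv G L) :=
    UP.map ((What S Φ g h).toContinuousLinearEquiv : Lv G L →L[ℂ] Lv G L) with hT2
  set T3 : UP (Lv G L) →L[ℂ] UP (Lv G L) :=
    UP.map ((What S Φ g' h').toContinuousLinearEquiv : Lv G L →L[ℂ] Lv G L) with hT3
  have hcl : IsClosed ((LinearMap.ker ((T1 - T2.comp T3 : UP (Lv G L) →L[ℂ] UP (Lv G L)) :
      UP (Lv G L) →ₗ[ℂ] UP (Lv G L)) : Submodule ℂ (UP (Lv G L))) : Set (UP (Lv G L))) :=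
    ContinuousLinearMap.isClosed_ker _
  have hle : Vp S (L := L) ≤ LinearMap.ker ((T1 - T2.comp T3 : UP (Lv G L) →L[ℂ] UP (Lv G L)) :
      UP (Lv G L) →ₗ[ℂ] UP (Lv G L)) := by
    refine Submodule.topologicalClosure_minimal _ (Submodule.span_le.mpr ?_) hcl
    rintro _ ⟨w, a, ha, rfl⟩
    rw [SetLike.mem_coe, LinearMap.mem_ker]
    change UP.mapU (What S Φ (g * g') (h * h')) (UP.map (mulF fun _ => w) a) -
      UP.mapU (What S Φ g h) (UP.mapU (What S Φ g' h') (UP.map (mulF fun _ => w) a)) = 0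
    have b1 : ∀ γ, ‖Φ.π (S.C g' h' γ) w‖ ≤ ‖w‖ := fun γ => by rw [LinearIsometryEquiv.norm_map]
    have b2 : ∀ γ, ‖Φ.π (S.C (g * g') (h * h') γ) w‖ ≤ ‖w‖ := fun γ => by
      rw [LinearIsometryEquiv.norm_map]
    have b3 : ∀ γ, ‖Φ.π (S.C g h γ) (Φ.π (S.C g' h' (g⁻¹ * γ * h)) w)‖ ≤ ‖w‖ := fun γ => by
      rw [LinearIsometryEquiv.norm_map, LinearIsometryEquiv.norm_map]
    have b4 : ∀ γ, ‖Φ.π (S.C (g * g') (h * h') γ) w -
        Φ.π (S.C g h γ) (Φ.π (S.C g' h' (g⁻¹ * γ * h)) w)‖ ≤ ‖w‖ + ‖w‖ := fun γ =>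
      (norm_sub_le _ _).trans (add_le_add (b2 γ) (b3 γ))
    rw [what_gen, what_gen, what_gen' S Φ g h b1, perm_perm]
    rw [← UP.map_sub, mulF_sub' b2 b3]
    exact map_mulF_zero S b4 (fun δ hδ => tendsto_diff S Φ g h g' h' w hδ) (perm_mem_Ua S _ _ ha)
  have h1 := hle hξ
  rw [LinearMap.mem_ker] at h1
  exact sub_eq_zero.mp h1

end Pool.Agent.Helper84.NI
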