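import Pool.Agent.Helper84.NI.WE

/-!
# Project NI, block WF: equivariance of the sections, inner products

PROOFS.
`TR_A`: `what_gen` with `h = 1`: difference `UP.map (mulF (π(C_{g,1}(γ)) v - v)) a' = 0` by `map_mulF_zero`, `Fib.tendsto_v` with `C_left`; `a' = Alim G g a` (`Alim_apply`).
`TL_B`: `(What 1 h (mulF F f)) γ = f(γ h) • π(C_{1,h}(γ)) π(X(γh)) v`. By `C_right`: `C X(γh) = c • (X(γ) O(γ))`; eventually along `at' δ` `det C ≠ 0` (`C_compact`) and `det O ≠ 0` (`eventually_det`), so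
`π(C) π(X(γh)) v = π(X γ) π(O γ) v` (`Φ.mul`, `Φ.scal`, `X_det`), and `π(X γ) π(O γ) v - π(X γ) v → 0` (`Fib.tendsto_v'`, `π(X γ)` isometric). `map_mulF_zero`.
`inner_TL_TR`: at the level of `ℓ²`: `⟪mulF F a, mulF F' b⟫ = ∑ conj (a γ) b γ ⟪F γ, F' γ⟫ = ⟪a, dg(..) b⟫` (`lv_inner`); pass to the ultrapower, e.g. with `UP.ext_fun` in both variables and `UP.tendsto_inner`.
-/

set_option autoImplicit false

open Filter Topology Matrix

namespace Pool.Agent.Helper84.NI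

open GVN

variable {G : Type} [Group G] {P : PHom G} (S : Svd P)
  {L : Type} [NormedAddCommGroup L] [InnerProductSpace ℂ L] (Φ : Fib L)

theorem TR_A (g : G) (a : Ua S) : TR S Φ (AU S g a) = AV S Φ g (TR S Φ a) := by
  apply Subtype.ext
  rw [coe_AV]
  change UP.map (mulF fun _ => Φ.v) (Alim G g (a : UP (L2 G))) =
    UP.mapU (What S Φ g 1) (UP.map (mulF fun _ => Φ.v) (a : UP (L2 G)))
  rw [what_gen, Alim_apply]
  have b1 : ∀ γ : G, ‖(fun _ : G => Φ.v) γ‖ ≤ ‖Φ.v‖ := fun _ => le_rfl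
  have b2 : ∀ γ, ‖Φ.π (S.C g 1 γ) Φ.v‖ ≤ ‖Φ.v‖ := fun γ => by rw [LinearIsometryEquiv.norm_map]
  rw [← sub_eq_zero, ← UP.map_sub, mulF_sub' b1 b2]
  refine map_mulF_zero S (C := ‖Φ.v‖ + ‖Φ.v‖) (fun γ => (norm_sub_le _ _).trans (add_le_add (b1 γ) (b2 γ)))
    (fun δ hδ => ?_) (perm_mem_Ua S g 1 a.2)
  have h := (Fib.tendsto_v Φ (S.C_left g hδ)).const_sub Φ.v
  rwa [sub_self] at h

theorem TL_B (g : G) (a : Ua S) : TL S Φ (BU S g a) = BV S Φ g (TL S Φ a) := by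
  apply Subtype.ext
  rw [coe_BV]
  change UP.map (mulF fun γ => Φ.π (S.X γ) Φ.v) (Blim G g (a : UP (L2 G))) =
    UP.mapU (What S Φ 1 g) (UP.map (mulF fun γ => Φ.π (S.X γ) Φ.v) (a : UP (L2 G)))
  have b0 : ∀ γ, ‖Φ.π (S.X γ) Φ.v‖ ≤ ‖Φ.v‖ := fun γ => by rw [LinearIsometryEquiv.norm_map]
  have b2 : ∀ γ, ‖Φ.π (S.C 1 g γ) (Φ.π (S.X (1⁻¹ * γ * g)) Φ.v)‖ ≤ ‖Φ.v‖ := fun γ => by
    rw [LinearIsometryEquiv.norm_map, LinearIsometryEquiv.norm_map]
  rw [what_gen' S Φ 1 g b0, Blim_apply]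
  rw [← sub_eq_zero, ← UP.map_sub, mulF_sub' b0 b2]
  refine map_mulF_zero S (C := ‖Φ.v‖ + ‖Φ.v‖) (fun γ => (norm_sub_le _ _).trans (add_le_add (b0 γ) (b2 γ)))
    (fun δ hδ => ?_) (perm_mem_Ua S 1 g a.2)
  obtain ⟨O, hO1, hO2⟩ := S.C_right g
  obtain ⟨R, r, hr, hK⟩ := S.C_compact 1 g
  have hv := Fib.tendsto_v' Φ (hO2 δ hδ)
  have hdet := eventually_det (hO2 δ hδ)
  have h0 := (hv.const_sub Φ.v).norm
  rw [sub_self, norm_zero] at h0
  rw [tendsto_zero_iff_norm_tendsto_zero]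
  refine h0.congr' ?_
  filter_upwards [hK δ hδ, hdet] with γ h1 h2
  obtain ⟨c, hc, he⟩ := hO1 γ
  have hc0 : c ≠ 0 := by
    intro h0
    rw [h0, norm_zero] at hc
    exact zero_ne_one hc
  have hX := S.X_det γ
  have hX' := S.X_det (γ * g)
  have hC := Kc_det hr h1
  have e1 : Φ.π (S.C 1 g γ) (Φ.π (S.X (γ * g)) Φ.v) = Φ.π (S.X γ) (Φ.π (O γ) Φ.v) := by
    rw [← Φ.mul _ _ hC hX', he, Φ.scal c _ hc0 (by
      rw [Matrix.det_mul]
      exact mul_ne_zero hX h2), Φ.mul _ _ hX h2]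
  rw [inv_one, one_mul, e1, ← map_sub, LinearIsometryEquiv.norm_map]

/-- the multiplication operator by a bounded function -/
noncomputable def mulop (f : G → ℂ) : L2 G →L[ℂ] L2 G := dg fun γ => f γ • ContinuousLinearMap.id ℂ ℂ

theorem inner_TL_TR (a b : Ua S) : inner ℂ (TL S Φ a) (TR S Φ b) =
    inner ℂ (a : UP (L2 G)) (UP.map (mulop fun γ => inner ℂ (Φ.π (S.X γ) Φ.v) Φ.v) (b : UP (L2 G))) := by
  have b0 : ∀ γ, ‖Φ.π (S.X γ) Φ.v‖ ≤ 1 := fun γ => by rw [LinearIsometryEquiv.norm_map, Φ.nv]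
  have b1 : ∀ γ : G, ‖(fun _ : G => Φ.v) γ‖ ≤ 1 := fun _ => Φ.nv.le
  set f : G → ℂ := fun γ => inner ℂ (Φ.π (S.X γ) Φ.v) Φ.v with hf
  have hfb : ∀ γ, ‖f γ‖ ≤ 1 := fun γ => by
    refine (norm_inner_le_norm _ _).trans ?_
    rw [LinearIsometryEquiv.norm_map, Φ.nv, one_mul]
  have hmul : ∀ (x : L2 G) (γ : G), mulop f x γ = f γ * x γ := by
    intro x γ
    unfold mulop
    rw [dg_apply (C := 1) (fun i y => by
      rw [_root_.smul_apply, norm_smul]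
      exact mul_le_mul_of_nonneg_right (hfb i) (norm_nonneg _))]
    rw [_root_.smul_apply, ContinuousLinearMap.id_apply, smul_eq_mul]
  have key : ∀ x y : L2 G, inner ℂ (mulF (fun γ => Φ.π (S.X γ) Φ.v) x) (mulF (fun _ : G => Φ.v) y) =
      inner ℂ x (mulop f y) := by
    intro x y
    refine (lv_inner _ _).unique ?_
    have e : (fun γ => inner ℂ (mulF (fun γ => Φ.π (S.X γ) Φ.v) x γ) (mulF (fun _ : G => Φ.v) y γ)) =
        fun γ => inner ℂ (x γ) (mulop f y γ) := by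
      funext γ
      rw [mulF_apply b0, mulF_apply b1, hmul, inner_smul_left, inner_smul_right, RCLike.inner_apply]
      ring
    rw [e]
    exact lv_inner x (mulop f y)
  change inner ℂ (UP.map (mulF fun γ => Φ.π (S.X γ) Φ.v) (a : UP (L2 G)))
    (UP.map (mulF fun _ => Φ.v) (b : UP (L2 G))) = _
  refine UP.ext_fun (f := fun ξ => inner ℂ (UP.map (mulF fun γ => Φ.π (S.X γ) Φ.v) ξ)
    (UP.map (mulF fun _ => Φ.v) (b : UP (L2 G)))) (g := fun ξ => inner ℂ ξ (UP.map (mulop f) (b : UP (L2 G))))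
    (by fun_prop) (by fun_prop) (fun x => ?_) (a : UP (L2 G))
  refine UP.ext_fun (f := fun η => inner ℂ (UP.map (mulF fun γ => Φ.π (S.X γ) Φ.v) (UP.mk x))
    (UP.map (mulF fun _ => Φ.v) η)) (g := fun η => inner ℂ (UP.mk x) (UP.map (mulop f) η))
    (by fun_prop) (by fun_prop) (fun y => ?_) (b : UP (L2 G))
  simp only [UP.map_mk]
  refine tendsto_nhds_unique (UP.tendsto_inner _ _) ((UP.tendsto_inner _ _).congr fun n => ?_)
  exact (key (x.1 n) (y.1 n)).symm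

end Pool.Agent.Helper84.NI
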