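import Pool.Agent.Helper84.NI.Cen

/-!
# Project NI, block TI: tightness from property (T)

PROOF. Write `z = (VB A').starProjection`, `L l = ext A' E l`, `R l = ext B' E.conj l`, `ζ_l = ext A E l ζ = ext B E.conj l⁻¹ ζ`
(`hζ.cen`), `n = ‖ζ‖`, `η0 = z (TL ζ)`. Facts:
(1) `TR ζ` is `A'`-bounded (`Bdd.map hR hζ.bA`), so in `VB A'`, and `L l (TR ζ) = TR ζ_l` (`map_ext`). `TL ζ` is `B'`-bounded, in `VB B'`, and
`R l⁻¹ (TL ζ) = TL ζ_l` (`map_ext`).
(2) `z` commutes with `B' g` (`map_starProjection` with `T = B' g`, `A = A'`, by `hAB'`), so `z` maps `VB B'` into `VB B'` (`map_VB`) and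
`z (R l x) = R l (z x)` (`map_ext` for the representation `B'`, `T = z`). Likewise `L l` commutes with `B' g` (`map_ext` with `T = B' g`), hence maps
`VB B'` into itself and commutes with `R m` (`map_ext` with `T = L l`, representation `B'`).
(3) On the closed subspace `𝒲 = VB A' ⊓ VB B'` the operators `σ l = L l ∘ R l` are unitary and form a representation of `Λ`
(`ext_mul`, `ext_one_apply`, `norm_ext`, inverse `σ l⁻¹`). `η0 ∈ 𝒲`.
(4) For `q ∈ Q`: `‖σ q η0 - η0‖ = ‖R q (L q η0 - R q⁻¹ η0)‖ ≤ ‖L q η0 - R q⁻¹ η0‖ ≤ ‖L q (η0 - TR ζ)‖ + ‖z (TR ζ_q) - z (TL ζ_q)‖ ≤ 2 δ n`,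
as `η0 - TR ζ = z (TL ζ - TR ζ)`, `R q⁻¹ η0 = z (R q⁻¹ (TL ζ)) = z (TL ζ_q)`.
(5) `kazhdan_close`: `‖σ l η0 - η0‖ ≤ 4 δ n / κ` for all `l`. So `‖L l η0 - R l⁻¹ η0‖ ≤ 4 δ n / κ` (apply `R l⁻¹`, isometric on `VB B'`).
(6) `⟪TL ζ_l, TR ζ_l⟫ = ⟪z (TL ζ_l), TR ζ_l⟫ = ⟪R l⁻¹ η0, L l (TR ζ)⟫`, and `‖L l (TR ζ)‖ = n`,
`‖R l⁻¹ η0 - L l (TR ζ)‖ ≤ 4 δ n / κ + δ n`.
-/

set_option autoImplicit false

open scoped ComplexConjugate

namespace Pool.Agent.Helper84.NI

open GVN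

variable {G Λ : Type} [Group G] [Group Λ] {H K : Type} [NormedAddCommGroup H] [InnerProductSpace ℂ H]
  [NormedAddCommGroup K] [InnerProductSpace ℂ K] [CompleteSpace H] [CompleteSpace K]

section Aux

variable {A' B' : G →* (K ≃ₗᵢ[ℂ] K)}

private theorem h75_intB (hAB' : Comm2 A' B') (g : G) (h : G) (x : K) :
    ((B' g : K ≃L[ℂ] K) : K →L[ℂ] K) (A' h x) = A' h (((B' g : K ≃L[ℂ] K) : K →L[ℂ] K) x) :=
  (hAB' h g x).symm

private theorem h75_intA (hAB' : Comm2 A' B') (g : G) (h : G) (x : K) :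
    ((A' g : K ≃L[ℂ] K) : K →L[ℂ] K) (B' h x) = B' h (((A' g : K ≃L[ℂ] K) : K →L[ℂ] K) x) :=
  hAB' g h x

/-- the projection on `VB A'` commutes with `B'` -/
private theorem h75_z (hAB' : Comm2 A' B') (g : G) (x : K) :
    (VB A').starProjection (B' g x) = B' g ((VB A').starProjection x) :=
  (map_starProjection (h75_intB hAB' g) x).symm

private theorem h75_L (hAB' : Comm2 A' B') (E : Emb Λ G) (l : Λ) (g : G) (x : K) :
    ext A' E l (B' g x) = B' g (ext A' E l x) :=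
  (map_ext (h75_intB hAB' g) E l x).symm

private theorem h75_R (hAB' : Comm2 A' B') (E : Emb Λ G) (l : Λ) (g : G) (x : K) :
    ext B' E l (A' g x) = A' g (ext B' E l x) :=
  (map_ext (h75_intA hAB' g) E l x).symm

private theorem h75_LR (hAB' : Comm2 A' B') (E F : Emb Λ G) (l m : Λ) (x : K) :
    ext A' E l (ext B' F m x) = ext B' F m (ext A' E l x) :=
  map_ext (h75_L hAB' E l) F m x

private theorem h75_inv (A : G →* (K ≃ₗᵢ[ℂ] K)) (E : Emb Λ G) (l : Λ) {x : K} (hx : x ∈ VB A) :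
    ext A E l⁻¹ (ext A E l x) = x := by
  rw [← ext_mul, inv_mul_cancel, ext_one_apply E hx]

private theorem h75_inv' (A : G →* (K ≃ₗᵢ[ℂ] K)) (E : Emb Λ G) (l : Λ) {x : K} (hx : x ∈ VB A) :
    ext A E l (ext A E l⁻¹ x) = x := by
  rw [← ext_mul, mul_inv_cancel, ext_one_apply E hx]

/-- the common space -/
private def h75_W (A' B' : G →* (K ≃ₗᵢ[ℂ] K)) : Submodule ℂ K := VB A' ⊓ VB B'

private theorem h75_W_closed (A' B' : G →* (K ≃ₗᵢ[ℂ] K)) : IsClosed (h75_W A' B' : Set K) := by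
  unfold h75_W
  rw [Submodule.coe_inf]
  exact (isClosed_VB A').inter (isClosed_VB B')

private theorem h75_mem (hAB' : Comm2 A' B') (E F : Emb Λ G) (l m : Λ) {x : K} (hx : x ∈ h75_W A' B') :
    ext A' E l (ext B' F m x) ∈ h75_W A' B' := by
  refine ⟨ext_mem A' E l _, ?_⟩
  exact map_VB (h75_L hAB' E l) (ext_mem B' F m x)

private theorem h75_norm (hAB' : Comm2 A' B') (E F : Emb Λ G) (l m : Λ) {x : K} (hx : x ∈ h75_W A' B') :
    ‖ext A' E l (ext B' F m x)‖ = ‖x‖ := by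
  rw [norm_ext E l (map_VB (h75_R hAB' F m) hx.1), norm_ext F m hx.2]

private theorem h75_comp (hAB' : Comm2 A' B') (E F : Emb Λ G) (l m : Λ) (x : K) :
    ext A' E (l * m) (ext B' F (l * m) x) = ext A' E l (ext B' F l (ext A' E m (ext B' F m x))) := by
  rw [ext_mul A' E l m, ext_mul B' F l m, h75_LR hAB' E F m l]

private theorem h75_one (A' B' : G →* (K ≃ₗᵢ[ℂ] K)) (E F : Emb Λ G) {x : K} (hx : x ∈ h75_W A' B') :
    ext A' E 1 (ext B' F 1 x) = x := by
  rw [ext_one_apply F hx.2, ext_one_apply E hx.1]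

/-- the representation of `Λ` on the common space -/
private noncomputable def h75_sig (hAB' : Comm2 A' B') (E F : Emb Λ G) :
    Λ →* (h75_W A' B' ≃ₗᵢ[ℂ] h75_W A' B') where
  toFun l :=
    { toFun := fun x => ⟨ext A' E l (ext B' F l x), h75_mem hAB' E F l l x.2⟩
      invFun := fun x => ⟨ext A' E l⁻¹ (ext B' F l⁻¹ x), h75_mem hAB' E F l⁻¹ l⁻¹ x.2⟩
      left_inv := fun x => by
        apply Subtype.ext
        change ext A' E l⁻¹ (ext B' F l⁻¹ (ext A' E l (ext B' F l x))) = x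
        rw [← h75_comp hAB', inv_mul_cancel, h75_one A' B' E F x.2]
      right_inv := fun x => by
        apply Subtype.ext
        change ext A' E l (ext B' F l (ext A' E l⁻¹ (ext B' F l⁻¹ x))) = x
        rw [← h75_comp hAB', mul_inv_cancel, h75_one A' B' E F x.2]
      map_add' := fun x y => by
        apply Subtype.ext
        change ext A' E l (ext B' F l ((x : K) + y)) = ext A' E l (ext B' F l x) + ext A' E l (ext B' F l y)
        rw [map_add, map_add]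
      map_smul' := fun c x => by
        apply Subtype.ext
        change ext A' E l (ext B' F l (c • (x : K))) = c • ext A' E l (ext B' F l x)
        rw [map_smul, map_smul]
      norm_map' := fun x => h75_norm hAB' E F l l x.2 }
  map_one' := by
    ext x
    exact h75_one A' B' E F x.2
  map_mul' l m := by
    ext x
    exact h75_comp hAB' E F l m x

private theorem h75_sig_apply (hAB' : Comm2 A' B') (E F : Emb Λ G) (l : Λ) (x : h75_W A' B') :
    (h75_sig hAB' E F l x : K) = ext A' E l (ext B' F l x) := rfl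

end Aux

theorem tight {A B : G →* (H ≃ₗᵢ[ℂ] H)} {A' B' : G →* (K ≃ₗᵢ[ℂ] K)} (hAB' : Comm2 A' B')
    (TL TR : H →ₗᵢ[ℂ] K) (hR : ∀ g x, TR (A g x) = A' g (TR x)) (hL : ∀ g x, TL (B g x) = B' g (TL x))
    {E : Emb Λ G} {ζ : H} (hζ : IsCV A B E ζ) {Q : Set Λ} {κ : ℝ} (hK : IsKazhdanPair Λ Q κ)
    {δ : ℝ} (hδ : 0 ≤ δ) (h1 : ∀ q ∈ Q, ‖TL (ext A E q ζ) - TR (ext A E q ζ)‖ ≤ δ * ‖ζ‖)
    (h0 : ‖TL ζ - TR ζ‖ ≤ δ * ‖ζ‖) (l : Λ) :
    (1 - δ - 4 * δ / κ) * ‖ζ‖ ^ 2 ≤ (inner ℂ (TL (ext A E l ζ)) (TR (ext A E l ζ))).re := by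
  set n := ‖ζ‖ with hn
  have hn0 : 0 ≤ n := norm_nonneg _
  have hκ : 0 < κ := hK.1
  set z := (VB A').starProjection with hz
  set TRc : H →L[ℂ] K := TR.toContinuousLinearMap with hTRc
  set TLc : H →L[ℂ] K := TL.toContinuousLinearMap with hTLc
  -- (1)
  have hbR : TR ζ ∈ VB A' := (Bdd.map (T := TRc) hR hζ.bA).mem_VB
  have hbL : TL ζ ∈ VB B' := (Bdd.map (T := TLc) hL hζ.bB).mem_VB
  have hRl : ∀ m, TR (ext A E m ζ) = ext A' E m (TR ζ) := fun m => map_ext (T := TRc) hR E m ζ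
  have hLl : ∀ m, TL (ext A E m ζ) = ext B' E.conj m⁻¹ (TL ζ) := fun m => by
    rw [hζ.cen m]
    exact map_ext (T := TLc) hL E.conj m⁻¹ ζ
  -- (2)
  have hzB := h75_z hAB'
  have hzR : ∀ m x, z (ext B' E.conj m x) = ext B' E.conj m (z x) := fun m x =>
    map_ext hzB E.conj m x
  have hzself : ∀ x ∈ VB A', z x = x := fun x hx => Submodule.starProjection_eq_self_iff.2 hx
  have hznorm : ∀ x, ‖z x‖ ≤ ‖x‖ := fun x => by
    have h := z.le_opNorm x
    have h2 := (VB A').starProjection_norm_le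
    have h3 : ‖z‖ * ‖x‖ ≤ 1 * ‖x‖ := mul_le_mul_of_nonneg_right h2 (norm_nonneg _)
    linarith
  set η0 := z (TL ζ) with hη0
  have hη0W : η0 ∈ h75_W A' B' := ⟨Submodule.starProjection_apply_mem _ _, map_VB hzB hbL⟩
  -- (4)
  have e0 : ‖η0 - TR ζ‖ ≤ δ * n := by
    have h2 : η0 - TR ζ = z (TL ζ - TR ζ) := by rw [map_sub, hzself _ hbR]
    rw [h2]
    exact (hznorm _).trans h0
  have hzl : ∀ m, ext B' E.conj m⁻¹ η0 = z (TL (ext A E m ζ)) := fun m => by
    rw [hη0, ← hzR, hLl]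
  have hRmem : ∀ m, TR (ext A E m ζ) ∈ VB A' := fun m => by
    rw [hRl]
    exact ext_mem A' E m _
  have e1 : ∀ q ∈ Q, ‖ext A' E q η0 - ext B' E.conj q⁻¹ η0‖ ≤ 2 * δ * n := by
    intro q hq
    have h2 : ext A' E q η0 - ext B' E.conj q⁻¹ η0 =
        ext A' E q (η0 - TR ζ) - z (TL (ext A E q ζ) - TR (ext A E q ζ)) := by
      rw [map_sub, map_sub, hzself _ (hRmem q), hRl q, hzl q]
      abel
    rw [h2]
    refine (norm_sub_le _ _).trans ?_
    have h3 := (norm_ext_le A' E q (η0 - TR ζ)).trans e0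
    have h4 := (hznorm (TL (ext A E q ζ) - TR (ext A E q ζ))).trans (h1 q hq)
    linarith
  -- (5)
  have hcW : CompleteSpace (h75_W A' B') := (h75_W_closed A' B').completeSpace_coe
  have e2 : ‖ext A' E l (ext B' E.conj l η0) - η0‖ ≤ 2 * (2 * δ * n) / κ := by
    have h2 := kazhdan_close hK (h75_sig hAB' E E.conj) ⟨η0, hη0W⟩ (ε := 2 * δ * n) (by positivity) ?_ l
    · exact h2
    · intro q hq
      change ‖ext A' E q (ext B' E.conj q η0) - η0‖ ≤ 2 * δ * n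
      have h3 : ext A' E q (ext B' E.conj q η0) - η0 =
          ext B' E.conj q (ext A' E q η0 - ext B' E.conj q⁻¹ η0) := by
        rw [map_sub, h75_inv' B' E.conj q hη0W.2, h75_LR hAB']
      rw [h3]
      exact (norm_ext_le B' E.conj q _).trans (e1 q hq)
  have e3 : ‖ext A' E l η0 - ext B' E.conj l⁻¹ η0‖ ≤ 2 * (2 * δ * n) / κ := by
    have h3 : ext A' E l η0 - ext B' E.conj l⁻¹ η0 =
        ext B' E.conj l⁻¹ (ext A' E l (ext B' E.conj l η0) - η0) := by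
      rw [map_sub, ← h75_LR hAB', h75_inv B' E.conj l hη0W.2]
    rw [h3]
    exact (norm_ext_le B' E.conj l⁻¹ _).trans e2
  -- (6)
  set y := ext A' E l (TR ζ) with hy
  set x := ext B' E.conj l⁻¹ η0 with hx
  have hin : inner ℂ (TL (ext A E l ζ)) (TR (ext A E l ζ)) = inner ℂ x y := by
    have h2 : inner ℂ (TL (ext A E l ζ)) (TR (ext A E l ζ)) =
        inner ℂ (z (TL (ext A E l ζ))) (TR (ext A E l ζ)) := by
      have h3 : inner ℂ (z (TL (ext A E l ζ))) (TR (ext A E l ζ)) =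
          inner ℂ (TL (ext A E l ζ)) (z (TR (ext A E l ζ))) :=
        Submodule.inner_starProjection_left_eq_right _ _ _
      rw [h3, hzself _ (hRmem l)]
    rw [h2, ← hzl l, hRl l]
  have hynorm : ‖y‖ = n := by
    rw [hy, norm_ext E l hbR, TR.norm_map]
  have hxy : ‖x - y‖ ≤ 2 * (2 * δ * n) / κ + δ * n := by
    have h2 : x - y = -(ext A' E l η0 - x) + ext A' E l (η0 - TR ζ) := by
      rw [map_sub, ← hy]
      abel
    rw [h2]
    refine (norm_add_le _ _).trans (add_le_add ?_ ?_)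
    · rw [norm_neg]
      exact e3
    · exact (norm_ext_le A' E l _).trans e0
  rw [hin]
  have h2 : inner ℂ x y = inner ℂ (x - y) y + inner ℂ y y := by rw [inner_sub_left]; ring
  have h3 : (inner ℂ y y : ℂ).re = n ^ 2 := by
    rw [inner_self_eq_norm_sq_to_K, hynorm]
    norm_cast
  have h4 : -(‖x - y‖ * ‖y‖) ≤ (inner ℂ (x - y) y : ℂ).re := by
    have h5 := (Complex.abs_re_le_norm (inner ℂ (x - y) y)).trans (norm_inner_le_norm (𝕜 := ℂ) (x - y) y)
    exact (abs_le.1 h5).1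
  rw [h2, Complex.add_re, h3]
  rw [hynorm] at h4
  have h5 : ‖x - y‖ * n ≤ (2 * (2 * δ * n) / κ + δ * n) * n := mul_le_mul_of_nonneg_right hxy hn0
  have h6 : (1 - δ - 4 * δ / κ) * n ^ 2 = n ^ 2 - (2 * (2 * δ * n) / κ + δ * n) * n := by
    field_simp
    ring
  linarith

end Pool.Agent.Helper84.NI
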