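import Pool.Agent.Helper84.GVN.Group
import Pool.Agent.Helper84.GVN.Kazhdan
import Pool.Agent.Helper84.NI.UP

/-!
# Project NI (MP_0f6f3f_an): bounded vectors, embeddings into `L(G)`, definitions

Bounded vectors of a unitary representation of `G`, embeddings of a group `Λ` into the unitary group
of `L(G)` (unitaries of `ℓ²(G)` commuting with the right translations).
-/

set_option autoImplicit false

open Filter Topology
open scoped ComplexConjugate

namespace Pool.Agent.Helper84.NI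

open GVN

section Abs

variable {G Λ : Type} [Group G] [Group Λ]
variable {H K : Type} [NormedAddCommGroup H] [InnerProductSpace ℂ H]
  [NormedAddCommGroup K] [InnerProductSpace ℂ K]

/-- `η` is bounded with constant `c` for the representation `A`. -/
def Bdd (A : G →* (H ≃ₗᵢ[ℂ] H)) (c : ℝ) (η : H) : Prop :=
  0 ≤ c ∧ ∀ (s : Finset G) (a : G → ℂ), ‖∑ g ∈ s, a g • A g η‖ ^ 2 ≤ c ^ 2 * ∑ g ∈ s, ‖a g‖ ^ 2

theorem Bdd.norm_le {A : G →* (H ≃ₗᵢ[ℂ] H)} {c : ℝ} {η : H} (h : Bdd A c η) (s : Finset G)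
    (a : G → ℂ) : ‖∑ g ∈ s, a g • A g η‖ ≤ c * Real.sqrt (∑ g ∈ s, ‖a g‖ ^ 2) := by
  have h0 : 0 ≤ ∑ g ∈ s, ‖a g‖ ^ 2 := Finset.sum_nonneg fun g _ => by positivity
  have h1 := Real.sqrt_le_sqrt (h.2 s a)
  rwa [Real.sqrt_sq (norm_nonneg _), Real.sqrt_mul (sq_nonneg c), Real.sqrt_sq h.1] at h1

theorem bdd_of_norm_le {A : G →* (H ≃ₗᵢ[ℂ] H)} {c : ℝ} {η : H} (hc : 0 ≤ c)
    (h : ∀ (s : Finset G) (a : G → ℂ), ‖∑ g ∈ s, a g • A g η‖ ≤ c * Real.sqrt (∑ g ∈ s, ‖a g‖ ^ 2)) :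
    Bdd A c η := by
  refine ⟨hc, fun s a => ?_⟩
  have h0 : 0 ≤ ∑ g ∈ s, ‖a g‖ ^ 2 := Finset.sum_nonneg fun g _ => by positivity
  have h1 := pow_le_pow_left₀ (norm_nonneg _) (h s a) 2
  rwa [mul_pow, Real.sq_sqrt h0] at h1

theorem Bdd.add {A : G →* (H ≃ₗᵢ[ℂ] H)} {c d : ℝ} {η ξ : H} (h : Bdd A c η) (h' : Bdd A d ξ) :
    Bdd A (c + d) (η + ξ) := by
  refine bdd_of_norm_le (add_nonneg h.1 h'.1) fun s a => ?_
  have e : ∑ g ∈ s, a g • A g (η + ξ) = ∑ g ∈ s, a g • A g η + ∑ g ∈ s, a g • A g ξ := by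
    rw [← Finset.sum_add_distrib]
    exact Finset.sum_congr rfl fun g _ => by rw [map_add, smul_add]
  rw [e, add_mul]
  exact (norm_add_le _ _).trans (add_le_add (h.norm_le s a) (h'.norm_le s a))

theorem Bdd.smul {A : G →* (H ≃ₗᵢ[ℂ] H)} {c : ℝ} {η : H} (h : Bdd A c η) (z : ℂ) :
    Bdd A (‖z‖ * c) (z • η) := by
  refine bdd_of_norm_le (mul_nonneg (norm_nonneg _) h.1) fun s a => ?_
  have e : ∑ g ∈ s, a g • A g (z • η) = z • ∑ g ∈ s, a g • A g η := by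
    rw [Finset.smul_sum]
    exact Finset.sum_congr rfl fun g _ => by rw [map_smul, smul_comm]
  rw [e, norm_smul, mul_assoc]
  exact mul_le_mul_of_nonneg_left (h.norm_le s a) (norm_nonneg _)

theorem bdd_zero (A : G →* (H ≃ₗᵢ[ℂ] H)) : Bdd A 0 (0 : H) := by
  refine ⟨le_rfl, fun s a => ?_⟩
  simp

theorem Bdd.mono {A : G →* (H ≃ₗᵢ[ℂ] H)} {c d : ℝ} {η : H} (h : Bdd A c η) (hcd : c ≤ d) :
    Bdd A d η := by
  refine ⟨h.1.trans hcd, fun s a => (h.2 s a).trans ?_⟩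
  have h0 : 0 ≤ ∑ g ∈ s, ‖a g‖ ^ 2 := Finset.sum_nonneg fun g _ => by positivity
  exact mul_le_mul_of_nonneg_right (pow_le_pow_left₀ h.1 hcd 2) h0

/-- The subspace of bounded vectors. -/
def BddSub (A : G →* (H ≃ₗᵢ[ℂ] H)) : Submodule ℂ H where
  carrier := {η | ∃ c, Bdd A c η}
  add_mem' := by
    rintro η ξ ⟨c, hc⟩ ⟨d, hd⟩
    exact ⟨c + d, hc.add hd⟩
  zero_mem' := ⟨0, bdd_zero A⟩
  smul_mem' := by
    rintro z η ⟨c, hc⟩
    exact ⟨‖z‖ * c, hc.smul z⟩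

/-- The closure of the subspace of bounded vectors. -/
def VB (A : G →* (H ≃ₗᵢ[ℂ] H)) : Submodule ℂ H := (BddSub A).topologicalClosure

theorem Bdd.mem_VB {A : G →* (H ≃ₗᵢ[ℂ] H)} {c : ℝ} {η : H} (h : Bdd A c η) : η ∈ VB A :=
  Submodule.le_topologicalClosure _ ⟨c, h⟩

theorem isClosed_VB (A : G →* (H ≃ₗᵢ[ℂ] H)) : IsClosed (VB A : Set H) :=
  Submodule.isClosed_topologicalClosure _

instance instProjVB [CompleteSpace H] (A : G →* (H ≃ₗᵢ[ℂ] H)) : (VB A).HasOrthogonalProjection := by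
  have : CompleteSpace (VB A) := (isClosed_VB A).completeSpace_coe
  infer_instance

/-- A homomorphism of `Λ` into the unitary group of `L(G)` with `τ(U_l) = 0` for `l ≠ 1`. -/
structure Emb (Λ G : Type) [Group Λ] [Group G] where
  /-- the unitaries -/
  U : Λ →* (L2 G ≃ₗᵢ[ℂ] L2 G)
  comm : ∀ l, CommR (U l)
  tr : ∀ l, l ≠ 1 → cf (U l) 1 = 0

/-- The complex conjugate of an embedding. -/
noncomputable def Emb.conj (E : Emb Λ G) : Emb Λ G where
  U :=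
    { toFun := fun l => cjU (E.U l)
      map_one' := by rw [map_one, cjU_one]
      map_mul' := fun l m => by rw [map_mul, cjU_mul] }
  comm l := (E.comm l).cjU
  tr l hl := by
    have h := E.tr l hl
    unfold cf at h ⊢
    change cjU (E.U l) (dl 1) 1 = 0
    rw [cjU_apply, cj_dl, cj_apply, h, map_zero]

/-- The left regular representation. -/
noncomputable def lamR (G : Type) [Group G] : G →* (L2 G ≃ₗᵢ[ℂ] L2 G) where
  toFun := lamU
  map_one' := lamU_one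
  map_mul' := lamU_mul

/-- The right regular representation. -/
noncomputable def rhoR (G : Type) [Group G] : G →* (L2 G ≃ₗᵢ[ℂ] L2 G) where
  toFun := rhoU
  map_one' := rhoU_one
  map_mul' := rhoU_mul

end Abs

end Pool.Agent.Helper84.NI
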