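import Pool.Agent.Helper84.NI.Abs

/-!
# Project NI, block E1: the operator `K_η`

PROOF of `exists_kop`. Define `T` on `ℓ²(G)` by `T f = ∑' g, f g • A g η`. Summability: for a finite set `s` disjoint from a
large finite set, `‖∑_{g ∈ s} f g • A g η‖ ≤ c (∑_s |f g|^2)^(1/2)` (`Bdd.norm_le`) and `∑ |f g|^2` converges (`summable_sq`), so the
Cauchy criterion (`summable_iff_vanishing_norm`) applies. Linearity from `HasSum.add`, `HasSum.const_smul`; the bound `‖T f‖ ≤ c ‖f‖` from
`le_of_tendsto` (partial sums, `hasSum_sq`). `T (dl g) = A g η` (`hasSum_single`, `dl_apply`). The identity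
`T (lamU g f) = A g (T f)`: both sides are continuous linear in `f` and agree on `dl x` (`clm_ext`, `lamU_dl`), or reindex the sum.
-/

set_option autoImplicit false

namespace Pool.Agent.Helper84.NI

open GVN

variable {G : Type} [Group G] {H : Type} [NormedAddCommGroup H] [InnerProductSpace ℂ H]

theorem exists_kop [CompleteSpace H] {A : G →* (H ≃ₗᵢ[ℂ] H)} {c : ℝ} {η : H} (h : Bdd A c η) :
    ∃ T : L2 G →L[ℂ] H, (∀ f, ‖T f‖ ≤ c * ‖f‖) ∧ (∀ g, T (dl g) = A g η) ∧
      (∀ g f, T (lamU g f) = A g (T f)) ∧ ∀ f : L2 G, HasSum (fun g => f g • A g η) (T f) := by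
  classical
  have hc := h.1
  have hsum : ∀ f : L2 G, Summable (fun g => f g • A g η) := by
    intro f
    rw [summable_iff_vanishing_norm]
    intro ε hε
    obtain ⟨s, hs⟩ := summable_iff_vanishing_norm.1 (summable_sq f) ((ε / (c + 1)) ^ 2) (by positivity)
    refine ⟨s, fun t ht => ?_⟩
    have h1 := hs t ht
    have h2 := h.norm_le t (fun g => f g)
    rw [Real.norm_of_nonneg (Finset.sum_nonneg fun g _ => by positivity)] at h1
    have h3 : Real.sqrt (∑ g ∈ t, ‖f g‖ ^ 2) ≤ ε / (c + 1) := by
      rw [← Real.sqrt_sq (show 0 ≤ ε / (c + 1) by positivity)]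
      exact Real.sqrt_le_sqrt h1.le
    have h4 : c * (ε / (c + 1)) < ε := by
      rw [← mul_div_assoc, div_lt_iff₀ (by positivity)]
      nlinarith
    exact (h2.trans (mul_le_mul_of_nonneg_left h3 hc)).trans_lt h4
  have hb : ∀ f : L2 G, ‖∑' g, f g • A g η‖ ≤ c * ‖f‖ := by
    intro f
    refine le_of_tendsto (hsum f).hasSum.norm (Filter.Eventually.of_forall fun s => ?_)
    refine (h.norm_le s (fun g => f g)).trans (mul_le_mul_of_nonneg_left ?_ hc)
    rw [← Real.sqrt_sq (norm_nonneg f)]
    refine Real.sqrt_le_sqrt ?_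
    exact sum_le_hasSum s (fun g _ => by positivity) (hasSum_sq f)
  let T : L2 G →L[ℂ] H := LinearMap.mkContinuous
    { toFun := fun f => ∑' g, f g • A g η
      map_add' := fun f f' => by
        rw [← (hsum f).tsum_add (hsum f')]
        refine tsum_congr fun g => ?_
        rw [← add_smul]
        rfl
      map_smul' := fun z f => by
        rw [RingHom.id_apply, ← (hsum f).tsum_const_smul z]
        refine tsum_congr fun g => ?_
        rw [smul_smul]
        rfl } c hb
  have hT : ∀ f : L2 G, HasSum (fun g => f g • A g η) (T f) := fun f => (hsum f).hasSum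
  refine ⟨T, hb, ?_, ?_, hT⟩
  · intro g
    refine (hT (dl g)).unique ?_
    have h1 := hasSum_single (f := fun x => (dl g : L2 G) x • A x η) g (fun x hx => by
      rw [dl_apply, if_neg hx, zero_smul])
    simpa using h1
  · intro g f
    refine (hT (lamU g f)).unique ?_
    have h1 := (hT f).mapL ((A g).toContinuousLinearEquiv : H →L[ℂ] H)
    refine (Equiv.hasSum_iff (Equiv.mulLeft g)).1 ?_
    convert! h1 using 2 with y
    simp only [Function.comp_apply, Equiv.coe_mulLeft, lamU_apply, inv_mul_cancel_left, map_mul,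
      LinearIsometryEquiv.coe_mul]
    exact (map_smul (A g) (f y) (A y η)).symm

end Pool.Agent.Helper84.NI
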