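import Pool.Agent.Helper84.NI.E1
import Pool.Agent.Helper84.NI.E2

/-!
# Project NI, block E3: the extension of a representation of `G` to `Λ → U(L(G))`

PROOF of `exists_ext`. Fix `l`, `u = E.U l`. On the submodule `BddSub A` the map `η ↦ T_η (cf u)` (`T_η` from `exists_kop`) is
well defined (`HasSum.unique`), linear, and isometric (`norm_kop`, `T_η (dl 1) = A 1 η = η`). Extend it by continuity to the closure `VB A`
(`ContinuousLinearMap.extend` along the dense inclusion `BddSub A → VB A`, or `LinearMap.extendOfNorm ...`) and compose with the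
orthogonal projection on `VB A` (`Submodule.orthogonalProjection`, which kills `(VB A)ᗮ`).
-/

set_option autoImplicit false

open scoped ComplexConjugate

namespace Pool.Agent.Helper84.NI

open GVN

variable {G Λ : Type} [Group G] [Group Λ] {H : Type} [NormedAddCommGroup H] [InnerProductSpace ℂ H]

theorem exists_ext [CompleteSpace H] (A : G →* (H ≃ₗᵢ[ℂ] H)) (E : Emb Λ G) :
    ∃ L : Λ → (H →L[ℂ] H), (∀ l c η, Bdd A c η → HasSum (fun g => cf (E.U l) g • A g η) (L l η)) ∧
      ∀ l, ∀ η ∈ (VB A)ᗮ, L l η = 0 := by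
  -- sums on bounded vectors
  have hsum : ∀ (l : Λ) (η : BddSub A), ∃ y : H, HasSum (fun g => cf (E.U l) g • A g (η : H)) y ∧ ‖y‖ = ‖(η : H)‖ := by
    rintro l ⟨η, c, hη⟩
    obtain ⟨T, _, hT2, hT3, hT4⟩ := exists_kop hη
    refine ⟨T (cf (E.U l)), hT4 _, ?_⟩
    rw [norm_kop hT3 (E.comm l), hT2, map_one]
    rfl
  choose y hy hyn using hsum
  let f : Λ → (BddSub A →ₗ[ℂ] H) := fun l =>
    { toFun := y l
      map_add' := fun η ξ => by
        refine (hy l (η + ξ)).unique ?_
        refine ((hy l η).add (hy l ξ)).congr_fun ?_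
        intro g
        change cf (E.U l) g • A g ((η : H) + ξ) = _
        rw [map_add, smul_add]
      map_smul' := fun c η => by
        refine (hy l (c • η)).unique ?_
        refine ((hy l η).const_smul c).congr_fun ?_
        intro g
        change cf (E.U l) g • A g (c • (η : H)) = _
        rw [map_smul, smul_comm] }
  let e : BddSub A →ₗ[ℂ] VB A := Submodule.inclusion (Submodule.le_topologicalClosure _)
  have hed : DenseRange e := by
    have h1 : DenseRange (Set.inclusion (s := (BddSub A : Set H)) (t := (VB A : Set H))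
        (Submodule.le_topologicalClosure _)) := by
      rw [denseRange_inclusion_iff]
      exact le_of_eq (Submodule.topologicalClosure_coe _)
    exact h1
  have hfe : ∀ l, ∃ C, ∀ x, ‖f l x‖ ≤ C * ‖e x‖ := fun l => ⟨1, fun x => by
    rw [one_mul]
    exact le_of_eq (hyn l x)⟩
  refine ⟨fun l => ((f l).extendOfNorm e).comp (VB A).orthogonalProjectionOnto, ?_, ?_⟩
  · intro l c η hη
    have h1 : (VB A).orthogonalProjectionOnto η = e ⟨η, c, hη⟩ :=
      Submodule.orthogonalProjectionOnto_mem_subspace_eq_self (K := VB A) ⟨η, hη.mem_VB⟩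
    rw [ContinuousLinearMap.comp_apply, h1, LinearMap.extendOfNorm_eq hed (hfe l)]
    exact hy l ⟨η, c, hη⟩
  · intro l η hη
    rw [ContinuousLinearMap.comp_apply, (Submodule.orthogonalProjectionOnto_eq_zero_iff).2 hη, map_zero]

end Pool.Agent.Helper84.NI
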