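import Pool.Agent.Helper84.NI.E4

/-!
# Project NI, block E5: more properties of the extension `ext A E`

PROOFS. `inner_ext`: on `VB A` the operators are isometric and
`ext l ∘ ext l⁻¹ = id`; in general decompose `x = x0 + x1` with the projection: `⟪ext l x, y⟫ = ⟪ext l x0, y0⟫ = ⟪x0, ext l⁻¹ y0⟫`.
`ext_bddL`: `∑ a_l ext l η = T (∑ a_l cf (E.U l))` (`ext_kop`) and the vectors `cf (E.U l)` are orthonormal: `⟪cf (E.U l), cf (E.U m)⟫ =
⟪U_l δ, U_m δ⟫ = ⟪δ, U_{l⁻¹m} δ⟫ = (cf U_{l⁻¹ m}) 1 = 0` for `l ≠ m` (`E.tr`, `inner_dl_left`).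
`map_ext`: if `T` intertwines `A` and `A'` then so does its adjoint, `T` maps bounded vectors to bounded vectors (constant `‖T‖ c`) so
`VB A` into `VB A'`, and by the adjoint `(VB A)ᗮ` into `(VB A')ᗮ`; on bounded vectors use the sums `hasSum_ext`; density.
-/

set_option autoImplicit false

open scoped ComplexConjugate

namespace Pool.Agent.Helper84.NI

open GVN

variable {G Λ : Type} [Group G] [Group Λ] {H K : Type} [NormedAddCommGroup H] [InnerProductSpace ℂ H]
  [NormedAddCommGroup K] [InnerProductSpace ℂ K] [CompleteSpace H] [CompleteSpace K]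

/-- `ext A E l` as an isometry of `VB A`. -/
private noncomputable def extI (A : G →* (H ≃ₗᵢ[ℂ] H)) (E : Emb Λ G) (l : Λ) : (VB A) →ₗᵢ[ℂ] H where
  toLinearMap := (ext A E l).toLinearMap.comp (VB A).subtype
  norm_map' := fun v => norm_ext E l v.2

private theorem inner_ext_ext (A : G →* (H ≃ₗᵢ[ℂ] H)) (E : Emb Λ G) (l : Λ) {x y : H}
    (hx : x ∈ VB A) (hy : y ∈ VB A) : inner ℂ (ext A E l x) (ext A E l y) = inner ℂ x y :=
  (extI A E l).inner_map_map ⟨x, hx⟩ ⟨y, hy⟩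

private theorem ext_proj (A : G →* (H ≃ₗᵢ[ℂ] H)) (E : Emb Λ G) (l : Λ) (x : H) :
    ext A E l x = ext A E l ((VB A).starProjection x) := by
  have h3 := ext_perp E l ((VB A).sub_starProjection_mem_orthogonal x)
  rw [map_sub, sub_eq_zero] at h3
  exact h3

theorem inner_ext (A : G →* (H ≃ₗᵢ[ℂ] H)) (E : Emb Λ G) (l : Λ) (x y : H) :
    inner ℂ (ext A E l x) y = inner ℂ x (ext A E l⁻¹ y) := by
  have hy1 : inner ℂ (ext A E l x) y = inner ℂ (ext A E l x) ((VB A).starProjection y) := by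
    have h := (Submodule.mem_orthogonal _ _).1 ((VB A).sub_starProjection_mem_orthogonal y)
      (ext A E l x) (ext_mem A E l x)
    rw [inner_sub_right, sub_eq_zero] at h
    exact h
  have hx1 : inner ℂ x (ext A E l⁻¹ y) =
      inner ℂ ((VB A).starProjection x) (ext A E l⁻¹ y) := by
    have h := (Submodule.mem_orthogonal' _ _).1 ((VB A).sub_starProjection_mem_orthogonal x)
      (ext A E l⁻¹ y) (ext_mem A E l⁻¹ y)
    rw [inner_sub_left, sub_eq_zero] at h
    exact h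
  have hy0 : (VB A).starProjection y ∈ VB A := (VB A).starProjection_apply_mem y
  have hx0 : (VB A).starProjection x ∈ VB A := (VB A).starProjection_apply_mem x
  rw [hy1, hx1, ext_proj A E l x, ext_proj A E l⁻¹ y]
  have h1 : (VB A).starProjection y = ext A E l (ext A E l⁻¹ ((VB A).starProjection y)) := by
    rw [← ext_mul, mul_inv_cancel, ext_one_apply E hy0]
  conv_lhs => rw [h1]
  exact inner_ext_ext A E l hx0 (ext_mem A E _ _)

private theorem orthonormal_cf (E : Emb Λ G) : Orthonormal ℂ (fun l : Λ => cf (E.U l)) := by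
  classical
  rw [orthonormal_iff_ite]
  intro l m
  have h1 : E.U m = E.U l * E.U (l⁻¹ * m) := by rw [← map_mul, mul_inv_cancel_left]
  have h2 : inner ℂ (cf (E.U l)) (cf (E.U m)) = cf (E.U (l⁻¹ * m)) 1 := by
    unfold cf
    rw [h1, LinearIsometryEquiv.coe_mul, Function.comp_apply, LinearIsometryEquiv.inner_map_map,
      inner_dl_left]
  rw [h2]
  split_ifs with h
  · subst h
    rw [inv_mul_cancel, map_one]
    unfold cf
    rw [LinearIsometryEquiv.coe_one, id, ← inner_dl_left, inner_self_eq_norm_sq_to_K, norm_dl]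
    simp
  · exact E.tr _ (fun h3 => h (by rw [← mul_one l, ← h3, mul_inv_cancel_left]))

theorem ext_bddL {A : G →* (H ≃ₗᵢ[ℂ] H)} (E : Emb Λ G) {c : ℝ} {η : H} (h : Bdd A c η)
    (s : Finset Λ) (a : Λ → ℂ) : ‖∑ l ∈ s, a l • ext A E l η‖ ^ 2 ≤ c ^ 2 * ∑ l ∈ s, ‖a l‖ ^ 2 := by
  obtain ⟨T, hT1, hT2, -, -⟩ := exists_kop h
  have h1 : ∑ l ∈ s, a l • ext A E l η = T (∑ l ∈ s, a l • cf (E.U l)) := by
    rw [map_sum]
    refine Finset.sum_congr rfl fun l _ => ?_
    rw [map_smul, ext_kop E l h hT2]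
  have h2 : ‖∑ l ∈ s, a l • cf (E.U l)‖ ^ 2 = ∑ l ∈ s, ‖a l‖ ^ 2 := by
    have h3 := (orthonormal_cf E).inner_sum a a s
    have h4 : ∑ l ∈ s, conj (a l) * a l = ((∑ l ∈ s, ‖a l‖ ^ 2 : ℝ) : ℂ) := by
      push_cast
      refine Finset.sum_congr rfl fun l _ => ?_
      rw [mul_comm, Complex.mul_conj, Complex.normSq_eq_norm_sq]
      push_cast
      rfl
    rw [h4] at h3
    have h5 := inner_self_eq_norm_sq (𝕜 := ℂ) (∑ l ∈ s, a l • cf (E.U l))
    rw [h3] at h5
    rw [← h5]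
    exact Complex.ofReal_re _
  rw [h1, ← h2, ← mul_pow]
  exact pow_le_pow_left₀ (norm_nonneg _) (hT1 _) 2

theorem Bdd.map {A : G →* (H ≃ₗᵢ[ℂ] H)} {A' : G →* (K ≃ₗᵢ[ℂ] K)} {T : H →L[ℂ] K}
    (hT : ∀ g x, T (A g x) = A' g (T x)) {c : ℝ} {η : H} (h : Bdd A c η) : Bdd A' (‖T‖ * c) (T η) := by
  refine bdd_of_norm_le (mul_nonneg (norm_nonneg _) h.1) fun s a => ?_
  have e : ∑ g ∈ s, a g • A' g (T η) = T (∑ g ∈ s, a g • A g η) := by
    rw [map_sum]
    exact Finset.sum_congr rfl fun g _ => by rw [map_smul, hT]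
  rw [e, mul_assoc]
  exact (T.le_opNorm _).trans (mul_le_mul_of_nonneg_left (h.norm_le s a) (norm_nonneg _))

theorem map_VB {A : G →* (H ≃ₗᵢ[ℂ] H)} {A' : G →* (K ≃ₗᵢ[ℂ] K)} {T : H →L[ℂ] K}
    (hT : ∀ g x, T (A g x) = A' g (T x)) {η : H} (h : η ∈ VB A) : T η ∈ VB A' := by
  have h1 : η ∈ closure (BddSub A : Set H) := h
  have h2 : T η ∈ closure (BddSub A' : Set K) := by
    refine map_mem_closure T.continuous h1 ?_
    rintro x ⟨c, hc⟩
    exact ⟨‖T‖ * c, hc.map hT⟩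
  exact h2

private theorem adj_comm {A : G →* (H ≃ₗᵢ[ℂ] H)} {A' : G →* (K ≃ₗᵢ[ℂ] K)} {T : H →L[ℂ] K}
    (hT : ∀ g x, T (A g x) = A' g (T x)) (g : G) (y : K) :
    ContinuousLinearMap.adjoint T (A' g y) = A g (ContinuousLinearMap.adjoint T y) := by
  refine ext_inner_left ℂ fun x => ?_
  rw [ContinuousLinearMap.adjoint_inner_right]
  have h1 : x = A g (A g⁻¹ x) := by
    rw [← Function.comp_apply (f := A g), ← LinearIsometryEquiv.coe_mul, ← map_mul, mul_inv_cancel,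
      map_one]
    rfl
  conv_lhs => rw [h1]
  conv_rhs => rw [h1]
  rw [hT, LinearIsometryEquiv.inner_map_map, LinearIsometryEquiv.inner_map_map,
    ContinuousLinearMap.adjoint_inner_right]

private theorem map_perp {A : G →* (H ≃ₗᵢ[ℂ] H)} {A' : G →* (K ≃ₗᵢ[ℂ] K)} {T : H →L[ℂ] K}
    (hT : ∀ g x, T (A g x) = A' g (T x)) {η : H} (h : η ∈ (VB A)ᗮ) : T η ∈ (VB A')ᗮ := by
  rw [Submodule.mem_orthogonal]
  intro y hy
  rw [← ContinuousLinearMap.adjoint_inner_left]
  exact (Submodule.mem_orthogonal _ _).1 h _ (map_VB (adj_comm hT) hy)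

theorem map_starProjection {A : G →* (H ≃ₗᵢ[ℂ] H)} {A' : G →* (K ≃ₗᵢ[ℂ] K)} {T : H →L[ℂ] K}
    (hT : ∀ g x, T (A g x) = A' g (T x)) (η : H) :
    T ((VB A).starProjection η) = (VB A').starProjection (T η) := by
  symm
  refine Submodule.eq_starProjection_of_mem_orthogonal
    (map_VB hT ((VB A).starProjection_apply_mem η)) ?_
  rw [← map_sub]
  exact map_perp hT ((VB A).sub_starProjection_mem_orthogonal η)

theorem map_ext {A : G →* (H ≃ₗᵢ[ℂ] H)} {A' : G →* (K ≃ₗᵢ[ℂ] K)} {T : H →L[ℂ] K}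
    (hT : ∀ g x, T (A g x) = A' g (T x)) (E : Emb Λ G) (l : Λ) (η : H) :
    T (ext A E l η) = ext A' E l (T η) := by
  have key : ∀ ξ ∈ VB A, T (ext A E l ξ) = ext A' E l (T ξ) := by
    intro ξ hξ
    have h1 : ξ ∈ closure (BddSub A : Set H) := hξ
    refine closure_minimal (t := {ξ | T (ext A E l ξ) = ext A' E l (T ξ)}) ?_
      (isClosed_eq (by fun_prop) (by fun_prop)) h1
    rintro x ⟨c, hc⟩
    have h2 := (hasSum_ext E l hc).mapL T
    have h3 := hasSum_ext E l (hc.map hT)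
    refine h2.unique ?_
    have h4 : (fun g => T (cf (E.U l) g • A g x)) = fun g => cf (E.U l) g • A' g (T x) := by
      funext g
      rw [map_smul, hT]
    rw [h4]
    exact h3
  rw [ext_proj A E l η, key _ ((VB A).starProjection_apply_mem η), map_starProjection hT,
    ← ext_proj]

end Pool.Agent.Helper84.NI
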