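import Pool.Agent.Helper84.NI.J3
import Pool.Agent.Helper84.NI.E5

/-!
# Project NI, block J4: the equivariant embedding of `VB A`

PROOF. On `V = ↥(VB A)` (complete, `isClosed_VB`) the operators `v ↦ ext A E l v` define a unitary representation `R` of `Λ` (`ext_mem`,
`norm_ext`, `ext_mul`, `ext_one_apply`). The `A`-bounded vectors are dense in `VB A` and are bounded for `R` (`ext_bddL`), so `exists_J0` applies.
`J x = J0 (orthogonal projection of x)`. `J (ext A E l x)`: write `x = x0 + x1`, `ext A E l x = ext A E l x0 ∈ VB A` (`ext_perp`).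
-/

set_option autoImplicit false

namespace Pool.Agent.Helper84.NI

open GVN

variable {G Λ : Type} [Group G] [Group Λ] {H : Type} [NormedAddCommGroup H] [InnerProductSpace ℂ H]
  [CompleteSpace H]

/-- The operator `ext A E l` on `VB A`. -/
private noncomputable def repOp (A : G →* (H ≃ₗᵢ[ℂ] H)) (E : Emb Λ G) (l : Λ) :
    (VB A) →ₗ[ℂ] (VB A) where
  toFun v := ⟨ext A E l v.1, ext_mem A E l v.1⟩
  map_add' _ _ := Subtype.ext (map_add _ _ _)
  map_smul' _ _ := Subtype.ext (map_smul _ _ _)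

private theorem repOp_mul (A : G →* (H ≃ₗᵢ[ℂ] H)) (E : Emb Λ G) (l m : Λ) (v : VB A) :
    repOp A E (l * m) v = repOp A E l (repOp A E m v) :=
  Subtype.ext (ext_mul A E l m v.1)

private theorem repOp_one (A : G →* (H ≃ₗᵢ[ℂ] H)) (E : Emb Λ G) (v : VB A) :
    repOp A E 1 v = v :=
  Subtype.ext (ext_one_apply E v.2)

/-- The representation on `VB A`. -/
private noncomputable def repV (A : G →* (H ≃ₗᵢ[ℂ] H)) (E : Emb Λ G) :
    Λ →* ((VB A) ≃ₗᵢ[ℂ] (VB A)) where
  toFun l :=
    { toFun := repOp A E l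
      invFun := repOp A E l⁻¹
      map_add' := map_add _
      map_smul' := map_smul _
      left_inv := fun v => by rw [← repOp_mul, inv_mul_cancel, repOp_one]
      right_inv := fun v => by rw [← repOp_mul, mul_inv_cancel, repOp_one]
      norm_map' := fun v => norm_ext E l v.2 }
  map_one' := by
    ext v : 1
    exact repOp_one A E v
  map_mul' l m := by
    ext v : 1
    exact repOp_mul A E l m v

private theorem repV_apply (A : G →* (H ≃ₗᵢ[ℂ] H)) (E : Emb Λ G) (l : Λ) (v : VB A) :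
    ((repV A E l v : VB A) : H) = ext A E l v.1 := rfl

private theorem repV_bdd {A : G →* (H ≃ₗᵢ[ℂ] H)} (E : Emb Λ G) {c : ℝ} {v : VB A}
    (h : Bdd A c v.1) : Bdd (repV A E) c v := by
  refine ⟨h.1, fun s a => ?_⟩
  have h1 := ext_bddL E h s a
  have h2 : ((∑ l ∈ s, a l • repV A E l v : VB A) : H) = ∑ l ∈ s, a l • ext A E l v.1 := by
    rw [Submodule.coe_sum]
    rfl
  rw [← h2] at h1
  exact h1

private theorem repV_dense (A : G →* (H ≃ₗᵢ[ℂ] H)) (E : Emb Λ G) :
    Dense (BddSub (repV A E) : Set (VB A)) := by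
  intro v
  rw [closure_subtype]
  have h1 : (v : H) ∈ closure (BddSub A : Set H) := v.2
  refine closure_mono ?_ h1
  rintro x ⟨c, hc⟩
  exact ⟨⟨x, hc.mem_VB⟩, ⟨c, repV_bdd E hc⟩, rfl⟩

theorem exists_J (A : G →* (H ≃ₗᵢ[ℂ] H)) (E : Emb Λ G) :
    ∃ (X : Type) (J : H →L[ℂ] L2 (Λ × X)), (∀ x, ‖J x‖ ≤ ‖x‖) ∧ (∀ x ∈ VB A, ‖J x‖ = ‖x‖) ∧
      ∀ (m : Λ) (v : H) (l : Λ) (x : X), J (ext A E m v) (l, x) = J v (m⁻¹ * l, x) := by
  have : CompleteSpace (VB A) := (isClosed_VB A).completeSpace_coe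
  obtain ⟨X, J0, hJ0⟩ := exists_J0 (repV A E) (repV_dense A E)
  refine ⟨X, J0.toContinuousLinearMap.comp (VB A).orthogonalProjectionOnto, ?_, ?_, ?_⟩
  · intro x
    change ‖J0 ((VB A).orthogonalProjectionOnto x)‖ ≤ ‖x‖
    rw [J0.norm_map]
    exact (VB A).norm_orthogonalProjectionOnto_apply_le x
  · intro x hx
    change ‖J0 ((VB A).orthogonalProjectionOnto x)‖ = ‖x‖
    rw [J0.norm_map, Submodule.orthogonalProjectionOnto_mem_subspace_eq_self (⟨x, hx⟩ : VB A)]
    rfl
  · intro m v l x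
    change J0 ((VB A).orthogonalProjectionOnto (ext A E m v)) (l, x) =
      J0 ((VB A).orthogonalProjectionOnto v) (m⁻¹ * l, x)
    rw [← hJ0 m]
    have h1 : ext A E m v = ext A E m (((VB A).orthogonalProjectionOnto v : VB A) : H) := by
      have h2 : v - (((VB A).orthogonalProjectionOnto v : VB A) : H) ∈ (VB A)ᗮ :=
        (VB A).sub_starProjection_mem_orthogonal v
      have h3 := ext_perp E m h2
      rw [map_sub, sub_eq_zero] at h3
      exact h3
    have h4 : (VB A).orthogonalProjectionOnto (ext A E m v) =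
        repV A E m ((VB A).orthogonalProjectionOnto v) := by
      have h5 := Submodule.orthogonalProjectionOnto_mem_subspace_eq_self
        (repV A E m ((VB A).orthogonalProjectionOnto v))
      rw [repV_apply, ← h1] at h5
      exact h5
    rw [h4]

end Pool.Agent.Helper84.NI
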