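import Pool.Agent.Helper84.NI.Cen
import Pool.Agent.Helper84.NI.J4

/-!
# Project NI, block F1: the forms `q_f`

`Φ_t ξ = J (B t⁻¹ (M t ξ)) ∈ ℓ²(Λ × X)`, `qf J B M S f ξ ξ' = ∑_{t ∈ S} ∑_p f(p.1) conj(Φ_t ξ p) Φ_t ξ' p` for a bounded real function `f` on `Λ`.
PROOFS. `qf_bound`: `|∑_p ..| ≤ ‖Φ_t ξ‖ ‖Φ_t ξ'‖ ≤ ‖M t ξ‖ ‖M t ξ'‖` and Cauchy-Schwarz with `∑_t ‖M t ξ‖^2 = ‖ξ‖^2`; linearity: summability of the
products of two square summable families (`lp`/`summable_sq`, `Summable.of_norm_bounded` with `(|x|^2+|y|^2)/2`).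
-/

set_option autoImplicit false

open scoped ComplexConjugate

namespace Pool.Agent.Helper84.NI

open GVN

variable {G Λ X : Type} [Group G] [Group Λ] {H : Type} [NormedAddCommGroup H] [InnerProductSpace ℂ H]
  [CompleteSpace H]

/-- The form `q_f`. -/
noncomputable def qf (J : H →L[ℂ] L2 (Λ × X)) (B : G →* (H ≃ₗᵢ[ℂ] H)) (M : G → (H →L[ℂ] H))
    (S : Finset G) (f : Λ → ℝ) (ξ ξ' : H) : ℂ :=
  ∑ t ∈ S, ∑' p : Λ × X, (f p.1 : ℂ) * (conj (J (B t⁻¹ (M t ξ)) p) * J (B t⁻¹ (M t ξ')) p)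

private lemma h24_summable {I : Type} (x y : L2 I) {f : I → ℝ} (hf : ∀ p, |f p| ≤ 1) :
    Summable fun p => (f p : ℂ) * (conj (x p) * y p) := by
  have h1 : Summable fun p => (‖x p‖ ^ 2 + ‖y p‖ ^ 2) := (summable_sq x).add (summable_sq y)
  refine Summable.of_norm_bounded h1 (fun p => ?_)
  rw [norm_mul, norm_mul, RCLike.norm_conj, Complex.norm_real, Real.norm_eq_abs]
  have h2 : |f p| * (‖x p‖ * ‖y p‖) ≤ 1 * (‖x p‖ * ‖y p‖) :=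
    mul_le_mul_of_nonneg_right (hf p) (by positivity)
  nlinarith [sq_nonneg (‖x p‖ - ‖y p‖), norm_nonneg (x p), norm_nonneg (y p)]

private lemma h24_cs {I : Type} (x y : L2 I) {f : I → ℝ} (hf : ∀ p, |f p| ≤ 1) :
    ‖∑' p, (f p : ℂ) * (conj (x p) * y p)‖ ≤ ‖x‖ * ‖y‖ := by
  have hle : ∀ p, ‖(f p : ℂ) * y p‖ ^ 2 ≤ ‖y p‖ ^ 2 := by
    intro p
    rw [norm_mul, Complex.norm_real, Real.norm_eq_abs, mul_pow]
    have h1 : |f p| ^ 2 ≤ 1 := pow_le_one₀ (abs_nonneg _) (hf p)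
    have h2 : 0 ≤ ‖y p‖ ^ 2 := by positivity
    nlinarith
  have hz : Summable fun p => ‖(f p : ℂ) * y p‖ ^ 2 :=
    Summable.of_nonneg_of_le (fun p => by positivity) hle (summable_sq y)
  set z : L2 I := ⟨fun p => (f p : ℂ) * y p, memL2 hz⟩ with hzd
  have hzp : ∀ p, z p = (f p : ℂ) * y p := fun p => rfl
  have h1 : ‖z‖ ≤ ‖y‖ := by
    have h2 : ‖z‖ ^ 2 ≤ ‖y‖ ^ 2 := by
      rw [norm_sq_eq, norm_sq_eq]
      exact Summable.tsum_le_tsum hle hz (summable_sq y)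
    exact (pow_le_pow_iff_left₀ (norm_nonneg _) (norm_nonneg _) (by norm_num)).1 h2
  have h3 : ∑' p, (f p : ℂ) * (conj (x p) * y p) = inner ℂ x z := by
    rw [lp.inner_eq_tsum]
    refine tsum_congr (fun p => ?_)
    rw [RCLike.inner_apply, hzp]
    ring
  rw [h3]
  exact (norm_inner_le_norm x z).trans (mul_le_mul_of_nonneg_left h1 (norm_nonneg _))

theorem qf_bound {J : H →L[ℂ] L2 (Λ × X)} (hJ : ∀ x, ‖J x‖ ≤ ‖x‖) (B : G →* (H ≃ₗᵢ[ℂ] H))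
    {M : G → (H →L[ℂ] H)} {S : Finset G} (hM : ∀ x, ∑ t ∈ S, ‖M t x‖ ^ 2 = ‖x‖ ^ 2) {f : Λ → ℝ}
    (hf : ∀ l, |f l| ≤ 1) (ξ ξ' : H) : ‖qf J B M S f ξ ξ'‖ ≤ ‖ξ‖ * ‖ξ'‖ := by
  have h1 : ∀ t x, ‖J (B t⁻¹ (M t x))‖ ≤ ‖M t x‖ := by
    intro t x
    refine (hJ _).trans (le_of_eq ?_)
    exact LinearIsometryEquiv.norm_map _ _
  unfold qf
  refine (norm_sum_le _ _).trans ?_
  have h2 : ∀ t ∈ S, ‖∑' p : Λ × X, (f p.1 : ℂ) * (conj (J (B t⁻¹ (M t ξ)) p) *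
      J (B t⁻¹ (M t ξ')) p)‖ ≤ ‖M t ξ‖ * ‖M t ξ'‖ := by
    intro t _
    refine (h24_cs (J (B t⁻¹ (M t ξ))) (J (B t⁻¹ (M t ξ'))) (f := fun p : Λ × X => f p.1)
      (fun p => hf p.1)).trans ?_
    exact mul_le_mul (h1 t ξ) (h1 t ξ') (norm_nonneg _) (norm_nonneg _)
  refine (Finset.sum_le_sum h2).trans ?_
  refine (Real.sum_mul_le_sqrt_mul_sqrt S (fun t => ‖M t ξ‖) (fun t => ‖M t ξ'‖)).trans ?_
  rw [hM ξ, hM ξ', Real.sqrt_sq (norm_nonneg _), Real.sqrt_sq (norm_nonneg _)]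

theorem qf_add_left (J : H →L[ℂ] L2 (Λ × X)) (B : G →* (H ≃ₗᵢ[ℂ] H)) (M : G → (H →L[ℂ] H))
    (S : Finset G) {f : Λ → ℝ} (hf : ∀ l, |f l| ≤ 1) (ξ₁ ξ₂ ξ' : H) :
    qf J B M S f (ξ₁ + ξ₂) ξ' = qf J B M S f ξ₁ ξ' + qf J B M S f ξ₂ ξ' := by
  unfold qf
  rw [← Finset.sum_add_distrib]
  refine Finset.sum_congr rfl (fun t _ => ?_)
  rw [← Summable.tsum_add
    (h24_summable (J (B t⁻¹ (M t ξ₁))) (J (B t⁻¹ (M t ξ'))) (f := fun p : Λ × X => f p.1)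
      (fun p => hf p.1))
    (h24_summable (J (B t⁻¹ (M t ξ₂))) (J (B t⁻¹ (M t ξ'))) (f := fun p : Λ × X => f p.1)
      (fun p => hf p.1))]
  refine tsum_congr (fun p => ?_)
  rw [map_add, map_add, map_add, lp.coeFn_add, Pi.add_apply, map_add]
  ring

theorem qf_add_right (J : H →L[ℂ] L2 (Λ × X)) (B : G →* (H ≃ₗᵢ[ℂ] H)) (M : G → (H →L[ℂ] H))
    (S : Finset G) {f : Λ → ℝ} (hf : ∀ l, |f l| ≤ 1) (ξ ξ₁ ξ₂ : H) :
    qf J B M S f ξ (ξ₁ + ξ₂) = qf J B M S f ξ ξ₁ + qf J B M S f ξ ξ₂ := by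
  unfold qf
  rw [← Finset.sum_add_distrib]
  refine Finset.sum_congr rfl (fun t _ => ?_)
  rw [← Summable.tsum_add
    (h24_summable (J (B t⁻¹ (M t ξ))) (J (B t⁻¹ (M t ξ₁))) (f := fun p : Λ × X => f p.1)
      (fun p => hf p.1))
    (h24_summable (J (B t⁻¹ (M t ξ))) (J (B t⁻¹ (M t ξ₂))) (f := fun p : Λ × X => f p.1)
      (fun p => hf p.1))]
  refine tsum_congr (fun p => ?_)
  rw [map_add, map_add, map_add, lp.coeFn_add, Pi.add_apply]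
  ring

theorem qf_smul_left (J : H →L[ℂ] L2 (Λ × X)) (B : G →* (H ≃ₗᵢ[ℂ] H)) (M : G → (H →L[ℂ] H))
    (S : Finset G) (f : Λ → ℝ) (c : ℂ) (ξ ξ' : H) :
    qf J B M S f (c • ξ) ξ' = conj c * qf J B M S f ξ ξ' := by
  unfold qf
  rw [Finset.mul_sum]
  refine Finset.sum_congr rfl (fun t _ => ?_)
  rw [← tsum_mul_left]
  refine tsum_congr (fun p => ?_)
  rw [map_smul, map_smul, map_smul, lp.coeFn_smul, Pi.smul_apply, smul_eq_mul, map_mul]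
  ring

theorem qf_smul_right (J : H →L[ℂ] L2 (Λ × X)) (B : G →* (H ≃ₗᵢ[ℂ] H)) (M : G → (H →L[ℂ] H))
    (S : Finset G) (f : Λ → ℝ) (c : ℂ) (ξ ξ' : H) :
    qf J B M S f ξ (c • ξ') = c * qf J B M S f ξ ξ' := by
  unfold qf
  rw [Finset.mul_sum]
  refine Finset.sum_congr rfl (fun t _ => ?_)
  rw [← tsum_mul_left]
  refine tsum_congr (fun p => ?_)
  rw [map_smul, map_smul, map_smul, lp.coeFn_smul, Pi.smul_apply, smul_eq_mul]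
  ring

end Pool.Agent.Helper84.NI
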