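import Pool.Agent.Helper84.NI.F1

/-!
# Project NI, block F1b: moving `B h`, and covariance

`Φ_t ξ = J (B t⁻¹ (M t ξ)) ∈ ℓ²(Λ × X)`, `qf J B M S f ξ ξ' = ∑_{t ∈ S} ∑_p f(p.1) conj(Φ_t ξ p) Φ_t ξ' p` for a bounded real function `f` on `Λ`.
PROOFS. `qf_move`: `Φ_t (B h ξ) = J (B t⁻¹ (M t (B h ξ)))`, compare with `J (B t⁻¹ (B h (M (h⁻¹ t) ξ))) = Φ_{h⁻¹ t} ξ`; the difference has
`∑_t ‖.‖^2 ≤ ε^2 ‖ξ‖^2` (`h1`, over `S' = S ∪ h S`). Since `M t = 0` off `S`, `qf f ξ ξ'` can be computed with any finite set containing `S`. So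
`qf f (B h ξ) ξ' ≈ ∑_t ⟨f Φ_{h⁻¹t} ξ, Φ_t ξ'⟩ = ∑_s ⟨f Φ_s ξ, Φ_{hs} ξ'⟩ ≈ ∑_s ⟨f Φ_s ξ, Φ_s (B h⁻¹ ξ')⟩`, the second step by the same
estimate for `h⁻¹` and `ξ'` (`h2`): `Φ_s (B h⁻¹ ξ') ≈ Φ_{h s} ξ'`. Each error is `≤ ε ‖ξ‖ ‖ξ'‖` (Cauchy-Schwarz for finite families in `ℓ²(Λ × X)`,
`∑_t ‖Φ_t ξ‖^2 ≤ ‖ξ‖^2`).
`qf_ext`: `M t`, `B t⁻¹` commute with `ext A E l` (`map_ext`), and `J (ext A E l v) (m, x) = J v (l⁻¹ m, x)`; reindex `m = l m'`.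
-/

set_option autoImplicit false

open scoped ComplexConjugate

namespace Pool.Agent.Helper84.NI

open GVN

variable {G Λ X : Type} [Group G] [Group Λ] {H : Type} [NormedAddCommGroup H] [InnerProductSpace ℂ H]
  [CompleteSpace H]

/-- the weighted product of two vectors -/
private noncomputable def mf53 (f : Λ → ℝ) (u v : L2 (Λ × X)) : ℂ :=
  ∑' p : Λ × X, (f p.1 : ℂ) * (conj (u p) * v p)

private theorem hc53 : ((2 : ENNReal).toReal).HolderConjugate ((2 : ENNReal).toReal) := by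
  have : ((2 : ENNReal).toReal) = 2 := by norm_num
  rw [this]
  exact Real.HolderConjugate.two_two

omit [Group Λ] in
private theorem bd53 {f : Λ → ℝ} (hf : ∀ l, |f l| ≤ 1) (u v : L2 (Λ × X)) (p : Λ × X) :
    ‖(f p.1 : ℂ) * (conj (u p) * v p)‖ ≤ ‖u p‖ * ‖v p‖ := by
  rw [norm_mul, norm_mul, RCLike.norm_conj, Complex.norm_real, Real.norm_eq_abs]
  have h1 : 0 ≤ ‖u p‖ * ‖v p‖ := by positivity
  calc |f p.1| * (‖u p‖ * ‖v p‖) ≤ 1 * (‖u p‖ * ‖v p‖) := mul_le_mul_of_nonneg_right (hf _) h1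
    _ = _ := one_mul _

omit [Group Λ] in
private theorem sm53 {f : Λ → ℝ} (hf : ∀ l, |f l| ≤ 1) (u v : L2 (Λ × X)) :
    Summable (fun p : Λ × X => (f p.1 : ℂ) * (conj (u p) * v p)) :=
  Summable.of_norm_bounded (lp.summable_mul hc53 u v) (bd53 hf u v)

omit [Group Λ] in
private theorem nm53 {f : Λ → ℝ} (hf : ∀ l, |f l| ≤ 1) (u v : L2 (Λ × X)) : ‖mf53 f u v‖ ≤ ‖u‖ * ‖v‖ := by
  have h1 : ‖mf53 f u v‖ ≤ ∑' p : Λ × X, ‖u p‖ * ‖v p‖ :=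
    tsum_of_norm_bounded (lp.summable_mul hc53 u v).hasSum (bd53 hf u v)
  exact h1.trans (lp.tsum_mul_le_mul_norm' hc53 u v)

omit [Group Λ] in
private theorem subl53 {f : Λ → ℝ} (hf : ∀ l, |f l| ≤ 1) (u u' v : L2 (Λ × X)) :
    mf53 f u v - mf53 f u' v = mf53 f (u - u') v := by
  unfold mf53
  rw [← (sm53 hf u v).tsum_sub (sm53 hf u' v)]
  congr 1
  funext p
  have : (u - u') p = u p - u' p := rfl
  rw [this, map_sub]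
  ring

omit [Group Λ] in
private theorem subr53 {f : Λ → ℝ} (hf : ∀ l, |f l| ≤ 1) (u v v' : L2 (Λ × X)) :
    mf53 f u v - mf53 f u v' = mf53 f u (v - v') := by
  unfold mf53
  rw [← (sm53 hf u v).tsum_sub (sm53 hf u v')]
  congr 1
  funext p
  have : (v - v') p = v p - v' p := rfl
  rw [this]
  ring

omit [Group Λ] in
private theorem zl53 (f : Λ → ℝ) (v : L2 (Λ × X)) : mf53 f 0 v = 0 := by
  unfold mf53
  have : (fun p : Λ × X => (f p.1 : ℂ) * (conj ((0 : L2 (Λ × X)) p) * v p)) = fun _ => 0 := by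
    funext p
    have : (0 : L2 (Λ × X)) p = 0 := rfl
    rw [this, map_zero]
    ring
  rw [this, tsum_zero]

omit [Group Λ] in
private theorem zr53 (f : Λ → ℝ) (v : L2 (Λ × X)) : mf53 f v 0 = 0 := by
  unfold mf53
  have : (fun p : Λ × X => (f p.1 : ℂ) * (conj (v p) * (0 : L2 (Λ × X)) p)) = fun _ => 0 := by
    funext p
    have : (0 : L2 (Λ × X)) p = 0 := rfl
    rw [this]
    ring
  rw [this, tsum_zero]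

omit [Group G] in
private theorem cs53 {a b c : G → ℝ} (S : Finset G)
    (hc : ∀ t ∈ S, c t ≤ a t * b t) {A B : ℝ} (hA : 0 ≤ A) (hB : 0 ≤ B)
    (h1 : ∑ t ∈ S, a t ^ 2 ≤ A ^ 2) (h2 : ∑ t ∈ S, b t ^ 2 ≤ B ^ 2) : ∑ t ∈ S, c t ≤ A * B := by
  have h3 := Finset.sum_le_sum hc
  have h4 := Finset.sum_mul_sq_le_sq_mul_sq S a b
  have h5 : (∑ t ∈ S, a t * b t) ^ 2 ≤ (A * B) ^ 2 := by
    rw [mul_pow]
    exact h4.trans (mul_le_mul h1 h2 (Finset.sum_nonneg fun t _ => sq_nonneg _) (sq_nonneg _))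
  exact h3.trans (abs_le_of_sq_le_sq' h5 (mul_nonneg hA hB)).2

theorem qf_move {J : H →L[ℂ] L2 (Λ × X)} (hJ : ∀ x, ‖J x‖ ≤ ‖x‖) {B : G →* (H ≃ₗᵢ[ℂ] H)}
    {M : G → (H →L[ℂ] H)} {S : Finset G} (h0 : ∀ t, t ∉ S → M t = 0)
    (hM : ∀ x, ∑ t ∈ S, ‖M t x‖ ^ 2 = ‖x‖ ^ 2) {ε : ℝ} (hε : 0 < ε) {h : G}
    (h1 : ∀ x, ∀ S' : Finset G, ∑ t ∈ S', ‖M t (B h x) - B h (M (h⁻¹ * t) x)‖ ^ 2 ≤ ε ^ 2 * ‖x‖ ^ 2)
    (h2 : ∀ x, ∀ S' : Finset G, ∑ t ∈ S', ‖M t (B h⁻¹ x) - B h⁻¹ (M (h * t) x)‖ ^ 2 ≤ ε ^ 2 * ‖x‖ ^ 2)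
    {f : Λ → ℝ} (hf : ∀ l, |f l| ≤ 1) (ξ ξ' : H) :
    ‖qf J B M S f (B h ξ) ξ' - qf J B M S f ξ (B h⁻¹ ξ')‖ ≤ 2 * ε * ‖ξ‖ * ‖ξ'‖ := by
  obtain ⟨Φ, hΦ⟩ : ∃ Φ : G → H → L2 (Λ × X), Φ = fun t ξ => J (B t⁻¹ (M t ξ)) := ⟨_, rfl⟩
  have hq : ∀ x y, qf J B M S f x y = ∑ t ∈ S, mf53 f (Φ t x) (Φ t y) := by
    intro x y
    rw [hΦ]
    rfl
  have hΦ0 : ∀ t, t ∉ S → ∀ x, Φ t x = 0 := by
    intro t ht x
    rw [hΦ]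
    show J (B t⁻¹ (M t x)) = 0
    rw [h0 t ht]
    simp
  have hΦn : ∀ t x, ‖Φ t x‖ ≤ ‖M t x‖ := by
    intro t x
    rw [hΦ]
    exact (hJ _).trans (le_of_eq (LinearIsometryEquiv.norm_map _ _))
  have hΦs : ∀ x, ∑ t ∈ S, ‖Φ t x‖ ^ 2 ≤ ‖x‖ ^ 2 := by
    intro x
    rw [← hM x]
    exact Finset.sum_le_sum fun t _ => pow_le_pow_left₀ (norm_nonneg _) (hΦn t x) 2
  have hd : ∀ (k : G) (t : G) (x : H), ‖Φ t (B k x) - Φ (k⁻¹ * t) x‖ ≤ ‖M t (B k x) - B k (M (k⁻¹ * t) x)‖ := by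
    intro k t x
    have e : Φ t (B k x) - Φ (k⁻¹ * t) x = J (B t⁻¹ (M t (B k x) - B k (M (k⁻¹ * t) x))) := by
      rw [hΦ]
      show J (B t⁻¹ (M t (B k x))) - J (B (k⁻¹ * t)⁻¹ (M (k⁻¹ * t) x)) = _
      rw [map_sub, map_sub, mul_inv_rev, inv_inv, map_mul]
      rfl
    rw [e]
    exact (hJ _).trans (le_of_eq (LinearIsometryEquiv.norm_map _ _))
  -- the middle term
  have hmid : ∑ t ∈ S, mf53 f (Φ (h⁻¹ * t) ξ) (Φ t ξ') = ∑ s ∈ S, mf53 f (Φ s ξ) (Φ (h * s) ξ') := by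
    have e1 : ∑' t, mf53 f (Φ (h⁻¹ * t) ξ) (Φ t ξ') = ∑ t ∈ S, mf53 f (Φ (h⁻¹ * t) ξ) (Φ t ξ') :=
      tsum_eq_sum fun t ht => by rw [hΦ0 t ht, zr53]
    have e2 : ∑' s, mf53 f (Φ s ξ) (Φ (h * s) ξ') = ∑ s ∈ S, mf53 f (Φ s ξ) (Φ (h * s) ξ') :=
      tsum_eq_sum fun t ht => by rw [hΦ0 t ht, zl53]
    rw [← e1, ← e2, ← (Equiv.mulLeft h).tsum_eq]
    congr 1
    funext s
    simp
  have hA : ‖∑ t ∈ S, mf53 f (Φ t (B h ξ)) (Φ t ξ') - ∑ t ∈ S, mf53 f (Φ (h⁻¹ * t) ξ) (Φ t ξ')‖ ≤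
      (ε * ‖ξ‖) * ‖ξ'‖ := by
    rw [← Finset.sum_sub_distrib]
    refine (norm_sum_le _ _).trans ?_
    refine cs53 (a := fun t => ‖M t (B h ξ) - B h (M (h⁻¹ * t) ξ)‖) (b := fun t => ‖Φ t ξ'‖) S ?_ (by positivity) (norm_nonneg _) ?_ (hΦs ξ')
    · intro t _
      rw [subl53 hf]
      refine (nm53 hf _ _).trans ?_
      exact mul_le_mul_of_nonneg_right (hd h t ξ) (norm_nonneg _)
    · rw [mul_pow]
      exact h1 ξ S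
  have hB : ‖∑ s ∈ S, mf53 f (Φ s ξ) (Φ s (B h⁻¹ ξ')) - ∑ s ∈ S, mf53 f (Φ s ξ) (Φ (h * s) ξ')‖ ≤
      ‖ξ‖ * (ε * ‖ξ'‖) := by
    rw [← Finset.sum_sub_distrib]
    refine (norm_sum_le _ _).trans ?_
    refine cs53 (a := fun t => ‖Φ t ξ‖) (b := fun t => ‖M t (B h⁻¹ ξ') - B h⁻¹ (M (h * t) ξ')‖) S ?_ (norm_nonneg _) (by positivity) (hΦs ξ) ?_
    · intro t _
      rw [subr53 hf]
      refine (nm53 hf _ _).trans ?_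
      refine mul_le_mul_of_nonneg_left ?_ (norm_nonneg _)
      have := hd h⁻¹ t ξ'
      rw [inv_inv] at this
      exact this
    · rw [mul_pow]
      exact h2 ξ' S
  rw [hq, hq]
  have e : ∑ t ∈ S, mf53 f (Φ t (B h ξ)) (Φ t ξ') - ∑ t ∈ S, mf53 f (Φ t ξ) (Φ t (B h⁻¹ ξ')) =
      (∑ t ∈ S, mf53 f (Φ t (B h ξ)) (Φ t ξ') - ∑ t ∈ S, mf53 f (Φ (h⁻¹ * t) ξ) (Φ t ξ')) -
        (∑ s ∈ S, mf53 f (Φ s ξ) (Φ s (B h⁻¹ ξ')) - ∑ s ∈ S, mf53 f (Φ s ξ) (Φ (h * s) ξ')) := by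
    rw [hmid]
    ring
  rw [e]
  refine (norm_sub_le _ _).trans ((add_le_add hA hB).trans (le_of_eq ?_))
  ring

theorem qf_ext {A B : G →* (H ≃ₗᵢ[ℂ] H)} (hAB : Comm2 A B) {E : Emb Λ G} {J : H →L[ℂ] L2 (Λ × X)}
    (hJ : ∀ (m : Λ) (v : H) (l : Λ) (x : X), J (ext A E m v) (l, x) = J v (m⁻¹ * l, x))
    {M : G → (H →L[ℂ] H)} (hM : ∀ t g x, M t (A g x) = A g (M t x)) (S : Finset G) (f : Λ → ℝ)
    (l : Λ) (ξ ξ' : H) :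
    qf J B M S f (ext A E l ξ) (ext A E l ξ') = qf J B M S (fun m => f (l * m)) ξ ξ' := by
  have hk : ∀ (t : G) (x : H), J (B t⁻¹ (M t (ext A E l x))) = J (ext A E l (B t⁻¹ (M t x))) := by
    intro t x
    rw [map_ext (hM t) E l x]
    have h1 := map_ext (A := A) (A' := A) (T := ((B t⁻¹).toContinuousLinearEquiv : H →L[ℂ] H)) (fun g x => (hAB g t⁻¹ x).symm) E l (M t x)
    exact congrArg J h1
  unfold qf
  refine Finset.sum_congr rfl fun t _ => ?_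
  rw [← ((Equiv.mulLeft l).prodCongr (Equiv.refl X)).tsum_eq]
  congr 1
  funext p
  obtain ⟨m, x⟩ := p
  show (f (l * m) : ℂ) * (conj (J (B t⁻¹ (M t (ext A E l ξ))) (l * m, x)) * J (B t⁻¹ (M t (ext A E l ξ'))) (l * m, x)) =
    (f (l * m) : ℂ) * (conj (J (B t⁻¹ (M t ξ)) (m, x)) * J (B t⁻¹ (M t ξ')) (m, x))
  rw [hk, hk, hJ, hJ, inv_mul_cancel_left]

end Pool.Agent.Helper84.NI
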