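import Pool.Agent.Helper84.NI.Wall
import Pool.Agent.Helper90.Fib.Ball
import Pool.Agent.Helper90.Fib.MulOp

/-!
# Project NI, interface FB: the fibre representation on `L²(ℂ²)^{U(1)}` (owner: helper90)

PROOF. `L` = closed subspace of the `U(1)`-invariant elements of `Lp ℂ 2 (volume : Measure (Fin 2 → ℂ))`, `(π(C) f)(x) = f(|det C|^{1/2} C⁻¹ x)` (measure preserving: the real
determinant of `C` is `|det C|^2`), `π(C) = 1` for `det C = 0`; `v` = normalised indicator function of `{|x0|^2 + |x1|^2 ≤ 1}`, positive inner products: two neighbourhoods of `0`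
intersect in a set of positive measure. `mu m` = multiplication by `m`.
-/

set_option autoImplicit false

open Filter Topology Matrix MeasureTheory

namespace Pool.Agent.Helper84.NI

/-- bounded measurable functions on `ℂ²` that are homogeneous of degree zero -/
structure Hm (m : (Fin 2 → ℂ) → ℝ) : Prop where
  meas : Measurable m
  bdd : ∃ b, ∀ x, |m x| ≤ b
  hom : ∀ c : ℂ, c ≠ 0 → ∀ x, m (c • x) = m x

/-- The fibre representation together with multiplication operators. -/
structure FibM (L : Type) [NormedAddCommGroup L] [InnerProductSpace ℂ L] where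
  /-- the representation -/
  Φ : Fib L
  /-- multiplication operators -/
  mu : ((Fin 2 → ℂ) → ℝ) → (L →L[ℂ] L)
  pos : ∀ C : M2, C.det ≠ 0 → 0 < (inner ℂ Φ.v (Φ.π C Φ.v)).re
  sq1 : ∀ {ι : Type} (S : Finset ι) (m : ι → (Fin 2 → ℂ) → ℝ), (∀ t ∈ S, Hm (m t)) →
    (∀ x, x ≠ 0 → ∑ t ∈ S, m t x ^ 2 = 1) → ∀ f, ∑ t ∈ S, ‖mu (m t) f‖ ^ 2 = ‖f‖ ^ 2
  sq2 : ∀ {ι : Type} (S : Finset ι) (m m' : ι → (Fin 2 → ℂ) → ℝ) (a : ℝ), (∀ t ∈ S, Hm (m t)) →
    (∀ t ∈ S, Hm (m' t)) → (∀ x, x ≠ 0 → ∑ t ∈ S, (m t x - m' t x) ^ 2 ≤ a) →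
    ∀ f, ∑ t ∈ S, ‖mu (m t) f - mu (m' t) f‖ ^ 2 ≤ a * ‖f‖ ^ 2
  equi : ∀ (m : (Fin 2 → ℂ) → ℝ) (C : M2), Hm m → C.det ≠ 0 → ∀ f,
    Φ.π C (mu m f) = mu (fun x => m (C⁻¹ *ᵥ x)) (Φ.π C f)

end Pool.Agent.Helper84.NI

namespace Pool.Agent.Helper90.Fib

open Pool.Agent.Helper84.NI

/-- The closed subspace of rotation invariant functions. -/
noncomputable def LR : Submodule ℂ LL where
  carrier := {f | ∀ (z : ℂ) (hz : ‖z‖ = 1), rot z hz f = f}
  add_mem' := by
    intro a b ha hb z hz
    rw [map_add, ha z hz, hb z hz]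
  zero_mem' := fun z hz => map_zero _
  smul_mem' := by
    intro c x hx z hz
    rw [map_smul, hx z hz]

theorem mem_LR {f : LL} : f ∈ LR ↔ ∀ (z : ℂ) (hz : ‖z‖ = 1), rot z hz f = f := Iff.rfl

theorem isClosed_LR : IsClosed (LR : Set LL) := by
  have h : (LR : Set LL) = ⋂ (z : ℂ) (hz : ‖z‖ = 1), {f | rot z hz f = f} := by
    ext f
    simp [mem_LR]
  rw [h]
  refine isClosed_iInter fun z => isClosed_iInter fun hz => ?_
  exact isClosed_eq (rot z hz).continuous continuous_id

instance : CompleteSpace LR := isClosed_LR.completeSpace_coe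

theorem sig_inv (C : M2) (hC : C.det ≠ 0) (f : LL) : sig C⁻¹ (sig C f) = f ∧ sig C (sig C⁻¹ f) = f := by
  have hu := isUnit_iff_ne_zero.2 hC
  have hCi : (C⁻¹).det ≠ 0 := by
    rw [Matrix.det_nonsing_inv]
    simpa using hC
  constructor
  · rw [← sig_mul _ _ hCi hC, Matrix.nonsing_inv_mul _ hu, sig_one]
  · rw [← sig_mul _ _ hC hCi, Matrix.mul_nonsing_inv _ hu, sig_one]

theorem sig_mem (C : M2) (hC : C.det ≠ 0) {f : LL} (hf : f ∈ LR) : sig C f ∈ LR := by
  intro z hz
  rw [rot_sig z hz C hC, hf z hz]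

open Classical in
/-- the restricted representation -/
noncomputable def pR (C : M2) : LR ≃ₗᵢ[ℂ] LR :=
  if hC : C.det ≠ 0 then
    { toFun := fun f => ⟨sig C f.1, sig_mem C hC f.2⟩
      invFun := fun f => ⟨sig C⁻¹ f.1, sig_mem C⁻¹ (by
        rw [Matrix.det_nonsing_inv]
        simpa using hC) f.2⟩
      left_inv := fun f => Subtype.ext (sig_inv C hC f.1).1
      right_inv := fun f => Subtype.ext (sig_inv C hC f.1).2
      map_add' := fun f g => Subtype.ext (map_add (sig C) f.1 g.1)
      map_smul' := fun c f => Subtype.ext (map_smul (sig C) c f.1)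
      norm_map' := fun f => (sig C).norm_map f.1 }
  else 1

theorem pR_coe (C : M2) (hC : C.det ≠ 0) (f : LR) : ((pR C f : LR) : LL) = sig C f.1 := by
  rw [pR, dif_pos hC]
  rfl

open Classical in
/-- the restricted multiplication operators -/
noncomputable def muR (m : E2 → ℝ) : LR →L[ℂ] LR :=
  if h : Hm m then
    { toFun := fun f => ⟨mop m f.1, fun z hz => by
        rw [mop_rot h.meas h.bdd h.hom, f.2 z hz]⟩
      map_add' := fun f g => Subtype.ext (map_add (mop m) f.1 g.1)
      map_smul' := fun c f => Subtype.ext (map_smul (mop m) c f.1)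
      cont := ((mop m).continuous.comp continuous_subtype_val).subtype_mk _ }
  else 0

theorem muR_coe {m : E2 → ℝ} (h : Hm m) (f : LR) : ((muR m f : LR) : LL) = mop m f.1 := by
  rw [muR, dif_pos h]
  rfl

theorem Hm.comp_inv {m : E2 → ℝ} (h : Hm m) (C : M2) : Hm fun x => m (C *ᵥ x) where
  meas := h.meas.comp (by
    have : Continuous fun x : E2 => C *ᵥ x := by fun_prop
    exact this.measurable)
  bdd := by
    obtain ⟨b, hb⟩ := h.bdd
    exact ⟨b, fun x => hb _⟩
  hom c hc x := by
    rw [Matrix.mulVec_smul]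
    exact h.hom c hc _

end Pool.Agent.Helper90.Fib

namespace Pool.Agent.Helper84.NI

open Pool.Agent.Helper90.Fib

theorem exists_fib_B : ∃ (L : Type) (_ : NormedAddCommGroup L) (_ : InnerProductSpace ℂ L)
    (_ : CompleteSpace L), Nonempty (FibM L) := by
  obtain ⟨v, hv1, hv2, hv3, hv4⟩ := exists_ball
  refine ⟨LR, inferInstance, inferInstance, inferInstance, ⟨?_⟩⟩
  let Φ : Fib LR :=
    { π := pR
      mul := by
        intro C D hC hD w
        have hCD : (C * D).det ≠ 0 := by
          rw [Matrix.det_mul]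
          exact mul_ne_zero hC hD
        apply Subtype.ext
        rw [pR_coe _ hCD, pR_coe _ hC, pR_coe _ hD, sig_mul _ _ hC hD]
      scal := by
        intro c C hc hC
        have hcC : (c • C).det ≠ 0 := by
          rw [Matrix.det_smul]
          exact mul_ne_zero (pow_ne_zero _ hc) hC
        ext1 w
        apply Subtype.ext
        rw [pR_coe _ hcC, pR_coe _ hC]
        exact sig_smul c hc C hC w.1 w.2
      cont := by
        intro w
        have h : ContinuousOn (fun C => ((pR C w : LR) : LL)) {C : M2 | C.det ≠ 0} := by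
          refine (sig_cont w.1).congr fun C hC => ?_
          exact pR_coe C hC w
        exact continuousOn_iff_continuous_domRestrict.2
          (Continuous.subtype_mk (continuousOn_iff_continuous_domRestrict.1 h) _)
      v := ⟨v, hv2⟩
      nv := hv1
      inv := by
        intro k hk
        have hk0 : k.det ≠ 0 := by
          intro h
          have h1 := congrArg Matrix.det hk
          rw [Matrix.det_mul, h, mul_zero, Matrix.det_one] at h1
          exact zero_ne_one h1
        apply Subtype.ext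
        rw [pR_coe _ hk0]
        exact hv3 k hk }
  exact
    { Φ := Φ
      mu := muR
      pos := by
        intro C hC
        have h := hv4 C hC
        rw [← pR_coe C hC ⟨v, hv2⟩] at h
        exact h
      sq1 := by
        intro ι S m hm h1 f
        have h := mop_sq1 S m (fun t ht => (hm t ht).meas) (fun t ht => (hm t ht).bdd) h1 f.1
        rw [← Submodule.coe_norm] at h
        rw [← h]
        refine Finset.sum_congr rfl fun t ht => ?_
        rw [← muR_coe (hm t ht), Submodule.coe_norm]
      sq2 := by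
        intro ι S m m' a hm hm' h1 f
        have h := mop_sq2 S m m' a (fun t ht => (hm t ht).meas) (fun t ht => (hm t ht).bdd)
          (fun t ht => (hm' t ht).meas) (fun t ht => (hm' t ht).bdd) h1 f.1
        rw [← Submodule.coe_norm] at h
        refine le_trans (le_of_eq ?_) h
        refine Finset.sum_congr rfl fun t ht => ?_
        rw [← muR_coe (hm t ht), ← muR_coe (hm' t ht), ← Submodule.coe_sub, Submodule.coe_norm]
      equi := by
        intro m C h hC f
        apply Subtype.ext
        change ((pR C (muR m f) : LR) : LL) = ((muR (fun x => m (C⁻¹ *ᵥ x)) (pR C f) : LR) : LL)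
        rw [pR_coe _ hC, muR_coe h, muR_coe (Hm.comp_inv h C⁻¹), pR_coe _ hC]
        exact mop_sig h.meas h.bdd h.hom C hC f.1 }

end Pool.Agent.Helper84.NI
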