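import Pool.Agent.Helper84.NI.GB

/-!
# Project NI, block GA2: the dual

PROOF. `(A B)^{-*} = A^{-*} B^{-*}`, `|det| = 1`, and `ns (A^{-*}) ≤ R` implies `ns A ≤ R'`: for `|det A| = 1` the inverse is the adjugate up to a unit scalar, whose entries are
`2x2` minors, so `ns A ≤ 9 (2 R)^2` or similar (with `A = (A^{-*})^{-*}`); so the finiteness transfers. `(ι g)^{-*} = k diag(1/s) k'ᴴ = (k w) diag(reversed) (k' w)ᴴ` where `w` is the permutation matrix of
`Fin.rev` (`(Matrix.submatrix k id Fin.rev)`). `W_dual`: `δ * (s 2)⁻¹ ≤ (s 1)⁻¹ ↔ δ * s 1 ≤ s 2`.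
-/

set_option autoImplicit false

open Filter Topology Matrix

namespace Pool.Agent.Helper84.NI

variable {G : Type} [Group G]

private theorem ga_unit {A : M3} (h : ‖A.det‖ = 1) : IsUnit A.det := by
  rw [isUnit_iff_ne_zero]
  intro h0
  rw [h0, norm_zero] at h
  exact zero_ne_one h

private theorem ga_conj (A : M3) : ns Aᴴ = ns A := by
  unfold ns
  simp only [Matrix.conjTranspose_apply, norm_star]
  rw [Finset.sum_comm]

private theorem ga_det_inv {A : M3} (h : ‖A.det‖ = 1) : ‖(A⁻¹).det‖ = 1 := by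
  have h1 := congrArg Matrix.det (Matrix.nonsing_inv_mul A (ga_unit h))
  rw [Matrix.det_mul, Matrix.det_one] at h1
  have h2 := congrArg norm h1
  rw [norm_mul, h, mul_one, norm_one] at h2
  exact h2

/-- adjugate bound -/
private theorem ga_inv_le {X : M3} (h : ‖X.det‖ = 1) : ns X⁻¹ ≤ 36 * ns X ^ 2 := by
  have hn : ∀ i j, ‖X i j‖ ≤ Real.sqrt (ns X) := fun i j => Real.le_sqrt_of_sq_le (norm_apply_sq_le X i j)
  have e : ∀ i j, ‖X⁻¹ i j‖ ≤ 2 * ns X := by
    intro i j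
    rw [Matrix.inv_def, Matrix.smul_apply, norm_smul, Ring.inverse_eq_inv', norm_inv, h, inv_one, one_mul]
    have hb : ∀ a b c d : Fin 3, ‖X a b‖ * ‖X c d‖ ≤ ns X := by
      intro a b c d
      calc ‖X a b‖ * ‖X c d‖ ≤ Real.sqrt (ns X) * Real.sqrt (ns X) :=
            mul_le_mul (hn a b) (hn c d) (norm_nonneg _) (Real.sqrt_nonneg _)
        _ = ns X := Real.mul_self_sqrt (ns_nonneg X)
    have key : ∀ a b c d a' b' c' d' : Fin 3,
        ‖X a b * X c d - X a' b' * X c' d'‖ ≤ 2 * ns X := by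
      intro a b c d a' b' c' d'
      calc ‖X a b * X c d - X a' b' * X c' d'‖ ≤ ‖X a b * X c d‖ + ‖X a' b' * X c' d'‖ := norm_sub_le _ _
        _ ≤ 2 * ns X := by
            rw [norm_mul, norm_mul]
            linarith [hb a b c d, hb a' b' c' d']
    have key' : ∀ a b c d a' b' c' d' : Fin 3,
        ‖- (X a b * X c d) + X a' b' * X c' d'‖ ≤ 2 * ns X := by
      intro a b c d a' b' c' d'
      have := key a' b' c' d' a b c d
      rwa [neg_add_eq_sub]
    rw [Matrix.adjugate_fin_three]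
    fin_cases i <;> fin_cases j <;> simp <;> first | apply key | apply key'
  have h0 : ∀ i j, ‖X⁻¹ i j‖ ^ 2 ≤ (2 * ns X) ^ 2 := fun i j =>
    pow_le_pow_left₀ (norm_nonneg _) (e i j) 2
  calc ns X⁻¹ ≤ ∑ i : Fin 3, ∑ j : Fin 3, (2 * ns X) ^ 2 := by
        unfold ns
        exact Finset.sum_le_sum fun i _ => Finset.sum_le_sum fun j _ => h0 i j
    _ = 36 * ns X ^ 2 := by
        simp only [Finset.sum_const, Finset.card_univ, Fintype.card_fin, nsmul_eq_mul]
        push_cast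
        ring

/-- The dual map `g ↦ (ι g)^{-*}`. -/
noncomputable def PHom.dual (P : PHom G) : PHom G where
  ι g := ((P.ι g)⁻¹)ᴴ
  det1 g := by
    rw [Matrix.det_conjTranspose, norm_star]
    exact ga_det_inv (P.det1 g)
  mul' g h := by
    obtain ⟨c, hc, h1⟩ := P.mul' g h
    have hc0 : c ≠ 0 := by
      rintro rfl
      rw [norm_zero] at hc
      exact zero_ne_one hc
    refine ⟨star c⁻¹, by rw [norm_star, norm_inv, hc, inv_one], ?_⟩
    have h2 : (P.ι (g * h))⁻¹ = c⁻¹ • ((P.ι h)⁻¹ * (P.ι g)⁻¹) := by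
      apply Matrix.inv_eq_left_inv
      rw [h1, Matrix.smul_mul, Matrix.mul_smul, smul_smul, inv_mul_cancel₀ hc0, one_smul]
      calc (P.ι h)⁻¹ * (P.ι g)⁻¹ * (P.ι g * P.ι h) = (P.ι h)⁻¹ * ((P.ι g)⁻¹ * P.ι g) * P.ι h := by
            simp only [Matrix.mul_assoc]
        _ = 1 := by
            rw [Matrix.nonsing_inv_mul _ (ga_unit (P.det1 g)), Matrix.mul_one,
              Matrix.nonsing_inv_mul _ (ga_unit (P.det1 h))]
    rw [h2, Matrix.conjTranspose_smul, Matrix.conjTranspose_mul]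
  fin R := by
    refine (P.fin (36 * R ^ 2)).subset fun g hg => ?_
    have hg' : ns (((P.ι g)⁻¹)ᴴ) ≤ R := hg
    rw [ga_conj] at hg'
    have h1 := ga_inv_le (ga_det_inv (P.det1 g))
    rw [Matrix.nonsing_inv_nonsing_inv _ (ga_unit (P.det1 g))] at h1
    have h0 := ns_nonneg ((P.ι g)⁻¹)
    show ns (P.ι g) ≤ 36 * R ^ 2
    calc ns (P.ι g) ≤ 36 * ns (P.ι g)⁻¹ ^ 2 := h1
      _ ≤ 36 * R ^ 2 := by gcongr

private theorem ga_perm {k : M3} (hk : IsU k) : IsU (k.submatrix id Fin.rev) := by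
  have hk' : kᴴ * k = 1 := hk
  unfold IsU
  rw [Matrix.conjTranspose_submatrix,
    ← Matrix.submatrix_mul _ _ Fin.rev id Fin.rev Function.bijective_id, hk',
    Matrix.submatrix_one _ Fin.rev_injective]

/-- The dual decomposition: reversed order and inverse singular values. -/
noncomputable def Svd.dual {P : PHom G} (S : Svd P) : Svd P.dual where
  kL g := (S.kL g).submatrix id Fin.rev
  kR g := (S.kR g).submatrix id Fin.rev
  s g i := (S.s g i.rev)⁻¹
  uL g := ga_perm (S.uL g)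
  uR g := ga_perm (S.uR g)
  pos g := by
    have := S.pos0 g
    exact inv_pos.mpr this
  le12 g := inv_anti₀ (S.pos1 g) (S.le01 g)
  le01 g := inv_anti₀ (S.pos g) (S.le12 g)
  spec g := by
    have hL : (S.kL g)ᴴ * S.kL g = 1 := S.uL g
    have hR : (S.kR g)ᴴ * S.kR g = 1 := S.uR g
    have hR' : S.kR g * (S.kR g)ᴴ = 1 := (S.uR g).mul_star
    have hs : ∀ i, (S.s g i : ℂ) ≠ 0 := by
      intro i
      have : S.s g i ≠ 0 := by
        fin_cases i
        · exact (S.pos0 g).ne'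
        · exact (S.pos1 g).ne'
        · exact (S.pos g).ne'
      exact_mod_cast this
    have hD : diagonal (fun i => ((S.s g i : ℂ))⁻¹) * diagonal (fun i => (S.s g i : ℂ)) = 1 := by
      rw [Matrix.diagonal_mul_diagonal, ← Matrix.diagonal_one]
      congr 1
      funext i
      exact inv_mul_cancel₀ (hs i)
    have h1 : (P.ι g)⁻¹ = S.kR g * diagonal (fun i => ((S.s g i : ℂ))⁻¹) * (S.kL g)ᴴ := by
      apply Matrix.inv_eq_left_inv
      rw [S.spec g]
      calc S.kR g * diagonal (fun i => ((S.s g i : ℂ))⁻¹) * (S.kL g)ᴴ *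
            (S.kL g * diagonal (fun i => (S.s g i : ℂ)) * (S.kR g)ᴴ)
          = S.kR g * (diagonal (fun i => ((S.s g i : ℂ))⁻¹) * (((S.kL g)ᴴ * S.kL g) *
            diagonal (fun i => (S.s g i : ℂ)))) * (S.kR g)ᴴ := by simp only [Matrix.mul_assoc]
        _ = 1 := by rw [hL, Matrix.one_mul, hD, Matrix.mul_one, hR']
    have h2 : ((P.ι g)⁻¹)ᴴ = S.kL g * diagonal (fun i => ((S.s g i : ℂ))⁻¹) * (S.kR g)ᴴ := by
      rw [h1, Matrix.conjTranspose_mul, Matrix.conjTranspose_mul, Matrix.conjTranspose_conjTranspose,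
        Matrix.diagonal_conjTranspose, ← Matrix.mul_assoc]
      congr 3
      funext i
      simp [Complex.conj_ofReal]
    show ((P.ι g)⁻¹)ᴴ = (S.kL g).submatrix id Fin.rev *
      diagonal (fun i => (((S.s g i.rev)⁻¹ : ℝ) : ℂ)) * ((S.kR g).submatrix id Fin.rev)ᴴ
    have h3 : diagonal (fun i : Fin 3 => (((S.s g i.rev)⁻¹ : ℝ) : ℂ)) =
        (diagonal (fun i => ((S.s g i : ℂ))⁻¹)).submatrix Fin.rev Fin.rev := by
      rw [Matrix.submatrix_diagonal _ _ Fin.rev_injective]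
      congr 1
      funext i
      simp
    rw [h2, h3, Matrix.conjTranspose_submatrix,
      ← Matrix.submatrix_mul _ _ id Fin.rev Fin.rev Fin.rev_bijective,
      ← Matrix.submatrix_mul _ _ id Fin.rev id Fin.rev_bijective, Matrix.submatrix_id_id]

theorem Svd.W_dual {P : PHom G} (S : Svd P) (δ : ℝ) : S.dual.W δ = S.Wd δ := by
  ext γ
  show δ * (S.s γ 2)⁻¹ ≤ (S.s γ 1)⁻¹ ↔ δ * S.s γ 1 ≤ S.s γ 2
  have h1 := S.pos1 γ
  have h2 := S.pos γ
  rw [← div_eq_mul_inv, div_le_iff₀ h2, inv_mul_eq_div, le_div_iff₀ h1]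

end Pool.Agent.Helper84.NI
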