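import Pool.Agent.Helper84.NI.Geo

/-!
# Project NI, block GB: exact identities

PROOFS. `ns (A B) ≤ ns A * ns B` (Cauchy-Schwarz); for unitary `k`: `ns (k A) = ns A = ns (A k)` (trace of `Aᴴ A`, resp. `A Aᴴ`; `IsU k` gives `k kᴴ = 1` too: `mul_eq_one_comm`).
`prod_s`: `1 = |det ι g| = |det k| s0 s1 s2 |det k'ᴴ|`, `|det k| = 1` for unitary `k`.
`ι 1` is a unit scalar: `ι (1 * 1) = c ι 1 ι 1` and `ι 1` is invertible. `ι g⁻¹ = c (ι g)⁻¹`.
`m_eq`: with `γ'' = g⁻¹ γ h`, `ι γ'' = c ι(g)⁻¹ ι γ ι h` (`|c| = 1`), so `ι h k_R'' = c⁻¹ (ι γ)⁻¹ ι g ι γ'' k_R'' = c⁻¹ k_R(γ) D⁻¹ k_L(γ)^* ι g k_L'' D''`, and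
`m = k_R(γ)^* ι h k_R'' = c⁻¹ D⁻¹ (k_L(γ)^* ι g k_L'') D''`.
`m_mul`: `k_R'' k_R''^* = 1`, `ι h ι h' = c ι (h h')`, `g'⁻¹ (g⁻¹ γ h) h' = (g g')⁻¹ γ (h h')`.
`abs_m_le`, `abs_n_le`: `ns m = ns (ι h)`, `ns n = ns (ι g)` (unitary invariance). `m_unitary`, `n_unitary`: `ι 1` is a unit scalar.
-/

set_option autoImplicit false

open Filter Topology Matrix

namespace Pool.Agent.Helper84.NI

variable {G : Type} [Group G] {P : PHom G}

theorem ns_nonneg {n m : Type} [Fintype n] [Fintype m] (A : Matrix n m ℂ) : 0 ≤ ns A :=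
  Finset.sum_nonneg fun _ _ => Finset.sum_nonneg fun _ _ => by positivity

theorem ns_mul_le {n m k : Type} [Fintype n] [Fintype m] [Fintype k] (A : Matrix n m ℂ) (B : Matrix m k ℂ) :
    ns (A * B) ≤ ns A * ns B := by
  unfold ns
  have h1 : ∀ i l, ‖(A * B) i l‖ ^ 2 ≤ (∑ j, ‖A i j‖ ^ 2) * ∑ j, ‖B j l‖ ^ 2 := by
    intro i l
    rw [Matrix.mul_apply]
    have h2 : ‖∑ j, A i j * B j l‖ ≤ ∑ j, ‖A i j‖ * ‖B j l‖ := by
      refine (norm_sum_le _ _).trans (le_of_eq ?_)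
      exact Finset.sum_congr rfl fun j _ => norm_mul _ _
    calc ‖∑ j, A i j * B j l‖ ^ 2 ≤ (∑ j, ‖A i j‖ * ‖B j l‖) ^ 2 :=
          pow_le_pow_left₀ (norm_nonneg _) h2 2
      _ ≤ _ := Finset.sum_mul_sq_le_sq_mul_sq _ _ _
  calc ∑ i, ∑ l, ‖(A * B) i l‖ ^ 2 ≤ ∑ i, ∑ l, (∑ j, ‖A i j‖ ^ 2) * ∑ j, ‖B j l‖ ^ 2 :=
        Finset.sum_le_sum fun i _ => Finset.sum_le_sum fun l _ => h1 i l
    _ = (∑ i, ∑ j, ‖A i j‖ ^ 2) * ∑ i, ∑ j, ‖B i j‖ ^ 2 := by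
        rw [Finset.sum_mul]
        refine Finset.sum_congr rfl fun i _ => ?_
        rw [← Finset.mul_sum, Finset.sum_comm (f := fun j l => ‖B j l‖ ^ 2)]

private theorem ns_trace {n m : Type} [Fintype n] [Fintype m] (A : Matrix n m ℂ) :
    ((ns A : ℝ) : ℂ) = (Aᴴ * A).trace := by
  unfold ns Matrix.trace
  simp only [Matrix.diag_apply, Matrix.mul_apply, Matrix.conjTranspose_apply]
  push_cast
  rw [Finset.sum_comm]
  refine Finset.sum_congr rfl fun i _ => Finset.sum_congr rfl fun j _ => ?_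
  rw [RCLike.star_def, RCLike.conj_mul]
  norm_cast

private theorem ns_conj {n m : Type} [Fintype n] [Fintype m] (A : Matrix n m ℂ) : ns Aᴴ = ns A := by
  unfold ns
  simp only [Matrix.conjTranspose_apply, norm_star]
  rw [Finset.sum_comm]

theorem ns_unitary_mul {n m : Type} [Fintype n] [DecidableEq n] [Fintype m] {k : Matrix n n ℂ} (hk : IsU k)
    (A : Matrix n m ℂ) : ns (k * A) = ns A := by
  have h : ((ns (k * A) : ℝ) : ℂ) = ((ns A : ℝ) : ℂ) := by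
    rw [ns_trace, ns_trace, Matrix.conjTranspose_mul]
    congr 1
    have hk' : kᴴ * k = 1 := hk
    calc Aᴴ * kᴴ * (k * A) = Aᴴ * (kᴴ * k) * A := by simp only [Matrix.mul_assoc]
      _ = Aᴴ * A := by rw [hk', Matrix.mul_one]
  exact_mod_cast h

theorem ns_mul_unitary {n m : Type} [Fintype n] [Fintype m] [DecidableEq m] {k : Matrix m m ℂ} (hk : IsU k)
    (A : Matrix n m ℂ) : ns (A * k) = ns A := by
  have hk' : (kᴴ)ᴴ * kᴴ = 1 := by
    rw [Matrix.conjTranspose_conjTranspose]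
    exact mul_eq_one_comm.mp hk
  rw [← ns_conj, Matrix.conjTranspose_mul, ns_unitary_mul hk', ns_conj]

theorem norm_apply_sq_le {n m : Type} [Fintype n] [Fintype m] (A : Matrix n m ℂ) (i : n) (j : m) :
    ‖A i j‖ ^ 2 ≤ ns A := by
  unfold ns
  calc ‖A i j‖ ^ 2 ≤ ∑ j', ‖A i j'‖ ^ 2 :=
        Finset.single_le_sum (f := fun j' => ‖A i j'‖ ^ 2) (fun _ _ => by positivity) (Finset.mem_univ j)
    _ ≤ ∑ i', ∑ j', ‖A i' j'‖ ^ 2 :=
        Finset.single_le_sum (f := fun i' => ∑ j', ‖A i' j'‖ ^ 2)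
          (fun _ _ => Finset.sum_nonneg fun _ _ => by positivity) (Finset.mem_univ i)

theorem IsU.mul_star {n : Type} [Fintype n] [DecidableEq n] {k : Matrix n n ℂ} (hk : IsU k) : k * kᴴ = 1 := by
  exact mul_eq_one_comm.mp hk

theorem IsU.mul {n : Type} [Fintype n] [DecidableEq n] {k l : Matrix n n ℂ} (hk : IsU k) (hl : IsU l) :
    IsU (k * l) := by
  have hk' : kᴴ * k = 1 := hk
  have hl' : lᴴ * l = 1 := hl
  unfold IsU
  rw [Matrix.conjTranspose_mul]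
  calc lᴴ * kᴴ * (k * l) = lᴴ * (kᴴ * k) * l := by simp only [Matrix.mul_assoc]
    _ = 1 := by rw [hk', Matrix.mul_one, hl']

theorem IsU.star {n : Type} [Fintype n] [DecidableEq n] {k : Matrix n n ℂ} (hk : IsU k) : IsU kᴴ := by
  unfold IsU
  rw [Matrix.conjTranspose_conjTranspose]
  exact hk.mul_star

theorem IsU.smul {n : Type} [Fintype n] [DecidableEq n] {k : Matrix n n ℂ} (hk : IsU k) {c : ℂ} (hc : ‖c‖ = 1) :
    IsU (c • k) := by
  have hk' : kᴴ * k = 1 := hk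
  unfold IsU
  rw [Matrix.conjTranspose_smul, Matrix.smul_mul, Matrix.mul_smul, hk', smul_smul, RCLike.star_def,
    RCLike.conj_mul, hc]
  simp

theorem IsU.norm_det {n : Type} [Fintype n] [DecidableEq n] {k : Matrix n n ℂ} (hk : IsU k) : ‖k.det‖ = 1 := by
  have hk' : kᴴ * k = 1 := hk
  have h := congrArg Matrix.det hk'
  rw [Matrix.det_mul, Matrix.det_conjTranspose, Matrix.det_one] at h
  have h2 := congrArg norm h
  rw [norm_mul, norm_star, norm_one] at h2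
  nlinarith [norm_nonneg k.det]

namespace Svd

variable (S : Svd P)

theorem pos1 (γ : G) : 0 < S.s γ 1 := lt_of_lt_of_le (S.pos γ) (S.le12 γ)

theorem pos0 (γ : G) : 0 < S.s γ 0 := lt_of_lt_of_le (S.pos1 γ) (S.le01 γ)

theorem prod_s (γ : G) : S.s γ 0 * S.s γ 1 * S.s γ 2 = 1 := by
  have h := P.det1 γ
  rw [S.spec γ, Matrix.det_mul, Matrix.det_mul, norm_mul, norm_mul, (S.uL γ).norm_det, (S.uR γ).star.norm_det,
    Matrix.det_diagonal, Fin.prod_univ_three, norm_mul, norm_mul, Complex.norm_real, Complex.norm_real,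
    Complex.norm_real, Real.norm_of_nonneg (S.pos0 γ).le, Real.norm_of_nonneg (S.pos1 γ).le,
    Real.norm_of_nonneg (S.pos γ).le, one_mul, mul_one] at h
  exact h

omit [Group G] in
private theorem unit_det {A : M3} (h : ‖A.det‖ = 1) : IsUnit A.det := by
  rw [isUnit_iff_ne_zero]
  intro h0
  rw [h0, norm_zero] at h
  exact zero_ne_one h

theorem iota_one : ∃ c : ℂ, ‖c‖ = 1 ∧ P.ι 1 = c • (1 : M3) := by
  obtain ⟨c, hc, h⟩ := P.mul' 1 1
  have hc0 : c ≠ 0 := by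
    rintro rfl
    rw [norm_zero] at hc
    exact zero_ne_one hc
  have hu := unit_det (P.det1 1)
  refine ⟨c⁻¹, by rw [norm_inv, hc, inv_one], ?_⟩
  rw [mul_one] at h
  have h1 : (P.ι 1)⁻¹ * P.ι 1 = (P.ι 1)⁻¹ * (c • (P.ι 1 * P.ι 1)) := by rw [← h]
  rw [Matrix.nonsing_inv_mul _ hu, Matrix.mul_smul, ← Matrix.mul_assoc, Matrix.nonsing_inv_mul _ hu,
    Matrix.one_mul] at h1
  rw [h1, smul_smul, inv_mul_cancel₀ hc0, one_smul]

theorem iota_inv (g : G) : ∃ c : ℂ, ‖c‖ = 1 ∧ P.ι g⁻¹ = c • (P.ι g)⁻¹ := by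
  obtain ⟨c, hc, h⟩ := P.mul' g g⁻¹
  obtain ⟨d, hd, h'⟩ := iota_one (P := P)
  have hc0 : c ≠ 0 := by
    rintro rfl
    rw [norm_zero] at hc
    exact zero_ne_one hc
  have hu := unit_det (P.det1 g)
  refine ⟨c⁻¹ * d, by rw [norm_mul, norm_inv, hc, hd, inv_one, one_mul], ?_⟩
  rw [mul_inv_cancel, h'] at h
  have h1 : (P.ι g)⁻¹ * (d • (1 : M3)) = (P.ι g)⁻¹ * (c • (P.ι g * P.ι g⁻¹)) := by rw [h]
  rw [Matrix.mul_smul, Matrix.mul_one, Matrix.mul_smul, ← Matrix.mul_assoc, Matrix.nonsing_inv_mul _ hu,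
    Matrix.one_mul] at h1
  rw [mul_smul, h1, smul_smul, inv_mul_cancel₀ hc0, one_smul]

theorem m_eq (g h γ : G) : ∃ c : ℂ, ‖c‖ = 1 ∧ ∀ i j,
    S.m g h γ i j = c * (S.n g h γ i j * ((S.s (g⁻¹ * γ * h) j / S.s γ i : ℝ) : ℂ)) := by
  obtain ⟨a, ha, h1⟩ := P.mul' g (g⁻¹ * γ * h)
  obtain ⟨b, hb, h2⟩ := P.mul' γ h
  have hb0 : b ≠ 0 := by
    rintro rfl
    rw [norm_zero] at hb
    exact zero_ne_one hb
  have e : g * (g⁻¹ * γ * h) = γ * h := by group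
  rw [e, h2] at h1
  set γ' := g⁻¹ * γ * h with hγ'
  have key : b • (diagonal (fun i => (S.s γ i : ℂ)) * S.m g h γ) =
      a • (S.n g h γ * diagonal (fun i => (S.s γ' i : ℂ))) := by
    have h3 : (S.kL γ)ᴴ * (b • (P.ι γ * P.ι h)) * S.kR γ' = (S.kL γ)ᴴ * (a • (P.ι g * P.ι γ')) * S.kR γ' := by
      rw [h1]
    have h4 : (S.kL γ)ᴴ * (b • (P.ι γ * P.ι h)) * S.kR γ' =
        b • (diagonal (fun i => (S.s γ i : ℂ)) * S.m g h γ) := by
      rw [Matrix.mul_smul, Matrix.smul_mul, S.spec γ]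
      congr 1
      have hL : (S.kL γ)ᴴ * S.kL γ = 1 := S.uL γ
      calc (S.kL γ)ᴴ * (S.kL γ * diagonal (fun i => (S.s γ i : ℂ)) * (S.kR γ)ᴴ * P.ι h) * S.kR γ'
          = ((S.kL γ)ᴴ * S.kL γ) * diagonal (fun i => (S.s γ i : ℂ)) * ((S.kR γ)ᴴ * P.ι h * S.kR γ') := by
            simp only [Matrix.mul_assoc]
        _ = diagonal (fun i => (S.s γ i : ℂ)) * S.m g h γ := by
            rw [hL, Matrix.one_mul]
            rfl
    have h5 : (S.kL γ)ᴴ * (a • (P.ι g * P.ι γ')) * S.kR γ' =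
        a • (S.n g h γ * diagonal (fun i => (S.s γ' i : ℂ))) := by
      rw [Matrix.mul_smul, Matrix.smul_mul, S.spec γ']
      congr 1
      have hR : (S.kR γ')ᴴ * S.kR γ' = 1 := S.uR γ'
      calc (S.kL γ)ᴴ * (P.ι g * (S.kL γ' * diagonal (fun i => (S.s γ' i : ℂ)) * (S.kR γ')ᴴ)) * S.kR γ'
          = ((S.kL γ)ᴴ * P.ι g * S.kL γ') * diagonal (fun i => (S.s γ' i : ℂ)) * ((S.kR γ')ᴴ * S.kR γ') := by
            simp only [Matrix.mul_assoc]
        _ = S.n g h γ * diagonal (fun i => (S.s γ' i : ℂ)) := by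
            rw [hR, Matrix.mul_one]
            rfl
    rw [← h4, h3, h5]
  refine ⟨b⁻¹ * a, by rw [norm_mul, norm_inv, ha, hb, inv_one, one_mul], fun i j => ?_⟩
  have h6 := congrFun (congrFun key i) j
  rw [Matrix.smul_apply, Matrix.smul_apply, Matrix.diagonal_mul, Matrix.mul_diagonal, smul_eq_mul,
    smul_eq_mul] at h6
  have hs : S.s γ i ≠ 0 := by
    fin_cases i
    · exact (S.pos0 γ).ne'
    · exact (S.pos1 γ).ne'
    · exact (S.pos γ).ne'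
  have hs' : (S.s γ i : ℂ) ≠ 0 := by exact_mod_cast hs
  push_cast
  field_simp
  linear_combination h6

theorem m_mul (g h g' h' γ : G) : ∃ c : ℂ, ‖c‖ = 1 ∧
    S.m (g * g') (h * h') γ = c • (S.m g h γ * S.m g' h' (g⁻¹ * γ * h)) := by
  obtain ⟨c, hc, h1⟩ := P.mul' h h'
  refine ⟨c, hc, ?_⟩
  have e : (g * g')⁻¹ * γ * (h * h') = g'⁻¹ * (g⁻¹ * γ * h) * h' := by group
  unfold m
  rw [e, h1, Matrix.mul_smul, Matrix.smul_mul]
  congr 1
  have hR : S.kR (g⁻¹ * γ * h) * (S.kR (g⁻¹ * γ * h))ᴴ = 1 := (S.uR _).mul_star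
  calc (S.kR γ)ᴴ * (P.ι h * P.ι h') * S.kR (g'⁻¹ * (g⁻¹ * γ * h) * h')
      = (S.kR γ)ᴴ * P.ι h * 1 * (P.ι h' * S.kR (g'⁻¹ * (g⁻¹ * γ * h) * h')) := by
        simp only [Matrix.mul_assoc, Matrix.one_mul]
    _ = _ := by
        rw [← hR]
        simp only [Matrix.mul_assoc]

theorem ns_m (g h γ : G) : ns (S.m g h γ) = ns (P.ι h) := by
  unfold m
  rw [ns_mul_unitary (S.uR _), ns_unitary_mul (S.uR _).star]

theorem ns_n (g h γ : G) : ns (S.n g h γ) = ns (P.ι g) := by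
  unfold n
  rw [ns_mul_unitary (S.uL _), ns_unitary_mul (S.uL _).star]

theorem m_unitary (g γ : G) : IsU (S.m g 1 γ) := by
  obtain ⟨d, hd, h'⟩ := iota_one (P := P)
  unfold m
  rw [h', Matrix.mul_smul, Matrix.smul_mul, Matrix.mul_one]
  exact ((S.uR _).star.mul (S.uR _)).smul hd

theorem n_unitary (h γ : G) : IsU (S.n 1 h γ) := by
  obtain ⟨d, hd, h'⟩ := iota_one (P := P)
  unfold n
  rw [h', Matrix.mul_smul, Matrix.smul_mul, Matrix.mul_one]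
  exact ((S.uL _).star.mul (S.uL _)).smul hd

theorem m_one (γ : G) : ∃ c : ℂ, ‖c‖ = 1 ∧ S.m 1 1 γ = c • (1 : M3) := by
  obtain ⟨d, hd, h'⟩ := iota_one (P := P)
  refine ⟨d, hd, ?_⟩
  have e : (1 : G)⁻¹ * γ * 1 = γ := by group
  have hR : (S.kR γ)ᴴ * S.kR γ = 1 := S.uR γ
  unfold m
  rw [e, h', Matrix.mul_smul, Matrix.smul_mul, Matrix.mul_one, hR]

end Svd

end Pool.Agent.Helper84.NI
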