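import Pool.Agent.Helper84.NI.GD

/-!
# Project NI, block GE: the exact and the asymptotically unitary identities

PROOFS. (G1') for `g = 1`: `|n_{2j}| = |m_{2j}| s2(γ)/s_j(γ'') ≤ √(ns (ι h)) C s2/s1 → 0`, `j = 0, 1` (`m_eq`, `ns_m`, `s_compare`, `tendsto_ratio`).
(G4) `C_right`, `O γ = blk (n_{1,h}(γ))`; exact: for `i, j < 2`: `m_{ij} = c n_{ij} s_j(γ'')/s_i(γ)` (`m_eq`, `g = 1`, `γ'' = γ h`), so `C X(γh) = c X(γ) O`.
(G5) `C_left`: `m_{g,1}` is unitary (`m_unitary`), `m mᴴ = 1`, block: `C Cᴴ = 1 - (m_{i2} conj m_{j2})` and `tendsto_m`. (G6) `n_{1,h}` unitary (`n_unitary`), `nᴴ n = 1`: `Oᴴ O = 1 - (conj n_{2i} n_{2j})`.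
(G7) on `W δ`: `X γ = (s0)⁻¹ • diag(1, s0/s1)`, `s0/s1 ∈ [1, 1/δ]`. `C_one` from `m_one`.
-/

set_option autoImplicit false

open Filter Topology Matrix

namespace Pool.Agent.Helper84.NI

variable {G : Type} [Group G] {P : PHom G}

namespace Svd

variable (S : Svd P)

theorem C_one (γ : G) : ∃ c : ℂ, ‖c‖ = 1 ∧ S.C 1 1 γ = c • (1 : M2) := by
  obtain ⟨c, hc, h⟩ := S.m_one γ
  refine ⟨c, hc, ?_⟩
  unfold C
  rw [h]
  ext i j
  unfold blk
  rw [Matrix.submatrix_apply, Matrix.smul_apply, Matrix.smul_apply, Matrix.one_apply, Matrix.one_apply]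
  simp only [Fin.castSucc_inj]

theorem C_left (g : G) {δ : ℝ} (hδ : 0 < δ) :
    Tendsto (fun γ => S.C g 1 γ * (S.C g 1 γ)ᴴ) (S.at' δ) (𝓝 1) := by
  refine tendsto_pi_nhds.mpr fun i => tendsto_pi_nhds.mpr fun j => ?_
  have e : ∀ γ, (S.C g 1 γ * (S.C g 1 γ)ᴴ) i j =
      (1 : M2) i j - S.m g 1 γ i.castSucc 2 * (starRingEnd ℂ) (S.m g 1 γ j.castSucc 2) := by
    intro γ
    have h1 : (S.m g 1 γ * (S.m g 1 γ)ᴴ) i.castSucc j.castSucc = (1 : M3) i.castSucc j.castSucc := by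
      rw [(S.m_unitary g γ).mul_star]
    rw [Matrix.mul_apply, Fin.sum_univ_castSucc] at h1
    have h2 : (1 : M3) i.castSucc j.castSucc = (1 : M2) i j := by
      rw [Matrix.one_apply, Matrix.one_apply]
      simp only [Fin.castSucc_inj]
    rw [h2] at h1
    rw [← h1, Matrix.mul_apply]
    have h3 : (Fin.last 2 : Fin 3) = 2 := rfl
    simp only [Matrix.conjTranspose_apply, h3, RCLike.star_def]
    unfold C blk
    simp only [Matrix.submatrix_apply]
    ring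
  simp only [e]
  have h1 := S.tendsto_m hδ g 1 i
  have h2 := (Complex.continuous_conj.tendsto 0).comp (S.tendsto_m hδ g 1 j)
  have h3 := (h1.mul h2).const_sub ((1 : M2) i j)
  rw [map_zero, mul_zero, sub_zero] at h3
  exact h3

theorem C_right (h : G) : ∃ O : G → M2,
    (∀ γ, ∃ c : ℂ, ‖c‖ = 1 ∧ S.C 1 h γ * S.X (γ * h) = c • (S.X γ * O γ)) ∧
    (∀ δ, 0 < δ → Tendsto (fun γ => (O γ)ᴴ * O γ) (S.at' δ) (𝓝 1)) := by
  refine ⟨fun γ => blk (S.n 1 h γ), fun γ => ?_, fun δ hδ => ?_⟩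
  · obtain ⟨c, hc, he⟩ := S.m_eq 1 h γ
    refine ⟨c, hc, ?_⟩
    have hg : (1 : G)⁻¹ * γ * h = γ * h := by rw [inv_one, one_mul]
    rw [hg] at he
    ext i j
    have hj : (S.s (γ * h) j.castSucc : ℂ) ≠ 0 := by
      have h0 := S.pos0 (γ * h)
      have h1 := S.pos1 (γ * h)
      fin_cases j
      · exact_mod_cast h0.ne'
      · exact_mod_cast h1.ne'
    have hX : ∀ γ' : G, S.X γ' = diagonal (fun k : Fin 2 => ((S.s γ' k.castSucc)⁻¹ : ℂ)) := by
      intro γ'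
      unfold X
      congr 1
      funext k
      fin_cases k <;> rfl
    rw [Matrix.smul_apply, hX, hX, Matrix.mul_diagonal, Matrix.diagonal_mul]
    change S.m 1 h γ i.castSucc j.castSucc * ((S.s (γ * h) j.castSucc : ℂ))⁻¹ =
      c * ((S.s γ i.castSucc : ℂ)⁻¹ * S.n 1 h γ i.castSucc j.castSucc)
    rw [he]
    push_cast
    field_simp
  · obtain ⟨K, hK, hc⟩ := S.s_compare 1 h
    have hn : ∀ j : Fin 2, Tendsto (fun γ => S.n 1 h γ 2 j.castSucc) (S.at' δ) (𝓝 0) := by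
      intro j
      rw [tendsto_zero_iff_norm_tendsto_zero]
      have h1 : Tendsto (fun γ => Real.sqrt (ns (P.ι h)) * K * (S.s γ 2 / S.s γ 1)) (S.at' δ) (𝓝 0) := by
        have := (S.tendsto_ratio hδ).const_mul (Real.sqrt (ns (P.ι h)) * K)
        rwa [mul_zero] at this
      refine squeeze_zero (fun γ => norm_nonneg _) (fun γ => ?_) h1
      obtain ⟨c, hc1, he⟩ := S.m_eq 1 h γ
      have a1 := S.pos1 γ
      have a2 := S.pos γ
      have hj : S.s γ 1 ≤ S.s γ j.castSucc := by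
        fin_cases j
        · exact S.le01 γ
        · exact le_rfl
      have hj0 : 0 < S.s γ j.castSucc := lt_of_lt_of_le a1 hj
      have hj1 : S.s γ j.castSucc ≤ K * S.s (1⁻¹ * γ * h) j.castSucc := (hc γ _).2
      have hj2 : 0 < S.s (1⁻¹ * γ * h) j.castSucc := by
        by_contra hlt
        push Not at hlt
        nlinarith
      have e0 : ‖S.m 1 h γ 2 j.castSucc‖ = ‖S.n 1 h γ 2 j.castSucc‖ *
          (S.s (1⁻¹ * γ * h) j.castSucc / S.s γ 2) := by
        rw [he, norm_mul, hc1, one_mul, norm_mul, Complex.norm_real,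
          Real.norm_of_nonneg (div_pos hj2 a2).le]
      have e1 : ‖S.n 1 h γ 2 j.castSucc‖ = ‖S.m 1 h γ 2 j.castSucc‖ *
          (S.s γ 2 / S.s (1⁻¹ * γ * h) j.castSucc) := by
        rw [e0]
        field_simp
      have e2 : S.s γ 2 / S.s (1⁻¹ * γ * h) j.castSucc ≤ K * (S.s γ 2 / S.s γ 1) := by
        rw [div_le_iff₀ hj2]
        have : S.s γ 1 ≤ K * S.s (1⁻¹ * γ * h) j.castSucc := hj.trans hj1
        calc S.s γ 2 = (S.s γ 2 / S.s γ 1) * S.s γ 1 := by field_simp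
          _ ≤ (S.s γ 2 / S.s γ 1) * (K * S.s (1⁻¹ * γ * h) j.castSucc) :=
              mul_le_mul_of_nonneg_left this (div_pos a2 a1).le
          _ = K * (S.s γ 2 / S.s γ 1) * S.s (1⁻¹ * γ * h) j.castSucc := by ring
      rw [e1]
      calc ‖S.m 1 h γ 2 j.castSucc‖ * (S.s γ 2 / S.s (1⁻¹ * γ * h) j.castSucc)
          ≤ Real.sqrt (ns (P.ι h)) * (K * (S.s γ 2 / S.s γ 1)) :=
            mul_le_mul (S.norm_m_le 1 h γ _ _) e2 (div_pos a2 hj2).le (Real.sqrt_nonneg _)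
        _ = Real.sqrt (ns (P.ι h)) * K * (S.s γ 2 / S.s γ 1) := by ring
    refine tendsto_pi_nhds.mpr fun i => tendsto_pi_nhds.mpr fun j => ?_
    have e : ∀ γ, ((blk (S.n 1 h γ))ᴴ * blk (S.n 1 h γ)) i j =
        (1 : M2) i j - (starRingEnd ℂ) (S.n 1 h γ 2 i.castSucc) * S.n 1 h γ 2 j.castSucc := by
      intro γ
      have h1 : ((S.n 1 h γ)ᴴ * S.n 1 h γ) i.castSucc j.castSucc = (1 : M3) i.castSucc j.castSucc := by
        rw [show (S.n 1 h γ)ᴴ * S.n 1 h γ = 1 from S.n_unitary h γ]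
      rw [Matrix.mul_apply, Fin.sum_univ_castSucc] at h1
      have h2 : (1 : M3) i.castSucc j.castSucc = (1 : M2) i j := by
        rw [Matrix.one_apply, Matrix.one_apply]
        simp only [Fin.castSucc_inj]
      rw [h2] at h1
      rw [← h1, Matrix.mul_apply]
      have h3 : (Fin.last 2 : Fin 3) = 2 := rfl
      simp only [Matrix.conjTranspose_apply, h3, RCLike.star_def]
      unfold blk
      simp only [Matrix.submatrix_apply]
      ring
    simp only [e]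
    have h1 := hn j
    have h2 := (Complex.continuous_conj.tendsto 0).comp (hn i)
    have h3 := (h2.mul h1).const_sub ((1 : M2) i j)
    rw [map_zero, zero_mul, sub_zero] at h3
    exact h3

theorem X_det (γ : G) : (S.X γ).det ≠ 0 := by
  have h0 : (S.s γ 0 : ℂ) ≠ 0 := by exact_mod_cast (S.pos0 γ).ne'
  have h1 : (S.s γ 1 : ℂ) ≠ 0 := by exact_mod_cast (S.pos1 γ).ne'
  unfold X
  rw [Matrix.det_diagonal, Fin.prod_univ_two]
  simp only [Matrix.cons_val_zero, Matrix.cons_val_one]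
  exact mul_ne_zero (inv_ne_zero h0) (inv_ne_zero h1)

theorem X_compact {δ : ℝ} (hδ : 0 < δ) {γ : G} (hγ : γ ∈ S.W δ) :
    ((S.s γ 0 : ℂ)) • S.X γ ∈ Kc (max 1 (1 / δ)) 1 := by
  have h0 : (S.s γ 0 : ℂ) ≠ 0 := by exact_mod_cast (S.pos0 γ).ne'
  have h1 : (S.s γ 1 : ℂ) ≠ 0 := by exact_mod_cast (S.pos1 γ).ne'
  have a0 := S.pos0 γ
  have a1 := S.pos1 γ
  have hw : δ * S.s γ 0 ≤ S.s γ 1 := hγ
  have e : ((S.s γ 0 : ℂ)) • S.X γ = diagonal ![1, ((S.s γ 0 / S.s γ 1 : ℝ) : ℂ)] := by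
    unfold X
    rw [← Matrix.diagonal_smul]
    congr 1
    funext k
    fin_cases k
    · simp [h0]
    · simp [div_eq_mul_inv]
  have hq : S.s γ 0 / S.s γ 1 ≤ 1 / δ := by
    rw [div_le_div_iff₀ a1 hδ]
    linarith
  have hq1 : 1 ≤ S.s γ 0 / S.s γ 1 := by
    rw [le_div_iff₀ a1]
    have := S.le01 γ
    linarith
  have hq0 : 0 < S.s γ 0 / S.s γ 1 := div_pos a0 a1
  rw [e]
  refine ⟨fun i j => ?_, ?_⟩
  · fin_cases i <;> fin_cases j
    · simp
    · simp
    · simp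
    · simp only [Fin.mk_one, Fin.isValue, Matrix.diagonal_apply_eq, Matrix.cons_val_one,
        Matrix.cons_val_fin_one, Complex.norm_real]
      rw [Real.norm_of_nonneg hq0.le]
      exact hq.trans (le_max_right _ _)
  · rw [Matrix.det_diagonal, Fin.prod_univ_two]
    simp only [Matrix.cons_val_zero, Matrix.cons_val_one, one_mul, Matrix.cons_val_fin_one,
      Complex.norm_real]
    rw [Real.norm_of_nonneg hq0.le]
    exact hq1

end Svd

end Pool.Agent.Helper84.NI
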