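import Mathlib

/-!
# Project NI (MP_0f6f3f_an): proper projective representations in dimension 3, singular values
-/

set_option autoImplicit false

open Filter Topology Matrix

namespace Pool.Agent.Helper84.NI

/-- 3x3 complex matrices -/
abbrev M3 : Type := Matrix (Fin 3) (Fin 3) ℂ

/-- 2x2 complex matrices -/
abbrev M2 : Type := Matrix (Fin 2) (Fin 2) ℂ

/-- The squared Hilbert-Schmidt norm. -/
noncomputable def ns {n m : Type} [Fintype n] [Fintype m] (A : Matrix n m ℂ) : ℝ := ∑ i, ∑ j, ‖A i j‖ ^ 2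

/-- A proper map to `SL(3, ℂ)` (up to unit scalars), multiplicative up to unit scalars: a homomorphism
to `PSL(3, ℂ)` with finite kernel and discrete image. -/
structure PHom (G : Type) [Group G] where
  /-- the matrices -/
  ι : G → M3
  det1 : ∀ g, ‖(ι g).det‖ = 1
  mul' : ∀ g h, ∃ c : ℂ, ‖c‖ = 1 ∧ ι (g * h) = c • (ι g * ι h)
  fin : ∀ R : ℝ, {g | ns (ι g) ≤ R}.Finite

/-- Unitary matrices. -/
def IsU {n : Type} [Fintype n] [DecidableEq n] (k : Matrix n n ℂ) : Prop := kᴴ * k = 1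

/-- A singular value decomposition of all the matrices `ι g`. -/
structure Svd {G : Type} [Group G] (P : PHom G) where
  /-- left singular vectors -/
  kL : G → M3
  /-- right singular vectors -/
  kR : G → M3
  /-- singular values -/
  s : G → Fin 3 → ℝ
  uL : ∀ g, IsU (kL g)
  uR : ∀ g, IsU (kR g)
  pos : ∀ g, 0 < s g 2
  le12 : ∀ g, s g 2 ≤ s g 1
  le01 : ∀ g, s g 1 ≤ s g 0
  spec : ∀ g, P.ι g = kL g * diagonal (fun i => (s g i : ℂ)) * (kR g)ᴴ

variable {G : Type} [Group G] {P : PHom G}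

namespace Svd

/-- `m_{g,h}(γ) = k'_γ^* h k'_{g⁻¹ γ h}` -/
noncomputable def m (S : Svd P) (g h γ : G) : M3 := (S.kR γ)ᴴ * P.ι h * S.kR (g⁻¹ * γ * h)

/-- `n_{g,h}(γ) = k_γ^* g k_{g⁻¹ γ h}` -/
noncomputable def n (S : Svd P) (g h γ : G) : M3 := (S.kL γ)ᴴ * P.ι g * S.kL (g⁻¹ * γ * h)

/-- The top left block of a matrix. -/
def blk (A : M3) : M2 := A.submatrix Fin.castSucc Fin.castSucc

/-- The Levi cocycle (asymptotic). -/
noncomputable def C (S : Svd P) (g h γ : G) : M2 := blk (S.m g h γ)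

/-- `X_γ = diag(1/σ₁, 1/σ₂)` -/
noncomputable def X (S : Svd P) (γ : G) : M2 := diagonal ![((S.s γ 0)⁻¹ : ℂ), ((S.s γ 1)⁻¹ : ℂ)]

/-- The region near the wall `σ₁ = σ₂`. -/
def W (S : Svd P) (δ : ℝ) : Set G := {γ | δ * S.s γ 0 ≤ S.s γ 1}

/-- The region near the wall `σ₂ = σ₃`. -/
def Wd (S : Svd P) (δ : ℝ) : Set G := {γ | δ * S.s γ 1 ≤ S.s γ 2}

/-- Neighbourhoods of infinity in `W δ`. -/
def at' (S : Svd P) (δ : ℝ) : Filter G := cofinite ⊓ 𝓟 (S.W δ)

end Svd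

end Pool.Agent.Helper84.NI
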