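import Pool.Agent.Helper84.NI.Abs
import Pool.Agent.Helper84.GVN.Factor

/-!
# Project NI, block J1: an orthogonal family of bounded vectors

PROOF. Zorn (`zorn_subset` or similar) for the subsets `S` of `BddSub R` with `0 ∉ S` and `⟪R l η, ξ⟫ = 0` for all `η ≠ ξ` in `S`, `l : Λ`
(closed under unions of chains). Let `S` be maximal, suppose `v ≠ 0` is orthogonal to all `R l η`, `η ∈ S`. Let `N` be the closure of the span of
`{R l η}`; `N` is invariant under all `R l`, so the projection `P` on `Nᗮ` commutes with `R l` (`GVN.proj_comm`), `P v = v ≠ 0`. By density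
of `BddSub R` there is a bounded `ξ` with `P ξ ≠ 0`; `P ξ` is bounded (`∑ a_l R l (P ξ) = P (∑ a_l R l ξ)`), nonzero, and orthogonal to all
`R l η`, so `S ∪ {P ξ}` contradicts maximality.
-/

set_option autoImplicit false

namespace Pool.Agent.Helper84.NI

open GVN

variable {Λ : Type} [Group Λ] {V : Type} [NormedAddCommGroup V] [InnerProductSpace ℂ V]
  [CompleteSpace V]

/-- (helper11) the vectors orthogonal to all `R l η`, `η ∈ m` -/
private def orthSub (R : Λ →* (V ≃ₗᵢ[ℂ] V)) (m : Set V) : Submodule ℂ V where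
  carrier := {x | ∀ η ∈ m, ∀ l : Λ, inner ℂ (R l η) x = 0}
  add_mem' := by
    intro x y hx hy η hη l
    rw [inner_add_right, hx η hη l, hy η hη l, add_zero]
  zero_mem' := by
    intro η _ l
    rw [inner_zero_right]
  smul_mem' := by
    intro c x hx η hη l
    rw [inner_smul_right, hx η hη l, mul_zero]

private lemma isClosed_orthSub (R : Λ →* (V ≃ₗᵢ[ℂ] V)) (m : Set V) :
    IsClosed (orthSub R m : Set V) := by
  have h : (orthSub R m : Set V) = ⋂ η ∈ m, ⋂ l : Λ, {x | inner ℂ (R l η) x = 0} := by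
    ext x
    simp only [Set.mem_iInter, Set.mem_setOf_eq]
    rfl
  rw [h]
  refine isClosed_biInter fun η _ => isClosed_iInter fun l => ?_
  exact isClosed_eq (continuous_const.inner continuous_id) continuous_const

private lemma orthSub_inv (R : Λ →* (V ≃ₗᵢ[ℂ] V)) (m : Set V) (l : Λ) {x : V}
    (hx : x ∈ orthSub R m) : R l x ∈ orthSub R m := by
  intro η hη k
  have h1 := hx η hη (l⁻¹ * k)
  rw [← LinearIsometryEquiv.inner_map_map (R l)] at h1
  rw [map_mul] at h1
  have h2 : (R l) ((R l⁻¹ * R k) η) = R k η := by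
    have h3 : R l * (R l⁻¹ * R k) = R k := by
      rw [← mul_assoc, ← map_mul, mul_inv_cancel, map_one, one_mul]
    calc (R l) ((R l⁻¹ * R k) η) = (R l * (R l⁻¹ * R k)) η := rfl
      _ = R k η := by rw [h3]
  rw [h2] at h1
  exact h1

theorem exists_family (R : Λ →* (V ≃ₗᵢ[ℂ] V)) (hd : Dense (BddSub R : Set V)) :
    ∃ S : Set V, (∀ η ∈ S, η ≠ 0 ∧ ∃ c, Bdd R c η) ∧
      (∀ η ∈ S, ∀ ξ ∈ S, η ≠ ξ → ∀ l : Λ, inner ℂ (R l η) ξ = 0) ∧
      ∀ v : V, (∀ η ∈ S, ∀ l : Λ, inner ℂ (R l η) v = 0) → v = 0 := by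
  classical
  obtain ⟨m, hm⟩ := zorn_subset {S : Set V | (∀ η ∈ S, η ≠ 0 ∧ ∃ c, Bdd R c η) ∧
      (∀ η ∈ S, ∀ ξ ∈ S, η ≠ ξ → ∀ l : Λ, inner ℂ (R l η) ξ = 0)} (by
    intro c hc hch
    refine ⟨⋃₀ c, ⟨?_, ?_⟩, fun s hs => Set.subset_sUnion_of_mem hs⟩
    · rintro η ⟨s, hs, hη⟩
      exact (hc hs).1 η hη
    · rintro η ⟨s, hs, hη⟩ ξ ⟨t, ht, hξ⟩ hne l
      rcases hch.total hs ht with h | h
      · exact (hc ht).2 η (h hη) ξ hξ hne l
      · exact (hc hs).2 η hη ξ (h hξ) hne l)
  obtain ⟨hm1, hm2⟩ := hm.prop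
  refine ⟨m, hm1, hm2, fun v hv => ?_⟩
  by_contra hv0
  have : CompleteSpace (orthSub R m) := (isClosed_orthSub R m).completeSpace_coe
  set K : Submodule ℂ V := orthSub R m with hK
  have hvK : v ∈ K := hv
  have hcomm : ∀ (l : Λ) (f : V), K.starProjection (R l f) = R l (K.starProjection f) := by
    intro l f
    refine proj_comm (R l) (fun x hx => orthSub_inv R m l hx) (fun x hx => ?_) f
    have h1 : (R l).symm = R l⁻¹ := by
      rw [map_inv]
      rfl
    rw [h1]
    exact orthSub_inv R m l⁻¹ hx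
  -- a bounded vector with nonzero projection
  obtain ⟨ξ, ⟨c, hξ⟩, hpξ⟩ : ∃ ξ ∈ BddSub R, K.starProjection ξ ≠ 0 := by
    by_contra hcon
    push Not at hcon
    have hcl : IsClosed {x : V | K.starProjection x = 0} :=
      isClosed_eq K.starProjection.continuous continuous_const
    have h2 : (Set.univ : Set V) ⊆ {x : V | K.starProjection x = 0} := by
      rw [← hd.closure_eq]
      exact hcl.closure_subset_iff.2 (fun x hx => hcon x hx)
    have h3 : K.starProjection v = 0 := h2 (Set.mem_univ v)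
    rw [Submodule.starProjection_eq_self_iff.2 hvK] at h3
    exact hv0 h3
  set p : V := K.starProjection ξ with hp
  have hpK : p ∈ K := Submodule.starProjection_apply_mem K ξ
  have hpB : Bdd R c p := by
    refine ⟨hξ.1, fun s a => ?_⟩
    have e : ∑ g ∈ s, a g • R g p = K.starProjection (∑ g ∈ s, a g • R g ξ) := by
      rw [map_sum]
      exact Finset.sum_congr rfl fun g _ => by rw [map_smul, hcomm]
    rw [e]
    exact (pow_le_pow_left₀ (norm_nonneg _) (Submodule.norm_starProjection_apply_le K _) 2).trans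
      (hξ.2 s a)
  have hpm : p ∉ m := by
    intro h
    have h1 := hpK p h 1
    rw [map_one] at h1
    exact hpξ (inner_self_eq_zero.1 h1)
  have hins : insert p m ∈ {S : Set V | (∀ η ∈ S, η ≠ 0 ∧ ∃ c, Bdd R c η) ∧
      (∀ η ∈ S, ∀ ξ ∈ S, η ≠ ξ → ∀ l : Λ, inner ℂ (R l η) ξ = 0)} := by
    refine ⟨?_, ?_⟩
    · rintro η (rfl | hη)
      · exact ⟨hpξ, c, hpB⟩
      · exact hm1 η hη
    · rintro η (rfl | hη) ξ' (rfl | hξ') hne l
      · exact absurd rfl hne
      · have h1 := orthSub_inv R m l hpK ξ' hξ' 1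
        rw [map_one] at h1
        exact inner_eq_zero_symm.1 h1
      · exact hpK η hη l
      · exact hm2 η hη ξ' hξ' hne l
  exact hpm (hm.le_of_ge hins (Set.subset_insert p m) (Set.mem_insert p m))

end Pool.Agent.Helper84.NI
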