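import Pool.Agent.Helper84.NI.J1

/-!
# Project NI, block J2: an injective equivariant operator into a multiple of the regular representation

PROOF. `S` from `exists_family`, `c η ≥ 1` a bound of `η ∈ S` (`Bdd.mono`). `(W v) (l, η) = ⟪R l η, v⟫ / c η`. Square summability with
`∑ ≤ ‖v‖^2`: for a finite set `F ⊂ Λ × S` put `a p = ⟪R l η, v⟫ / c η` (`p = (l, η)`) and `y = ∑_{p ∈ F} (conj or not) a p / c η • R l η`; then
`∑_F |a p|^2 = |⟪y, v⟫| ≤ ‖y‖ ‖v‖` and `‖y‖^2 = ∑_η ‖∑_l (a (l,η) / c η) • R l η‖^2 ≤ ∑_F |a p|^2` (the parts for different `η` are orthogonal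
by the choice of `S`, each part is bounded by `Bdd`). So `∑_F |a p|^2 ≤ ‖v‖^2`. Linear, norm `≤ 1`, injective by the third property,
and `⟪R l η, R m v⟫ = ⟪R (m⁻¹ l) η, v⟫` gives the equivariance.
-/

set_option autoImplicit false

namespace Pool.Agent.Helper84.NI

open GVN

variable {Λ : Type} [Group Λ] {V : Type} [NormedAddCommGroup V] [InnerProductSpace ℂ V]
  [CompleteSpace V]

private lemma le_of_sq_le_sq_h68 {a b : ℝ} (hb : 0 ≤ b) (h : a ^ 2 ≤ b ^ 2) : a ≤ b := by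
  by_contra hc
  rw [not_le] at hc
  nlinarith

omit [CompleteSpace V] in
private lemma inner_move_h68 (R : Λ →* (V ≃ₗᵢ[ℂ] V)) (m l : Λ) (η v : V) :
    inner ℂ (R l η) (R m v) = inner ℂ (R (m⁻¹ * l) η) v := by
  have h : R l η = R m (R (m⁻¹ * l) η) := by
    have e : R m * R (m⁻¹ * l) = R l := by rw [← map_mul, mul_inv_cancel_left]
    rw [← e]
    rfl
  rw [h, LinearIsometryEquiv.inner_map_map]

omit [CompleteSpace V] in
/-- Bessel type inequality on a finite box -/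
private lemma bessel_box_h68 (R : Λ →* (V ≃ₗᵢ[ℂ] V)) {X : Type} (η : X → V) (c : X → ℝ)
    (hc : ∀ x, 0 < c x) (hb : ∀ x, Bdd R (c x) (η x))
    (ho : ∀ x y, x ≠ y → ∀ l : Λ, inner ℂ (R l (η x)) (η y) = 0) (v : V) (A : Finset Λ) (B : Finset X) :
    ∑ x ∈ B, ∑ l ∈ A, ‖inner ℂ (R l (η x)) v / (c x : ℂ)‖ ^ 2 ≤ ‖v‖ ^ 2 := by
  classical
  set a : X → Λ → ℂ := fun x l => inner ℂ (R l (η x)) v / (c x : ℂ) with ha
  set yx : X → V := fun x => ∑ l ∈ A, (a x l / (c x : ℂ)) • R l (η x) with hyx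
  set y : V := ∑ x ∈ B, yx x with hy
  set Q : ℝ := ∑ x ∈ B, ∑ l ∈ A, ‖a x l‖ ^ 2 with hQ
  have hQ0 : 0 ≤ Q := Finset.sum_nonneg fun x _ => Finset.sum_nonneg fun l _ => by positivity
  have hcc : ∀ x, (c x : ℂ) ≠ 0 := fun x => by exact_mod_cast (hc x).ne'
  -- orthogonality of the parts
  have horth : ∀ x z, x ≠ z → inner ℂ (yx x) (yx z) = 0 := by
    intro x z hxz
    rw [hyx]
    simp only
    rw [sum_inner]
    refine Finset.sum_eq_zero fun l _ => ?_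
    rw [inner_sum]
    refine Finset.sum_eq_zero fun m _ => ?_
    rw [inner_smul_left, inner_smul_right, inner_move_h68, ho x z hxz, mul_zero, mul_zero]
  -- norm of the parts
  have hpart : ∀ x, ‖yx x‖ ^ 2 ≤ ∑ l ∈ A, ‖a x l‖ ^ 2 := by
    intro x
    have h1 := (hb x).2 A (fun l => a x l / (c x : ℂ))
    have h2 : c x ^ 2 * ∑ l ∈ A, ‖a x l / (c x : ℂ)‖ ^ 2 = ∑ l ∈ A, ‖a x l‖ ^ 2 := by
      rw [Finset.mul_sum]
      refine Finset.sum_congr rfl fun l _ => ?_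
      rw [norm_div, Complex.norm_real, Real.norm_eq_abs, abs_of_pos (hc x), div_pow, mul_div_cancel₀]
      exact (pow_pos (hc x) 2).ne'
    rw [h2] at h1
    exact h1
  have hny : ‖y‖ ^ 2 ≤ Q := by
    have h1 : inner ℂ y y = ∑ x ∈ B, inner ℂ (yx x) (yx x) := by
      rw [hy, sum_inner]
      refine Finset.sum_congr rfl fun x hx => ?_
      rw [inner_sum, Finset.sum_eq_single x]
      · intro z _ hzx
        exact horth x z hzx.symm
      · intro h
        exact absurd hx h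
    have h2 : ‖y‖ ^ 2 = ∑ x ∈ B, ‖yx x‖ ^ 2 := by
      rw [← inner_self_eq_norm_sq (𝕜 := ℂ) y, h1, map_sum]
      refine Finset.sum_congr rfl fun x _ => ?_
      exact inner_self_eq_norm_sq (𝕜 := ℂ) (yx x)
    rw [h2]
    exact Finset.sum_le_sum fun x _ => hpart x
  -- the inner product with `v`
  have hyv : inner ℂ y v = (Q : ℂ) := by
    rw [hy, sum_inner, hQ]
    push_cast
    refine Finset.sum_congr rfl fun x _ => ?_
    rw [hyx]
    simp only
    rw [sum_inner]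
    refine Finset.sum_congr rfl fun l _ => ?_
    rw [inner_smul_left, map_div₀, Complex.conj_ofReal]
    have e : inner ℂ (R l (η x)) v = a x l * (c x : ℂ) := by
      rw [ha]
      simp only
      rw [div_mul_cancel₀ _ (hcc x)]
    rw [e]
    have e2 : (starRingEnd ℂ) (a x l) / (c x : ℂ) * (a x l * (c x : ℂ)) = (starRingEnd ℂ) (a x l) * a x l := by
      have := hcc x
      field_simp
    rw [e2, mul_comm, Complex.mul_conj, Complex.normSq_eq_norm_sq]
    push_cast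
    rfl
  have hle : Q ≤ ‖y‖ * ‖v‖ := by
    have h1 := norm_inner_le_norm (𝕜 := ℂ) y v
    rw [hyv, Complex.norm_real, Real.norm_eq_abs, abs_of_nonneg hQ0] at h1
    exact h1
  have hny' : ‖y‖ ≤ Real.sqrt Q := Real.le_sqrt_of_sq_le hny
  have h1 : Q ≤ Real.sqrt Q * ‖v‖ := hle.trans (mul_le_mul_of_nonneg_right hny' (norm_nonneg v))
  show Q ≤ ‖v‖ ^ 2
  rcases hQ0.eq_or_lt with h0 | h0
  · rw [← h0]
    positivity
  · have hs : 0 < Real.sqrt Q := Real.sqrt_pos.2 h0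
    have h2 : Real.sqrt Q * Real.sqrt Q ≤ Real.sqrt Q * ‖v‖ := by
      rw [Real.mul_self_sqrt hQ0]
      exact h1
    have h3 : Real.sqrt Q ≤ ‖v‖ := le_of_mul_le_mul_left h2 hs
    calc Q = Real.sqrt Q ^ 2 := (Real.sq_sqrt hQ0).symm
      _ ≤ ‖v‖ ^ 2 := pow_le_pow_left₀ hs.le h3 2

omit [CompleteSpace V] in
private lemma bessel_h68 (R : Λ →* (V ≃ₗᵢ[ℂ] V)) {X : Type} (η : X → V) (c : X → ℝ)
    (hc : ∀ x, 0 < c x) (hb : ∀ x, Bdd R (c x) (η x))
    (ho : ∀ x y, x ≠ y → ∀ l : Λ, inner ℂ (R l (η x)) (η y) = 0) (v : V) (F : Finset (Λ × X)) :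
    ∑ p ∈ F, ‖inner ℂ (R p.1 (η p.2)) v / (c p.2 : ℂ)‖ ^ 2 ≤ ‖v‖ ^ 2 := by
  classical
  have hsub : F ⊆ F.image Prod.fst ×ˢ F.image Prod.snd := by
    intro p hp
    rw [Finset.mem_product]
    exact ⟨Finset.mem_image_of_mem _ hp, Finset.mem_image_of_mem _ hp⟩
  refine (Finset.sum_le_sum_of_subset_of_nonneg hsub fun p _ _ => by positivity).trans ?_
  rw [Finset.sum_product_right]
  exact bessel_box_h68 R η c hc hb ho v _ _

theorem exists_W (R : Λ →* (V ≃ₗᵢ[ℂ] V)) (hd : Dense (BddSub R : Set V)) :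
    ∃ (X : Type) (W : V →L[ℂ] L2 (Λ × X)), (∀ v, W v = 0 → v = 0) ∧
      ∀ (m : Λ) (v : V) (l : Λ) (x : X), W (R m v) (l, x) = W v (m⁻¹ * l, x) := by
  obtain ⟨S, hS1, hS2, hS3⟩ := exists_family R hd
  have hex : ∀ x : S, ∃ c : ℝ, 0 < c ∧ Bdd R c x.1 := by
    intro x
    obtain ⟨_, c, hc⟩ := hS1 x.1 x.2
    exact ⟨max c 1, lt_of_lt_of_le one_pos (le_max_right _ _), hc.mono (le_max_left _ _)⟩
  choose c hc hb using hex
  have ho : ∀ x y : S, x ≠ y → ∀ l : Λ, inner ℂ (R l x.1) y.1 = 0 := fun x y hxy l =>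
    hS2 x.1 x.2 y.1 y.2 (fun h => hxy (Subtype.ext h)) l
  have hbes := bessel_h68 R (fun x : S => x.1) c hc hb ho
  have hsm : ∀ v : V, Summable fun p : Λ × S => ‖inner ℂ (R p.1 p.2.1) v / (c p.2 : ℂ)‖ ^ 2 := fun v =>
    summable_of_sum_le (fun p => by positivity) (hbes v)
  let W0 : V →ₗ[ℂ] L2 (Λ × S) :=
    { toFun := fun v => ⟨fun p => inner ℂ (R p.1 p.2.1) v / (c p.2 : ℂ), memL2 (hsm v)⟩
      map_add' := by
        intro v w
        refine l2_ext fun p => ?_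
        show inner ℂ (R p.1 p.2.1) (v + w) / (c p.2 : ℂ) =
          inner ℂ (R p.1 p.2.1) v / (c p.2 : ℂ) + inner ℂ (R p.1 p.2.1) w / (c p.2 : ℂ)
        rw [inner_add_right, add_div]
      map_smul' := by
        intro z v
        refine l2_ext fun p => ?_
        show inner ℂ (R p.1 p.2.1) (z • v) / (c p.2 : ℂ) = z * (inner ℂ (R p.1 p.2.1) v / (c p.2 : ℂ))
        rw [inner_smul_right, mul_div_assoc] }
  have hW0 : ∀ v, ‖W0 v‖ ≤ 1 * ‖v‖ := by
    intro v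
    rw [one_mul]
    refine le_of_sq_le_sq_h68 (norm_nonneg v) ?_
    rw [norm_sq_eq]
    exact Real.tsum_le_of_sum_le (fun p => by positivity) (hbes v)
  refine ⟨S, W0.mkContinuous 1 hW0, ?_, ?_⟩
  · intro v hv
    refine hS3 v fun η hη l => ?_
    have h1 : (W0 v) (l, ⟨η, hη⟩) = 0 := by
      have h2 : W0 v = 0 := hv
      rw [h2]
      rfl
    have h3 : inner ℂ (R l η) v / (c ⟨η, hη⟩ : ℂ) = 0 := h1
    rcases div_eq_zero_iff.1 h3 with h4 | h4
    · exact h4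
    · exact absurd h4 (by exact_mod_cast (hc ⟨η, hη⟩).ne')
  · intro m v l x
    show inner ℂ (R l x.1) (R m v) / (c x : ℂ) = inner ℂ (R (m⁻¹ * l) x.1) v / (c x : ℂ)
    rw [inner_move_h68]

end Pool.Agent.Helper84.NI
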