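import Pool.Agent.Helper84.NI.XA
import Pool.Agent.Helper84.NI.FB
import Pool.Agent.Helper84.NI.GD
import Pool.Agent.Helper35.AM.Main

/-!
# Project NI, block XB: the multipliers over the wall

`AMd P Q ε`: the data of the amenability theorem `Helper35.AM.am_proj`. `mt D S γ t x = √(κ (S.fr γ x) t)`.
PROOFS. `exists_AMd` = `am_proj` (`star k = kᴴ`, `IsU`). `kap_tri`: if `kᴴ k'` is exactly upper triangular then `κ k t = κ k' t` for all `t` (`near` with arbitrary `ε'`).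
`mt_hm`: boundedness: `0 ≤ κ ≤ 1` (sum is one; zero off `supp`); at `x = 0` the value is a constant. Homogeneity for `x ≠ 0`: `rot_smul`, `kap_tri` (`fr γ (c x) = fr γ x * diagonal`); for `x = 0` trivial.
Measurability: on the open set `{x ≠ 0}` the function is continuous: for `x → x0`, `(fr γ x)ᴴ fr γ x0 = (rot x)ᴴ rot x0 → 1` (`rot_continuous`), so by `near` `κ (fr γ x) t → κ (fr γ x0) t`. A function which is
continuous on the complement of the closed null set `{0}` is measurable (`measurable_of_continuousOn_compl_singleton`).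
`mt_sum`: `∑_{t} (√κ)^2 = ∑ κ = 1`.
`mt_left`: `(√a - √b)^2 ≤ |a - b|` and `near` for `k = fr γ (C y)`, `k' = fr (g⁻¹ γ) y`: `kᴴ k'` is `kᴴ ι 1 k'` up to a unit scalar (`iota_one`), entries below the diagonal `≤ |m_02| + |m_12| → 0`
(`fr_entries` with `h = 1`, `z = 1`, `tendsto_m`). `mt_right`: same with `tri` and `h ∈ Q`, `g = 1`.
-/

set_option autoImplicit false

open Filter Topology Matrix

namespace Pool.Agent.Helper84.NI

variable {G : Type} [Group G]

/-- Data of the amenability theorem. -/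
structure AMd (P : PHom G) (Q : Finset G) (ε : ℝ) where
  /-- the support -/
  supp : Finset G
  /-- the probability measures -/
  κ : M3 → G → ℝ
  /-- the allowed deviation from triangular form -/
  d : ℝ
  dpos : 0 < d
  nonneg : ∀ k t, 0 ≤ κ k t
  off : ∀ k t, t ∉ supp → κ k t = 0
  sum : ∀ k, IsU k → ∑ t ∈ supp, κ k t = 1
  tri : ∀ h ∈ Q, ∀ k k' : M3, IsU k → IsU k' → (∀ i j : Fin 3, j < i → ‖(kᴴ * P.ι h * k') i j‖ ≤ d) →
    ∀ s : Finset G, ∑ t ∈ s, |κ k t - κ k' (h⁻¹ * t)| ≤ ε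
  near : ∀ ε' : ℝ, 0 < ε' → ∃ d' : ℝ, 0 < d' ∧ ∀ k k' : M3, IsU k → IsU k' →
    (∀ i j : Fin 3, j < i → ‖(kᴴ * k') i j‖ ≤ d') → ∑ t ∈ supp, |κ k t - κ k' t| ≤ ε'

theorem exists_AMd (P : PHom G) (Q : Finset G) {ε : ℝ} (hε : 0 < ε) : Nonempty (AMd P Q ε) := by
  obtain ⟨S, κ, d, hd, h1, h2, h3, h4, h5⟩ := Helper35.AM.am_proj P.mul' P.det1 P.fin Q hε
  exact ⟨⟨S, κ, d, hd, h1, h2, h3, h4, h5⟩⟩

variable {P : PHom G} {Q : Finset G} {ε : ℝ}

theorem AMd.kap_tri (D : AMd P Q ε) {k k' : M3} (hk : IsU k) (hk' : IsU k')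
    (h : ∀ i j : Fin 3, j < i → (kᴴ * k') i j = 0) (t : G) : D.κ k t = D.κ k' t := by
  by_cases ht : t ∈ D.supp
  · have h1 : ∀ e : ℝ, 0 < e → |D.κ k t - D.κ k' t| ≤ e := by
      intro e he
      obtain ⟨d', hd', hn⟩ := D.near e he
      have h2 := hn k k' hk hk' (fun i j hij => by rw [h i j hij, norm_zero]; exact hd'.le)
      exact (Finset.single_le_sum (f := fun t => |D.κ k t - D.κ k' t|) (fun _ _ => abs_nonneg _) ht).trans h2
    have h3 : |D.κ k t - D.κ k' t| ≤ 0 := le_of_forall_pos_le_add fun e he => by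
      rw [zero_add]
      exact h1 e he
    exact sub_eq_zero.mp (abs_eq_zero.mp (le_antisymm h3 (abs_nonneg _)))
  · rw [D.off k t ht, D.off k' t ht]

theorem AMd.kap_le_one (D : AMd P Q ε) {k : M3} (hk : IsU k) (t : G) : D.κ k t ≤ 1 := by
  by_cases ht : t ∈ D.supp
  · rw [← D.sum k hk]
    exact Finset.single_le_sum (f := fun t => D.κ k t) (fun _ _ => D.nonneg _ _) ht
  · rw [D.off k t ht]
    exact zero_le_one

/-- comparison of square roots -/
theorem sqrt_sub_sq_le {a b : ℝ} (ha : 0 ≤ a) (hb : 0 ≤ b) : (Real.sqrt a - Real.sqrt b) ^ 2 ≤ |a - b| := by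
  have h1 : a - b = (Real.sqrt a - Real.sqrt b) * (Real.sqrt a + Real.sqrt b) := by
    have e1 := Real.mul_self_sqrt ha
    have e2 := Real.mul_self_sqrt hb
    linear_combination -e1 + e2
  have h2 : 0 ≤ Real.sqrt a := Real.sqrt_nonneg a
  have h3 : 0 ≤ Real.sqrt b := Real.sqrt_nonneg b
  rw [h1, abs_mul, abs_of_nonneg (add_nonneg h2 h3), ← sq_abs, sq]
  refine mul_le_mul_of_nonneg_left ?_ (abs_nonneg _)
  rw [abs_le]
  constructor <;> linarith

/-- The multipliers. -/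
noncomputable def mt (D : AMd P Q ε) (S : Svd P) (γ t : G) (x : Fin 2 → ℂ) : ℝ :=
  Real.sqrt (D.κ (S.fr γ x) t)

theorem fr_mul_fr (S : Svd P) (γ : G) (x y : Fin 2 → ℂ) : (S.fr γ x)ᴴ * S.fr γ y = (rot x)ᴴ * rot y := by
  unfold Svd.fr
  rw [Matrix.conjTranspose_mul]
  calc (rot x)ᴴ * (S.kR γ)ᴴ * (S.kR γ * rot y) = (rot x)ᴴ * (((S.kR γ)ᴴ * S.kR γ) * rot y) := by
        simp only [mul_assoc]
    _ = (rot x)ᴴ * rot y := by rw [S.uR γ, one_mul]

theorem mt_hm (D : AMd P Q ε) (S : Svd P) (γ t : G) : Hm (mt D S γ t) := by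
  refine ⟨?_, ?_, ?_⟩
  · refine measurable_of_continuousOn_compl_singleton 0 fun x0 hx0 => ?_
    have hx0' : x0 ≠ 0 := hx0
    have hk : Tendsto (fun x => D.κ (S.fr γ x) t) (𝓝[{0}ᶜ] x0) (𝓝 (D.κ (S.fr γ x0) t)) := by
      by_cases ht : t ∈ D.supp
      · rw [Metric.tendsto_nhds]
        intro e he
        obtain ⟨d', hd', hn⟩ := D.near (e / 2) (half_pos he)
        have hr : ContinuousWithinAt rot {0}ᶜ x0 := rot_continuous x0 hx0'
        have hr2 : Tendsto (fun x => (rot x)ᴴ * rot x0) (𝓝[{0}ᶜ] x0) (𝓝 ((rot x0)ᴴ * rot x0)) := by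
          have hc : Continuous fun A : M3 => Aᴴ * rot x0 := by fun_prop
          exact (hc.tendsto _).comp hr
        rw [show (rot x0)ᴴ * rot x0 = 1 from rot_unitary hx0'] at hr2
        have hev : ∀ᶠ x in 𝓝[{0}ᶜ] x0, ∀ i j : Fin 3, j < i → ‖((rot x)ᴴ * rot x0) i j‖ ≤ d' := by
          refine eventually_all.mpr fun i => eventually_all.mpr fun j => ?_
          by_cases hij : j < i
          · have h1 : Tendsto (fun x => ((rot x)ᴴ * rot x0) i j) (𝓝[{0}ᶜ] x0) (𝓝 ((1 : M3) i j)) :=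
              ((continuous_apply j).tendsto _).comp (((continuous_apply i).tendsto _).comp hr2)
            rw [Matrix.one_apply_ne hij.ne'] at h1
            have h2 := h1.norm
            rw [norm_zero] at h2
            filter_upwards [h2.eventually (gt_mem_nhds hd')] with x hx _
            exact le_of_lt hx
          · exact Eventually.of_forall fun x h => absurd h hij
        filter_upwards [hev, self_mem_nhdsWithin] with x hx hx'
        have hx'' : x ≠ 0 := hx'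
        have h3 := hn (S.fr γ x) (S.fr γ x0) (S.fr_unitary γ hx'') (S.fr_unitary γ hx0')
          (fun i j hij => by rw [fr_mul_fr]; exact hx i j hij)
        have h4 := (Finset.single_le_sum (f := fun t => |D.κ (S.fr γ x) t - D.κ (S.fr γ x0) t|)
          (fun _ _ => abs_nonneg _) ht).trans h3
        rw [Real.dist_eq]
        exact lt_of_le_of_lt h4 (half_lt_self he)
      · have h1 : ∀ k, D.κ k t = 0 := fun k => D.off k t ht
        simp only [h1]
        exact tendsto_const_nhds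
    exact (Real.continuous_sqrt.tendsto _).comp hk
  · refine ⟨max 1 |mt D S γ t 0|, fun x => ?_⟩
    by_cases hx : x = 0
    · rw [hx]
      exact le_max_right _ _
    · refine le_trans ?_ (le_max_left _ _)
      unfold mt
      rw [abs_of_nonneg (Real.sqrt_nonneg _)]
      refine Real.sqrt_le_one.mpr ?_
      exact D.kap_le_one (S.fr_unitary γ hx) t
  · intro c hc x
    by_cases hx : x = 0
    · rw [hx, smul_zero]
    · unfold mt
      congr 1
      have hcx : c • x ≠ 0 := smul_ne_zero hc hx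
      refine D.kap_tri (S.fr_unitary γ hcx) (S.fr_unitary γ hx) (fun i j hij => ?_) t
      rw [fr_mul_fr, rot_smul hx hc, Matrix.conjTranspose_mul, mul_assoc,
        show (rot x)ᴴ * rot x = 1 from rot_unitary hx, mul_one, Matrix.diagonal_conjTranspose]
      exact Matrix.diagonal_apply_ne _ hij.ne'

theorem mt_sum (D : AMd P Q ε) (S : Svd P) (γ : G) (x : Fin 2 → ℂ) (hx : x ≠ 0) :
    ∑ t ∈ D.supp, mt D S γ t x ^ 2 = 1 := by
  rw [← D.sum _ (S.fr_unitary γ hx)]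
  exact Finset.sum_congr rfl fun t _ => Real.sq_sqrt (D.nonneg _ _)

theorem mulVec_ne {C : M2} (hC : C.det ≠ 0) {y : Fin 2 → ℂ} (hy : y ≠ 0) : C *ᵥ y ≠ 0 := by
  intro h
  exact hC (Matrix.exists_mulVec_eq_zero_iff.mp ⟨y, hy, h⟩)

theorem mt_left (D : AMd P Q ε) (S : Svd P) (g : G) {δ ε' : ℝ} (hδ : 0 < δ) (hε' : 0 < ε') :
    ∀ᶠ γ in S.at' δ, ∀ y : Fin 2 → ℂ, y ≠ 0 →
      ∑ t ∈ D.supp, (mt D S γ t (S.C g 1 γ *ᵥ y) - mt D S (g⁻¹ * γ * 1) t y) ^ 2 ≤ ε' := by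
  obtain ⟨d', hd', hn⟩ := D.near ε' hε'
  obtain ⟨R, r, hr, hK⟩ := S.C_compact g 1
  obtain ⟨c, hc, hc1⟩ := Svd.iota_one (P := P)
  have t0 := ((S.tendsto_m hδ g 1 0).norm.add (S.tendsto_m hδ g 1 1).norm)
  rw [norm_zero, add_zero] at t0
  filter_upwards [t0.eventually (gt_mem_nhds hd'), hK δ hδ] with γ h1 h2 y hy
  have h1' : ‖S.m g 1 γ 0 2‖ + ‖S.m g 1 γ 1 2‖ < d' := h1
  have hCy : S.C g 1 γ *ᵥ y ≠ 0 := mulVec_ne (Kc_det hr h2) hy
  have h3 := hn (S.fr γ (S.C g 1 γ *ᵥ y)) (S.fr (g⁻¹ * γ * 1) y) (S.fr_unitary γ hCy) (S.fr_unitary _ hy)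
    (fun i j hij => by
      have h4 := S.fr_entries g 1 γ hCy hy one_ne_zero (one_smul ℂ _).symm i j hij
      rw [hc1, Matrix.mul_smul, Matrix.smul_mul, Matrix.smul_apply, norm_smul, hc, one_mul, mul_one] at h4
      exact h4.trans h1'.le)
  refine (Finset.sum_le_sum fun t _ => ?_).trans h3
  exact sqrt_sub_sq_le (D.nonneg _ _) (D.nonneg _ _)

theorem mt_right (D : AMd P Q ε) (S : Svd P) {h : G} (hh : h ∈ Q) {δ : ℝ} (hδ : 0 < δ) :
    ∀ᶠ γ in S.at' δ, ∀ y : Fin 2 → ℂ, y ≠ 0 → ∀ s : Finset G,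
      ∑ t ∈ s, (mt D S γ t (S.C 1 h γ *ᵥ y) - mt D S (1⁻¹ * γ * h) (h⁻¹ * t) y) ^ 2 ≤ ε := by
  obtain ⟨R, r, hr, hK⟩ := S.C_compact 1 h
  have t0 := ((S.tendsto_m hδ 1 h 0).norm.add (S.tendsto_m hδ 1 h 1).norm)
  rw [norm_zero, add_zero] at t0
  filter_upwards [t0.eventually (gt_mem_nhds D.dpos), hK δ hδ] with γ h1 h2 y hy s
  have h1' : ‖S.m 1 h γ 0 2‖ + ‖S.m 1 h γ 1 2‖ < D.d := h1
  have hCy : S.C 1 h γ *ᵥ y ≠ 0 := mulVec_ne (Kc_det hr h2) hy
  have h3 := D.tri h hh (S.fr γ (S.C 1 h γ *ᵥ y)) (S.fr (1⁻¹ * γ * h) y) (S.fr_unitary γ hCy)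
    (S.fr_unitary _ hy) (fun i j hij =>
      (S.fr_entries 1 h γ hCy hy one_ne_zero (one_smul ℂ _).symm i j hij).trans h1'.le) s
  refine (Finset.sum_le_sum fun t _ => ?_).trans h3
  exact sqrt_sub_sq_le (D.nonneg _ _) (D.nonneg _ _)

end Pool.Agent.Helper84.NI
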