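import Pool.Agent.Helper84.NI.WB
import Pool.Agent.Helper84.NI.XB
import Pool.Agent.Helper84.NI.GA2

/-!
# Project NI, block RA: the regular part

`Ur S`: the vectors of `Uz` without mass on all `W δ` and all `Wd δ`.
PROOFS. Invariance: `ind (W δ) ∘ perm = perm ∘ ind (W δ)'` with `(W δ)' = {γ : g γ h⁻¹ ∈ W δ} ⊂ W (c δ)` (`W_shift`), and `ind A ξ = 0` for `A ⊂ B`, `ind B ξ = 0` (`ind A = ind A ∘ ind B`). For `Wd`: same as `W` for the dual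
(`W_dual`), or from `s_compare`. `mr D S γ t = √(κ (kR γ * w0) t)`, `w0` = reversal of the columns. `mr_close`: `(kR γ w0)ᴴ ι h (kR γ'' w0) = w0ᴴ m w0` (`γ'' = g⁻¹ γ h`), entry `(i, j)`, `j < i`, is `m_{ab}` with `a = rev i < b = rev j`,
`|m_ab| = |n_ab| s_b(γ'')/s_a(γ) ≤ √ns(ι g) C s_b(γ)/s_a(γ) ≤ √ns(ι g) C δ'` if `γ ∉ W δ'`, `γ ∉ Wd δ'` (`s_1 ≤ δ' s_0`, `s_2 ≤ δ' s_1`), `δ' ≤ 1` (`m_eq`, `ns_n`, `norm_apply_sq_le`, `s_compare`).
So for `δ'` small `tri`, resp. `near`, applies. `(√a - √b)^2 ≤ |a - b|`.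
-/

set_option autoImplicit false

open Filter Topology Matrix

namespace Pool.Agent.Helper84.NI

open GVN

variable {G : Type} [Group G] {P : PHom G}

/-- The regular part of the limit space. -/
noncomputable def Ur (S : Svd P) : Submodule ℂ (UP (L2 G)) where
  carrier := {ξ | ξ ∈ Uz G ∧ ∀ δ : ℝ, 0 < δ → UP.map (ind ℂ (S.W δ)) ξ = 0 ∧ UP.map (ind ℂ (S.Wd δ)) ξ = 0}
  add_mem' := by
    rintro a b ⟨ha, ha'⟩ ⟨hb, hb'⟩
    refine ⟨(Uz G).add_mem ha hb, fun δ hδ => ?_⟩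
    rw [map_add, map_add, (ha' δ hδ).1, (ha' δ hδ).2, (hb' δ hδ).1, (hb' δ hδ).2, add_zero]
    exact ⟨rfl, rfl⟩
  zero_mem' := ⟨(Uz G).zero_mem, fun δ _ => by rw [map_zero, map_zero]; exact ⟨rfl, rfl⟩⟩
  smul_mem' := by
    rintro c a ⟨ha, ha'⟩
    refine ⟨(Uz G).smul_mem c ha, fun δ hδ => ?_⟩
    rw [map_smul, map_smul, (ha' δ hδ).1, (ha' δ hδ).2, smul_zero]
    exact ⟨rfl, rfl⟩

theorem isClosed_Ur (S : Svd P) : IsClosed (Ur S : Set (UP (L2 G))) := by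
  have e : (Ur S : Set (UP (L2 G))) =
      (⋂ (F : Set G) (_ : F.Finite), {ξ | UP.map (ind ℂ F) ξ = 0}) ∩
      ⋂ (δ : ℝ) (_ : 0 < δ), ({ξ | UP.map (ind ℂ (S.W δ)) ξ = 0} ∩ {ξ | UP.map (ind ℂ (S.Wd δ)) ξ = 0}) := by
    ext ξ
    constructor
    · intro h
      refine ⟨Set.mem_iInter₂.mpr fun F hF => h.1 F hF, Set.mem_iInter₂.mpr fun δ hδ => h.2 δ hδ⟩
    · intro h
      exact ⟨fun F hF => Set.mem_iInter₂.mp h.1 F hF, fun δ hδ => Set.mem_iInter₂.mp h.2 δ hδ⟩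
  rw [e]
  refine IsClosed.inter (isClosed_iInter fun F => isClosed_iInter fun _ => ?_)
    (isClosed_iInter fun δ => isClosed_iInter fun _ => IsClosed.inter ?_ ?_)
  · exact isClosed_eq (UP.map _).continuous continuous_const
  · exact isClosed_eq (UP.map _).continuous continuous_const
  · exact isClosed_eq (UP.map _).continuous continuous_const

theorem ind_perm35 (g h : G) (A : Set G) (a : UP (L2 G)) :
    UP.map (ind ℂ A) (UP.map ((permV (tr g h) : Lv G ℂ ≃ₗᵢ[ℂ] Lv G ℂ).toContinuousLinearEquiv :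
      L2 G →L[ℂ] L2 G) a) = UP.map ((permV (tr g h) : Lv G ℂ ≃ₗᵢ[ℂ] Lv G ℂ).toContinuousLinearEquiv :
      L2 G →L[ℂ] L2 G) (UP.map (ind ℂ {γ | g * γ * h⁻¹ ∈ A}) a) := by
  rw [← UP.map_comp, ← UP.map_comp]
  refine congrArg (fun T => UP.map T a) ?_
  ext f : 1
  refine lv_ext fun γ => ?_
  change ind ℂ A (permV (tr g h) f) γ = permV (tr g h) (ind ℂ {γ | g * γ * h⁻¹ ∈ A} f) γ
  rw [ind_apply, permV_tr, permV_tr, ind_apply]
  have e : (g⁻¹ * γ * h ∈ {γ | g * γ * h⁻¹ ∈ A}) ↔ γ ∈ A := by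
    rw [Set.mem_ofPred_eq]
    have : g * (g⁻¹ * γ * h) * h⁻¹ = γ := by group
    rw [this]
  by_cases hγ : γ ∈ A
  · rw [if_pos hγ, if_pos (e.2 hγ)]
  · rw [if_neg hγ, if_neg (fun h => hγ (e.1 h))]

omit [Group G] in
theorem ind_sub35 {A B : Set G} (hAB : A ⊆ B) {a : UP (L2 G)} (h : UP.map (ind ℂ B) a = 0) :
    UP.map (ind ℂ A) a = 0 := by
  have e : UP.map (ind ℂ A) (UP.map (ind ℂ B) a) = UP.map (ind ℂ A) a := by
    rw [← UP.map_comp]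
    refine congrArg (fun T => UP.map T a) ?_
    ext f : 1
    refine lv_ext fun γ => ?_
    change ind ℂ A (ind ℂ B f) γ = ind ℂ A f γ
    rw [ind_apply, ind_apply, ind_apply]
    by_cases hA : γ ∈ A
    · rw [if_pos hA, if_pos hA, if_pos (hAB hA)]
    · rw [if_neg hA, if_neg hA]
  rw [← e, h, map_zero]

instance instCompUr (S : Svd P) : CompleteSpace (Ur S) := (isClosed_Ur S).completeSpace_coe

theorem perm_mem_Ur (S : Svd P) (g h : G) {a : UP (L2 G)} (ha : a ∈ Ur S) :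
    UP.map ((permV (tr g h) : Lv G ℂ ≃ₗᵢ[ℂ] Lv G ℂ).toContinuousLinearEquiv : L2 G →L[ℂ] L2 G) a ∈ Ur S := by
  have e : ∀ γ : G, g⁻¹ * (g * γ * h⁻¹) * h = γ := fun γ => by group
  refine ⟨perm_mem_Uz g h ha.1, fun δ hδ => ⟨?_, ?_⟩⟩
  · obtain ⟨c, hc, hsh⟩ := S.W_shift g h
    rw [ind_perm35, ind_sub35 (B := S.W (c * δ)) (fun γ hγ => ?_) (ha.2 (c * δ) (by positivity)).1, map_zero]
    have := hsh δ hδ _ hγ
    rwa [e] at this
  · obtain ⟨c, hc, hsh⟩ := S.dual.W_shift g h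
    rw [ind_perm35, ind_sub35 (B := S.Wd (c * δ)) (fun γ hγ => ?_) (ha.2 (c * δ) (by positivity)).2, map_zero]
    have hγ' : g * γ * h⁻¹ ∈ S.dual.W δ := by
      rw [S.W_dual]
      exact hγ
    have := hsh δ hδ _ hγ'
    rwa [e, S.W_dual] at this

theorem Alim_mem_Ur (S : Svd P) (g : G) (a : UP (L2 G)) (ha : a ∈ Ur S) : Alim G g a ∈ Ur S := by
  rw [Alim_apply]
  exact perm_mem_Ur S g 1 ha

theorem Blim_mem_Ur (S : Svd P) (h : G) (a : UP (L2 G)) (ha : a ∈ Ur S) : Blim G h a ∈ Ur S := by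
  rw [Blim_apply]
  exact perm_mem_Ur S 1 h ha

/-- The left action on the regular part. -/
noncomputable def AR (S : Svd P) : G →* (Ur S ≃ₗᵢ[ℂ] Ur S) := restrictRep (Alim G) (Ur S) (Alim_mem_Ur S)

/-- The right action on the regular part. -/
noncomputable def BR (S : Svd P) : G →* (Ur S ≃ₗᵢ[ℂ] Ur S) := restrictRep (Blim G) (Ur S) (Blim_mem_Ur S)

theorem comm2_R (S : Svd P) : Comm2 (AR S) (BR S) := by
  intro g h x
  apply Subtype.ext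
  exact comm2_lim g h (x : UP (L2 G))

/-- The multipliers on the regular part. -/
noncomputable def mr {Q : Finset G} {ε : ℝ} (D : AMd P Q ε) (S : Svd P) (γ t : G) : ℝ :=
  Real.sqrt (D.κ ((S.kR γ).submatrix id Fin.rev) t)

theorem rev_entries (A B X : M3) (i j : Fin 3) :
    ((A.submatrix id Fin.rev)ᴴ * X * B.submatrix id Fin.rev) i j = (Aᴴ * X * B) (Fin.rev i) (Fin.rev j) := by
  simp only [Matrix.mul_apply, Matrix.submatrix_apply, Matrix.conjTranspose_apply, id_eq]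

theorem rev_unitary {A : M3} (hA : IsU A) : IsU (A.submatrix id Fin.rev) := by
  unfold IsU at *
  ext i j
  have h := rev_entries A A 1 i j
  rw [mul_one, mul_one, hA] at h
  rw [h, Matrix.one_apply, Matrix.one_apply]
  simp only [Fin.rev_inj]

theorem mr_sum {Q : Finset G} {ε : ℝ} (D : AMd P Q ε) (S : Svd P) (γ : G) :
    ∑ t ∈ D.supp, mr D S γ t ^ 2 = 1 := by
  rw [← D.sum _ (rev_unitary (S.uR γ))]
  exact Finset.sum_congr rfl fun t _ => Real.sq_sqrt (D.nonneg _ _)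

theorem m_small (S : Svd P) (g h : G) {d : ℝ} (hd : 0 < d) : ∃ δ : ℝ, 0 < δ ∧ ∀ γ, γ ∉ S.W δ →
    γ ∉ S.Wd δ → ∀ a b : Fin 3, a < b → ‖S.m g h γ a b‖ ≤ d := by
  obtain ⟨C, hC, hc⟩ := S.s_compare g h
  set K := Real.sqrt (ns (P.ι g)) * C with hK
  have hK0 : 0 ≤ K := mul_nonneg (Real.sqrt_nonneg _) (by linarith)
  refine ⟨d / (K + 1), by positivity, fun γ h1 h2 a b hab => ?_⟩
  set δ := d / (K + 1) with hδ
  have hδ0 : 0 < δ := by positivity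
  have h1' : S.s γ 1 < δ * S.s γ 0 := not_le.mp h1
  have h2' : S.s γ 2 < δ * S.s γ 1 := not_le.mp h2
  have a0 := S.pos0 γ
  have a1 := S.pos1 γ
  have a2 := S.pos γ
  have l01 := S.le01 γ
  have hab' : S.s γ b ≤ δ * S.s γ a := by
    have cases : (a = 0 ∧ b = 1) ∨ (a = 0 ∧ b = 2) ∨ (a = 1 ∧ b = 2) := by
      fin_cases a <;> fin_cases b <;> simp_all
    rcases cases with ⟨rfl, rfl⟩ | ⟨rfl, rfl⟩ | ⟨rfl, rfl⟩
    · exact h1'.le
    · exact h2'.le.trans (mul_le_mul_of_nonneg_left l01 hδ0.le)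
    · exact h2'.le
  have ha0 : 0 < S.s γ a := by fin_cases a <;> assumption
  have hb0 : 0 < S.s (g⁻¹ * γ * h) b := by
    have b0 := S.pos0 (g⁻¹ * γ * h)
    have b1 := S.pos1 (g⁻¹ * γ * h)
    have b2 := S.pos (g⁻¹ * γ * h)
    fin_cases b <;> assumption
  obtain ⟨c, hc1, he⟩ := S.m_eq g h γ
  rw [he, norm_mul, hc1, one_mul, norm_mul, Complex.norm_real, Real.norm_of_nonneg (div_pos hb0 ha0).le]
  have e1 : S.s (g⁻¹ * γ * h) b / S.s γ a ≤ C * δ := by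
    rw [div_le_iff₀ ha0]
    calc S.s (g⁻¹ * γ * h) b ≤ C * S.s γ b := (hc γ b).1
      _ ≤ C * (δ * S.s γ a) := mul_le_mul_of_nonneg_left hab' (by linarith)
      _ = C * δ * S.s γ a := by ring
  calc ‖S.n g h γ a b‖ * (S.s (g⁻¹ * γ * h) b / S.s γ a) ≤ Real.sqrt (ns (P.ι g)) * (C * δ) :=
        mul_le_mul (S.norm_n_le g h γ _ _) e1 (div_pos hb0 ha0).le (Real.sqrt_nonneg _)
    _ = K * δ := by rw [hK]; ring
    _ ≤ d := by
        rw [hδ, mul_div_assoc', div_le_iff₀ (by positivity)]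
        nlinarith

theorem fr_small (S : Svd P) (g h : G) {d : ℝ} (hd : 0 < d) : ∃ δ : ℝ, 0 < δ ∧ ∀ γ, γ ∉ S.W δ →
    γ ∉ S.Wd δ → ∀ i j : Fin 3, j < i →
      ‖(((S.kR γ).submatrix id Fin.rev)ᴴ * P.ι h * (S.kR (g⁻¹ * γ * h)).submatrix id Fin.rev) i j‖ ≤ d := by
  obtain ⟨δ, hδ, hm⟩ := m_small S g h hd
  refine ⟨δ, hδ, fun γ h1 h2 i j hij => ?_⟩
  rw [rev_entries]
  exact hm γ h1 h2 _ _ (Fin.rev_lt_rev.mpr hij)

theorem mr_left {Q : Finset G} {ε : ℝ} (D : AMd P Q ε) (S : Svd P) (g : G) {ε' : ℝ} (hε' : 0 < ε') :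
    ∃ δ : ℝ, 0 < δ ∧ ∀ γ, γ ∉ S.W δ → γ ∉ S.Wd δ →
      ∑ t ∈ D.supp, (mr D S γ t - mr D S (g⁻¹ * γ * 1) t) ^ 2 ≤ ε' := by
  obtain ⟨d', hd', hn⟩ := D.near ε' hε'
  obtain ⟨c, hc, hc1⟩ := Svd.iota_one (P := P)
  obtain ⟨δ, hδ, hf⟩ := fr_small S g 1 hd'
  refine ⟨δ, hδ, fun γ h1 h2 => ?_⟩
  have h3 := hn _ _ (rev_unitary (S.uR γ)) (rev_unitary (S.uR (g⁻¹ * γ * 1))) (fun i j hij => by
    have h4 := hf γ h1 h2 i j hij
    rwa [hc1, Matrix.mul_smul, Matrix.smul_mul, Matrix.smul_apply, norm_smul, hc, one_mul, mul_one] at h4)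
  refine (Finset.sum_le_sum fun t _ => ?_).trans h3
  exact sqrt_sub_sq_le (D.nonneg _ _) (D.nonneg _ _)

theorem mr_right {Q : Finset G} {ε : ℝ} (D : AMd P Q ε) (S : Svd P) {h : G} (hh : h ∈ Q) :
    ∃ δ : ℝ, 0 < δ ∧ ∀ γ, γ ∉ S.W δ → γ ∉ S.Wd δ → ∀ s : Finset G,
      ∑ t ∈ s, (mr D S γ t - mr D S (1⁻¹ * γ * h) (h⁻¹ * t)) ^ 2 ≤ ε := by
  obtain ⟨δ, hδ, hf⟩ := fr_small S 1 h D.dpos
  refine ⟨δ, hδ, fun γ h1 h2 s => ?_⟩
  have h3 := D.tri h hh _ _ (rev_unitary (S.uR γ)) (rev_unitary (S.uR (1⁻¹ * γ * h)))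
    (fun i j hij => hf γ h1 h2 i j hij) s
  refine (Finset.sum_le_sum fun t _ => ?_).trans h3
  exact sqrt_sub_sq_le (D.nonneg _ _) (D.nonneg _ _)

end Pool.Agent.Helper84.NI
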