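import Pool.Agent.Helper84.NI.RA

/-!
# Project NI, block RB: the approximation property of the regular part

PROOF. Given `Q`, `ε` take `D : AMd P Q (ε^2)`, `Mhat t` = multiplication by `γ ↦ mr D S γ t` on `ℓ²(G)` for `t ∈ supp` and `0` otherwise (`mr = 0` for `t ∉ supp`), `M t` = restriction of `UP.map (Mhat t)` to `Ur S`
(it commutes with all `ind A`, so `Ur S` is invariant). `∑ ‖M t ξ‖^2 = ‖ξ‖^2`: `UP.sum_sq_eq`, `mr_sum`. For `ξ ∈ Ur S` and `δ > 0`: `ξ = UP.map (ind (A δ)) ξ`, `A δ` = complement of `W δ ∪ Wd δ`.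
Commutation with `Alim g`: `Mhat t ∘ perm - perm ∘ Mhat t` = multiplication by `f γ = mr γ t - mr (g⁻¹γ) t` composed with `perm`; `perm ξ ∈ Ur S` is carried by `A δ` where `|f| ≤ √ε'` (`mr_left`): norm `≤ √ε' ‖ξ‖` for all `ε'`, so zero.
Last property: `∑_{t ∈ S'} |(mr γ t - mr (γh) (h⁻¹t)) ξ(γh)|^2 ≤ ε^2 |ξ(γh)|^2` for `γ ∈ A δ` (`mr_right`); `UP.sum_sq_le` for the operators composed with `ind (A δ)` acting on `perm ξ = Blim h ξ ∈ Ur S`.
-/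

set_option autoImplicit false

open Filter Topology Matrix

namespace Pool.Agent.Helper84.NI

open GVN

variable {G : Type} [Group G] {P : PHom G}

/-- the regular region -/
def regA (S : Svd P) (δ : ℝ) : Set G := {γ | γ ∉ S.W δ ∧ γ ∉ S.Wd δ}

theorem ind_regA (S : Svd P) {δ : ℝ} (hδ : 0 < δ) {ξ : UP (L2 G)} (hξ : ξ ∈ Ur S) :
    UP.map (ind ℂ (regA S δ)) ξ = ξ := by
  have e : (ind ℂ (regA S δ) : Lv G ℂ →L[ℂ] Lv G ℂ) =
      ContinuousLinearMap.id ℂ (Lv G ℂ) - ind ℂ (S.W δ) - ind ℂ (S.Wd δ \ S.W δ) := by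
    ext f : 1
    refine lv_ext fun γ => ?_
    change ind ℂ (regA S δ) f γ = f γ - ind ℂ (S.W δ) f γ - ind ℂ (S.Wd δ \ S.W δ) f γ
    rw [ind_apply, ind_apply, ind_apply]
    by_cases h1 : γ ∈ S.W δ
    · rw [if_neg (fun h => h.1 h1), if_pos h1, if_neg (fun h => h.2 h1)]
      simp
    · by_cases h2 : γ ∈ S.Wd δ
      · rw [if_neg (fun h => h.2 h2), if_neg h1, if_pos ⟨h2, h1⟩]
        simp
      · rw [if_pos ⟨h1, h2⟩, if_neg h1, if_neg (fun h => h2 h.1)]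
        simp
  rw [e, UP.map_sub, UP.map_sub, UP.map_id, (hξ.2 δ hδ).1,
    ind_sub35 (B := S.Wd δ) Set.sdiff_subset (hξ.2 δ hδ).2, sub_zero, sub_zero]

omit [Group G] in
theorem sum_mulF_le {κ : Type} (s : Finset κ) {F : κ → G → ℂ} {C : ℝ} (hC : ∀ t γ, ‖F t γ‖ ≤ C)
    {A : Set G} {a : ℝ} (ha : 0 ≤ a) (h : ∀ γ ∈ A, ∑ t ∈ s, ‖F t γ‖ ^ 2 ≤ a) (y : L2 G) :
    ∑ t ∈ s, ‖(mulF (F t) : L2 G →L[ℂ] Lv G ℂ) (ind ℂ A y)‖ ^ 2 ≤ a * ‖y‖ ^ 2 := by
  have e : ∀ t γ, (mulF (F t) : L2 G →L[ℂ] Lv G ℂ) (ind ℂ A y) γ = ind ℂ A y γ • F t γ :=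
    fun t γ => mulF_apply (hC t) _ _
  have h1 : ∀ t ∈ s, Summable fun γ => ‖(mulF (F t) : L2 G →L[ℂ] Lv G ℂ) (ind ℂ A y) γ‖ ^ 2 :=
    fun t _ => lv_summable _
  have e1 : ∑ t ∈ s, ‖(mulF (F t) : L2 G →L[ℂ] Lv G ℂ) (ind ℂ A y)‖ ^ 2 =
      ∑' γ, ∑ t ∈ s, ‖(mulF (F t) : L2 G →L[ℂ] Lv G ℂ) (ind ℂ A y) γ‖ ^ 2 := by
    rw [Summable.tsum_finsetSum h1]
    exact Finset.sum_congr rfl fun t _ => lv_norm_sq _
  rw [e1, lv_norm_sq, ← tsum_mul_left]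
  refine Summable.tsum_le_tsum (fun γ => ?_) (summable_sum h1) ((lv_summable y).mul_left a)
  by_cases hγ : γ ∈ A
  · have e2 : ∀ t, ‖(mulF (F t) : L2 G →L[ℂ] Lv G ℂ) (ind ℂ A y) γ‖ ^ 2 = ‖F t γ‖ ^ 2 * ‖y γ‖ ^ 2 := by
      intro t
      rw [e, ind_apply, if_pos hγ, norm_smul, mul_pow, mul_comm]
    simp only [e2]
    rw [← Finset.sum_mul]
    exact mul_le_mul_of_nonneg_right (h γ hγ) (sq_nonneg _)
  · have e2 : ∀ t, ‖(mulF (F t) : L2 G →L[ℂ] Lv G ℂ) (ind ℂ A y) γ‖ ^ 2 = 0 := by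
      intro t
      rw [e, ind_apply, if_neg hγ, zero_smul, norm_zero]
      norm_num
    simp only [e2, Finset.sum_const_zero]
    positivity

/-- multipliers that are small at infinity of the regular region -/
theorem mulF_zero_reg (S : Svd P) {F : G → ℂ} {C : ℝ} (hC : ∀ γ, ‖F γ‖ ≤ C)
    (h : ∀ e : ℝ, 0 < e → ∃ δ : ℝ, 0 < δ ∧ ∀ γ ∈ regA S δ, ‖F γ‖ ^ 2 ≤ e) {ξ : UP (L2 G)}
    (hξ : ξ ∈ Ur S) : (UP.map (mulF F) ξ : UP (Lv G ℂ)) = 0 := by
  have h1 : ∀ e : ℝ, 0 < e → ‖(UP.map (mulF F) ξ : UP (Lv G ℂ))‖ ^ 2 ≤ e * ‖ξ‖ ^ 2 := by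
    intro e he
    obtain ⟨δ, hδ, hF⟩ := h e he
    have h2 := UP.sum_sq_le {()} (fun _ => (mulF F : L2 G →L[ℂ] Lv G ℂ).comp (ind ℂ (regA S δ)))
      (C := e) (fun y => by
        have := sum_mulF_le (κ := Unit) {()} (F := fun _ => F) (fun _ γ => hC γ) he.le
          (A := regA S δ) (fun γ hγ => by
            rw [Finset.sum_singleton]
            exact hF γ hγ) y
        exact this) ξ
    rw [Finset.sum_singleton, UP.map_comp, ind_regA S hδ hξ] at h2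
    exact h2
  have h3 : ‖(UP.map (mulF F) ξ : UP (Lv G ℂ))‖ ^ 2 ≤ 0 := by
    refine le_of_forall_pos_le_add fun e he => ?_
    rw [zero_add]
    have h4 := h1 (e / (‖ξ‖ ^ 2 + 1)) (by positivity)
    refine h4.trans ?_
    rw [div_mul_eq_mul_div, div_le_iff₀ (by positivity)]
    nlinarith [sq_nonneg ‖ξ‖]
  have h5 : ‖(UP.map (mulF F) ξ : UP (Lv G ℂ))‖ = 0 := by
    nlinarith [norm_nonneg (UP.map (mulF F) ξ : UP (Lv G ℂ)),
      sq_nonneg ‖(UP.map (mulF F) ξ : UP (Lv G ℂ))‖]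
  exact norm_eq_zero.mp h5

theorem mr_le_one {Q : Finset G} {ε : ℝ} (D : AMd P Q ε) (S : Svd P) (γ t : G) :
    ‖((mr D S γ t : ℝ) : ℂ)‖ ≤ 1 := by
  rw [Complex.norm_real]
  unfold mr
  rw [Real.norm_of_nonneg (Real.sqrt_nonneg _)]
  exact Real.sqrt_le_one.mpr (D.kap_le_one (rev_unitary (S.uR γ)) t)

/-- the multiplication operators -/
noncomputable def Mh {Q : Finset G} {ε : ℝ} (D : AMd P Q ε) (S : Svd P) (t : G) : L2 G →L[ℂ] L2 G :=
  mulF fun γ => ((mr D S γ t : ℝ) : ℂ)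

theorem Mh_apply {Q : Finset G} {ε : ℝ} (D : AMd P Q ε) (S : Svd P) (t : G) (f : L2 G) (γ : G) :
    Mh D S t f γ = f γ * ((mr D S γ t : ℝ) : ℂ) := by
  have h := mulF_apply (F := fun γ => ((mr D S γ t : ℝ) : ℂ)) (fun γ => mr_le_one D S γ t) f γ
  rw [smul_eq_mul] at h
  exact h

theorem Mh_mem {Q : Finset G} {ε : ℝ} (D : AMd P Q ε) (S : Svd P) (t : G) {ξ : UP (L2 G)}
    (hξ : ξ ∈ Ur S) : UP.map (Mh D S t) ξ ∈ Ur S := by
  have e : ∀ A : Set G, UP.map (ind ℂ A) ξ = 0 → UP.map (ind ℂ A) (UP.map (Mh D S t) ξ) = 0 := by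
    intro A hA
    have e1 : UP.map (ind ℂ A) (UP.map (Mh D S t) ξ) = UP.map (Mh D S t) (UP.map (ind ℂ A) ξ) := by
      rw [← UP.map_comp, ← UP.map_comp]
      refine congrArg (fun T => UP.map T ξ) ?_
      ext f : 1
      refine lv_ext fun γ => ?_
      change ind ℂ A (Mh D S t f) γ = Mh D S t (ind ℂ A f) γ
      rw [ind_apply, Mh_apply, Mh_apply, ind_apply]
      by_cases hγ : γ ∈ A
      · rw [if_pos hγ, if_pos hγ]
      · rw [if_neg hγ, if_neg hγ, zero_mul]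
    rw [e1, hA, map_zero]
  exact ⟨fun F hF => e F (hξ.1 F hF), fun δ hδ => ⟨e _ (hξ.2 δ hδ).1, e _ (hξ.2 δ hδ).2⟩⟩

/-- the operators on the regular part -/
noncomputable def Mr {Q : Finset G} {ε : ℝ} (D : AMd P Q ε) (S : Svd P) (t : G) : Ur S →L[ℂ] Ur S :=
  ((UP.map (Mh D S t)).comp (Ur S).subtypeL).codRestrict (Ur S) (fun x => Mh_mem D S t x.2)

theorem coe_Mr {Q : Finset G} {ε : ℝ} (D : AMd P Q ε) (S : Svd P) (t : G) (x : Ur S) :
    (Mr D S t x : UP (L2 G)) = UP.map (Mh D S t) (x : UP (L2 G)) := rfl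

/-- the commutator with translations -/
theorem Mh_perm {Q : Finset G} {ε : ℝ} (D : AMd P Q ε) (S : Svd P) (t t' g h : G) (a : UP (L2 G)) :
    UP.map (Mh D S t) (UP.map ((permV (tr g h) : Lv G ℂ ≃ₗᵢ[ℂ] Lv G ℂ).toContinuousLinearEquiv :
      L2 G →L[ℂ] L2 G) a) - UP.map ((permV (tr g h) : Lv G ℂ ≃ₗᵢ[ℂ] Lv G ℂ).toContinuousLinearEquiv :
      L2 G →L[ℂ] L2 G) (UP.map (Mh D S t') a) =
    UP.map (mulF fun γ => ((mr D S γ t - mr D S (g⁻¹ * γ * h) t' : ℝ) : ℂ))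
      (UP.map ((permV (tr g h) : Lv G ℂ ≃ₗᵢ[ℂ] Lv G ℂ).toContinuousLinearEquiv : L2 G →L[ℂ] L2 G) a) := by
  rw [← UP.map_comp, ← UP.map_comp, ← UP.map_comp, ← UP.map_sub]
  refine congrArg (fun T => UP.map T a) ?_
  ext f : 1
  refine lv_ext fun γ => ?_
  have hb : ∀ γ, ‖((mr D S γ t - mr D S (g⁻¹ * γ * h) t' : ℝ) : ℂ)‖ ≤ 1 + 1 := by
    intro γ
    push_cast
    exact (norm_sub_le _ _).trans (add_le_add (mr_le_one D S γ t) (mr_le_one D S _ t'))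
  change Mh D S t (permV (tr g h) f) γ - permV (tr g h) (Mh D S t' f) γ =
    mulF (fun γ => ((mr D S γ t - mr D S (g⁻¹ * γ * h) t' : ℝ) : ℂ)) (permV (tr g h) f) γ
  rw [mulF_apply hb, Mh_apply, permV_tr, permV_tr, Mh_apply, smul_eq_mul]
  push_cast
  ring

theorem apx_R (S : Svd P) : Apx (AR S) (BR S) := by
  intro Q ε hε
  obtain ⟨D⟩ := exists_AMd P Q (show 0 < ε ^ 2 by positivity)
  refine ⟨D.supp, Mr D S, ?_, ?_, ?_, ?_⟩
  · intro t g x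
    apply Subtype.ext
    rw [coe_Mr]
    change UP.map (Mh D S t) (Alim G g (x : UP (L2 G))) = Alim G g (UP.map (Mh D S t) (x : UP (L2 G)))
    rw [Alim_apply, Alim_apply, ← sub_eq_zero, Mh_perm]
    have hb : ∀ γ, ‖((mr D S γ t - mr D S (g⁻¹ * γ * 1) t : ℝ) : ℂ)‖ ≤ 1 + 1 := by
      intro γ
      push_cast
      exact (norm_sub_le _ _).trans (add_le_add (mr_le_one D S γ t) (mr_le_one D S _ t))
    refine mulF_zero_reg S hb (fun e he => ?_) (perm_mem_Ur S g 1 x.2)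
    by_cases ht : t ∈ D.supp
    · obtain ⟨δ, hδ, hm⟩ := mr_left D S g he
      refine ⟨δ, hδ, fun γ hγ => ?_⟩
      have h1 := hm γ hγ.1 hγ.2
      have h2 := (Finset.single_le_sum (f := fun t => (mr D S γ t - mr D S (g⁻¹ * γ * 1) t) ^ 2)
        (fun _ _ => sq_nonneg _) ht).trans h1
      rw [Complex.norm_real, Real.norm_eq_abs, sq_abs]
      exact h2
    · refine ⟨1, one_pos, fun γ _ => ?_⟩
      have h1 : ∀ γ, mr D S γ t = 0 := fun γ => by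
        unfold mr
        rw [D.off _ t ht, Real.sqrt_zero]
      rw [h1, h1, sub_zero, Complex.ofReal_zero, norm_zero]
      nlinarith
  · intro t ht
    ext x : 1
    apply Subtype.ext
    rw [coe_Mr]
    have h1 : Mh D S t = 0 := by
      ext f : 1
      refine lv_ext fun γ => ?_
      rw [Mh_apply]
      have h2 : mr D S γ t = 0 := by
        unfold mr
        rw [D.off _ t ht, Real.sqrt_zero]
      rw [h2, Complex.ofReal_zero, mul_zero]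
      rfl
    rw [h1, UP.map_zero]
    rfl
  · intro x
    have h1 := UP.sum_sq_eq D.supp (fun t => Mh D S t) (fun y => by
      have h2 : ∀ t ∈ D.supp, Summable fun γ => ‖Mh D S t y γ‖ ^ 2 := fun t _ => lv_summable _
      have e1 : ∑ t ∈ D.supp, ‖Mh D S t y‖ ^ 2 = ∑' γ, ∑ t ∈ D.supp, ‖Mh D S t y γ‖ ^ 2 := by
        rw [Summable.tsum_finsetSum h2]
        exact Finset.sum_congr rfl fun t _ => lv_norm_sq _
      rw [e1, lv_norm_sq]
      congr 1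
      funext γ
      have e2 : ∀ t, ‖Mh D S t y γ‖ ^ 2 = ‖y γ‖ ^ 2 * mr D S γ t ^ 2 := by
        intro t
        rw [Mh_apply, norm_mul, Complex.norm_real, mul_pow, Real.norm_eq_abs, sq_abs]
      simp only [e2]
      rw [← Finset.mul_sum, mr_sum, mul_one]) (x : UP (L2 G))
    exact h1
  · intro h hh x S'
    obtain ⟨δ, hδ, hm⟩ := mr_right D S hh
    set F : G → G → ℂ := fun t γ => ((mr D S γ t - mr D S (1⁻¹ * γ * h) (h⁻¹ * t) : ℝ) : ℂ) with hF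
    have hb : ∀ t γ, ‖F t γ‖ ≤ 1 + 1 := by
      intro t γ
      rw [hF]
      push_cast
      exact (norm_sub_le _ _).trans (add_le_add (mr_le_one D S γ t) (mr_le_one D S _ _))
    set y : UP (L2 G) := UP.map ((permV (tr 1 h) : Lv G ℂ ≃ₗᵢ[ℂ] Lv G ℂ).toContinuousLinearEquiv :
      L2 G →L[ℂ] L2 G) (x : UP (L2 G)) with hy
    have hyU : y ∈ Ur S := perm_mem_Ur S 1 h x.2
    have e1 : ∀ t, ‖Mr D S t (BR S h x) - BR S h (Mr D S (h⁻¹ * t) x)‖ ^ 2 =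
        ‖UP.map ((mulF (F t) : L2 G →L[ℂ] Lv G ℂ).comp (ind ℂ (regA S δ))) y‖ ^ 2 := by
      intro t
      congr 1
      change ‖UP.map (Mh D S t) (Blim G h (x : UP (L2 G))) -
        Blim G h (UP.map (Mh D S (h⁻¹ * t)) (x : UP (L2 G)))‖ = _
      rw [Blim_apply, Blim_apply, Mh_perm, UP.map_comp, ind_regA S hδ hyU]
    simp only [e1]
    have h2 := UP.sum_sq_le S' (fun t => (mulF (F t) : L2 G →L[ℂ] Lv G ℂ).comp (ind ℂ (regA S δ)))
      (C := ε ^ 2) (fun z => by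
        exact sum_mulF_le S' hb (by positivity) (A := regA S δ) (fun γ hγ => by
          have h3 := hm γ hγ.1 hγ.2 S'
          refine (Finset.sum_le_sum fun t _ => ?_).trans h3
          rw [hF]
          simp only
          rw [Complex.norm_real, Real.norm_eq_abs, sq_abs]) z) y
    have h4 : ‖y‖ = ‖x‖ := by
      have := LinearIsometryEquiv.norm_map (Blim G h) (x : UP (L2 G))
      rw [Blim_apply] at this
      exact this
    rw [h4] at h2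
    exact h2

end Pool.Agent.Helper84.NI
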