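import Pool.Agent.Helper84.NI.Wall

/-!
# Project NI, block WA: two principles

PROOFS. By linearity and continuity it is enough to treat `a ∈ UaSet S` (`Submodule.closure_induction`/`topologicalClosure` + `span_induction`; `UP.map (mulF F)` is continuous
linear and the targets are closed submodules). So let `a ∈ Uz`, `UP.map (ind (W δ)) a = a`, `δ > 0`.
(P) `map_mulF_zero`: given `ε > 0` the set `E = {γ ∈ W δ : ‖F γ‖ > ε}` is finite (`Tendsto F (S.at' δ)`, `mem_inf_principal`, `mem_cofinite`). Then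
`a = UP.map (ind (W δ)) (a - UP.map (ind E) a)` since `UP.map (ind E) a = 0`; so `UP.map (mulF F) a = UP.map (mulF F ∘ ind (W δ) ∘ (1 - ind E)) a` and the operator
`mulF F ∘ ind (W δ) ∘ (1 - ind E)` has norm `≤ ε` (`UP.map_comp`, `UP.norm_map_le_of`). Let `ε → 0`.
(Q) `map_mulF_mem`: `K` compact with `F γ ∈ K` for all `γ ∈ W δ` outside a finite set `E`. For `ε > 0` cover `K` by finitely many balls of radius `ε` with centers `w_j`, choose
a partition of `W δ ∖ E` into sets `E_j` with `‖F γ - w_j‖ ≤ ε` on `E_j`. Then `‖UP.map (mulF F) a - ∑_j UP.map (mulF fun _ => w_j) (UP.map (ind E_j) a)‖ ≤ ε ‖a‖`, and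
`UP.map (ind E_j) a ∈ UaSet S` (indicators commute), so the sum is in `Vp S`; `Vp S` is closed. `ind_mem_Ua`: `UP.map (ind B)` maps `UaSet` into itself.
-/

set_option autoImplicit false

open Filter Topology Matrix

namespace Pool.Agent.Helper84.NI

open GVN

variable {G : Type} [Group G] {P : PHom G} (S : Svd P)
  {L : Type} [NormedAddCommGroup L] [InnerProductSpace ℂ L]

private theorem ext86 {E : Type} [NormedAddCommGroup E] [InnerProductSpace ℂ E]
    (T : UP (L2 G) →L[ℂ] E) (V : Submodule ℂ E) (hV : IsClosed (V : Set E))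
    (h : ∀ a ∈ UaSet S, T a ∈ V) {a : UP (L2 G)} (ha : a ∈ Ua S) : T a ∈ V := by
  have h1 : Ua S ≤ V.comap T.toLinearMap := by
    unfold Ua
    refine Submodule.topologicalClosure_minimal _ ?_ ?_
    · rw [Submodule.span_le]
      intro b hb
      exact h b hb
    · exact hV.preimage T.continuous
  exact h1 ha

private theorem ind_ind86 {I : Type} (A B : Set I) (a : L2 I) :
    ind ℂ A (ind ℂ B a) = ind ℂ (A ∩ B) a := by
  classical
  apply lv_ext
  intro i
  rw [ind_apply, ind_apply, ind_apply]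
  by_cases h1 : i ∈ A <;> by_cases h2 : i ∈ B <;> simp [h1, h2]

private theorem map_ind86 {I : Type} (A B : Set I) (a : UP (L2 I)) :
    UP.map (ind ℂ A) (UP.map (ind ℂ B) a) = UP.map (ind ℂ (A ∩ B)) a := by
  rw [← UP.map_comp]
  congr 1
  apply congrArg
  ext1 x
  exact ind_ind86 A B x

private theorem ind_Uz86 (B : Set G) {a : UP (L2 G)} (ha : a ∈ UaSet S) : UP.map (ind ℂ B) a ∈ UaSet S := by
  obtain ⟨h1, δ, hδ, h2⟩ := ha
  refine ⟨?_, δ, hδ, ?_⟩
  · intro F hF
    rw [map_ind86, Set.inter_comm, ← map_ind86, h1 F hF, map_zero]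
  · rw [map_ind86, Set.inter_comm, ← map_ind86, h2]

theorem ind_mem_Ua (B : Set G) {a : UP (L2 G)} (ha : a ∈ Ua S) : UP.map (ind ℂ B) a ∈ Ua S := by
  refine ext86 S (UP.map (ind ℂ B)) (Ua S) (Submodule.isClosed_topologicalClosure _) ?_ ha
  intro b hb
  exact Submodule.le_topologicalClosure _ (Submodule.subset_span (ind_Uz86 S B hb))

private theorem mulF_ind86 {I : Type} {F : I → L} {C : ℝ} (hC0 : 0 ≤ C) (hC : ∀ γ, ‖F γ‖ ≤ C) (B : Set I) :
    (mulF F).comp (ind ℂ B) = mulF (B.indicator F) := by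
  classical
  have hC' : ∀ γ, ‖B.indicator F γ‖ ≤ C := by
    intro γ
    unfold Set.indicator
    split_ifs
    · exact hC γ
    · rw [norm_zero]
      exact hC0
  ext1 x
  apply lv_ext
  intro i
  rw [ContinuousLinearMap.comp_apply, mulF_apply hC, mulF_apply hC', ind_apply]
  unfold Set.indicator
  by_cases h : i ∈ B <;> simp [h]

/-- a vector of `UaSet` does not see finite sets -/
private theorem fin86 {a : UP (L2 G)} {δ : ℝ} (h1 : a ∈ Uz G) (h2 : UP.map (ind ℂ (S.W δ)) a = a)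
    {E : Set G} (hE : E.Finite) : UP.map (ind ℂ (S.W δ \ E)) a = a := by
  classical
  have h3 : ind ℂ (S.W δ) = ind ℂ (S.W δ \ E) + ind ℂ (S.W δ ∩ E) := by
    ext1 x
    apply lv_ext
    intro i
    rw [_root_.add_apply, lp.coeFn_add, Pi.add_apply, ind_apply, ind_apply, ind_apply]
    by_cases h4 : i ∈ S.W δ <;> by_cases h5 : i ∈ E <;> simp [h4, h5]
  have h4 := h1 (S.W δ ∩ E) (hE.subset Set.inter_subset_right)
  rw [h3, UP.map_add, h4, add_zero] at h2
  exact h2

theorem map_mulF_zero {F : G → L} {C : ℝ} (hC : ∀ γ, ‖F γ‖ ≤ C)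
    (h : ∀ δ, 0 < δ → Tendsto F (S.at' δ) (𝓝 0)) {a : UP (L2 G)} (ha : a ∈ Ua S) :
    UP.map (mulF F) a = 0 := by
  have hC0 : 0 ≤ C := (norm_nonneg _).trans (hC 1)
  have h0 : UP.map (mulF F) a ∈ (⊥ : Submodule ℂ (UP (Lv G L))) := by
    refine ext86 S (UP.map (mulF F)) ⊥ (by rw [Submodule.bot_coe]; exact isClosed_singleton) ?_ ha
    intro b hb
    obtain ⟨h1, δ, hδ, h2⟩ := hb
    rw [Submodule.mem_bot]
    by_contra hne
    have hpos : 0 < ‖UP.map (mulF F) b‖ := norm_pos_iff.2 hne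
    obtain ⟨ε, hε, hε2⟩ : ∃ ε : ℝ, 0 < ε ∧ ε * ‖b‖ < ‖UP.map (mulF F) b‖ := by
      refine ⟨‖UP.map (mulF F) b‖ / (2 * (‖b‖ + 1)), by positivity, ?_⟩
      have hb1 : 0 < ‖b‖ + 1 := by positivity
      rw [div_mul_eq_mul_div, div_lt_iff₀ (by positivity)]
      nlinarith [norm_nonneg b]
    have h3 : ∀ᶠ γ in S.at' δ, ‖F γ‖ < ε := by
      have := (h δ hδ).norm
      rw [norm_zero] at this
      exact this.eventually (gt_mem_nhds hε)
    unfold Svd.at' at h3
    rw [eventually_inf_principal] at h3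
    have hE : {γ | ¬ (γ ∈ S.W δ → ‖F γ‖ < ε)}.Finite := h3
    have h4 := fin86 S h1 h2 hE
    rw [← h4, ← UP.map_comp, mulF_ind86 hC0 hC] at hε2
    have h5 : ∀ γ, ‖(S.W δ \ {γ | ¬ (γ ∈ S.W δ → ‖F γ‖ < ε)}).indicator F γ‖ ≤ ε := by
      intro γ
      unfold Set.indicator
      split_ifs with h6
      · have h7 : γ ∈ S.W δ → ‖F γ‖ < ε := by
          by_contra hc
          exact h6.2 hc
        exact (h7 h6.1).le
      · rw [norm_zero]
        exact hε.le
    have h6 := UP.norm_map_le_of hε.le (norm_mulF_le hε.le h5) b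
    rw [h4] at hε2
    linarith
  rwa [Submodule.mem_bot] at h0

private theorem mulF_sub86 {I : Type} {F F' : I → L} {C C' : ℝ} (hC : ∀ γ, ‖F γ‖ ≤ C)
    (hC' : ∀ γ, ‖F' γ‖ ≤ C') : mulF F - mulF F' = mulF (fun i => F i - F' i) := by
  have h : ∀ γ, ‖F γ - F' γ‖ ≤ C + C' := fun γ => (norm_sub_le _ _).trans (add_le_add (hC γ) (hC' γ))
  ext1 x
  apply lv_ext
  intro i
  rw [_root_.sub_apply, lp.coeFn_sub, Pi.sub_apply, mulF_apply hC, mulF_apply hC',
    mulF_apply h, smul_sub]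

/-- multiplication by a function with finitely many values -/
private theorem mulF_sum86 {I : Type} {c : I → L} {C : ℝ} (hC : ∀ γ, ‖c γ‖ ≤ C) (t : Finset L)
    (ht : ∀ γ, c γ ∈ t) : mulF c = ∑ w ∈ t, (mulF fun _ => w).comp (ind ℂ {γ | c γ = w}) := by
  classical
  ext1 x
  apply lv_ext
  intro i
  rw [mulF_apply hC, _root_.sum_apply, lp.coeFn_sum, Finset.sum_apply]
  have h1 : ∀ w ∈ t, ((mulF fun _ => w).comp (ind ℂ {γ | c γ = w}) x : Lv I L) i =
      if c i = w then x i • w else 0 := by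
    intro w _
    rw [ContinuousLinearMap.comp_apply, mulF_apply (F := fun _ : I => w) (C := ‖w‖) (fun _ => le_rfl), ind_apply]
    by_cases h : c i = w
    · rw [if_pos (show i ∈ {γ | c γ = w} from h), if_pos h]
    · rw [if_neg (show ¬ i ∈ {γ | c γ = w} from h), if_neg h, zero_smul]
  rw [Finset.sum_congr rfl h1, Finset.sum_ite_eq, if_pos (ht i)]

theorem map_mulF_mem {F : G → L} {C : ℝ} (hC : ∀ γ, ‖F γ‖ ≤ C)
    (h : ∀ δ, 0 < δ → ∃ K : Set L, IsCompact K ∧ ∀ᶠ γ in S.at' δ, F γ ∈ K) {a : UP (L2 G)}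
    (ha : a ∈ Ua S) : UP.map (mulF F) a ∈ Vp S (L := L) := by
  classical
  have hC0 : 0 ≤ C := (norm_nonneg _).trans (hC 1)
  refine ext86 S (UP.map (mulF F)) (Vp S (L := L)) (Submodule.isClosed_topologicalClosure _) ?_ ha
  intro b hb
  have hbA : b ∈ Ua S := Submodule.le_topologicalClosure _ (Submodule.subset_span hb)
  obtain ⟨h1, δ, hδ, h2⟩ := hb
  obtain ⟨K, hK, h3⟩ := h δ hδ
  unfold Svd.at' at h3
  rw [eventually_inf_principal] at h3
  have hE : {γ | ¬ (γ ∈ S.W δ → F γ ∈ K)}.Finite := h3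
  obtain ⟨E, hEd⟩ : ∃ E : Set G, E = {γ | ¬ (γ ∈ S.W δ → F γ ∈ K)} := ⟨_, rfl⟩
  rw [← hEd] at hE
  have h4 := fin86 S h1 h2 hE
  have hcl : IsClosed (Vp S (L := L) : Set (UP (Lv G L))) := Submodule.isClosed_topologicalClosure _
  have hmem : UP.map (mulF F) b ∈ closure (Vp S (L := L) : Set (UP (Lv G L))) := by
    rw [Metric.mem_closure_iff]
    intro ε0 hε0
    obtain ⟨ε, hε, hε2⟩ : ∃ ε : ℝ, 0 < ε ∧ ε * ‖b‖ < ε0 := by
      refine ⟨ε0 / (2 * (‖b‖ + 1)), by positivity, ?_⟩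
      rw [div_mul_eq_mul_div, div_lt_iff₀ (by positivity)]
      nlinarith [norm_nonneg b]
    obtain ⟨t, _, htf, htK⟩ := hK.finite_cover_balls hε
    obtain ⟨c, hc1, hc2⟩ : ∃ c : G → L, (∀ γ, c γ ∈ insert 0 t) ∧ ∀ γ, F γ ∈ K → ‖F γ - c γ‖ ≤ ε := by
      have h5 : ∀ γ, ∃ w : L, w ∈ insert 0 t ∧ (F γ ∈ K → ‖F γ - w‖ ≤ ε) := by
        intro γ
        by_cases hγ : F γ ∈ K
        · obtain ⟨w, hw, hw2⟩ := Set.mem_iUnion₂.1 (htK hγ)
          refine ⟨w, Set.mem_insert_of_mem _ hw, fun _ => ?_⟩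
          rw [Metric.mem_ball, dist_eq_norm] at hw2
          exact hw2.le
        · exact ⟨0, Set.mem_insert _ _, fun hh => absurd hh hγ⟩
      choose c hc using h5
      exact ⟨c, fun γ => (hc γ).1, fun γ => (hc γ).2⟩
    obtain ⟨c', hc'⟩ : ∃ c' : G → L, c' = (S.W δ \ E).indicator c := ⟨_, rfl⟩
    have hin : ∀ γ, γ ∈ S.W δ \ E → F γ ∈ K := by
      intro γ hγ
      have h6 : γ ∈ S.W δ → F γ ∈ K := by
        by_contra hcc
        exact hγ.2 (by rw [hEd]; exact hcc)
      exact h6 hγ.1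
    have hc'b : ∀ γ, ‖c' γ‖ ≤ C + ε := by
      intro γ
      rw [hc']
      unfold Set.indicator
      split_ifs with h6
      · have h7 := hc2 γ (hin γ h6)
        have h8 : ‖c γ‖ ≤ ‖F γ‖ + ‖F γ - c γ‖ := by
          have : c γ = F γ - (F γ - c γ) := by abel
          calc ‖c γ‖ = ‖F γ - (F γ - c γ)‖ := by rw [← this]
            _ ≤ _ := norm_sub_le _ _
        linarith [hC γ]
      · rw [norm_zero]
        linarith
    have hFb : ∀ γ, ‖(S.W δ \ E).indicator F γ‖ ≤ C := by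
      intro γ
      unfold Set.indicator
      split_ifs
      · exact hC γ
      · rw [norm_zero]
        exact hC0
    have hdb : ∀ γ, ‖(S.W δ \ E).indicator F γ - c' γ‖ ≤ ε := by
      intro γ
      rw [hc']
      unfold Set.indicator
      split_ifs with h6
      · exact hc2 γ (hin γ h6)
      · rw [sub_zero, norm_zero]
        exact hε.le
    have hc't : ∀ γ, c' γ ∈ (htf.insert 0).toFinset := by
      intro γ
      rw [Set.Finite.mem_toFinset, hc']
      unfold Set.indicator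
      split_ifs
      · exact hc1 γ
      · exact Set.mem_insert _ _
    refine ⟨UP.map (mulF c') b, ?_, ?_⟩
    · rw [mulF_sum86 hc'b _ hc't, UP.map_sum]
      refine Submodule.sum_mem _ fun w _ => ?_
      rw [UP.map_comp]
      refine Submodule.le_topologicalClosure _ (Submodule.subset_span ⟨w, _, ind_mem_Ua S _ hbA, rfl⟩)
    · have h6 : UP.map (mulF F) b = UP.map (mulF ((S.W δ \ E).indicator F)) b := by
        rw [← mulF_ind86 hC0 hC, UP.map_comp, h4]
      rw [dist_eq_norm, h6, ← UP.map_sub, mulF_sub86 hFb hc'b]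
      exact lt_of_le_of_lt (UP.norm_map_le_of hε.le (norm_mulF_le hε.le hdb) b) hε2
  rwa [hcl.closure_eq] at hmem

theorem Ua_le_Uz : Ua S ≤ Uz G := by
  intro a ha F hF
  have h0 : UP.map (ind ℂ F) a ∈ (⊥ : Submodule ℂ (UP (L2 G))) := by
    refine ext86 S (UP.map (ind ℂ F)) ⊥ (by rw [Submodule.bot_coe]; exact isClosed_singleton) ?_ ha
    intro b hb
    rw [Submodule.mem_bot]
    exact hb.1 F hF
  rwa [Submodule.mem_bot] at h0

end Pool.Agent.Helper84.NI
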