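import Pool.Agent.Helper84.NI.WD
import Pool.Agent.Helper84.NI.GE

/-!
# Project NI, block WE: the two commuting representations on the wall space, the sections

PROOFS. `what_one`: `C_{1,1} = c • 1` (`C_one`), `Φ.scal`, `Fib.one`, so `What S Φ 1 1` is the identity (`permV (tr 1 1)` is the identity).
`comm2_V`: `W(g,1) W(1,h) = W(g,h) = W(1,h) W(g,1)` (`what_mul`).
`TR`: `‖F γ‖ = 1` for all `γ` gives isometry (`UP.sum_sq_eq` with one term; `‖mulF F a‖ = ‖a‖`). `TR a ∈ Vp` is a generator. `TL a ∈ Vp` by `map_mulF_mem`, `F γ = π(X γ) v = π(s0 • X γ) v` (`Φ.scal`) in the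
compact image of `Kc (max 1 (1/δ)) 1` for `γ ∈ W δ` (`X_compact`).
-/

set_option autoImplicit false

open Filter Topology Matrix

namespace Pool.Agent.Helper84.NI

open GVN

variable {G : Type} [Group G] {P : PHom G} (S : Svd P)
  {L : Type} [NormedAddCommGroup L] [InnerProductSpace ℂ L] (Φ : Fib L)

theorem what_one (ξ : UP (Lv G L)) : UP.mapU (What S Φ 1 1) ξ = ξ := by
  rw [UP.mapU_apply]
  refine Eq.trans (congrArg (fun T => UP.map T ξ) ?_) (UP.map_id ξ)
  ext f : 1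
  refine lv_ext fun γ => ?_
  change What S Φ 1 1 f γ = f γ
  obtain ⟨c, hc, h⟩ := S.C_one γ
  have hc0 : c ≠ 0 := by
    intro h0
    rw [h0, norm_zero] at hc
    exact zero_ne_one hc
  rw [What_apply, h, Φ.scal c 1 hc0 (by simp), Fib.one, inv_one, one_mul, mul_one]

/-- The left action on the wall space. -/
noncomputable def AV : G →* (Vp S (L := L) ≃ₗᵢ[ℂ] Vp S (L := L)) :=
  partialRep (fun g => UP.mapU (What S Φ g 1)) (Vp S) (fun g x hx => what_mem S Φ g 1 x hx)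
    (fun x _ => what_one S Φ x) (fun g g' x hx => by
      have h := what_mul S Φ g 1 g' 1 x hx
      rwa [mul_one] at h)

/-- The right action on the wall space. -/
noncomputable def BV : G →* (Vp S (L := L) ≃ₗᵢ[ℂ] Vp S (L := L)) :=
  partialRep (fun h => UP.mapU (What S Φ 1 h)) (Vp S) (fun h x hx => what_mem S Φ 1 h x hx)
    (fun x _ => what_one S Φ x) (fun h h' x hx => by
      have h := what_mul S Φ 1 h 1 h' x hx
      rwa [mul_one] at h)

theorem coe_AV (g : G) (x : Vp S (L := L)) : (AV S Φ g x : UP (Lv G L)) = UP.mapU (What S Φ g 1) x := rfl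

theorem coe_BV (g : G) (x : Vp S (L := L)) : (BV S Φ g x : UP (Lv G L)) = UP.mapU (What S Φ 1 g) x := rfl

theorem comm2_V : Comm2 (AV S Φ) (BV S Φ) := by
  intro g h x
  apply Subtype.ext
  rw [coe_AV, coe_BV, coe_BV, coe_AV, ← what_mul S Φ g 1 1 h x x.2, ← what_mul S Φ 1 h g 1 x x.2,
    mul_one, one_mul, one_mul, mul_one]

theorem TR_mem (a : UP (L2 G)) (ha : a ∈ Ua S) : UP.map (mulF fun _ => Φ.v) a ∈ Vp S (L := L) :=
  Submodule.le_topologicalClosure _ (Submodule.subset_span ⟨Φ.v, a, ha, rfl⟩)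

theorem TL_mem (a : UP (L2 G)) (ha : a ∈ Ua S) :
    UP.map (mulF fun γ => Φ.π (S.X γ) Φ.v) a ∈ Vp S (L := L) := by
  refine map_mulF_mem S (C := ‖Φ.v‖) (fun γ => by rw [LinearIsometryEquiv.norm_map]) (fun δ hδ => ?_) ha
  refine ⟨(fun C => Φ.π C Φ.v) '' Kc (max 1 (1 / δ)) 1, Fib.compact_range Φ Φ.v one_pos, ?_⟩
  have hm : S.W δ ∈ S.at' δ := mem_inf_of_right (mem_principal_self _)
  filter_upwards [hm] with γ hγ
  refine ⟨_, S.X_compact hδ hγ, ?_⟩
  have h0 : (S.s γ 0 : ℂ) ≠ 0 := by exact_mod_cast (S.pos0 γ).ne'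
  exact congrArg (fun T : L ≃ₗᵢ[ℂ] L => T Φ.v) (Φ.scal _ _ h0 (S.X_det γ))

theorem norm_map_mulF {F : G → L} (hF : ∀ γ, ‖F γ‖ = 1) (a : UP (L2 G)) : ‖UP.map (mulF F) a‖ = ‖a‖ := by
  have h := UP.sum_sq_eq {()} (fun _ => (mulF F : L2 G →L[ℂ] Lv G L)) (by
    intro x
    rw [Finset.sum_singleton, lv_norm_sq, lv_norm_sq]
    congr 1
    funext γ
    rw [mulF_apply (fun γ => (hF γ).le), norm_smul, hF, mul_one]) a
  simp only [Finset.sum_singleton] at h
  exact (sq_eq_sq₀ (norm_nonneg _) (norm_nonneg _)).1 h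

/-- The left-equivariant section. -/
noncomputable def TR : Ua S →ₗᵢ[ℂ] Vp S (L := L) where
  toFun a := ⟨UP.map (mulF fun _ => Φ.v) a, TR_mem S Φ a a.2⟩
  map_add' a b := Subtype.ext (map_add (UP.map (mulF fun _ => Φ.v)) _ _)
  map_smul' c a := Subtype.ext (map_smul (UP.map (mulF fun _ => Φ.v)) _ _)
  norm_map' a := norm_map_mulF (fun _ => Φ.nv) (a : UP (L2 G))

/-- The right-equivariant section. -/
noncomputable def TL : Ua S →ₗᵢ[ℂ] Vp S (L := L) where
  toFun a := ⟨UP.map (mulF fun γ => Φ.π (S.X γ) Φ.v) a, TL_mem S Φ a a.2⟩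
  map_add' a b := Subtype.ext (map_add (UP.map (mulF fun γ => Φ.π (S.X γ) Φ.v)) _ _)
  map_smul' c a := Subtype.ext (map_smul (UP.map (mulF fun γ => Φ.π (S.X γ) Φ.v)) _ _)
  norm_map' a := norm_map_mulF (fun γ => by rw [LinearIsometryEquiv.norm_map, Φ.nv]) (a : UP (L2 G))

end Pool.Agent.Helper84.NI
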