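import Pool.Agent.Helper84.NI.WF
import Pool.Agent.Helper84.NI.FS
import Pool.Agent.Helper84.NI.TI

/-!
# Project NI, block WG: tightness on the wall

`psi S s γ = (2 |det X_γ| / ns X_γ)^s = (2 s0 s1 / (s0^2 + s1^2))^s ∈ (0, 1]`.
PROOFS. `psi_le_one`, `psi_nonneg`: `2 s0⁻¹ s1⁻¹ ≤ s0⁻² + s1⁻²`. `psi_lower`: on `W δ` the base is `2 r / (1 + r^2) ≥ r ≥ δ` for `r = s1/s0 ∈ [δ, 1]` (`δ ≤ 1` if `W δ` is not empty), so
`psi ≥ δ^s`, which tends to `1`. `tendsto_psi`: for `a ∈ Ua`: `‖a - UP.map (mulop psi_s) a‖ → 0`, `s → 0+`: the operators `1 - Ψ_s` have norm `≤ 1`; for `a` in the span of `UaSet`, `a = UP.map (ind (W δ)) a` for one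
`δ ∈ (0, 1]` and `‖(1 - Ψ_s) ind (W δ)‖ ≤ 1 - δ^s → 0`; closure by approximation.
`wall_tight`: let `η_0 = δ0` with `1 - δ0 - 4 δ0/κ ≥ 1/2`. By `tendsto_psi` applied to the finitely many vectors `b = ext (AU S) E q ζ` (`q ∈ Q`) and `b = ζ` there is one `s > 0` with
`‖b - Ψ_s b‖ ≤ (δ0^2/2) ‖ζ‖` for all of them. Take the fibre representation `Φ` of `exists_fib_s s`. `inner_TL_TR`: `⟪TL b, TR b⟫ = ⟪b, Ψ_s b⟫` (the inner product `⟪π(X) v, v⟫ = conj ⟪v, π(X) v⟫` is real). So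
`‖TL b - TR b‖^2 = 2‖b‖^2 - 2 Re ⟪b, Ψ_s b⟫ ≤ 2 ‖b‖ ‖b - Ψ_s b‖ ≤ δ0^2 ‖ζ‖^2` (`‖b‖ = ‖ζ‖`: `norm_ext`). `tight` (with `comm2_V`, `TR_A`, `TL_B`) gives the claim.
-/

set_option autoImplicit false
set_option linter.unusedSectionVars false

open Filter Topology Matrix

namespace Pool.Agent.Helper84.NI

open GVN

variable {G Λ : Type} [Group G] [Group Λ] {P : PHom G} (S : Svd P)

/-- The spherical functions on the wall. -/
noncomputable def psi (s : ℝ) (γ : G) : ℝ := (2 * ‖(S.X γ).det‖ / ns (S.X γ)) ^ s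

private theorem h43_pos (γ : G) : 0 < S.s γ 1 ∧ 0 < S.s γ 0 := by
  have h1 := S.pos γ
  have h2 := S.le12 γ
  have h3 := S.le01 γ
  constructor <;> linarith

private theorem h43_det (γ : G) : (S.X γ).det = ((S.s γ 0)⁻¹ : ℂ) * ((S.s γ 1)⁻¹ : ℂ) := by
  unfold Svd.X
  rw [Matrix.det_diagonal, Fin.prod_univ_two]
  rfl

private theorem h43_det_ne (γ : G) : (S.X γ).det ≠ 0 := by
  rw [h43_det]
  obtain ⟨h1, h0⟩ := h43_pos S γ
  have h1' : (S.s γ 1 : ℂ) ≠ 0 := by exact_mod_cast h1.ne'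
  have h0' : (S.s γ 0 : ℂ) ≠ 0 := by exact_mod_cast h0.ne'
  exact mul_ne_zero (inv_ne_zero h0') (inv_ne_zero h1')

private theorem h43_ns (γ : G) : ns (S.X γ) = (S.s γ 0)⁻¹ ^ 2 + (S.s γ 1)⁻¹ ^ 2 := by
  unfold ns Svd.X
  obtain ⟨h1, h0⟩ := h43_pos S γ
  rw [Fin.sum_univ_two, Fin.sum_univ_two, Fin.sum_univ_two]
  have e0 : ‖((S.s γ 0)⁻¹ : ℂ)‖ = (S.s γ 0)⁻¹ := by
    rw [norm_inv, Complex.norm_real, Real.norm_eq_abs, abs_of_pos h0]
  have e1 : ‖((S.s γ 1)⁻¹ : ℂ)‖ = (S.s γ 1)⁻¹ := by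
    rw [norm_inv, Complex.norm_real, Real.norm_eq_abs, abs_of_pos h1]
  rw [Matrix.diagonal_apply_eq, Matrix.diagonal_apply_eq, Matrix.diagonal_apply_ne _ (by decide),
    Matrix.diagonal_apply_ne _ (by decide), norm_zero]
  change ‖((S.s γ 0)⁻¹ : ℂ)‖ ^ 2 + 0 ^ 2 + (0 ^ 2 + ‖((S.s γ 1)⁻¹ : ℂ)‖ ^ 2) = _
  rw [e0, e1]
  ring

private theorem h43_base (γ : G) : 2 * ‖(S.X γ).det‖ / ns (S.X γ) =
    2 * S.s γ 0 * S.s γ 1 / (S.s γ 0 ^ 2 + S.s γ 1 ^ 2) := by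
  obtain ⟨h1, h0⟩ := h43_pos S γ
  have e0 : ‖((S.s γ 0)⁻¹ : ℂ)‖ = (S.s γ 0)⁻¹ := by
    rw [norm_inv, Complex.norm_real, Real.norm_eq_abs, abs_of_pos h0]
  have e1 : ‖((S.s γ 1)⁻¹ : ℂ)‖ = (S.s γ 1)⁻¹ := by
    rw [norm_inv, Complex.norm_real, Real.norm_eq_abs, abs_of_pos h1]
  rw [h43_det, h43_ns, norm_mul, e0, e1]
  field_simp
  ring

private theorem h43_base_nonneg (γ : G) : 0 ≤ 2 * ‖(S.X γ).det‖ / ns (S.X γ) := by
  obtain ⟨h1, h0⟩ := h43_pos S γ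
  rw [h43_base]
  positivity

private theorem h43_base_le (γ : G) : 2 * ‖(S.X γ).det‖ / ns (S.X γ) ≤ 1 := by
  obtain ⟨h1, h0⟩ := h43_pos S γ
  rw [h43_base, div_le_one (by positivity)]
  nlinarith [sq_nonneg (S.s γ 0 - S.s γ 1)]

theorem psi_nonneg (s : ℝ) (γ : G) : 0 ≤ psi S s γ :=
  Real.rpow_nonneg (h43_base_nonneg S γ) s

theorem psi_le_one {s : ℝ} (hs : 0 < s) (γ : G) : psi S s γ ≤ 1 :=
  Real.rpow_le_one (h43_base_nonneg S γ) (h43_base_le S γ) hs.le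

theorem psi_lower {s δ : ℝ} (hs : 0 < s) (hδ : 0 < δ) {γ : G} (hγ : γ ∈ S.W δ) : δ ^ s ≤ psi S s γ := by
  obtain ⟨h1, h0⟩ := h43_pos S γ
  have h01 := S.le01 γ
  have hγ' : δ * S.s γ 0 ≤ S.s γ 1 := hγ
  refine Real.rpow_le_rpow hδ.le ?_ hs.le
  rw [h43_base, le_div_iff₀ (by positivity)]
  have hδ1 : δ ≤ 1 := by
    by_contra h
    push Not at h
    nlinarith
  nlinarith [mul_le_mul_of_nonneg_right hγ' h0.le, mul_le_mul_of_nonneg_right hδ1 (sq_nonneg (S.s γ 1)),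
    mul_le_mul_of_nonneg_right h01 h1.le]

private theorem h43_mulop {f : G → ℂ} (hf : ∀ γ, ‖f γ‖ ≤ 1) (a : L2 G) (γ : G) :
    mulop f a γ = f γ * a γ := by
  unfold mulop
  rw [dg_apply (C := 1)]
  · simp
  · intro i x
    have : ‖(f i • ContinuousLinearMap.id ℂ ℂ) x‖ = ‖f i‖ * ‖x‖ := by simp
    rw [this]
    exact mul_le_mul_of_nonneg_right (hf i) (norm_nonneg _)

private theorem h43_psi_norm {s : ℝ} (hs : 0 < s) (γ : G) : ‖(psi S s γ : ℂ)‖ ≤ 1 := by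
  rw [Complex.norm_real, Real.norm_eq_abs, abs_of_nonneg (psi_nonneg S s γ)]
  exact psi_le_one S hs γ

private theorem h43_pw {T : L2 G →L[ℂ] L2 G} {C : ℝ} (hC : 0 ≤ C)
    (h : ∀ f γ, ‖T f γ‖ ≤ C * ‖f γ‖) (f : L2 G) : ‖T f‖ ≤ C * ‖f‖ := by
  refine (sq_le_sq₀ (norm_nonneg _) (mul_nonneg hC (norm_nonneg _))).1 ?_
  rw [lv_norm_sq, mul_pow, lv_norm_sq, ← tsum_mul_left]
  refine Summable.tsum_le_tsum (fun i => ?_) (lv_summable _) ((lv_summable f).mul_left _)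
  rw [← mul_pow]
  exact pow_le_pow_left₀ (norm_nonneg _) (h f i) 2

/-- the difference -/
private noncomputable def h43_D (s : ℝ) : L2 G →L[ℂ] L2 G :=
  ContinuousLinearMap.id ℂ (L2 G) - mulop fun γ => (psi S s γ : ℂ)

private theorem h43_D_apply {s : ℝ} (hs : 0 < s) (f : L2 G) (γ : G) :
    h43_D S s f γ = (1 - psi S s γ : ℝ) * f γ := by
  have h1 : h43_D S s f γ = f γ - mulop (fun γ => (psi S s γ : ℂ)) f γ := rfl
  rw [h1, h43_mulop (h43_psi_norm S hs)]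
  push_cast
  ring

private theorem h43_map_D (s : ℝ) (a : UP (L2 G)) :
    a - UP.map (mulop fun γ => (psi S s γ : ℂ)) a = UP.map (h43_D S s) a := by
  unfold h43_D
  rw [UP.map_sub, UP.map_id]

private theorem h43_D_le {s : ℝ} (hs : 0 < s) (a : UP (L2 G)) : ‖UP.map (h43_D S s) a‖ ≤ ‖a‖ := by
  have := UP.norm_map_le_of (T := h43_D S s) zero_le_one (h43_pw zero_le_one (by
    intro f γ
    rw [h43_D_apply S hs, norm_mul]
    refine mul_le_mul_of_nonneg_right ?_ (norm_nonneg _)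
    rw [Complex.norm_real, Real.norm_eq_abs, abs_of_nonneg (sub_nonneg.2 (psi_le_one S hs γ))]
    linarith [psi_nonneg S s γ])) a
  rwa [one_mul] at this

private theorem h43_D_W {s δ : ℝ} (hs : 0 < s) (hδ : 0 < δ) {a : UP (L2 G)}
    (ha : UP.map (ind ℂ (S.W δ)) a = a) : ‖UP.map (h43_D S s) a‖ ≤ |1 - δ ^ s| * ‖a‖ := by
  classical
  conv_lhs => rw [← ha, ← UP.map_comp]
  refine UP.norm_map_le_of (abs_nonneg _) (h43_pw (abs_nonneg _) ?_) a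
  intro f γ
  rw [ContinuousLinearMap.comp_apply, h43_D_apply S hs, ind_apply, norm_mul]
  split_ifs with h
  · refine mul_le_mul_of_nonneg_right ?_ (norm_nonneg _)
    rw [Complex.norm_real, Real.norm_eq_abs, abs_of_nonneg (sub_nonneg.2 (psi_le_one S hs γ))]
    exact (sub_le_sub_left (psi_lower S hs hδ h) 1).trans (le_abs_self _)
  · rw [norm_zero, mul_zero]
    exact mul_nonneg (abs_nonneg _) (norm_nonneg _)

private theorem h43_Set {a : UP (L2 G)} (ha : a ∈ UaSet S) :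
    Tendsto (fun s : ℝ => ‖UP.map (h43_D S s) a‖) (𝓝[>] 0) (𝓝 0) := by
  obtain ⟨-, δ, hδ, hW⟩ := ha
  have h1 : Tendsto (fun s : ℝ => |1 - δ ^ s| * ‖a‖) (𝓝[>] 0) (𝓝 0) := by
    have h2 : ContinuousAt (fun s : ℝ => |1 - δ ^ s| * ‖a‖) 0 := by
      have := Real.continuousAt_const_rpow (a := δ) (b := 0) hδ.ne'
      exact ((continuousAt_const.sub this).abs).mul continuousAt_const
    have h3 := h2.tendsto.mono_left (nhdsWithin_le_nhds (s := Set.Ioi 0))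
    simpa using h3
  refine squeeze_zero' (Eventually.of_forall fun s => norm_nonneg _) ?_ h1
  filter_upwards [self_mem_nhdsWithin] with s hs
  exact h43_D_W S hs hδ hW

theorem tendsto_psi {a : UP (L2 G)} (ha : a ∈ Ua S) :
    Tendsto (fun s : ℝ => ‖a - UP.map (mulop fun γ => (psi S s γ : ℂ)) a‖) (𝓝[>] 0) (𝓝 0) := by
  simp only [h43_map_D]
  have hspan : ∀ b ∈ Submodule.span ℂ (UaSet S),
      Tendsto (fun s : ℝ => ‖UP.map (h43_D S s) b‖) (𝓝[>] 0) (𝓝 0) := by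
    intro b hb
    induction hb using Submodule.span_induction with
    | mem x hx => exact h43_Set S hx
    | zero =>
      simp only [_root_.map_zero, norm_zero]
      exact tendsto_const_nhds
    | add x y _ _ hx hy =>
      refine squeeze_zero (fun s => norm_nonneg _) (fun s => ?_) (by simpa using hx.add hy)
      rw [_root_.map_add]
      exact norm_add_le _ _
    | smul c x _ hx =>
      have := hx.const_mul ‖c‖
      rw [mul_zero] at this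
      refine this.congr fun s => ?_
      rw [_root_.map_smul, norm_smul]
  rw [Metric.tendsto_nhds]
  intro ε hε
  have ha' : a ∈ closure ((Submodule.span ℂ (UaSet S) : Submodule ℂ (UP (L2 G))) : Set (UP (L2 G))) := ha
  obtain ⟨b, hb, hab⟩ := Metric.mem_closure_iff.1 ha' (ε / 2) (by positivity)
  have h1 := (Metric.tendsto_nhds.1 (hspan b hb)) (ε / 2) (by positivity)
  filter_upwards [h1, self_mem_nhdsWithin] with s h2 hs
  rw [dist_zero_right, Real.norm_eq_abs, abs_of_nonneg (norm_nonneg _)] at h2 ⊢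
  have h3 : UP.map (h43_D S s) a = UP.map (h43_D S s) (a - b) + UP.map (h43_D S s) b := by
    rw [← _root_.map_add, sub_add_cancel]
  rw [h3]
  have h4 := h43_D_le S hs (a - b)
  rw [dist_eq_norm] at hab
  calc _ ≤ ‖UP.map (h43_D S s) (a - b)‖ + ‖UP.map (h43_D S s) b‖ := norm_add_le _ _
    _ < ε / 2 + ε / 2 := by linarith
    _ = ε := by ring

theorem wall_tight {E : Emb Λ G} {ζ : Ua S} (hζ : IsCV (AU S) (BU S) E ζ) (h0 : ζ ≠ 0) {Q : Finset Λ} {κ : ℝ}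
    (hK : IsKazhdanPair Λ (Q : Set Λ) κ) :
    ∃ s : ℝ, 0 < s ∧ ∀ l : Λ, ‖ζ‖ ^ 2 / 2 ≤ (inner ℂ ((ext (AU S) E l ζ : Ua S) : UP (L2 G))
      (UP.map (mulop fun γ => (psi S s γ : ℂ)) ((ext (AU S) E l ζ : Ua S) : UP (L2 G)))).re := by
  classical
  have hκ : 0 < κ := hK.1
  have hζ0 : 0 < ‖ζ‖ := norm_pos_iff.2 h0
  obtain ⟨δ, hδ, hδ'⟩ : ∃ δ : ℝ, 0 < δ ∧ 1 / 2 ≤ 1 - δ - 4 * δ / κ := by
    refine ⟨1 / (2 * (1 + 4 / κ)), by positivity, ?_⟩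
    have : 1 / (2 * (1 + 4 / κ)) + 4 * (1 / (2 * (1 + 4 / κ))) / κ = 1 / 2 := by
      field_simp
    linarith
  -- the choice of `s`
  have hev : ∀ b : Ua S, ∀ᶠ s in 𝓝[>] (0 : ℝ),
      ‖(b : UP (L2 G)) - UP.map (mulop fun γ => (psi S s γ : ℂ)) b‖ ≤ δ ^ 2 / 2 * ‖ζ‖ := by
    intro b
    have h1 := tendsto_psi S b.2
    have h2 := h1.eventually (ge_mem_nhds (show (0 : ℝ) < δ ^ 2 / 2 * ‖ζ‖ by positivity))
    exact h2
  have hall : ∀ᶠ s in 𝓝[>] (0 : ℝ), ∀ q ∈ Q,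
      ‖((ext (AU S) E q ζ : Ua S) : UP (L2 G)) -
        UP.map (mulop fun γ => (psi S s γ : ℂ)) ((ext (AU S) E q ζ : Ua S) : UP (L2 G))‖ ≤
        δ ^ 2 / 2 * ‖ζ‖ := by
    rw [Filter.eventually_all_finset]
    intro q _
    exact hev _
  obtain ⟨s, hsQ, hsζ, hs⟩ := (hall.and ((hev ζ).and self_mem_nhdsWithin)).exists
  have hs : 0 < s := hs
  refine ⟨s, hs, ?_⟩
  obtain ⟨L, i1, i2, i3, Φ, hΦ⟩ := exists_fib_s s hs
  have hfun : (fun γ : G => inner ℂ (Φ.π (S.X γ) Φ.v) Φ.v) = fun γ => (psi S s γ : ℂ) := by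
    funext γ
    rw [← inner_conj_symm, hΦ _ (h43_det_ne S γ), Complex.conj_ofReal]
    rfl
  have hin : ∀ a b : Ua S, inner ℂ (TL S Φ a) (TR S Φ b) =
      inner ℂ (a : UP (L2 G)) (UP.map (mulop fun γ => (psi S s γ : ℂ)) (b : UP (L2 G))) := by
    intro a b
    rw [inner_TL_TR, hfun]
  have hdiff : ∀ b : Ua S, ‖b‖ ≤ ‖ζ‖ →
      ‖(b : UP (L2 G)) - UP.map (mulop fun γ => (psi S s γ : ℂ)) b‖ ≤ δ ^ 2 / 2 * ‖ζ‖ →
      ‖TL S Φ b - TR S Φ b‖ ≤ δ * ‖ζ‖ := by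
    intro b hb1 hb2
    refine (sq_le_sq₀ (norm_nonneg _) (by positivity)).1 ?_
    have h1 := norm_sub_sq (𝕜 := ℂ) (TL S Φ b) (TR S Φ b)
    rw [h1, LinearIsometry.norm_map, LinearIsometry.norm_map, hin]
    have h2 : (inner ℂ (b : UP (L2 G))
        ((b : UP (L2 G)) - UP.map (mulop fun γ => (psi S s γ : ℂ)) (b : UP (L2 G)))).re =
        ‖b‖ ^ 2 - (inner ℂ (b : UP (L2 G))
          (UP.map (mulop fun γ => (psi S s γ : ℂ)) (b : UP (L2 G)))).re := by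
      rw [inner_sub_right, Complex.sub_re]
      congr 1
      have := inner_self_eq_norm_sq (𝕜 := ℂ) (b : UP (L2 G))
      exact this
    have h3 : (inner ℂ (b : UP (L2 G))
        ((b : UP (L2 G)) - UP.map (mulop fun γ => (psi S s γ : ℂ)) (b : UP (L2 G)))).re ≤
        ‖b‖ * ‖(b : UP (L2 G)) - UP.map (mulop fun γ => (psi S s γ : ℂ)) b‖ :=
      (Complex.re_le_norm _).trans (norm_inner_le_norm _ _)
    have h4 : ‖b‖ * ‖(b : UP (L2 G)) - UP.map (mulop fun γ => (psi S s γ : ℂ)) b‖ ≤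
        ‖ζ‖ * (δ ^ 2 / 2 * ‖ζ‖) := mul_le_mul hb1 hb2 (norm_nonneg _) (norm_nonneg _)
    have h5 : RCLike.re (inner ℂ (b : UP (L2 G))
        (UP.map (mulop fun γ => (psi S s γ : ℂ)) (b : UP (L2 G)))) = (inner ℂ (b : UP (L2 G))
        (UP.map (mulop fun γ => (psi S s γ : ℂ)) (b : UP (L2 G)))).re := rfl
    rw [h5]
    nlinarith
  intro l
  have ht := tight (comm2_V S Φ) (TL S Φ) (TR S Φ) (TR_A S Φ) (TL_B S Φ) hζ hK hδ.le
    (fun q hq => hdiff _ (norm_ext_le (AU S) E q ζ) (hsQ q hq)) (hdiff ζ le_rfl hsζ) l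
  rw [hin] at ht
  refine le_trans ?_ ht
  have : ‖ζ‖ ^ 2 / 2 = 1 / 2 * ‖ζ‖ ^ 2 := by ring
  rw [this]
  exact mul_le_mul_of_nonneg_right hδ' (sq_nonneg _)

end Pool.Agent.Helper84.NI
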