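import Pool.Agent.Helper84.NI.WG
import Pool.Agent.Helper84.NI.FB
import Pool.Agent.Helper84.NI.HU

/-!
# Project NI, block WH: the central vector in the second wall space

PROOFS. `compare`: `β γ = Re ⟪v, π(X_γ) v⟫ > 0` (`pos`, `X_det`). With `r = s1/s0 ∈ (0, 1]`: `psi_s ≤ (2 r)^s` (base `2 r/(1+r^2)`), so there is `r0 > 0` (`r0 ≤ 1`) with `psi_s ≤ ε` when `r < r0`; for `r ≥ r0`,
`s0 • X_γ = diag(1, s0/s1) ∈ Kc (max 1 (1/r0)) 1` (`X_compact`), and `C ↦ Re ⟪v, π(C) v⟫` is continuous and positive on this compact set (`cont`, `pos`), so `≥ c > 0` there, and `β γ ≥ c` (`scal`): `psi ≤ 1 ≤ (1/c) β`.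
`wall_central`: `wall_tight` gives `s`; with `ε = 1/4` and `C` from `compare`: for `b = ext .. l ζ`, `‖b‖ = ‖ζ‖`: `‖ζ‖^2/2 ≤ ⟪b, Ψ_s b⟫ ≤ (1/4)‖b‖^2 + C Re ⟪b, Ψ_B b⟫` (multiplication by the nonnegative function
`1/4 + C β - psi` is a positive operator; pass to the ultrapower with `UP.induction` and `le_of_tendsto`), so `Re ⟪TL b, TR b⟫ = Re ⟪b, Ψ_B b⟫ ≥ ‖ζ‖^2/(4 C) =: c1 > 0` (`inner_TL_TR`; `C > 0` may be assumed). Now `hull`.
-/

set_option autoImplicit false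

open Filter Topology Matrix

namespace Pool.Agent.Helper84.NI

open GVN

variable {G Λ : Type} [Group G] [Group Λ] {P : PHom G} (S : Svd P)
  {L : Type} [NormedAddCommGroup L] [InnerProductSpace ℂ L] [CompleteSpace L]

private theorem wh_base (γ : G) : 2 * ‖(S.X γ).det‖ / ns (S.X γ) ≤ 2 * (S.s γ 1 / S.s γ 0) := by
  have a0 := S.pos0 γ
  have a1 := S.pos1 γ
  have hd : ‖(S.X γ).det‖ = (S.s γ 0)⁻¹ * (S.s γ 1)⁻¹ := by
    unfold Svd.X
    rw [Matrix.det_diagonal, Fin.prod_univ_two]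
    simp only [Matrix.cons_val_zero, Matrix.cons_val_one]
    rw [norm_mul, norm_inv, norm_inv, Complex.norm_real, Complex.norm_real,
      Real.norm_of_nonneg a0.le, Real.norm_of_nonneg a1.le]
  have hn : ns (S.X γ) = ((S.s γ 0)⁻¹) ^ 2 + ((S.s γ 1)⁻¹) ^ 2 := by
    unfold ns Svd.X
    rw [Fin.sum_univ_two, Fin.sum_univ_two, Fin.sum_univ_two]
    simp only [Matrix.diagonal_apply_eq, Matrix.cons_val_zero, Matrix.cons_val_one]
    rw [Matrix.diagonal_apply_ne _ (by decide), Matrix.diagonal_apply_ne _ (by decide),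
      norm_inv, norm_inv, Complex.norm_real, Complex.norm_real,
      Real.norm_of_nonneg a0.le, Real.norm_of_nonneg a1.le, norm_zero]
    ring
  rw [hd, hn, div_le_iff₀ (by positivity)]
  have h1 : 2 * (S.s γ 1 / S.s γ 0) * ((S.s γ 0)⁻¹ ^ 2 + (S.s γ 1)⁻¹ ^ 2) =
      2 * ((S.s γ 0)⁻¹ * (S.s γ 1)⁻¹) + 2 * (S.s γ 1 / S.s γ 0) * (S.s γ 0)⁻¹ ^ 2 := by
    field_simp
    ring
  rw [h1]
  have h2 : 0 ≤ 2 * (S.s γ 1 / S.s γ 0) * (S.s γ 0)⁻¹ ^ 2 := by positivity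
  linarith

theorem compare (Ψ : FibM L) {s ε : ℝ} (hs : 0 < s) (hε : 0 < ε) :
    ∃ C : ℝ, 0 < C ∧ ∀ γ, psi S s γ ≤ ε + C * (inner ℂ (Ψ.Φ.π (S.X γ) Ψ.Φ.v) Ψ.Φ.v).re := by
  have hre : ∀ C : M2, (inner ℂ (Ψ.Φ.π C Ψ.Φ.v) Ψ.Φ.v : ℂ).re =
      (inner ℂ Ψ.Φ.v (Ψ.Φ.π C Ψ.Φ.v) : ℂ).re := by
    intro C
    rw [← inner_conj_symm, Complex.conj_re]
  have hβ : ∀ γ, 0 < (inner ℂ (Ψ.Φ.π (S.X γ) Ψ.Φ.v) Ψ.Φ.v : ℂ).re := by
    intro γ
    rw [hre]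
    exact Ψ.pos _ (S.X_det γ)
  set δ : ℝ := ε ^ (1 / s) / 2 with hδd
  have hεs : 0 < ε ^ (1 / s) := Real.rpow_pos_of_pos hε _
  have hδ : 0 < δ := by positivity
  -- far from the wall
  have hfar : ∀ γ, γ ∉ S.W δ → psi S s γ ≤ ε := by
    intro γ hγ
    have a0 := S.pos0 γ
    have a1 := S.pos1 γ
    have h1 : S.s γ 1 < δ * S.s γ 0 := not_le.1 hγ
    have h2 : 2 * ‖(S.X γ).det‖ / ns (S.X γ) ≤ ε ^ (1 / s) := by
      refine (wh_base S γ).trans ?_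
      have h3 : S.s γ 1 / S.s γ 0 ≤ δ := by
        rw [div_le_iff₀ a0]
        exact h1.le
      calc 2 * (S.s γ 1 / S.s γ 0) ≤ 2 * δ := by linarith
        _ = ε ^ (1 / s) := by rw [hδd]; ring
    have h0 : 0 ≤ 2 * ‖(S.X γ).det‖ / ns (S.X γ) := by
      refine div_nonneg (by positivity) ?_
      unfold ns
      exact Finset.sum_nonneg fun i _ => Finset.sum_nonneg fun j _ => sq_nonneg _
    unfold psi
    calc (2 * ‖(S.X γ).det‖ / ns (S.X γ)) ^ s ≤ (ε ^ (1 / s)) ^ s :=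
          Real.rpow_le_rpow h0 h2 hs.le
      _ = ε := by
          rw [← Real.rpow_mul hε.le, one_div, inv_mul_cancel₀ hs.ne', Real.rpow_one]
  -- near the wall
  obtain ⟨c, hc, hnear⟩ : ∃ c : ℝ, 0 < c ∧ ∀ γ ∈ S.W δ,
      c ≤ (inner ℂ (Ψ.Φ.π (S.X γ) Ψ.Φ.v) Ψ.Φ.v : ℂ).re := by
    by_cases hne : (Kc (max 1 (1 / δ)) 1).Nonempty
    · have hK := isCompact_Kc (max 1 (1 / δ)) 1
      have hcont : ContinuousOn (fun C : M2 => (inner ℂ Ψ.Φ.v (Ψ.Φ.π C Ψ.Φ.v) : ℂ).re)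
          (Kc (max 1 (1 / δ)) 1) := by
        have h1 : ContinuousOn (fun C : M2 => Ψ.Φ.π C Ψ.Φ.v) (Kc (max 1 (1 / δ)) 1) :=
          (Ψ.Φ.cont Ψ.Φ.v).mono (Kc_det one_pos)
        have h2 : Continuous fun w : L => (inner ℂ Ψ.Φ.v w : ℂ).re :=
          Complex.continuous_re.comp (continuous_const.inner continuous_id)
        exact h2.comp_continuousOn h1
      obtain ⟨C0, hC0, hmin⟩ := hK.exists_isMinOn hne hcont
      refine ⟨_, Ψ.pos C0 (Kc_det one_pos hC0), fun γ hγ => ?_⟩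
      have h0 : (S.s γ 0 : ℂ) ≠ 0 := by exact_mod_cast (S.pos0 γ).ne'
      rw [hre, ← Ψ.Φ.scal (S.s γ 0 : ℂ) (S.X γ) h0 (S.X_det γ)]
      exact hmin (S.X_compact hδ hγ)
    · refine ⟨1, one_pos, fun γ hγ => ?_⟩
      exact absurd ⟨_, S.X_compact hδ hγ⟩ hne
  refine ⟨1 / c, by positivity, fun γ => ?_⟩
  by_cases hγ : γ ∈ S.W δ
  · have h1 := hnear γ hγ
    have h2 : 1 ≤ 1 / c * (inner ℂ (Ψ.Φ.π (S.X γ) Ψ.Φ.v) Ψ.Φ.v : ℂ).re := by
      rw [one_div, inv_mul_eq_div, le_div_iff₀ hc, one_mul]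
      exact h1
    linarith [psi_le_one S hs γ]
  · have h1 := hfar γ hγ
    have h2 : 0 ≤ 1 / c * (inner ℂ (Ψ.Φ.π (S.X γ) Ψ.Φ.v) Ψ.Φ.v : ℂ).re :=
      mul_nonneg (by positivity) (hβ γ).le
    linarith

omit [Group G] in
private theorem wh_mulop {f : G → ℂ} (hf : ∀ γ, ‖f γ‖ ≤ 1) (x : L2 G) :
    HasSum (fun γ => (f γ).re * ‖x γ‖ ^ 2) (inner ℂ x (mulop f x)).re := by
  have h1 : HasSum (fun γ => inner ℂ (x γ) (mulop f x γ)) (inner ℂ x (mulop f x)) :=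
    lv_inner x (mulop f x)
  have h2 := Complex.reCLM.hasSum h1
  have h3 : (fun γ => Complex.reCLM (inner ℂ (x γ) (mulop f x γ))) =
      fun γ => (f γ).re * ‖x γ‖ ^ 2 := by
    funext γ
    have hC : ∀ (i : G) (y : ℂ), ‖(f i • ContinuousLinearMap.id ℂ ℂ) y‖ ≤ 1 * ‖y‖ := by
      intro i y
      rw [_root_.smul_apply, ContinuousLinearMap.id_apply, norm_smul]
      exact mul_le_mul_of_nonneg_right (hf i) (norm_nonneg _)
    have h4 : mulop f x γ = f γ * x γ := by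
      unfold mulop
      rw [dg_apply hC, _root_.smul_apply, ContinuousLinearMap.id_apply, smul_eq_mul]
    rw [h4]
    change (inner ℂ (x γ) (f γ * x γ) : ℂ).re = _
    rw [← smul_eq_mul, inner_smul_right, inner_self_eq_norm_sq_to_K]
    have : ((‖x γ‖ : ℂ)) ^ 2 = ((‖x γ‖ ^ 2 : ℝ) : ℂ) := by push_cast; rfl
    change (f γ * ((‖x γ‖ : ℂ)) ^ 2).re = _
    rw [this, Complex.re_mul_ofReal]
  rw [h3] at h2
  exact h2

private theorem wh_compare {f β : G → ℂ} (hf : ∀ γ, ‖f γ‖ ≤ 1) (hβ : ∀ γ, ‖β γ‖ ≤ 1) {ε C : ℝ}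
    (h : ∀ γ, (f γ).re ≤ ε + C * (β γ).re) (b : UP (L2 G)) :
    (inner ℂ b (UP.map (mulop f) b)).re ≤ ε * ‖b‖ ^ 2 + C * (inner ℂ b (UP.map (mulop β) b)).re := by
  refine UP.induction (p := fun b => (inner ℂ b (UP.map (mulop f) b)).re ≤
    ε * ‖b‖ ^ 2 + C * (inner ℂ b (UP.map (mulop β) b)).re) b ?_ (fun x => ?_)
  · refine isClosed_le ?_ ?_
    · exact Complex.continuous_re.comp (continuous_id.inner (UP.map (mulop f)).continuous)
    · exact (continuous_const.mul (continuous_norm.pow 2)).add (continuous_const.mul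
        (Complex.continuous_re.comp (continuous_id.inner (UP.map (mulop β)).continuous)))
  · have t1 := (Complex.continuous_re.tendsto _).comp (UP.tendsto_inner x (BSeq.map (mulop f) x))
    have t2 := (Complex.continuous_re.tendsto _).comp (UP.tendsto_inner x (BSeq.map (mulop β) x))
    have t3 := ((UP.tendsto_norm x).pow 2).const_mul ε
    have t4 := t3.add (t2.const_mul C)
    rw [UP.map_mk, UP.map_mk]
    refine le_of_tendsto_of_tendsto' t1 t4 fun n => ?_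
    change (inner ℂ (x.1 n) (mulop f (x.1 n))).re ≤
      ε * ‖x.1 n‖ ^ 2 + C * (inner ℂ (x.1 n) (mulop β (x.1 n))).re
    have s1 := wh_mulop hf (x.1 n)
    have s2 := wh_mulop hβ (x.1 n)
    have s3 := (lv_hasSum (x.1 n)).mul_left ε
    refine hasSum_le (fun γ => ?_) s1 (s3.add (s2.mul_left C))
    have h0 : 0 ≤ ‖x.1 n γ‖ ^ 2 := sq_nonneg _
    have h1 := mul_le_mul_of_nonneg_right (h γ) h0
    linarith

theorem wall_central (Ψ : FibM L) {E : Emb Λ G} {ζ : Ua S} (hζ : IsCV (AU S) (BU S) E ζ) (h0 : ζ ≠ 0)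
    {Q : Finset Λ} {κ : ℝ} (hK : IsKazhdanPair Λ (Q : Set Λ) κ) :
    ∃ η : Vp S (L := L), η ≠ 0 ∧ η ∈ VB (AV S Ψ.Φ) ∧ Bdd (BV S Ψ.Φ) 1 η ∧
      Central (AV S Ψ.Φ) (BV S Ψ.Φ) E η := by
  obtain ⟨s, hs, hT⟩ := wall_tight S hζ h0 hK
  obtain ⟨C, hC, hcmp⟩ := compare S Ψ hs (ε := 1 / 4) (by norm_num)
  have hn : 0 < ‖ζ‖ := norm_pos_iff.2 h0
  have hc1 : 0 < ‖ζ‖ ^ 2 / (4 * C) := by positivity
  refine hull (comm2_V S Ψ.Φ) (TL S Ψ.Φ) (TR S Ψ.Φ) (TR_A S Ψ.Φ) (TL_B S Ψ.Φ) hζ hc1 fun l => ?_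
  rw [inner_TL_TR]
  set b : UP (L2 G) := ((ext (AU S) E l ζ : Ua S) : UP (L2 G)) with hb
  have hbn : ‖b‖ = ‖ζ‖ := by
    have h1 : ‖ext (AU S) E l ζ‖ = ‖ζ‖ := norm_ext E l hζ.bA.mem_VB
    rw [hb]
    exact h1
  have h1 := wh_compare (f := fun γ => (psi S s γ : ℂ))
    (β := fun γ => inner ℂ (Ψ.Φ.π (S.X γ) Ψ.Φ.v) Ψ.Φ.v) (ε := 1 / 4) (C := C) (by
      intro γ
      rw [Complex.norm_real, Real.norm_of_nonneg (psi_nonneg S s γ)]
      exact psi_le_one S hs γ) (by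
      intro γ
      refine (norm_inner_le_norm _ _).trans ?_
      rw [LinearIsometryEquiv.norm_map, Ψ.Φ.nv, mul_one]) (by
      intro γ
      rw [Complex.ofReal_re]
      exact hcmp γ) b
  have h2 := hT l
  rw [hbn] at h1
  rw [div_le_iff₀ (by positivity)]
  linarith

end Pool.Agent.Helper84.NI
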