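import Pool.Agent.Helper84.NI.Abs
import Pool.Agent.Helper84.NI.Vec
import Pool.Agent.Helper84.NI.Geo

/-!
# Project NI (MP_0f6f3f_an): the wall spaces (definitions)

`Fib L`: a fibre representation of `GL(2, ℂ)` (defined on invertible matrices, trivial on scalars, with a `U(2)`-invariant unit
vector). `Uz G ⊂ UP (ℓ²(G))`: vectors without mass on finite sets; `Ua S`: closure of the vectors of `Uz` carried by some `W δ`.
`Vp S Φ ⊂ UP (ℓ²(G; L))`: closed span of the `a ⊗ w`, `a ∈ Ua S`, `w ∈ L`. `What S Φ g h`: the operator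
`(W(g,h) ξ)(γ) = π(C_{g,h}(γ)) ξ(g⁻¹ γ h)`.
-/

set_option autoImplicit false

open Filter Topology Matrix

namespace Pool.Agent.Helper84.NI

open GVN

/-- Fibre representation. -/
structure Fib (L : Type) [NormedAddCommGroup L] [InnerProductSpace ℂ L] where
  /-- the representation of invertible matrices -/
  π : M2 → (L ≃ₗᵢ[ℂ] L)
  mul : ∀ C D : M2, C.det ≠ 0 → D.det ≠ 0 → ∀ w, π (C * D) w = π C (π D w)
  scal : ∀ (c : ℂ) (C : M2), c ≠ 0 → C.det ≠ 0 → π (c • C) = π C
  cont : ∀ w, ContinuousOn (fun C => π C w) {C : M2 | C.det ≠ 0}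
  /-- the invariant unit vector -/
  v : L
  nv : ‖v‖ = 1
  inv : ∀ k : M2, IsU k → π k v = v

section Wall

variable (G : Type) [Group G]

/-- The map `γ ↦ g⁻¹ γ h` as a permutation; `permV (tr g h)` sends `ξ` to `γ ↦ ξ (g⁻¹ γ h)`. -/
def tr {G : Type} [Group G] (g h : G) : G ≃ G where
  toFun γ := g * γ * h⁻¹
  invFun γ := g⁻¹ * γ * h
  left_inv γ := by group
  right_inv γ := by group

theorem permV_tr {G : Type} [Group G] {L : Type} [NormedAddCommGroup L] [InnerProductSpace ℂ L]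
    (g h : G) (ξ : Lv G L) (γ : G) : permV (tr g h) ξ γ = ξ (g⁻¹ * γ * h) := rfl

/-- The vectors of the ultrapower of `ℓ²(G)` without mass on finite sets. -/
noncomputable def Uz : Submodule ℂ (UP (L2 G)) where
  carrier := {ξ | ∀ F : Set G, F.Finite → UP.map (ind ℂ F) ξ = 0}
  add_mem' := by
    intro a b ha hb F hF
    rw [map_add, ha F hF, hb F hF, add_zero]
  zero_mem' := fun F _ => map_zero _
  smul_mem' := by
    intro c x hx F hF
    rw [map_smul, hx F hF, smul_zero]

variable {G} {P : PHom G} (S : Svd P)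

/-- The vectors carried by some `W δ`. -/
def UaSet : Set (UP (L2 G)) := {ξ | ξ ∈ Uz G ∧ ∃ δ : ℝ, 0 < δ ∧ UP.map (ind ℂ (S.W δ)) ξ = ξ}

/-- The wall part of the limit space. -/
noncomputable def Ua : Submodule ℂ (UP (L2 G)) := (Submodule.span ℂ (UaSet S)).topologicalClosure

variable {L : Type} [NormedAddCommGroup L] [InnerProductSpace ℂ L]

/-- The wall space with fibre `L`. -/
noncomputable def Vp : Submodule ℂ (UP (Lv G L)) :=
  (Submodule.span ℂ {ξ | ∃ (w : L) (a : UP (L2 G)), a ∈ Ua S ∧ ξ = UP.map (mulF fun _ => w) a}).topologicalClosure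

/-- The operator `(ξ_γ) ↦ (π(C_{g,h}(γ)) ξ_{g⁻¹ γ h})` on `ℓ²(G; L)`. -/
noncomputable def What (Φ : Fib L) (g h : G) : Lv G L ≃ₗᵢ[ℂ] Lv G L :=
  (permV (tr g h)).trans (dgU fun γ => Φ.π (S.C g h γ))

theorem What_apply (Φ : Fib L) (g h : G) (ξ : Lv G L) (γ : G) :
    What S Φ g h ξ γ = Φ.π (S.C g h γ) (ξ (g⁻¹ * γ * h)) := rfl

end Wall

instance instCompUa {G : Type} [Group G] {P : PHom G} (S : Svd P) : CompleteSpace (Ua S) :=
  (Submodule.isClosed_topologicalClosure _).completeSpace_coe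

instance instCompVp {G : Type} [Group G] {P : PHom G} (S : Svd P) (L : Type) [NormedAddCommGroup L]
    [InnerProductSpace ℂ L] : CompleteSpace (Vp S (L := L)) :=
  (Submodule.isClosed_topologicalClosure _).completeSpace_coe

end Pool.Agent.Helper84.NI
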