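import Pool.Agent.Helper84.NI.GB

/-!
# Project NI, block XA: frames over the wall

`rot x` (for `x ∈ ℂ² ∖ 0`): the matrix with columns `e_2`, `(x0, x1, 0)/|x|`, `(-conj x1, conj x0, 0)/|x|`. `S.fr γ x = kR γ * rot x`.
PROOFS. `rot_unitary`: direct. `rot_smul`: `rot (c • x) = rot x * diag(1, c/|c|, conj c/|c|)`. `fr_entries`: `(fr γ x)ᴴ ι h (fr γ'' y) = (rot x)ᴴ m (rot y)`, `m = S.m g h γ`, `γ'' = g⁻¹ γ h`. Entry
`(1, 0)`: `∑_{i<2} conj(x_i)/|x| m_{i2}`; entry `(2, 0)`: `(-x1 m_{02} + x0 m_{12})/|x|`; entry `(2, 1)`: `⟪x^⊥/|x|, C y/|y|⟫ = 0` because `C y` is a multiple of `x` (`C y = z⁻¹ x`).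
-/

set_option autoImplicit false

open Filter Topology Matrix

namespace Pool.Agent.Helper84.NI

variable {G : Type} [Group G] {P : PHom G}

/-- The norm of a vector of `ℂ²`. -/
noncomputable def nv2 (x : Fin 2 → ℂ) : ℝ := Real.sqrt (‖x 0‖ ^ 2 + ‖x 1‖ ^ 2)

theorem nv2_pos {x : Fin 2 → ℂ} (hx : x ≠ 0) : 0 < nv2 x := by
  refine Real.sqrt_pos.mpr ?_
  by_contra hle
  push Not at hle
  apply hx
  have h0 : ‖x 0‖ ^ 2 = 0 := by nlinarith [sq_nonneg ‖x 0‖, sq_nonneg ‖x 1‖]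
  have h1 : ‖x 1‖ ^ 2 = 0 := by nlinarith [sq_nonneg ‖x 0‖, sq_nonneg ‖x 1‖]
  funext i
  fin_cases i
  · exact norm_eq_zero.mp (pow_eq_zero_iff (two_ne_zero)|>.mp h0)
  · exact norm_eq_zero.mp (pow_eq_zero_iff (two_ne_zero)|>.mp h1)

theorem nv2_sq (x : Fin 2 → ℂ) : nv2 x ^ 2 = ‖x 0‖ ^ 2 + ‖x 1‖ ^ 2 :=
  Real.sq_sqrt (by positivity)

theorem nv2_sq' (x : Fin 2 → ℂ) :
    (nv2 x : ℂ) ^ 2 = starRingEnd ℂ (x 0) * x 0 + starRingEnd ℂ (x 1) * x 1 := by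
  have h := congrArg (fun r : ℝ => (r : ℂ)) (nv2_sq x)
  push_cast at h
  rw [Complex.conj_mul', Complex.conj_mul', h]

theorem norm_le_nv2 (x : Fin 2 → ℂ) (i : Fin 2) : ‖x i‖ ≤ nv2 x := by
  refine Real.le_sqrt_of_sq_le ?_
  fin_cases i
  · simp
  · simp

theorem nv2_smul (c : ℂ) (x : Fin 2 → ℂ) : nv2 (c • x) = ‖c‖ * nv2 x := by
  unfold nv2
  rw [Pi.smul_apply, Pi.smul_apply, norm_smul, norm_smul, mul_pow, mul_pow, ← mul_add,
    Real.sqrt_mul (by positivity), Real.sqrt_sq (norm_nonneg _)]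

/-- The frame of `ℂ³` given by a vector of `ℂ²`. -/
noncomputable def rot (x : Fin 2 → ℂ) : M3 :=
  !![0, x 0 / (nv2 x : ℂ), -(starRingEnd ℂ (x 1)) / (nv2 x : ℂ);
     0, x 1 / (nv2 x : ℂ), (starRingEnd ℂ (x 0)) / (nv2 x : ℂ);
     1, 0, 0]

theorem rot_unitary {x : Fin 2 → ℂ} (hx : x ≠ 0) : IsU (rot x) := by
  have hn : (nv2 x : ℂ) ≠ 0 := by exact_mod_cast (nv2_pos hx).ne'
  have h2 := nv2_sq' x
  unfold IsU
  ext i j
  rw [Matrix.mul_apply, Fin.sum_univ_three]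
  fin_cases i <;> fin_cases j <;> simp [rot, Matrix.conjTranspose_apply] <;> field_simp
  · rw [h2]
  · ring
  · ring
  · rw [h2]; ring

theorem rot_smul {x : Fin 2 → ℂ} (hx : x ≠ 0) {c : ℂ} (hc : c ≠ 0) :
    rot (c • x) = rot x * diagonal ![1, c / (‖c‖ : ℂ), starRingEnd ℂ c / (‖c‖ : ℂ)] := by
  have hn : (nv2 x : ℂ) ≠ 0 := by exact_mod_cast (nv2_pos hx).ne'
  have hc' : (‖c‖ : ℂ) ≠ 0 := by exact_mod_cast (norm_ne_zero_iff.mpr hc)
  ext i j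
  rw [Matrix.mul_diagonal]
  unfold rot
  rw [nv2_smul]
  push_cast
  fin_cases i <;> fin_cases j <;> simp <;> field_simp

theorem nv2_continuous : Continuous nv2 := by
  unfold nv2
  fun_prop

theorem rot_continuous : ContinuousOn rot {x | x ≠ 0} := by
  have hn : ContinuousOn (fun x : Fin 2 → ℂ => (nv2 x : ℂ)) {x | x ≠ 0} :=
    (Complex.continuous_ofReal.comp nv2_continuous).continuousOn
  have hn0 : ∀ x ∈ {x : Fin 2 → ℂ | x ≠ 0}, (nv2 x : ℂ) ≠ 0 := fun x hx => by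
    exact_mod_cast (nv2_pos hx).ne'
  have c0 : ContinuousOn (fun x : Fin 2 → ℂ => x 0) {x | x ≠ 0} := (continuous_apply 0).continuousOn
  have c1 : ContinuousOn (fun x : Fin 2 → ℂ => x 1) {x | x ≠ 0} := (continuous_apply 1).continuousOn
  have d0 : ContinuousOn (fun x : Fin 2 → ℂ => starRingEnd ℂ (x 0)) {x | x ≠ 0} :=
    (Complex.continuous_conj.comp (continuous_apply 0)).continuousOn
  have d1 : ContinuousOn (fun x : Fin 2 → ℂ => starRingEnd ℂ (x 1)) {x | x ≠ 0} :=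
    (Complex.continuous_conj.comp (continuous_apply 1)).continuousOn
  refine continuousOn_pi.mpr fun i => continuousOn_pi.mpr fun j => ?_
  fin_cases i <;> fin_cases j
  · exact continuousOn_const
  · exact c0.div hn hn0
  · exact d1.neg.div hn hn0
  · exact continuousOn_const
  · exact c1.div hn hn0
  · exact d0.div hn hn0
  · exact continuousOn_const
  · exact continuousOn_const
  · exact continuousOn_const

/-- The frame over `(γ, x)`. -/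
noncomputable def Svd.fr (S : Svd P) (γ : G) (x : Fin 2 → ℂ) : M3 := S.kR γ * rot x

theorem Svd.fr_unitary (S : Svd P) (γ : G) {x : Fin 2 → ℂ} (hx : x ≠ 0) : IsU (S.fr γ x) :=
  (S.uR γ).mul (rot_unitary hx)

theorem Svd.fr_mul (S : Svd P) (g h γ : G) (x y : Fin 2 → ℂ) :
    (S.fr γ x)ᴴ * P.ι h * S.fr (g⁻¹ * γ * h) y = (rot x)ᴴ * S.m g h γ * rot y := by
  unfold Svd.fr Svd.m
  rw [Matrix.conjTranspose_mul]
  simp only [mul_assoc]

theorem rot_entries (m : M3) {x y : Fin 2 → ℂ} (hx : x ≠ 0) (hy : y ≠ 0) {z : ℂ} (hz : z ≠ 0)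
    (h0 : x 0 = z * (m 0 0 * y 0 + m 0 1 * y 1)) (h1 : x 1 = z * (m 1 0 * y 0 + m 1 1 * y 1))
    (i j : Fin 3) (hij : j < i) : ‖((rot x)ᴴ * m * rot y) i j‖ ≤ ‖m 0 2‖ + ‖m 1 2‖ := by
  have hn : (nv2 x : ℂ) ≠ 0 := by exact_mod_cast (nv2_pos hx).ne'
  have hn' : (nv2 y : ℂ) ≠ 0 := by exact_mod_cast (nv2_pos hy).ne'
  have hnx := nv2_pos hx
  have q0 : ‖x 0 / (nv2 x : ℂ)‖ ≤ 1 := by
    rw [norm_div, Complex.norm_real, Real.norm_of_nonneg hnx.le, div_le_one hnx]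
    exact norm_le_nv2 x 0
  have q1 : ‖x 1 / (nv2 x : ℂ)‖ ≤ 1 := by
    rw [norm_div, Complex.norm_real, Real.norm_of_nonneg hnx.le, div_le_one hnx]
    exact norm_le_nv2 x 1
  have p0 : ‖starRingEnd ℂ (x 0) / (nv2 x : ℂ)‖ ≤ 1 := by
    rw [norm_div, RCLike.norm_conj, ← norm_div]
    exact q0
  have p1 : ‖starRingEnd ℂ (x 1) / (nv2 x : ℂ)‖ ≤ 1 := by
    rw [norm_div, RCLike.norm_conj, ← norm_div]
    exact q1
  have hE : ∀ i j, ((rot x)ᴴ * m * rot y) i j = ∑ q, (∑ p, starRingEnd ℂ (rot x p i) * m p q) * rot y q j := by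
    intro i j
    rw [Matrix.mul_apply]
    refine Finset.sum_congr rfl fun q _ => ?_
    rw [Matrix.mul_apply]
    rfl
  have cases : (i = 1 ∧ j = 0) ∨ (i = 2 ∧ j = 0) ∨ (i = 2 ∧ j = 1) := by
    fin_cases i <;> fin_cases j <;> simp_all
  rcases cases with ⟨rfl, rfl⟩ | ⟨rfl, rfl⟩ | ⟨rfl, rfl⟩
  · have e : ((rot x)ᴴ * m * rot y) 1 0 =
        starRingEnd ℂ (x 0) / (nv2 x : ℂ) * m 0 2 + starRingEnd ℂ (x 1) / (nv2 x : ℂ) * m 1 2 := by
      rw [hE]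
      simp [Fin.sum_univ_three, rot]
    rw [e]
    refine (norm_add_le _ _).trans (add_le_add ?_ ?_)
    · rw [norm_mul]
      exact mul_le_of_le_one_left (norm_nonneg _) p0
    · rw [norm_mul]
      exact mul_le_of_le_one_left (norm_nonneg _) p1
  · have e : ((rot x)ᴴ * m * rot y) 2 0 =
        -(x 1 / (nv2 x : ℂ) * m 0 2) + x 0 / (nv2 x : ℂ) * m 1 2 := by
      rw [hE]
      simp [Fin.sum_univ_three, rot]
      ring
    rw [e]
    refine (norm_add_le _ _).trans (add_le_add ?_ ?_)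
    · rw [norm_neg, norm_mul]
      exact mul_le_of_le_one_left (norm_nonneg _) q1
    · rw [norm_mul]
      exact mul_le_of_le_one_left (norm_nonneg _) q0
  · have e : ((rot x)ᴴ * m * rot y) 2 1 = 0 := by
      rw [hE]
      have e1 : ∑ q, (∑ p, starRingEnd ℂ (rot x p 2) * m p q) * rot y q 1 =
          (-(x 1) * (m 0 0 * y 0 + m 0 1 * y 1) + x 0 * (m 1 0 * y 0 + m 1 1 * y 1)) /
            ((nv2 x : ℂ) * (nv2 y : ℂ)) := by
        simp [Fin.sum_univ_three, rot]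
        field_simp
        ring
      rw [e1, h0, h1]
      have e2 : -(z * (m 1 0 * y 0 + m 1 1 * y 1)) * (m 0 0 * y 0 + m 0 1 * y 1) +
          z * (m 0 0 * y 0 + m 0 1 * y 1) * (m 1 0 * y 0 + m 1 1 * y 1) = 0 := by ring
      rw [e2, zero_div]
    rw [e, norm_zero]
    positivity

theorem Svd.fr_entries (S : Svd P) (g h γ : G) {x y : Fin 2 → ℂ} (hx : x ≠ 0) (hy : y ≠ 0) {z : ℂ}
    (hz : z ≠ 0) (hxy : x = z • (S.C g h γ *ᵥ y)) (i j : Fin 3) (hij : j < i) :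
    ‖((S.fr γ x)ᴴ * P.ι h * S.fr (g⁻¹ * γ * h) y) i j‖ ≤ ‖S.m g h γ 0 2‖ + ‖S.m g h γ 1 2‖ := by
  rw [S.fr_mul]
  refine rot_entries _ hx hy hz ?_ ?_ i j hij
  · have h0 := congrFun hxy 0
    rw [h0, Pi.smul_apply, smul_eq_mul, Matrix.mulVec, dotProduct, Fin.sum_univ_two]
    rfl
  · have h0 := congrFun hxy 1
    rw [h0, Pi.smul_apply, smul_eq_mul, Matrix.mulVec, dotProduct, Fin.sum_univ_two]
    rfl

end Pool.Agent.Helper84.NI
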