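import Pool.Agent.Helper84.NI.XB
import Pool.Agent.Helper84.NI.WA

/-!
# Project NI, block XC: compactness of the multipliers, carriers

PROOFS. `mu_norm_le`: `‖mu m f‖ ≤ ‖f‖` for `Hm m`, `|m x| ≤ 1`: `sq1` with the two functions `m`, `√(1 - m^2)`. `mu_zero`: `sq1` for `{1}` and for `{1, 0}`.
`mt_compact`: for unitary `k` let `f k = mu (x ↦ √(κ (k * rot x) t)) w` (this is `mu (mt D S γ t) w` for `k = kR γ`). `f` is continuous on the compact set of unitary matrices: `sq2` with one index:
`‖f k - f k'‖^2 ≤ a ‖w‖^2`, `a = sup_x (√κ(k rot x) t - √κ(k' rot x) t)^2 ≤ sup_x |κ(k rot x) t - κ(k' rot x) t| ≤ ε'` if the entries of `(k rot x)ᴴ (k' rot x) = (rot x)ᴴ (kᴴ k') (rot x)`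
below the diagonal are `≤ d'`; as `kᴴ k' → 1` this holds uniformly in `x` (`rot x` unitary: `(rot x)ᴴ (kᴴ k' - 1) rot x` has the same `ns`). So the image is compact. (`Hm` of these functions: as in `mt_hm`; take an
auxiliary `Svd` with `kR` replaced, or reprove; if convenient first prove `Hm (fun x => √(D.κ (k * rot x) t))` for all unitary `k`.) For `t ∉ supp` the function is zero.
`carrier`: a vector `UP.map (mulF fun _ => w) a` with `a ∈ UaSet` satisfies `UP.map (ind L (W δ ∖ E)) ξ = ξ` for finite `E` (`ind L A (mulF F f) = mulF F (ind ℂ A f)`); finite sums of such vectors (take the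
smallest `δ`: `W_mono`); these are dense in `Vp S`.
-/

set_option autoImplicit false

open Filter Topology Matrix

namespace Pool.Agent.Helper84.NI

open GVN

variable {G : Type} [Group G] {P : PHom G} {Q : Finset G} {ε : ℝ}
  {L : Type} [NormedAddCommGroup L] [InnerProductSpace ℂ L]

private theorem xc_hm_const (c : ℝ) : Hm (fun _ : Fin 2 → ℂ => c) :=
  ⟨measurable_const, ⟨|c|, fun _ => le_rfl⟩, fun _ _ _ => rfl⟩

private theorem xc_hm_sqrt {m : (Fin 2 → ℂ) → ℝ} (hm : Hm m) : Hm (fun x => Real.sqrt (1 - m x ^ 2)) := by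
  refine ⟨(measurable_const.sub (hm.meas.pow_const 2)).sqrt, ⟨1, fun x => ?_⟩, fun c hc x => ?_⟩
  · rw [abs_of_nonneg (Real.sqrt_nonneg _)]
    exact Real.sqrt_le_iff.2 ⟨zero_le_one, by nlinarith [sq_nonneg (m x)]⟩
  · show Real.sqrt (1 - m (c • x) ^ 2) = _
    rw [hm.hom c hc x]

theorem FibM.mu_norm_le (Ψ : FibM L) {m : (Fin 2 → ℂ) → ℝ} (hm : Hm m) (h1 : ∀ x, |m x| ≤ 1) (f : L) :
    ‖Ψ.mu m f‖ ≤ ‖f‖ := by
  have h := Ψ.sq1 (Finset.univ : Finset Bool)
    (fun b => if b then m else fun x => Real.sqrt (1 - m x ^ 2)) (by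
      intro b _
      cases b
      · simpa using xc_hm_sqrt hm
      · simpa using hm) (by
      intro x _
      have h2 : m x ^ 2 ≤ 1 := (sq_le_one_iff_abs_le_one _).2 (h1 x)
      simp only [Fintype.sum_bool, if_true, Bool.false_eq_true, if_false]
      rw [Real.sq_sqrt (by linarith)]
      ring) f
  simp only [Fintype.sum_bool, if_true, Bool.false_eq_true, if_false] at h
  refine (sq_le_sq₀ (norm_nonneg _) (norm_nonneg _)).1 ?_
  have := sq_nonneg ‖Ψ.mu (fun x => Real.sqrt (1 - m x ^ 2)) f‖
  linarith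

theorem FibM.mu_zero (Ψ : FibM L) (f : L) : Ψ.mu (fun _ => 0) f = 0 := by
  have h1 := Ψ.sq1 ({()} : Finset Unit) (fun _ _ => 1) (fun _ _ => xc_hm_const 1)
    (fun x _ => by simp) f
  have h2 := Ψ.sq1 (Finset.univ : Finset Bool) (fun b => if b then (fun _ => 1) else fun _ => 0) (by
      intro b _
      cases b
      · simpa using xc_hm_const 0
      · simpa using xc_hm_const 1) (fun x _ => by simp) f
  simp only [Finset.sum_singleton] at h1
  simp only [Fintype.sum_bool, if_true, Bool.false_eq_true, if_false] at h2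
  rw [h1] at h2
  have h3 : ‖Ψ.mu (fun _ => 0) f‖ ^ 2 = 0 := by linarith
  exact norm_eq_zero.1 (pow_eq_zero_iff (two_ne_zero)|>.1 h3)

/-- the functions `√(κ (k rot x) t)` for unitary `k` -/
private theorem xc_hm (D : AMd P Q ε) (S : Svd P) {k : M3} (hk : IsU k) (t : G) :
    Hm (fun x => Real.sqrt (D.κ (k * rot x) t)) := by
  classical
  obtain ⟨c, hc, h1⟩ := Svd.iota_one (P := P)
  let S' : Svd P :=
    { kL := fun g => if g = 1 then c • k else S.kL g
      kR := fun g => if g = 1 then k else S.kR g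
      s := fun g => if g = 1 then fun _ => 1 else S.s g
      uL := by
        intro g
        by_cases h : g = 1
        · simpa [h] using hk.smul hc
        · simpa [h] using S.uL g
      uR := by
        intro g
        by_cases h : g = 1
        · simpa [h] using hk
        · simpa [h] using S.uR g
      pos := by
        intro g
        by_cases h : g = 1
        · simp [h]
        · simpa [h] using S.pos g
      le12 := by
        intro g
        by_cases h : g = 1
        · simp [h]
        · simpa [h] using S.le12 g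
      le01 := by
        intro g
        by_cases h : g = 1
        · simp [h]
        · simpa [h] using S.le01 g
      spec := by
        intro g
        by_cases h : g = 1
        · subst h
          simp only [if_true]
          rw [h1]
          have e : (diagonal (fun _ : Fin 3 => ((1 : ℝ) : ℂ)) : M3) = 1 := by
            simp
          rw [e, Matrix.mul_one, Matrix.smul_mul, hk.mul_star]
        · simp only [h, if_false]
          exact S.spec g }
  have h2 := mt_hm D S' 1 t
  have h3 : mt D S' 1 t = fun x => Real.sqrt (D.κ (k * rot x) t) := by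
    funext x
    unfold mt Svd.fr
    simp [S']
  rwa [h3] at h2

private theorem xc_compactU : IsCompact {k : M3 | IsU k} := by
  have h1 : IsCompact (Set.univ.pi fun _ : Fin 3 => (Set.univ.pi fun _ : Fin 3 =>
      Metric.closedBall (0 : ℂ) 2)) :=
    isCompact_univ_pi fun _ => isCompact_univ_pi fun _ => isCompact_closedBall 0 2
  have h2 : IsClosed {k : M3 | IsU k} := by
    have : Continuous fun k : M3 => kᴴ * k := by fun_prop
    exact isClosed_eq this continuous_const
  refine IsCompact.of_isClosed_subset h1 h2 ?_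
  intro k hk
  refine Set.mem_univ_pi.2 fun i => Set.mem_univ_pi.2 fun j => ?_
  rw [mem_closedBall_zero_iff]
  have h3 := norm_apply_sq_le k i j
  have h4 : ns k = 3 := by
    have := ns_unitary_mul hk (1 : M3)
    rw [Matrix.mul_one] at this
    rw [this]
    unfold ns
    simp [Fin.sum_univ_three, Matrix.one_apply]
    norm_num
  rw [h4] at h3
  nlinarith [norm_nonneg (k i j)]

private theorem xc_sqrt_sub {a b : ℝ} (ha : 0 ≤ a) (hb : 0 ≤ b) :
    (Real.sqrt a - Real.sqrt b) ^ 2 ≤ |a - b| := by
  have h1 : a - b = (Real.sqrt a - Real.sqrt b) * (Real.sqrt a + Real.sqrt b) := by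
    have e1 := Real.sq_sqrt ha
    have e2 := Real.sq_sqrt hb
    nlinarith
  have h2 : |Real.sqrt a - Real.sqrt b| ≤ Real.sqrt a + Real.sqrt b := by
    rw [abs_le]
    constructor <;> linarith [Real.sqrt_nonneg a, Real.sqrt_nonneg b]
  rw [h1, abs_mul, ← sq_abs, sq, abs_of_nonneg (add_nonneg (Real.sqrt_nonneg a) (Real.sqrt_nonneg b))]
  exact mul_le_mul_of_nonneg_left h2 (abs_nonneg _)

theorem mt_compact (D : AMd P Q ε) (S : Svd P) (Ψ : FibM L) (t : G) (w : L) :
    ∃ K : Set L, IsCompact K ∧ ∀ γ, Ψ.mu (mt D S γ t) w ∈ K := by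
  by_cases ht : t ∈ D.supp
  · refine ⟨(fun k : M3 => Ψ.mu (fun x => Real.sqrt (D.κ (k * rot x) t)) w) '' {k : M3 | IsU k}, ?_, ?_⟩
    · refine xc_compactU.image_of_continuousOn ?_
      intro k0 hk0
      have hk0' : IsU k0 := hk0
      refine Metric.tendsto_nhds.2 fun e he => ?_
      -- the allowed deviation
      set e1 : ℝ := (e / (‖w‖ + 1)) ^ 2 / 2 with he1
      have hw : 0 < ‖w‖ + 1 := by positivity
      have he1p : 0 < e1 := by positivity
      obtain ⟨d', hd', hn⟩ := D.near e1 he1p
      have hcont : ContinuousAt (fun k : M3 => ns (kᴴ * k0 - 1)) k0 := by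
        have : Continuous fun k : M3 => ns (kᴴ * k0 - 1) := by
          unfold ns
          refine continuous_finsetSum _ fun i _ => continuous_finsetSum _ fun j _ => ?_
          have h5 : Continuous fun k : M3 => (kᴴ * k0 - 1) i j := by
            have : Continuous fun k : M3 => kᴴ * k0 - 1 := by fun_prop
            exact this.matrix_elem i j
          exact h5.norm.pow 2
        exact this.continuousAt
      have hz : ns (k0ᴴ * k0 - 1) = 0 := by
        have : k0ᴴ * k0 = 1 := hk0'
        rw [this, sub_self]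
        simp [ns]
      have hev : ∀ᶠ k in 𝓝[{k : M3 | IsU k}] k0, ns (kᴴ * k0 - 1) < d' ^ 2 := by
        have := hcont.tendsto
        rw [hz] at this
        exact (this.eventually (gt_mem_nhds (by positivity))).filter_mono nhdsWithin_le_nhds
      filter_upwards [hev, self_mem_nhdsWithin] with k hk hkU
      have hkU' : IsU k := hkU
      have hmain : ∀ x : Fin 2 → ℂ, x ≠ 0 →
          (Real.sqrt (D.κ (k * rot x) t) - Real.sqrt (D.κ (k0 * rot x) t)) ^ 2 ≤ e1 := by
        intro x hx
        have hr := rot_unitary hx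
        refine (xc_sqrt_sub (D.nonneg _ _) (D.nonneg _ _)).trans ?_
        have h6 := hn (k * rot x) (k0 * rot x) (hkU'.mul hr) (hk0'.mul hr) (by
          intro i j hij
          have h7 : ((k * rot x)ᴴ * (k0 * rot x)) i j = ((rot x)ᴴ * (kᴴ * k0 - 1) * rot x) i j := by
            have h8 : (rot x)ᴴ * (kᴴ * k0 - 1) * rot x = (k * rot x)ᴴ * (k0 * rot x) - 1 := by
              have hr' : (rot x)ᴴ * rot x = 1 := hr
              rw [Matrix.conjTranspose_mul, Matrix.mul_sub, Matrix.sub_mul, Matrix.mul_one, hr']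
              simp only [Matrix.mul_assoc]
            rw [h8, Matrix.sub_apply, Matrix.one_apply_ne (ne_of_gt hij), sub_zero]
          rw [h7]
          have h9 := norm_apply_sq_le ((rot x)ᴴ * (kᴴ * k0 - 1) * rot x) i j
          rw [ns_mul_unitary hr, ns_unitary_mul hr.star] at h9
          exact abs_le_of_sq_le_sq' (by linarith) hd'.le |>.2)
        exact (Finset.single_le_sum (f := fun t => |D.κ (k * rot x) t - D.κ (k0 * rot x) t|)
          (fun _ _ => abs_nonneg _) ht).trans h6
      have h10 := Ψ.sq2 ({()} : Finset Unit) (fun _ x => Real.sqrt (D.κ (k * rot x) t))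
        (fun _ x => Real.sqrt (D.κ (k0 * rot x) t)) e1 (fun _ _ => xc_hm D S hkU' t)
        (fun _ _ => xc_hm D S hk0' t) (fun x hx => by simpa using hmain x hx) w
      simp only [Finset.sum_singleton] at h10
      rw [dist_eq_norm]
      refine lt_of_pow_lt_pow_left₀ 2 he.le (lt_of_le_of_lt h10 ?_)
      have h11 : ‖w‖ ^ 2 ≤ (‖w‖ + 1) ^ 2 := by
        have := norm_nonneg w
        nlinarith
      calc e1 * ‖w‖ ^ 2 ≤ e1 * (‖w‖ + 1) ^ 2 := mul_le_mul_of_nonneg_left h11 he1p.le
        _ = e ^ 2 / 2 := by rw [he1]; field_simp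
        _ < e ^ 2 := by nlinarith [pow_pos he 2]
    · intro γ
      exact ⟨S.kR γ, S.uR γ, rfl⟩
  · refine ⟨{0}, isCompact_singleton, fun γ => ?_⟩
    have h1 : mt D S γ t = fun _ => 0 := by
      funext x
      unfold mt
      rw [D.off _ _ ht, Real.sqrt_zero]
    rw [h1, Ψ.mu_zero]
    rfl

/-- vectors of `Vp` carried far out in one `W δ` -/
def Vc (S : Svd P) (L : Type) [NormedAddCommGroup L] [InnerProductSpace ℂ L] : Set (UP (Lv G L)) :=
  {ξ | ξ ∈ Vp S (L := L) ∧ ∃ δ : ℝ, 0 < δ ∧ ∀ E : Set G, E.Finite → UP.map (ind L (S.W δ \ E)) ξ = ξ}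

private theorem xc_ind_comp {I : Type} {A B : Set I} (h : A ⊆ B) (L : Type) [NormedAddCommGroup L]
    [InnerProductSpace ℂ L] : (ind L B).comp (ind L A) = ind L A := by
  classical
  refine ContinuousLinearMap.ext fun f => lv_ext fun i => ?_
  rw [ContinuousLinearMap.comp_apply, ind_apply, ind_apply]
  by_cases hi : i ∈ A
  · rw [if_pos (h hi)]
  · rw [if_neg hi, ite_self]

private theorem xc_ind_diff {I : Type} (A E : Set I) (L : Type) [NormedAddCommGroup L]
    [InnerProductSpace ℂ L] : ind L (A \ E) = ind L A - ind L (A ∩ E) := by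
  classical
  refine ContinuousLinearMap.ext fun f => lv_ext fun i => ?_
  have h1 : (ind L A - ind L (A ∩ E)) f i = ind L A f i - ind L (A ∩ E) f i := rfl
  rw [h1, ind_apply, ind_apply, ind_apply]
  by_cases hA : i ∈ A <;> by_cases hE : i ∈ E <;> simp [hA, hE]

private theorem xc_ind_mulF {I : Type} (A : Set I) (w : L) :
    (ind L A).comp (mulF fun _ => w) = (mulF fun _ => w).comp (ind ℂ A) := by
  classical
  refine ContinuousLinearMap.ext fun f => lv_ext fun i => ?_
  rw [ContinuousLinearMap.comp_apply, ContinuousLinearMap.comp_apply, ind_apply,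
    mulF_apply (C := ‖w‖) (fun _ => le_rfl), mulF_apply (C := ‖w‖) (fun _ => le_rfl), ind_apply]
  by_cases hA : i ∈ A <;> simp [hA]

private theorem xc_mono {S : Svd P} {ξ : UP (Lv G L)} {δ δ' : ℝ} (hd : δ' ≤ δ)
    (h : ∀ E : Set G, E.Finite → UP.map (ind L (S.W δ \ E)) ξ = ξ) (E : Set G) (hE : E.Finite) :
    UP.map (ind L (S.W δ' \ E)) ξ = ξ := by
  have h1 := h E hE
  calc UP.map (ind L (S.W δ' \ E)) ξ = UP.map (ind L (S.W δ' \ E)) (UP.map (ind L (S.W δ \ E)) ξ) := by
        rw [h1]
    _ = UP.map ((ind L (S.W δ' \ E)).comp (ind L (S.W δ \ E))) ξ := (UP.map_comp _ _ _).symm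
    _ = UP.map (ind L (S.W δ \ E)) ξ := by
        rw [xc_ind_comp (Set.sdiff_subset_sdiff_left (S.W_mono hd))]
    _ = ξ := h1

/-- `Vc` as a submodule -/
private def VcS (S : Svd P) (L : Type) [NormedAddCommGroup L] [InnerProductSpace ℂ L] :
    Submodule ℂ (UP (Lv G L)) where
  carrier := Vc S L
  add_mem' := by
    rintro a b ⟨ha, δ, hδ, h1⟩ ⟨hb, δ', hδ', h2⟩
    refine ⟨Submodule.add_mem _ ha hb, min δ δ', lt_min hδ hδ', fun E hE => ?_⟩
    rw [map_add, xc_mono (min_le_left δ δ') h1 E hE, xc_mono (min_le_right δ δ') h2 E hE]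
  zero_mem' := ⟨Submodule.zero_mem _, 1, one_pos, fun E _ => map_zero _⟩
  smul_mem' := by
    rintro c a ⟨ha, δ, hδ, h1⟩
    refine ⟨Submodule.smul_mem _ c ha, δ, hδ, fun E hE => ?_⟩
    rw [map_smul, h1 E hE]

theorem carrier (S : Svd P) {ξ : UP (Lv G L)} (hξ : ξ ∈ Vp S (L := L)) : ξ ∈ closure (Vc S L) := by
  have hle : Vp S (L := L) ≤ (VcS S L).topologicalClosure := by
    refine Submodule.topologicalClosure_minimal _ ?_ (Submodule.isClosed_topologicalClosure _)
    rw [Submodule.span_le]
    rintro η ⟨w, a, ha, rfl⟩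
    have hle2 : Ua S ≤ ((VcS S L).topologicalClosure).comap
        (UP.map (mulF fun _ => w) : UP (L2 G) →L[ℂ] UP (Lv G L)).toLinearMap := by
      refine Submodule.topologicalClosure_minimal _ ?_ ?_
      · rw [Submodule.span_le]
        rintro b ⟨hb, δ, hδ, h1⟩
        refine Submodule.le_topologicalClosure _ ?_
        have hbU : b ∈ Ua S := Submodule.le_topologicalClosure _ (Submodule.subset_span ⟨hb, δ, hδ, h1⟩)
        refine ⟨Submodule.le_topologicalClosure _ (Submodule.subset_span ⟨w, b, hbU, rfl⟩), δ, hδ, ?_⟩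
        intro E hE
        have h2 : UP.map (ind ℂ (S.W δ \ E)) b = b := by
          rw [xc_ind_diff, UP.map_sub, h1, hb _ (hE.subset Set.inter_subset_right), sub_zero]
        show UP.map (ind L (S.W δ \ E)) (UP.map (mulF fun _ => w) b) = UP.map (mulF fun _ => w) b
        rw [← UP.map_comp, xc_ind_mulF, UP.map_comp, h2]
      · exact (Submodule.isClosed_topologicalClosure (VcS S L)).preimage
          (UP.map (mulF fun _ => w) : UP (L2 G) →L[ℂ] UP (Lv G L)).continuous
    exact hle2 ha
  have h := hle hξ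
  rw [← SetLike.mem_coe, Submodule.topologicalClosure_coe] at h
  exact h

end Pool.Agent.Helper84.NI
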