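import Pool.Agent.Helper84.NI.XC
import Pool.Agent.Helper84.NI.WE

/-!
# Project NI, block XD: the approximation property of the wall space

PROOF. Given `Q`, `ε`, take `D : AMd P Q (ε^2)`, `Mhat t = dg (γ ↦ Ψ.mu (mt D S γ t))` on `Lv G L` for `t ∈ D.supp`, `0` otherwise (for `t ∉ supp` the function `mt` is `0` and `mu 0 = 0`, `mu_zero`, so the formula is
the same). `M t` = restriction of `UP.map (Mhat t)` to `Vp S`.
(1) `M t` preserves `Vp`: on generators `UP.map (Mhat t) (UP.map (mulF (const w)) a) = UP.map (mulF (γ ↦ mu (mt γ t) w)) a`, `map_mulF_mem`, `mt_compact`.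
(2) `∑_{t ∈ supp} ‖M t ξ‖^2 = ‖ξ‖^2`: `UP.sum_sq_eq`, coordinatewise `sq1`, `mt_sum`.
(3) `M t (AV g ξ) = AV g (M t ξ)`: on generators: `mulF F1`, `mulF F2` of the same `a'` (`what_gen`), `F1 γ = mu (mt γ t) (π(C) w)`, `F2 γ = π(C) (mu (mt (g⁻¹γ) t) w) = mu (x ↦ mt (g⁻¹γ) t (C⁻¹ x)) (π(C) w)`
(`equi`, `C = C_{g,1}(γ)` invertible eventually); `‖F1 γ - F2 γ‖^2 ≤ ε' ‖w‖^2` eventually (`sq2` with one index; `x = C y`, `mt_left`), so `map_mulF_zero`.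
(4) for `h ∈ Q`: `(Mhat t (What 1 h ξ) - What 1 h (Mhat (h⁻¹t) ξ)) γ = [mu (mt γ t) - mu (x ↦ mt (γh) (h⁻¹t) (C⁻¹ x))] (π(C) ξ(γh))`, `C = C_{1,h}(γ)`; by `sq2` and `mt_right` the sum over `t ∈ S'` of the
squares of the norms is `≤ ε^2 ‖ξ(γh)‖^2` for `γ ∈ W δ` outside a finite set. For `ξ ∈ Vc`: insert `ind L (W δ' ∖ E')` (`tendsto_shift`/`W_shift`: `γ h ∈ W δ' ` implies `γ ∈ W (c δ')`), apply `UP.sum_sq_le` to the operators
composed with `ind`. Then `carrier` and continuity for all `ξ ∈ Vp`.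
-/

set_option autoImplicit false

open Filter Topology Matrix

namespace Pool.Agent.Helper84.NI

open GVN

section Aux

variable {G : Type} [Group G] {P : PHom G} {L : Type} [NormedAddCommGroup L] [InnerProductSpace ℂ L]
  {Q : Finset G} {ε : ℝ}

private theorem xd_hm0 : Hm (fun _ => 0) where
  meas := measurable_const
  bdd := ⟨0, fun _ => by simp⟩
  hom := fun _ _ _ => rfl

private theorem xd_hm_comp {m : (Fin 2 → ℂ) → ℝ} (hm : Hm m) (C : M2) :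
    Hm (fun x => m (C *ᵥ x)) where
  meas := by
    have h : Continuous fun x : Fin 2 → ℂ => C *ᵥ x := by fun_prop
    exact hm.meas.comp h.measurable
  bdd := by
    obtain ⟨b, hb⟩ := hm.bdd
    exact ⟨b, fun x => hb _⟩
  hom := fun c hc x => by
    rw [Matrix.mulVec_smul]
    exact hm.hom c hc _

private theorem xd_mt_zero (D : AMd P Q ε) (S : Svd P) (γ : G) {t : G} (ht : t ∉ D.supp) :
    mt D S γ t = fun _ => 0 := by
  funext x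
  unfold mt
  rw [D.off _ _ ht, Real.sqrt_zero]

private theorem xd_mu_le (D : AMd P Q ε) (S : Svd P) (Ψ : FibM L) (γ t : G) (f : L) :
    ‖Ψ.mu (mt D S γ t) f‖ ≤ 1 * ‖f‖ := by
  by_cases ht : t ∈ D.supp
  · have h := Ψ.sq2 {t} (fun t => mt D S γ t) (fun _ _ => 0) 1 (fun t _ => mt_hm D S γ t)
      (fun _ _ => xd_hm0) (fun x hx => by
        rw [Finset.sum_singleton, sub_zero, ← mt_sum D S γ x hx]
        exact Finset.single_le_sum (f := fun t => mt D S γ t x ^ 2) (fun _ _ => sq_nonneg _) ht) f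
    rw [Finset.sum_singleton, Ψ.mu_zero, sub_zero, one_mul] at h
    rw [one_mul]
    exact (sq_le_sq₀ (norm_nonneg _) (norm_nonneg _)).1 h
  · rw [xd_mt_zero D S γ ht, Ψ.mu_zero, norm_zero, one_mul]
    exact norm_nonneg _

/-- the multipliers on `ℓ²(G; L)` -/
private noncomputable def xdM (D : AMd P Q ε) (S : Svd P) (Ψ : FibM L) (t : G) :
    Lv G L →L[ℂ] Lv G L := dg fun γ => Ψ.mu (mt D S γ t)

private theorem xdM_apply (D : AMd P Q ε) (S : Svd P) (Ψ : FibM L) (t : G) (f : Lv G L) (γ : G) :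
    xdM D S Ψ t f γ = Ψ.mu (mt D S γ t) (f γ) :=
  dg_apply (C := 1) (fun γ f => xd_mu_le D S Ψ γ t f) f γ

private theorem xdM_zero (D : AMd P Q ε) (S : Svd P) (Ψ : FibM L) {t : G} (ht : t ∉ D.supp) :
    xdM D S Ψ t = 0 := by
  refine ContinuousLinearMap.ext fun f => lv_ext fun γ => ?_
  rw [xdM_apply, xd_mt_zero D S γ ht, Ψ.mu_zero]
  rfl

private theorem xdM_mulF (D : AMd P Q ε) (S : Svd P) (Ψ : FibM L) (t : G) {F : G → L} {C : ℝ}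
    (hC : ∀ γ, ‖F γ‖ ≤ C) (a : UP (L2 G)) :
    UP.map (xdM D S Ψ t) (UP.map (mulF F) a) =
      UP.map (mulF fun γ => Ψ.mu (mt D S γ t) (F γ)) a := by
  rw [← UP.map_comp]
  have h : (xdM D S Ψ t).comp (mulF F) = mulF fun γ => Ψ.mu (mt D S γ t) (F γ) := by
    refine ContinuousLinearMap.ext fun f => lv_ext fun γ => ?_
    rw [ContinuousLinearMap.comp_apply, xdM_apply, mulF_apply hC, mulF_apply (C := C), map_smul]
    intro γ
    refine (xd_mu_le D S Ψ γ t _).trans ?_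
    rw [one_mul]
    exact hC γ
  rw [h]

private theorem xdW_mulF (S : Svd P) (Φ : Fib L) (g h : G) {F : G → L} {C : ℝ}
    (hC : ∀ γ, ‖F γ‖ ≤ C) (a : UP (L2 G)) :
    UP.mapU (What S Φ g h) (UP.map (mulF F) a) =
      UP.map (mulF fun γ => Φ.π (S.C g h γ) (F (g⁻¹ * γ * h)))
        (UP.map ((permV (tr g h) : Lv G ℂ ≃ₗᵢ[ℂ] Lv G ℂ).toContinuousLinearEquiv : L2 G →L[ℂ] L2 G) a) := by
  rw [UP.mapU_apply, ← UP.map_comp, ← UP.map_comp]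
  have e : ((What S Φ g h).toContinuousLinearEquiv : Lv G L →L[ℂ] Lv G L).comp (mulF F) =
      (mulF fun γ => Φ.π (S.C g h γ) (F (g⁻¹ * γ * h))).comp
        ((permV (tr g h) : Lv G ℂ ≃ₗᵢ[ℂ] Lv G ℂ).toContinuousLinearEquiv : L2 G →L[ℂ] L2 G) := by
    refine ContinuousLinearMap.ext fun f => lv_ext fun γ => ?_
    rw [ContinuousLinearMap.comp_apply, ContinuousLinearMap.comp_apply]
    change What S Φ g h (mulF F f) γ = mulF (fun γ => Φ.π (S.C g h γ) (F (g⁻¹ * γ * h)))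
      (permV (tr g h) f) γ
    rw [What_apply, mulF_apply hC, mulF_apply (C := C), map_smul, permV_tr]
    intro γ
    rw [LinearIsometryEquiv.norm_map]
    exact hC _
  rw [e]

private theorem xd_eqOn (S : Svd P) {T T' : UP (Lv G L) →L[ℂ] UP (Lv G L)}
    (h : ∀ (w : L) (a : UP (L2 G)), a ∈ Ua S →
      T (UP.map (mulF fun _ => w) a) = T' (UP.map (mulF fun _ => w) a))
    {ξ : UP (Lv G L)} (hξ : ξ ∈ Vp S (L := L)) : T ξ = T' ξ := by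
  have hle : Vp S (L := L) ≤ LinearMap.eqLocus (T : UP (Lv G L) →ₗ[ℂ] UP (Lv G L)) T' := by
    refine Submodule.topologicalClosure_minimal _ (Submodule.span_le.2 ?_) ?_
    · rintro _ ⟨w, a, ha, rfl⟩
      exact h w a ha
    · exact isClosed_eq T.continuous T'.continuous
  exact hle hξ

private theorem xd_mapsTo (S : Svd P) {T : UP (Lv G L) →L[ℂ] UP (Lv G L)}
    (h : ∀ (w : L) (a : UP (L2 G)), a ∈ Ua S → T (UP.map (mulF fun _ => w) a) ∈ Vp S (L := L))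
    {ξ : UP (Lv G L)} (hξ : ξ ∈ Vp S (L := L)) : T ξ ∈ Vp S (L := L) := by
  have hle : Vp S (L := L) ≤ (Vp S (L := L)).comap (T : UP (Lv G L) →ₗ[ℂ] UP (Lv G L)) := by
    refine Submodule.topologicalClosure_minimal _ (Submodule.span_le.2 ?_) ?_
    · rintro _ ⟨w, a, ha, rfl⟩
      exact h w a ha
    · exact (Submodule.isClosed_topologicalClosure _).preimage T.continuous
  exact hle hξ

private theorem xdM_mem (D : AMd P Q ε) (S : Svd P) (Ψ : FibM L) (t : G) {ξ : UP (Lv G L)}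
    (hξ : ξ ∈ Vp S (L := L)) : UP.map (xdM D S Ψ t) ξ ∈ Vp S (L := L) := by
  refine xd_mapsTo S (fun w a ha => ?_) hξ
  rw [xdM_mulF D S Ψ t (C := ‖w‖) (fun _ => le_rfl)]
  obtain ⟨K, hK, hK'⟩ := mt_compact D S Ψ t w
  refine map_mulF_mem S (C := ‖w‖) (fun γ => ?_) (fun δ _ => ⟨K, hK, Eventually.of_forall hK'⟩) ha
  refine (xd_mu_le D S Ψ γ t _).trans ?_
  rw [one_mul]

private theorem xdM_sum (D : AMd P Q ε) (S : Svd P) (Ψ : FibM L) (x : Lv G L) :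
    ∑ t ∈ D.supp, ‖xdM D S Ψ t x‖ ^ 2 = ‖x‖ ^ 2 := by
  have h1 : HasSum (fun γ => ∑ t ∈ D.supp, ‖xdM D S Ψ t x γ‖ ^ 2)
      (∑ t ∈ D.supp, ‖xdM D S Ψ t x‖ ^ 2) := hasSum_sum fun t _ => lv_hasSum (xdM D S Ψ t x)
  have h2 : (fun γ => ∑ t ∈ D.supp, ‖xdM D S Ψ t x γ‖ ^ 2) = fun γ => ‖x γ‖ ^ 2 := by
    funext γ
    simp only [xdM_apply]
    exact Ψ.sq1 D.supp (fun t => mt D S γ t) (fun t _ => mt_hm D S γ t)
      (fun x hx => mt_sum D S γ x hx) (x γ)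
  rw [h2] at h1
  exact h1.unique (lv_hasSum x)

private theorem xd_point (D : AMd P Q ε) (S : Svd P) (Ψ : FibM L) {γ γ' : G} {C : M2}
    (hC : C.det ≠ 0) (s : Finset G) (k : G → G) {a : ℝ}
    (h : ∀ y : Fin 2 → ℂ, y ≠ 0 →
      ∑ t ∈ s, (mt D S γ t (C *ᵥ y) - mt D S γ' (k t) y) ^ 2 ≤ a) (v : L) :
    ∑ t ∈ s, ‖Ψ.mu (mt D S γ t) (Ψ.Φ.π C v) - Ψ.Φ.π C (Ψ.mu (mt D S γ' (k t)) v)‖ ^ 2 ≤
      a * ‖v‖ ^ 2 := by
  have hu : IsUnit C.det := isUnit_iff_ne_zero.2 hC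
  have h1 := Ψ.sq2 s (fun t => mt D S γ t) (fun t x => mt D S γ' (k t) (C⁻¹ *ᵥ x)) a
    (fun t _ => mt_hm D S γ t) (fun t _ => xd_hm_comp (mt_hm D S γ' (k t)) C⁻¹) (fun x hx => by
      have e1 : C *ᵥ (C⁻¹ *ᵥ x) = x := by
        rw [Matrix.mulVec_mulVec, Matrix.mul_nonsing_inv _ hu, Matrix.one_mulVec]
      have h2 := h (C⁻¹ *ᵥ x) (by
        intro h0
        rw [h0, Matrix.mulVec_zero] at e1
        exact hx e1.symm)
      rw [e1] at h2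
      exact h2) (Ψ.Φ.π C v)
  rw [LinearIsometryEquiv.norm_map] at h1
  refine le_trans (le_of_eq ?_) h1
  refine Finset.sum_congr rfl fun t _ => ?_
  rw [Ψ.equi _ C (mt_hm D S γ' (k t)) hC v]

private theorem xd_det (S : Svd P) (g h : G) {δ : ℝ} (hδ : 0 < δ) :
    ∀ᶠ γ in S.at' δ, (S.C g h γ).det ≠ 0 := by
  obtain ⟨R, r, hr, hc⟩ := S.C_compact g h
  filter_upwards [hc δ hδ] with γ hγ
  exact Kc_det hr hγ

omit [Group G] in
private theorem xd_mulF_sub {F F' : G → L} {C C' : ℝ} (hC : ∀ γ, ‖F γ‖ ≤ C)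
    (hC' : ∀ γ, ‖F' γ‖ ≤ C') : mulF F - mulF F' = mulF fun γ => F γ - F' γ := by
  refine ContinuousLinearMap.ext fun f => lv_ext fun γ => ?_
  rw [mulF_apply (C := C + C') (fun γ => (norm_sub_le _ _).trans (add_le_add (hC γ) (hC' γ))),
    smul_sub, ← mulF_apply hC, ← mulF_apply hC']
  rfl

private theorem xdM_comm (D : AMd P Q ε) (S : Svd P) (Ψ : FibM L) (t g : G) {ξ : UP (Lv G L)}
    (hξ : ξ ∈ Vp S (L := L)) :
    UP.map (xdM D S Ψ t) (UP.mapU (What S Ψ.Φ g 1) ξ) =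
      UP.mapU (What S Ψ.Φ g 1) (UP.map (xdM D S Ψ t) ξ) := by
  refine xd_eqOn S (T := (UP.map (xdM D S Ψ t)).comp
      ((UP.mapU (What S Ψ.Φ g 1)).toContinuousLinearEquiv : UP (Lv G L) →L[ℂ] UP (Lv G L)))
    (T' := ((UP.mapU (What S Ψ.Φ g 1)).toContinuousLinearEquiv :
      UP (Lv G L) →L[ℂ] UP (Lv G L)).comp (UP.map (xdM D S Ψ t))) (fun w a ha => ?_) hξ
  change UP.map (xdM D S Ψ t) (UP.mapU (What S Ψ.Φ g 1) (UP.map (mulF fun _ => w) a)) =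
    UP.mapU (What S Ψ.Φ g 1) (UP.map (xdM D S Ψ t) (UP.map (mulF fun _ => w) a))
  have hb : ∀ γ : G, ‖Ψ.mu (mt D S γ t) w‖ ≤ ‖w‖ := fun γ => by
    have := xd_mu_le D S Ψ γ t w
    rwa [one_mul] at this
  have hb1 : ∀ γ : G, ‖Ψ.mu (mt D S γ t) (Ψ.Φ.π (S.C g 1 γ) w)‖ ≤ ‖w‖ := fun γ => by
    have := xd_mu_le D S Ψ γ t (Ψ.Φ.π (S.C g 1 γ) w)
    rwa [one_mul, LinearIsometryEquiv.norm_map] at this
  have hb2 : ∀ γ : G, ‖Ψ.Φ.π (S.C g 1 γ) (Ψ.mu (mt D S (g⁻¹ * γ * 1) t) w)‖ ≤ ‖w‖ := fun γ => by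
    rw [LinearIsometryEquiv.norm_map]
    exact hb _
  rw [xdW_mulF S Ψ.Φ g 1 (C := ‖w‖) (fun _ => le_rfl), xdM_mulF D S Ψ t (C := ‖w‖) (fun γ => by
      rw [LinearIsometryEquiv.norm_map]), xdM_mulF D S Ψ t (C := ‖w‖) (fun _ => le_rfl),
    xdW_mulF S Ψ.Φ g 1 hb, ← sub_eq_zero, ← UP.map_sub, xd_mulF_sub hb1 hb2]
  refine map_mulF_zero S (C := ‖w‖ + ‖w‖)
    (fun γ => (norm_sub_le _ _).trans (add_le_add (hb1 γ) (hb2 γ))) (fun δ hδ => ?_)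
    (perm_mem_Ua S g 1 ha)
  rw [NormedAddGroup.tendsto_nhds_zero]
  intro e he
  have hw : 0 < 4 * (‖w‖ ^ 2 + 1) := by positivity
  have he' : 0 < e ^ 2 / (4 * (‖w‖ ^ 2 + 1)) := by positivity
  filter_upwards [mt_left D S g hδ he', xd_det S g 1 hδ] with γ h1 h2
  by_cases ht : t ∈ D.supp
  · have h3 := xd_point D S Ψ h2 D.supp (fun t => t) h1 w
    have h4 := Finset.single_le_sum (f := fun t => ‖Ψ.mu (mt D S γ t) (Ψ.Φ.π (S.C g 1 γ) w) -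
      Ψ.Φ.π (S.C g 1 γ) (Ψ.mu (mt D S (g⁻¹ * γ * 1) t) w)‖ ^ 2) (fun _ _ => sq_nonneg _) ht
    have h5 : e ^ 2 / (4 * (‖w‖ ^ 2 + 1)) * ‖w‖ ^ 2 < e ^ 2 := by
      rw [div_mul_eq_mul_div, div_lt_iff₀ hw]
      nlinarith [sq_nonneg ‖w‖, pow_pos he 2]
    exact lt_of_pow_lt_pow_left₀ 2 he.le (lt_of_le_of_lt (h4.trans h3) h5)
  · rw [xd_mt_zero D S γ ht, xd_mt_zero D S _ ht, Ψ.mu_zero, Ψ.mu_zero, map_zero, sub_zero,
      norm_zero]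
    exact he

/-- the defect of the equivariance on the right -/
private noncomputable def xdT (D : AMd P Q ε) (S : Svd P) (Ψ : FibM L) (h t : G) :
    Lv G L →L[ℂ] Lv G L :=
  (xdM D S Ψ t).comp ((What S Ψ.Φ 1 h).toContinuousLinearEquiv : Lv G L →L[ℂ] Lv G L) -
    ((What S Ψ.Φ 1 h).toContinuousLinearEquiv : Lv G L →L[ℂ] Lv G L).comp (xdM D S Ψ (h⁻¹ * t))

private theorem xdT_apply (D : AMd P Q ε) (S : Svd P) (Ψ : FibM L) (h t : G) (f : Lv G L) (γ : G) :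
    xdT D S Ψ h t f γ = Ψ.mu (mt D S γ t) (Ψ.Φ.π (S.C 1 h γ) (f (1⁻¹ * γ * h))) -
      Ψ.Φ.π (S.C 1 h γ) (Ψ.mu (mt D S (1⁻¹ * γ * h) (h⁻¹ * t)) (f (1⁻¹ * γ * h))) := by
  change xdM D S Ψ t (What S Ψ.Φ 1 h f) γ - What S Ψ.Φ 1 h (xdM D S Ψ (h⁻¹ * t) f) γ = _
  rw [xdM_apply, What_apply, What_apply, xdM_apply]

private theorem xdT_map (D : AMd P Q ε) (S : Svd P) (Ψ : FibM L) (h t : G) (ξ : UP (Lv G L)) :
    UP.map (xdT D S Ψ h t) ξ = UP.map (xdM D S Ψ t) (UP.mapU (What S Ψ.Φ 1 h) ξ) -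
      UP.mapU (What S Ψ.Φ 1 h) (UP.map (xdM D S Ψ (h⁻¹ * t)) ξ) := by
  unfold xdT
  rw [UP.map_sub, UP.map_comp, UP.map_comp, UP.mapU_apply, UP.mapU_apply]

omit [Group G] in
private theorem xd_ind_le (A : Set G) (x : Lv G L) : ‖ind L A x‖ ≤ ‖x‖ := by
  refine (sq_le_sq₀ (norm_nonneg _) (norm_nonneg _)).1 ?_
  refine hasSum_le (fun γ => ?_) (lv_hasSum (ind L A x)) (lv_hasSum x)
  rw [ind_apply]
  split_ifs
  · exact le_rfl
  · rw [norm_zero, zero_pow two_ne_zero]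
    exact sq_nonneg _

private theorem xdT_bound (D : AMd P Q ε) (hε : 0 ≤ ε) (S : Svd P) (Ψ : FibM L) {h : G} (hh : h ∈ Q)
    {δ : ℝ} (hδ : 0 < δ) : ∃ E : Set G, E.Finite ∧ ∀ (x : Lv G L) (s : Finset G),
      ∑ t ∈ s, ‖xdT D S Ψ h t (ind L (S.W δ \ E) x)‖ ^ 2 ≤ ε * ‖x‖ ^ 2 := by
  obtain ⟨c, hc, hsh⟩ := S.W_shift 1 h⁻¹
  have hcδ : 0 < c * δ := mul_pos hc hδ
  have hev : ∀ᶠ γ in S.at' (c * δ), (S.C 1 h γ).det ≠ 0 ∧ ∀ y : Fin 2 → ℂ, y ≠ 0 → ∀ s : Finset G,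
      ∑ t ∈ s, (mt D S γ t (S.C 1 h γ *ᵥ y) - mt D S (1⁻¹ * γ * h) (h⁻¹ * t) y) ^ 2 ≤ ε := by
    filter_upwards [xd_det S 1 h hcδ, mt_right D S hh hcδ] with γ h1 h2
    exact ⟨h1, h2⟩
  rw [Svd.at', Filter.eventually_inf_principal, Filter.eventually_cofinite] at hev
  set E1 : Set G := {γ | ¬ (γ ∈ S.W (c * δ) → (S.C 1 h γ).det ≠ 0 ∧
    ∀ y : Fin 2 → ℂ, y ≠ 0 → ∀ s : Finset G,
      ∑ t ∈ s, (mt D S γ t (S.C 1 h γ *ᵥ y) - mt D S (1⁻¹ * γ * h) (h⁻¹ * t) y) ^ 2 ≤ ε)} with hE1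
  refine ⟨(fun γ => 1⁻¹ * γ * h) '' E1, hev.image _, fun x s => ?_⟩
  set E : Set G := (fun γ => 1⁻¹ * γ * h) '' E1 with hE
  set y : Lv G L := ind L (S.W δ \ E) x with hy
  -- pointwise estimate
  have hpt : ∀ γ, ∑ t ∈ s, ‖xdT D S Ψ h t y γ‖ ^ 2 ≤ ε * ‖y (1⁻¹ * γ * h)‖ ^ 2 := by
    intro γ
    by_cases hγ : 1⁻¹ * γ * h ∈ S.W δ \ E
    · have h1 : γ ∈ S.W (c * δ) := by
        have := hsh δ hδ _ hγ.1
        simpa using this
      have h2 : γ ∉ E1 := fun h' => hγ.2 ⟨γ, h', rfl⟩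
      have h3 := not_not.1 h2 h1
      have h4 := xd_point D S Ψ h3.1 s (fun t => h⁻¹ * t) (fun z hz => h3.2 z hz s)
        (y (1⁻¹ * γ * h))
      refine le_trans (le_of_eq ?_) h4
      refine Finset.sum_congr rfl fun t _ => ?_
      rw [xdT_apply]
    · have h0 : y (1⁻¹ * γ * h) = 0 := by
        rw [hy, ind_apply, if_neg hγ]
      have h1 : ∑ t ∈ s, ‖xdT D S Ψ h t y γ‖ ^ 2 = 0 := by
        refine Finset.sum_eq_zero fun t _ => ?_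
        rw [xdT_apply, h0, map_zero, map_zero, map_zero, map_zero, sub_zero, norm_zero]
        norm_num
      rw [h1, h0, norm_zero]
      norm_num
  have s1 : HasSum (fun γ => ∑ t ∈ s, ‖xdT D S Ψ h t y γ‖ ^ 2)
      (∑ t ∈ s, ‖xdT D S Ψ h t y‖ ^ 2) := hasSum_sum fun t _ => lv_hasSum (xdT D S Ψ h t y)
  have s2 : HasSum (fun γ => ε * ‖y (1⁻¹ * γ * h)‖ ^ 2) (ε * ‖y‖ ^ 2) := by
    have e1 : HasSum (fun γ => ‖permV (tr 1 h) y γ‖ ^ 2) (‖permV (tr 1 h) y‖ ^ 2) :=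
      lv_hasSum (permV (tr 1 h) y)
    rw [LinearIsometryEquiv.norm_map] at e1
    exact e1.mul_left ε
  have s3 : ‖y‖ ≤ ‖x‖ := xd_ind_le _ x
  refine (hasSum_le hpt s1 s2).trans ?_
  exact mul_le_mul_of_nonneg_left (pow_le_pow_left₀ (norm_nonneg _) s3 2) hε

private theorem xdT_main (D : AMd P Q ε) (hε : 0 ≤ ε) (S : Svd P) (Ψ : FibM L) {h : G} (hh : h ∈ Q)
    (s : Finset G) {ξ : UP (Lv G L)} (hξ : ξ ∈ Vp S (L := L)) :
    ∑ t ∈ s, ‖UP.map (xdT D S Ψ h t) ξ‖ ^ 2 ≤ ε * ‖ξ‖ ^ 2 := by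
  have hcl : IsClosed {ξ : UP (Lv G L) | ∑ t ∈ s, ‖UP.map (xdT D S Ψ h t) ξ‖ ^ 2 ≤ ε * ‖ξ‖ ^ 2} :=
    isClosed_le (by fun_prop) (by fun_prop)
  refine closure_minimal ?_ hcl (carrier S hξ)
  rintro η ⟨-, δ, hδ, hη⟩
  obtain ⟨E, hE, hb⟩ := xdT_bound D hε S Ψ hh hδ
  have h1 := UP.sum_sq_le s (fun t => (xdT D S Ψ h t).comp (ind L (S.W δ \ E)))
    (C := ε) (fun x => hb x s) η
  change ∑ t ∈ s, ‖UP.map (xdT D S Ψ h t) η‖ ^ 2 ≤ ε * ‖η‖ ^ 2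
  refine le_trans (le_of_eq ?_) h1
  refine Finset.sum_congr rfl fun t _ => ?_
  rw [UP.map_comp, hη E hE]

end Aux

variable {G : Type} [Group G] {P : PHom G} {L : Type} [NormedAddCommGroup L] [InnerProductSpace ℂ L]
  [CompleteSpace L]

theorem apx_V (S : Svd P) (Ψ : FibM L) : Apx (AV S Ψ.Φ) (BV S Ψ.Φ) := by
  intro Q ε hε
  obtain ⟨D⟩ := exists_AMd P Q (pow_pos hε 2)
  let M : G → (Vp S (L := L) →L[ℂ] Vp S (L := L)) := fun t =>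
    ((UP.map (xdM D S Ψ t)).comp (Vp S (L := L)).subtypeL).codRestrict (Vp S (L := L))
      (fun x => xdM_mem D S Ψ t x.2)
  have hM : ∀ t (x : Vp S (L := L)), (M t x : UP (Lv G L)) = UP.map (xdM D S Ψ t) x :=
    fun t x => rfl
  refine ⟨D.supp, M, ?_, ?_, ?_, ?_⟩
  · intro t g x
    apply Subtype.ext
    rw [hM, coe_AV, coe_AV, hM]
    exact xdM_comm D S Ψ t g x.2
  · intro t ht
    refine ContinuousLinearMap.ext fun x => Subtype.ext ?_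
    rw [hM, xdM_zero D S Ψ ht, UP.map_zero]
    rfl
  · intro x
    exact UP.sum_sq_eq D.supp (fun t => xdM D S Ψ t) (xdM_sum D S Ψ) (x : UP (Lv G L))
  · intro h hh x S'
    have h1 := xdT_main D (sq_nonneg ε) S Ψ hh S' x.2
    refine le_trans (le_of_eq ?_) h1
    refine Finset.sum_congr rfl fun t _ => ?_
    rw [xdT_map]
    rfl

end Pool.Agent.Helper84.NI
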