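import Pool.Agent.Helper84.NI.ZA
import Pool.Agent.Helper84.NI.RB
import Pool.Agent.Helper84.NI.XD
import Pool.Agent.Helper84.NI.WH
import Pool.Agent.Helper84.NI.F4
import Pool.Agent.Helper84.NI.GA
import Pool.Agent.Helper84.NI.GA2
import Pool.Agent.Helper84.GVN.Factor

/-!
# Project NI: the core theorem
-/

set_option autoImplicit false

open Filter Topology

namespace Pool.Agent.Helper84.NI

open GVN

variable {G Λ : Type} [Group G] [Group Λ] {P : PHom G}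

theorem no_wall [Infinite Λ] {Q : Finset Λ} {κ : ℝ} (hK : IsKazhdanPair Λ (Q : Set Λ) κ) (S : Svd P)
    {E : Emb Λ G} {ζ : UP (L2 G)} (hζ : IsCV (Alim G) (Blim G) E ζ) (hz : ζ ∈ Uz G) {δ : ℝ} (hδ : 0 < δ) :
    UP.map (ind ℂ (S.W δ)) ζ = 0 := by
  by_contra hne
  have h1 : IsCV (AU S) (BU S) E (Ppr S ζ) := hζ.map (norm_Ppr S) (Ppr_A S) (Ppr_B S)
  have h2 : Ppr S ζ ≠ 0 := Ppr_ne_zero S hz hδ hne
  obtain ⟨L, i1, i2, i3, ⟨Ψ⟩⟩ := exists_fib_B
  obtain ⟨η, h3, h4, h5, h6⟩ := wall_central S Ψ h1 h2 hK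
  exact no_central hK (comm2_V S Ψ.Φ) h3 h4 h5 h6 (apx_V S Ψ)

theorem Ur_proj (S : Svd P) {T : UP (L2 G) ≃ₗᵢ[ℂ] UP (L2 G)} (h1 : ∀ x ∈ Ur S, T x ∈ Ur S)
    (h2 : ∀ x ∈ Ur S, T.symm x ∈ Ur S) (a : UP (L2 G)) :
    (((Ur S).orthogonalProjectionOnto (T a) : Ur S) : UP (L2 G)) =
      T ((Ur S).orthogonalProjectionOnto a : Ur S) :=
  proj_comm T h1 h2 a

theorem core [Infinite Λ] {Q : Finset Λ} {κ : ℝ} (hK : IsKazhdanPair Λ (Q : Set Λ) κ) (P : PHom G)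
    (E : Emb Λ G) (w : ℕ → (L2 G ≃ₗᵢ[ℂ] L2 G)) (hw : ∀ n, CommR (w n))
    (hc : ∀ n l f, w n (E.U l f) = E.U l (w n f))
    (h0 : ∀ g, Tendsto (fun n => cf (w n) g) atTop (𝓝 0)) : False := by
  obtain ⟨S⟩ := nonempty_svd P
  have hζ := zet_cv hw E hc
  have hz := zet_Uz h0
  have hr : zet w ∈ Ur S := by
    refine ⟨hz, fun δ hδ => ⟨no_wall hK S hζ hz hδ, ?_⟩⟩
    rw [← S.W_dual δ]
    exact no_wall hK S.dual hζ hz hδ
  let T : UP (L2 G) →L[ℂ] Ur S := (Ur S).orthogonalProjectionOnto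
  have hT : ‖T‖ ≤ 1 := Submodule.orthogonalProjectionOnto_norm_le (Ur S)
  have hA : ∀ g x, T (Alim G g x) = AR S g (T x) := by
    intro g x
    apply Subtype.ext
    refine Ur_proj S (T := Alim G g) (fun y hy => Alim_mem_Ur S g y hy) (fun y hy => ?_) x
    have h1 : (Alim G g).symm y = Alim G g⁻¹ y := by
      rw [map_inv]
      rfl
    rw [h1]
    exact Alim_mem_Ur S g⁻¹ y hy
  have hB : ∀ g x, T (Blim G g x) = BR S g (T x) := by
    intro g x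
    apply Subtype.ext
    refine Ur_proj S (T := Blim G g) (fun y hy => Blim_mem_Ur S g y hy) (fun y hy => ?_) x
    have h1 : (Blim G g).symm y = Blim G g⁻¹ y := by
      rw [map_inv]
      rfl
    rw [h1]
    exact Blim_mem_Ur S g⁻¹ y hy
  have h1 : IsCV (AR S) (BR S) E (T (zet w)) := hζ.map hT hA hB
  have h2 : T (zet w) ≠ 0 := by
    intro h
    have h3 : ((T (zet w) : Ur S) : UP (L2 G)) = zet w :=
      Submodule.starProjection_eq_self_iff.2 hr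
    rw [h] at h3
    have h4 := norm_zet w
    rw [← h3] at h4
    simp at h4
  exact no_central hK (comm2_R S) h2 h1.bA.mem_VB h1.bB h1.cen (apx_R S)

end Pool.Agent.Helper84.NI
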